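import Pool.Agent.Run7.h367.ACov
import Mathlib.RingTheory.Polynomial.GaussLemma
import Mathlib.RingTheory.Polynomial.IntegralNormalization
import Mathlib.RingTheory.Polynomial.UniqueFactorization
import Mathlib.FieldTheory.Separable
import Mathlib.RingTheory.PrincipalIdealDomain
import Mathlib.Algebra.Polynomial.FieldDivision

/-!
Polynomials in two variables: coprimality, regular points, lifting.
-/

set_option autoImplicit false

open Set Filter Topology Metric

namespace Run7.h367.SF

theorem cop_field {K : Type*} [Field K] {p q : Polynomial K} (hp : Irreducible p)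
    (h : ¬ p ∣ q) : IsCoprime p q := hp.coprime_iff_not_dvd.2 h

theorem bez {P Q : Polynomial (Polynomial ℂ)} (hP : Irreducible P) (hn : P.natDegree ≠ 0)
    (h : ¬ P ∣ Q) : ∃ (A B : Polynomial (Polynomial ℂ)) (R : Polynomial ℂ), R ≠ 0 ∧
      A * P + B * Q = Polynomial.C R := by
  classical
  let _ : NormalizedGCDMonoid (Polynomial ℂ) :=
    UniqueFactorizationMonoid.toNormalizedGCDMonoid (Polynomial ℂ)
  obtain ⟨f, hf⟩ : ∃ f : Polynomial ℂ →+* FractionRing (Polynomial ℂ),
    f = algebraMap (Polynomial ℂ) (FractionRing (Polynomial ℂ)) := ⟨_, rfl⟩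
  have hinj : Function.Injective f := by
    rw [hf]
    exact IsFractionRing.injective _ _
  have hprim : P.IsPrimitive := hP.isPrimitive hn
  have hirr : Irreducible (P.map f) := by
    rw [hf]
    exact (hprim.irreducible_iff_irreducible_map_fraction_map
      (K := FractionRing (Polynomial ℂ))).1 hP
  have hnd : ¬ P.map f ∣ Q.map f := by
    rintro ⟨g, hg⟩
    apply h
    have h1 : P.map f * g ∈ Polynomial.lifts f := ⟨Q, hg⟩
    rw [hf] at h1
    have h2 := (hprim.map_mul_mem_lifts_iff (K := FractionRing (Polynomial ℂ))).1 h1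
    obtain ⟨g', hg'⟩ := h2
    refine ⟨g', ?_⟩
    apply Polynomial.map_injective f hinj
    rw [Polynomial.map_mul, hg, ← hg', hf]
    rfl
  obtain ⟨a, b, hab⟩ := cop_field hirr hnd
  -- clear denominators
  have hclear : ∀ a : Polynomial (FractionRing (Polynomial ℂ)), ∃ (r : Polynomial ℂ)
      (a' : Polynomial (Polynomial ℂ)), r ≠ 0 ∧ a'.map f = Polynomial.C (f r) * a := by
    intro a
    obtain ⟨r, hrm, hr⟩ := IsLocalization.integerNormalization_spec
      (nonZeroDivisors (Polynomial ℂ)) a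
    refine ⟨r, IsLocalization.integerNormalization (nonZeroDivisors (Polynomial ℂ)) a,
      nonZeroDivisors.ne_zero hrm, ?_⟩
    rw [hf]
    rw [hr]
    ext i
    simp [Algebra.smul_def]
  obtain ⟨r1, a', hr1, ha'⟩ := hclear a
  obtain ⟨r2, b', hr2, hb'⟩ := hclear b
  refine ⟨Polynomial.C r2 * a', Polynomial.C r1 * b', r1 * r2, mul_ne_zero hr1 hr2, ?_⟩
  apply Polynomial.map_injective f hinj
  rw [Polynomial.map_add, Polynomial.map_mul, Polynomial.map_mul, Polynomial.map_mul,
    Polynomial.map_mul, ha', hb', Polynomial.map_C, Polynomial.map_C, Polynomial.map_C, map_mul,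
    Polynomial.C_mul]
  linear_combination (Polynomial.C (f r1) * Polynomial.C (f r2)) * hab

/-- an irreducible polynomial is not divisible by a polynomial of smaller degree in `w` -/
theorem deriv_bez {P : Polynomial (Polynomial ℂ)} (hP : Irreducible P) (hn : P.natDegree ≠ 0) :
    ∃ (A B : Polynomial (Polynomial ℂ)) (R : Polynomial ℂ), R ≠ 0 ∧
      A * P + B * P.derivative = Polynomial.C R := by
  apply bez hP hn
  intro h
  have h0 : P.derivative ≠ 0 := by
    intro h0
    have := Polynomial.derivative_eq_zero.1 h0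
    exact hn this
  have h1 := Polynomial.natDegree_le_of_dvd h h0
  have h2 := Polynomial.natDegree_derivative_lt hn
  omega

/-- the bad points -/
theorem bad_exists {P : Polynomial (Polynomial ℂ)} (hP : Irreducible P) (hn : P.natDegree ≠ 0) :
    ∃ Z : Set ℂ, Z.Finite ∧ ∀ z ∉ Z, P.leadingCoeff.eval z ≠ 0 ∧
      ∀ w, P.evalEval z w = 0 → P.derivative.evalEval z w ≠ 0 := by
  obtain ⟨A, B, R, hR, h⟩ := deriv_bez hP hn
  have hA : P.leadingCoeff ≠ 0 := Polynomial.leadingCoeff_ne_zero.2 hP.ne_zero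
  have hfin : (((R * P.leadingCoeff).roots.toFinset : Finset ℂ) : Set ℂ).Finite :=
    Finset.finite_toSet _
  refine ⟨_, hfin, fun z hz => ?_⟩
  rw [Finset.mem_coe, Multiset.mem_toFinset, Polynomial.mem_roots (mul_ne_zero hR hA),
    Polynomial.IsRoot, Polynomial.eval_mul, mul_eq_zero, not_or] at hz
  refine ⟨hz.2, fun w hw hd => hz.1 ?_⟩
  have h1 := congrArg (Polynomial.evalEval z w) h
  rw [Polynomial.evalEval_add, Polynomial.evalEval_mul, Polynomial.evalEval_mul, hw, hd, mul_zero,
    mul_zero, add_zero, Polynomial.evalEval_C] at h1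
  exact h1.symm

/-- regular points -/
def RegPt (P : Polynomial (Polynomial ℂ)) (z : ℂ) : Prop := P.leadingCoeff.eval z ≠ 0 ∧
  ∀ w, P.evalEval z w = 0 → P.derivative.evalEval z w ≠ 0

theorem norm_ev (P : Polynomial (Polynomial ℂ)) (hn : P.natDegree ≠ 0) (z w : ℂ) :
    P.integralNormalization.evalEval z (P.leadingCoeff.eval z * w) =
      P.leadingCoeff.eval z ^ (P.natDegree - 1) * P.evalEval z w := by
  have h := Polynomial.integralNormalization_eval₂_leadingCoeff_mul (p := P)
    (Nat.one_le_iff_ne_zero.2 hn) (Polynomial.evalRingHom z) w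
  rw [Polynomial.eval₂_evalRingHom] at h
  simpa using h

theorem norm_ev_deriv (P : Polynomial (Polynomial ℂ)) (hn : P.natDegree ≠ 0) (z w : ℂ) :
    P.leadingCoeff.eval z *
      P.integralNormalization.derivative.evalEval z (P.leadingCoeff.eval z * w) =
      P.leadingCoeff.eval z ^ (P.natDegree - 1) * P.derivative.evalEval z w := by
  obtain ⟨a, ha⟩ : ∃ a : ℂ, a = P.leadingCoeff.eval z := ⟨_, rfl⟩
  have h1 := ev_deriv P.integralNormalization z (a * w)
  have h2 : HasDerivAt (fun w => a * w) a w := by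
    simpa using (hasDerivAt_id w).const_mul a
  have h3 := h1.comp w h2
  have h4 := (ev_deriv P z w).const_mul (a ^ (P.natDegree - 1))
  have h5 : ((fun w => P.integralNormalization.evalEval z w) ∘ fun w => a * w) =
      fun w => a ^ (P.natDegree - 1) * P.evalEval z w := by
    funext w
    simp only [Function.comp_apply]
    rw [ha]
    exact norm_ev P hn z w
  rw [h5] at h3
  have h6 := h3.unique h4
  rw [← ha, mul_comm]
  exact h6

theorem plift (P : Polynomial (Polynomial ℂ)) (hn : P.natDegree ≠ 0)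
    {U : Set ℂ} (hUo : IsOpen U) (hUc : Convex ℝ U) {g : ℂ → ℂ} (hg : DifferentiableOn ℂ g U)
    (hreg : ∀ t ∈ U, RegPt P (g t)) {t0 w0 : ℂ} (ht0 : t0 ∈ U) (hw0 : P.evalEval (g t0) w0 = 0) :
    ∃ G : ℂ → ℂ, DifferentiableOn ℂ G U ∧ G t0 = w0 ∧ ∀ t ∈ U, P.evalEval (g t) (G t) = 0 := by
  have hP0 : P ≠ 0 := by
    rintro rfl
    exact hn rfl
  have hdeg : P.integralNormalization.natDegree = P.natDegree := by
    refine Polynomial.natDegree_eq_of_le_of_coeff_ne_zero ?_ ?_
    · refine Polynomial.natDegree_le_iff_coeff_eq_zero.2 fun i hi => ?_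
      rw [Polynomial.integralNormalization_coeff_ne_natDegree hi.ne',
        Polynomial.coeff_eq_zero_of_natDegree_lt hi, zero_mul]
    · rw [Polynomial.integralNormalization_coeff_natDegree hP0]
      exact one_ne_zero
  obtain ⟨G, hG, hG0, hGe⟩ := root_lift P.integralNormalization
    (Polynomial.monic_integralNormalization hP0) (by rw [hdeg]; exact hn) hUo hUc hg
    (fun t ht w hw hd => by
      obtain ⟨h1, h2⟩ := hreg t ht
      obtain ⟨w', rfl⟩ : ∃ w', w = P.leadingCoeff.eval (g t) * w' :=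
        ⟨w / P.leadingCoeff.eval (g t), by field_simp⟩
      have h3 := norm_ev P hn (g t) w'
      have h4 := norm_ev_deriv P hn (g t) w'
      rw [hw] at h3
      rw [hd, mul_zero] at h4
      have h5 := (mul_eq_zero.1 h3.symm).resolve_left (pow_ne_zero _ h1)
      have h6 := (mul_eq_zero.1 h4.symm).resolve_left (pow_ne_zero _ h1)
      exact h2 w' h5 h6) ht0 (w0 := P.leadingCoeff.eval (g t0) * w0) (by
      rw [norm_ev P hn, hw0, mul_zero])
  have hA : DifferentiableOn ℂ (fun t => P.leadingCoeff.eval (g t)) U :=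
    P.leadingCoeff.differentiable.comp_differentiableOn hg
  refine ⟨fun t => G t / P.leadingCoeff.eval (g t), hG.div hA fun t ht => (hreg t ht).1, ?_,
    fun t ht => ?_⟩
  · simp only
    rw [hG0, mul_div_cancel_left₀ _ (hreg t0 ht0).1]
  · have h1 := norm_ev P hn (g t) (G t / P.leadingCoeff.eval (g t))
    rw [mul_div_cancel₀ _ (hreg t ht).1, hGe t ht] at h1
    exact (mul_eq_zero.1 h1.symm).resolve_left (pow_ne_zero _ (hreg t ht).1)

theorem puniq (P : Polynomial (Polynomial ℂ)) {U : Set ℂ} (hUo : IsOpen U)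
    (hUc : IsPreconnected U) {g G1 G2 : ℂ → ℂ} (hg : DifferentiableOn ℂ g U)
    (hreg : ∀ t ∈ U, RegPt P (g t))
    (h1 : DifferentiableOn ℂ G1 U) (h2 : DifferentiableOn ℂ G2 U)
    (e1 : ∀ t ∈ U, P.evalEval (g t) (G1 t) = 0) (e2 : ∀ t ∈ U, P.evalEval (g t) (G2 t) = 0)
    {t0 : ℂ} (ht0 : t0 ∈ U) (h0 : G1 t0 = G2 t0) : EqOn G1 G2 U :=
  root_uniq P hUo hUc hg (fun t ht => (hreg t ht).2) h1 h2 e1 e2 ht0 h0

end Run7.h367.SF
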