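import Pool.Agent.Run7.h367.AAlg
import Mathlib.Analysis.Complex.AbsMax
import Mathlib.Analysis.Analytic.Polynomial

/-!
Annihilating polynomials, orders of zeros.
-/

set_option autoImplicit false

open Set Filter Topology Metric

namespace Run7.h367.SF

theorem ev_differentiableOn (P : Polynomial (Polynomial ℂ)) {S : Set ℂ} {g h : ℂ → ℂ}
    (hg : DifferentiableOn ℂ g S) (hh : DifferentiableOn ℂ h S) :
    DifferentiableOn ℂ (fun v => P.evalEval (g v) (h v)) S := by
  have h1 : Differentiable ℂ fun x : ℂ × ℂ => P.evalEval x.1 x.2 :=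
    (ev_contDiff P).differentiable (by simp)
  exact h1.comp_differentiableOn (hg.prodMk hh)

/-- an irreducible factor annihilates -/
theorem irr_factor {S : Set ℂ} (hSo : IsOpen S) (hSc : IsPreconnected S) (hSn : S.Nonempty)
    {g h : ℂ → ℂ} (hg : DifferentiableOn ℂ g S) (hh : DifferentiableOn ℂ h S)
    (Q : Polynomial (Polynomial ℂ)) : Q ≠ 0 → (∀ v ∈ S, Q.evalEval (g v) (h v) = 0) →
    ∃ P : Polynomial (Polynomial ℂ), Irreducible P ∧ P ∣ Q ∧
      ∀ v ∈ S, P.evalEval (g v) (h v) = 0 := by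
  induction Q using WfDvdMonoid.induction_on_irreducible with
  | zero => intro h0; exact absurd rfl h0
  | unit u hu =>
    intro _ hz
    exfalso
    obtain ⟨v, hv⟩ := hSn
    have h1 := hu.map (Polynomial.evalEvalRingHom (g v) (h v))
    rw [Polynomial.coe_evalEvalRingHom, hz v hv] at h1
    exact not_isUnit_zero h1
  | mul a i ha hi ih =>
    intro _ hz
    have h1 := AnalyticOnNhd.eq_zero_or_eq_zero_of_mul_eq_zero
      ((ev_differentiableOn i hg hh).analyticOnNhd hSo)
      ((ev_differentiableOn a hg hh).analyticOnNhd hSo) (fun v hv => by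
        have := hz v hv
        rw [Polynomial.evalEval_mul] at this
        exact this) hSc
    rcases h1 with h1 | h1
    · exact ⟨i, hi, dvd_mul_right i a, h1⟩
    · obtain ⟨P, hP, hPa, hPz⟩ := ih ha h1
      exact ⟨P, hP, hPa.mul_left i, hPz⟩

theorem natDegree_pos_of_ann {P : Polynomial (Polynomial ℂ)} (hP : P ≠ 0) {S : Set ℂ}
    {g h : ℂ → ℂ} (hinf : (g '' S).Infinite) (hz : ∀ v ∈ S, P.evalEval (g v) (h v) = 0) :
    P.natDegree ≠ 0 := by
  intro h0
  obtain ⟨p, hp⟩ := Polynomial.natDegree_eq_zero.1 h0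
  rw [← hp] at hz
  have hp0 : p ≠ 0 := by
    rintro rfl
    rw [Polynomial.C_0] at hp
    exact hP hp.symm
  apply hinf
  refine (Finset.finite_toSet p.roots.toFinset).subset ?_
  rintro _ ⟨v, hv, rfl⟩
  rw [Finset.mem_coe, Multiset.mem_toFinset, Polynomial.mem_roots hp0, Polynomial.IsRoot]
  have := hz v hv
  rwa [Polynomial.evalEval_C] at this

theorem dvd_of_ann {P Q : Polynomial (Polynomial ℂ)} (hP : Irreducible P) (hn : P.natDegree ≠ 0)
    {S : Set ℂ} {g h : ℂ → ℂ} (hinf : (g '' S).Infinite)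
    (hz : ∀ v ∈ S, P.evalEval (g v) (h v) = 0) (hQ : ∀ v ∈ S, Q.evalEval (g v) (h v) = 0) :
    P ∣ Q := by
  by_contra hcon
  obtain ⟨A, B, R, hR, hAB⟩ := bez hP hn hcon
  apply hinf
  refine (Finset.finite_toSet R.roots.toFinset).subset ?_
  rintro _ ⟨v, hv, rfl⟩
  rw [Finset.mem_coe, Multiset.mem_toFinset, Polynomial.mem_roots hR, Polynomial.IsRoot]
  have h1 := congrArg (Polynomial.evalEval (g v) (h v)) hAB
  rw [Polynomial.evalEval_add, Polynomial.evalEval_mul, Polynomial.evalEval_mul, hz v hv, hQ v hv,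
    mul_zero, mul_zero, add_zero, Polynomial.evalEval_C] at h1
  exact h1.symm

/-- a polynomial with given small roots is small near them -/
theorem fac_bound {p : Polynomial ℂ} {q : ℕ} {v : ℕ → ℂ} {M : ℝ} (hv : ∀ k < q, ‖v k‖ ≤ 1)
    (hr : ∀ k < q, p.eval (v k) = 0) (hinj : ∀ k < q, ∀ l < q, v k = v l → k = l)
    (hM : ∀ u ∈ sphere (0 : ℂ) 2, ‖p.eval u‖ ≤ M) {u : ℂ} (hu : u ∈ closedBall (0 : ℂ) 2) :
    ‖p.eval u‖ ≤ M * ∏ k ∈ Finset.range q, ‖u - v k‖ := by
  have hdvd : (∏ k ∈ Finset.range q, (Polynomial.X - Polynomial.C (v k))) ∣ p := by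
    refine Finset.prod_dvd_of_coprime (fun a ha b hb hab => ?_) fun k hk => ?_
    · have ha' := Finset.mem_range.1 (Finset.mem_coe.1 ha)
      have hb' := Finset.mem_range.1 (Finset.mem_coe.1 hb)
      have h1 : v a - v b ≠ 0 := sub_ne_zero.2 fun h => hab (hinj a ha' b hb' h)
      exact Polynomial.isCoprime_X_sub_C_of_isUnit_sub (isUnit_iff_ne_zero.2 h1)
    · exact Polynomial.dvd_iff_isRoot.2 (hr k (Finset.mem_range.1 hk))
  obtain ⟨s, hs⟩ := hdvd
  have hev : ∀ u, p.eval u = (∏ k ∈ Finset.range q, (u - v k)) * s.eval u := by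
    intro u
    rw [hs, Polynomial.eval_mul, Polynomial.eval_prod]
    simp
  have hsM : ∀ u ∈ sphere (0 : ℂ) 2, ‖s.eval u‖ ≤ M := by
    intro u hu
    have h1 := hM u hu
    rw [hev, norm_mul, norm_prod] at h1
    have h2 : 1 ≤ ∏ k ∈ Finset.range q, ‖u - v k‖ := by
      rw [← Finset.prod_const_one (ι := ℕ) (s := Finset.range q)]
      refine Finset.prod_le_prod (fun _ _ => zero_le_one) fun k hk => ?_
      have h3 := hv k (Finset.mem_range.1 hk)
      have h4 : ‖u‖ = 2 := by simpa using hu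
      have h5 := norm_sub_norm_le u (v k)
      linarith
    have h6 : 0 ≤ ‖s.eval u‖ := norm_nonneg _
    nlinarith
  have hbd : ‖s.eval u‖ ≤ M := by
    have h1 := Complex.norm_le_of_forall_mem_frontier_norm_le (U := ball (0 : ℂ) 2)
      (f := fun u => s.eval u) isBounded_ball (s.differentiable.diffContOnCl) (C := M)
      (fun z hz => by
        rw [frontier_ball (0 : ℂ) (by norm_num)] at hz
        exact hsM z hz) (z := u) (by rw [closure_ball (0 : ℂ) (by norm_num)]; exact hu)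
    exact h1
  rw [hev, norm_mul, norm_prod, mul_comm]
  exact mul_le_mul_of_nonneg_right hbd (Finset.prod_nonneg fun k _ => norm_nonneg _)

/-- divisibility by powers from estimates -/
theorem dvd_of_small {f : Polynomial ℂ} {z0 : ℂ} {m : ℕ} {K T : ℝ}
    (h : ∀ t : ℂ, t.re ≤ T → ‖f.eval (z0 + Complex.exp t)‖ ≤ K * Real.exp (m * t.re)) :
    (Polynomial.X - Polynomial.C z0) ^ m ∣ f := by
  by_cases hf : f = 0
  · rw [hf]
    exact dvd_zero _
  obtain ⟨f1, hf1, hnd⟩ := Polynomial.exists_eq_pow_rootMultiplicity_mul_and_not_dvd f hf z0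
  obtain ⟨μ, hμ⟩ : ∃ μ : ℕ, μ = f.rootMultiplicity z0 := ⟨_, rfl⟩
  rw [← hμ] at hf1
  by_contra hcon
  have hlt : μ < m := by
    by_contra h1
    rw [not_lt] at h1
    apply hcon
    rw [hf1]
    exact (pow_dvd_pow _ h1).mul_right _
  apply hnd
  rw [Polynomial.dvd_iff_isRoot, Polynomial.IsRoot]
  have hb : ∀ t : ℂ, t.re ≤ T → ‖f1.eval (z0 + Complex.exp t)‖ ≤ K * Real.exp ((m - μ) * t.re) := by
    intro t ht
    have h1 := h t ht
    rw [hf1, Polynomial.eval_mul, Polynomial.eval_pow, Polynomial.eval_sub, Polynomial.eval_X,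
      Polynomial.eval_C, add_sub_cancel_left, norm_mul, norm_pow, Complex.norm_exp,
      ← Real.exp_nat_mul] at h1
    have h2 : Real.exp ((m : ℝ) * t.re) = Real.exp (μ * t.re) * Real.exp ((m - μ) * t.re) := by
      rw [← Real.exp_add]
      congr 1
      ring
    rw [h2, ← mul_assoc, mul_comm K, mul_assoc] at h1
    exact le_of_mul_le_mul_left h1 (Real.exp_pos _)
  have hmμ : (0 : ℝ) < m - μ := by
    have : (μ : ℝ) < m := by exact_mod_cast hlt
    linarith
  have h1 : Tendsto (fun x : ℝ => K * Real.exp ((m - μ) * x)) atBot (𝓝 0) := by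
    have h2 : Tendsto (fun x : ℝ => (m - μ : ℝ) * x) atBot atBot :=
      tendsto_id.const_mul_atBot hmμ
    have h3 := (Real.tendsto_exp_atBot.comp h2).const_mul K
    rw [mul_zero] at h3
    exact h3
  have h2 : Tendsto (fun x : ℝ => f1.eval (z0 + Complex.exp (x : ℂ))) atBot (𝓝 0) := by
    refine squeeze_zero_norm' ?_ h1
    filter_upwards [eventually_le_atBot T] with x hx
    have := hb (x : ℂ) (by rwa [Complex.ofReal_re])
    rwa [Complex.ofReal_re] at this
  have h3 : Tendsto (fun x : ℝ => f1.eval (z0 + Complex.exp (x : ℂ))) atBot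
      (𝓝 (f1.eval (z0 + 0))) := by
    refine (f1.continuous.tendsto _).comp ?_
    refine tendsto_const_nhds.add ?_
    rw [tendsto_zero_iff_norm_tendsto_zero]
    have h4 : (fun x : ℝ => ‖Complex.exp (x : ℂ)‖) = Real.exp := by
      funext x
      rw [Complex.norm_exp, Complex.ofReal_re]
    rw [h4]
    exact Real.tendsto_exp_atBot
  rw [add_zero] at h3
  exact tendsto_nhds_unique h3 h2

end Run7.h367.SF
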