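import Mathlib.Analysis.Complex.CoveringMap
import Mathlib.Topology.Homotopy.Lifting
import Mathlib.Algebra.Polynomial.Bivariate
import Mathlib.Analysis.Calculus.InverseFunctionTheorem.ContDiff
import Mathlib.Analysis.Complex.CauchyIntegral
import Mathlib.Analysis.Convex.Contractible

/-!
Roots of a monic polynomial with variable coefficients form a covering.
-/

set_option autoImplicit false

open Set Filter Topology Metric

namespace Run7.h367.SF

/-- evaluation -/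
theorem ev_sum (Q : Polynomial (Polynomial ℂ)) (z w : ℂ) : Q.evalEval z w =
    ∑ i ∈ Finset.range (Q.natDegree + 1), (Q.coeff i).eval z * w ^ i := by
  have h : Polynomial.eval (Polynomial.C w) Q = ∑ i ∈ Finset.range (Q.natDegree + 1),
      Q.coeff i * Polynomial.C w ^ i := Polynomial.eval_eq_sum_range _
  rw [Polynomial.evalEval, h, Polynomial.eval_finsetSum]
  refine Finset.sum_congr rfl fun i _ => ?_
  rw [Polynomial.eval_mul, Polynomial.eval_pow, Polynomial.eval_C]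

theorem ev_contDiff (Q : Polynomial (Polynomial ℂ)) :
    ContDiff ℂ ⊤ (fun x : ℂ × ℂ => Q.evalEval x.1 x.2) := by
  simp only [ev_sum]
  refine ContDiff.sum fun i _ => ?_
  refine ContDiff.mul ?_ (contDiff_snd.pow i)
  have h : ContDiff ℂ ⊤ fun z : ℂ => (Q.coeff i).eval z := by
    exact (Polynomial.differentiable _).contDiff
  exact h.comp contDiff_fst

theorem ev_deriv (Q : Polynomial (Polynomial ℂ)) (z w : ℂ) :
    HasDerivAt (fun w => Q.evalEval z w) (Q.derivative.evalEval z w) w := by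
  have h := (Q.map (Polynomial.evalRingHom z)).hasDerivAt w
  rw [Polynomial.derivative_map, Polynomial.map_evalRingHom_eval] at h
  simpa [Polynomial.map_evalRingHom_eval] using h

/-- the map `(z, w) ↦ (z, Q (z, w))` -/
noncomputable def Ph (Q : Polynomial (Polynomial ℂ)) (x : ℂ × ℂ) : ℂ × ℂ :=
  (x.1, Q.evalEval x.1 x.2)

theorem ph_cont (Q : Polynomial (Polynomial ℂ)) : Continuous (Ph Q) :=
  continuous_fst.prodMk (ev_contDiff Q).continuous

/-- the derivative is invertible where the derivative in the second variable is not zero -/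
theorem ph_strict (Q : Polynomial (Polynomial ℂ)) (x : ℂ × ℂ)
    (hx : Q.derivative.evalEval x.1 x.2 ≠ 0) :
    ∃ L : (ℂ × ℂ) ≃L[ℂ] (ℂ × ℂ), HasStrictFDerivAt (Ph Q) (L : (ℂ × ℂ) →L[ℂ] (ℂ × ℂ)) x := by
  obtain ⟨F, hF⟩ : ∃ F : ℂ × ℂ → ℂ, F = fun x => Q.evalEval x.1 x.2 := ⟨_, rfl⟩
  have hFs : HasStrictFDerivAt F (fderiv ℂ F x) x := by
    rw [hF]
    exact (ev_contDiff Q).contDiffAt.hasStrictFDerivAt (by simp)
  obtain ⟨L, hL⟩ : ∃ L : ℂ × ℂ →L[ℂ] ℂ, L = fderiv ℂ F x := ⟨_, rfl⟩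
  rw [← hL] at hFs
  obtain ⟨β, hβ⟩ : ∃ β : ℂ, β = L (0, 1) := ⟨_, rfl⟩
  have hβ0 : β ≠ 0 := by
    have h1 : HasDerivAt (fun w => F (x.1, w)) β x.2 := by
      have h2 : HasDerivAt (fun w : ℂ => (x.1, w)) ((0 : ℂ), (1 : ℂ)) x.2 :=
        (hasDerivAt_const x.2 x.1).prodMk (hasDerivAt_id x.2)
      have h3 := hFs.hasFDerivAt.comp_hasDerivAt x.2 (f := fun w : ℂ => (x.1, w)) h2
      rw [hβ]
      exact h3
    have h4 : HasDerivAt (fun w => F (x.1, w)) (Q.derivative.evalEval x.1 x.2) x.2 := by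
      rw [hF]
      exact ev_deriv Q x.1 x.2
    rw [h1.unique h4]
    exact hx
  have hLdec : ∀ y : ℂ × ℂ, L y = L (y.1, 0) + y.2 * β := by
    intro y
    rw [hβ]
    have h1 : y = (y.1, 0) + y.2 • ((0 : ℂ), (1 : ℂ)) := by
      ext <;> simp
    conv_lhs => rw [h1]
    rw [map_add, map_smul, smul_eq_mul]
  obtain ⟨T, hT⟩ : ∃ T : ℂ × ℂ →L[ℂ] ℂ × ℂ, T = (ContinuousLinearMap.fst ℂ ℂ ℂ).prod L :=
    ⟨_, rfl⟩
  obtain ⟨S, hS⟩ : ∃ S : ℂ × ℂ →L[ℂ] ℂ × ℂ, S = (ContinuousLinearMap.fst ℂ ℂ ℂ).prod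
      (β⁻¹ • (ContinuousLinearMap.snd ℂ ℂ ℂ -
        L.comp ((ContinuousLinearMap.fst ℂ ℂ ℂ).prod 0))) := ⟨_, rfl⟩
  have h1 : Function.LeftInverse S T := by
    intro y
    rw [hS, hT]
    ext
    · simp
    · simp only [ContinuousLinearMap.prod_apply, ContinuousLinearMap.coe_fst',
        ContinuousLinearMap.smul_apply, ContinuousLinearMap.sub_apply,
        ContinuousLinearMap.coe_snd', ContinuousLinearMap.comp_apply,
        ContinuousLinearMap.zero_apply, smul_eq_mul]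
      rw [hLdec y]
      field_simp
      ring
  have h2 : Function.RightInverse S T := by
    intro y
    rw [hS, hT]
    ext
    · simp
    · simp only [ContinuousLinearMap.prod_apply, ContinuousLinearMap.coe_fst',
        ContinuousLinearMap.smul_apply, ContinuousLinearMap.sub_apply,
        ContinuousLinearMap.coe_snd', ContinuousLinearMap.comp_apply,
        ContinuousLinearMap.zero_apply, smul_eq_mul]
      rw [hLdec]
      field_simp
      ring
  refine ⟨ContinuousLinearEquiv.equivOfInverse T S h1 h2, ?_⟩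
  have h3 : HasStrictFDerivAt (Ph Q) ((ContinuousLinearMap.fst ℂ ℂ ℂ).prod L) x := by
    have h4 := hasStrictFDerivAt_fst (𝕜 := ℂ) (p := x)
    have h5 := h4.prodMk hFs
    rw [hF] at h5
    exact h5
  rw [← hT] at h3
  exact h3

/-- roots of monic polynomials are bounded -/
theorem monic_bound (Q : Polynomial (Polynomial ℂ)) (hQ : Q.Monic) (hn : Q.natDegree ≠ 0) (R : ℝ) :
    ∃ M : ℝ, ∀ z w : ℂ, ‖z‖ ≤ R → ‖Q.evalEval z w‖ ≤ R → ‖w‖ ≤ M := by
  obtain ⟨n, hnd⟩ : ∃ n : ℕ, Q.natDegree = n + 1 := ⟨Q.natDegree - 1, by omega⟩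
  have hb : ∀ i : ℕ, ∃ B : ℝ, ∀ z ∈ closedBall (0 : ℂ) R, ‖(Q.coeff i).eval z‖ ≤ B := fun i =>
    (isCompact_closedBall (0 : ℂ) R).exists_bound_of_continuousOn
      (Q.coeff i).continuous.continuousOn
  choose B hB using hb
  obtain ⟨S, hS⟩ : ∃ S : ℝ, S = R + ∑ i ∈ Finset.range (n + 1), |B i| := ⟨_, rfl⟩
  refine ⟨max 1 S, fun z w hz hw => ?_⟩
  by_contra hcon
  rw [not_le, max_lt_iff] at hcon
  obtain ⟨h1, h2⟩ := hcon
  have hw0 : 0 < ‖w‖ := by linarith
  have hz' : z ∈ closedBall (0 : ℂ) R := by rwa [mem_closedBall_zero_iff]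
  have hR : 0 ≤ R := (norm_nonneg z).trans hz
  have e1 : w ^ (n + 1) = Q.evalEval z w -
      ∑ i ∈ Finset.range (n + 1), (Q.coeff i).eval z * w ^ i := by
    rw [ev_sum, hnd, Finset.sum_range_succ]
    have : Q.coeff (n + 1) = 1 := by rw [← hnd]; exact hQ
    rw [this, Polynomial.eval_one]
    ring
  have e2 : ‖w‖ ^ (n + 1) ≤ S * ‖w‖ ^ n := by
    calc ‖w‖ ^ (n + 1) = ‖w ^ (n + 1)‖ := (norm_pow w (n + 1)).symm
      _ ≤ ‖Q.evalEval z w‖ + ‖∑ i ∈ Finset.range (n + 1), (Q.coeff i).eval z * w ^ i‖ := by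
          rw [e1]
          exact norm_sub_le _ _
      _ ≤ R + ∑ i ∈ Finset.range (n + 1), |B i| * ‖w‖ ^ n := by
          refine add_le_add hw ?_
          refine (norm_sum_le _ _).trans (Finset.sum_le_sum fun i hi => ?_)
          rw [norm_mul, norm_pow]
          have h3 : ‖w‖ ^ i ≤ ‖w‖ ^ n :=
            pow_le_pow_right₀ h1.le (Nat.lt_succ_iff.1 (Finset.mem_range.1 hi))
          have h4 := (hB i z hz').trans (le_abs_self _)
          exact mul_le_mul h4 h3 (by positivity) (abs_nonneg _)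
      _ ≤ R * ‖w‖ ^ n + ∑ i ∈ Finset.range (n + 1), |B i| * ‖w‖ ^ n := by
          have : (1 : ℝ) ≤ ‖w‖ ^ n := one_le_pow₀ h1.le
          nlinarith
      _ = S * ‖w‖ ^ n := by rw [hS, add_mul, Finset.sum_mul]
  rw [pow_succ, mul_comm (‖w‖ ^ n)] at e2
  have e3 := le_of_mul_le_mul_right e2 (by positivity : (0 : ℝ) < ‖w‖ ^ n)
  linarith

/-- for a monic polynomial the map is closed -/
theorem ph_closed (Q : Polynomial (Polynomial ℂ)) (hQ : Q.Monic) (hn : Q.natDegree ≠ 0) :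
    IsClosedMap (Ph Q) := by
  have hp : IsProperMap (Ph Q) := by
    rw [isProperMap_iff_isCompact_preimage]
    refine ⟨ph_cont Q, fun K hK => ?_⟩
    refine isCompact_of_isClosed_isBounded (hK.isClosed.preimage (ph_cont Q)) ?_
    obtain ⟨R, hR⟩ := hK.isBounded.exists_norm_le
    obtain ⟨M, hM⟩ := monic_bound Q hQ hn R
    refine isBounded_iff_forall_norm_le.2 ⟨max R M, fun x hx => ?_⟩
    have h1 := hR _ hx
    rw [Ph, Prod.norm_mk, max_le_iff] at h1
    have h2 := hM x.1 x.2 h1.1 h1.2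
    rw [Prod.norm_def]
    exact max_le_max h1.1 h2
  exact hp.isClosedMap

/-- regular values -/
def Reg (Q : Polynomial (Polynomial ℂ)) : Set (ℂ × ℂ) :=
  {y | ∀ x, Ph Q x = y → Q.derivative.evalEval x.1 x.2 ≠ 0}

theorem ph_cov (Q : Polynomial (Polynomial ℂ)) (hQ : Q.Monic) (hn : Q.natDegree ≠ 0) :
    IsCoveringMapOn (Ph Q) (Reg Q) := by
  refine (ph_closed Q hQ hn).isCoveringMapOn_of_isLocalHomeomorphOn (fun y _ => ?_) fun x hx => ?_
  · -- finite fibres
    obtain ⟨p, hp⟩ : ∃ p : Polynomial ℂ, p = Q.map (Polynomial.evalRingHom y.1) -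
      Polynomial.C y.2 := ⟨_, rfl⟩
    have hp0 : p ≠ 0 := by
      intro h
      have h1 : (Q.map (Polynomial.evalRingHom y.1)).natDegree = Q.natDegree :=
        hQ.natDegree_map _
      rw [hp, sub_eq_zero] at h
      rw [h, Polynomial.natDegree_C] at h1
      exact hn h1.symm
    have hfin : (p.roots.toFinset : Set ℂ).Finite := Finset.finite_toSet _
    refine (hfin.image fun w => (y.1, w)).subset ?_
    intro x hx
    have h1 : Ph Q x = y := hx
    have h2 : x.1 = y.1 := by rw [← h1]; rfl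
    have h3 : Q.evalEval x.1 x.2 = y.2 := by rw [← h1]; rfl
    refine ⟨x.2, ?_, ?_⟩
    · rw [Finset.mem_coe, Multiset.mem_toFinset, Polynomial.mem_roots hp0, Polynomial.IsRoot, hp,
        Polynomial.eval_sub, Polynomial.eval_C, Polynomial.map_evalRingHom_eval, ← h2, h3, sub_self]
    · exact Prod.ext h2.symm rfl
  · obtain ⟨L, hL⟩ := ph_strict Q x (hx x rfl)
    exact ⟨hL.toOpenPartialHomeomorph, hL.mem_toOpenPartialHomeomorph_source, by simp⟩

/-- continuous solutions are determined by one value and holomorphic -/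
theorem root_local (Q : Polynomial (Polynomial ℂ)) {t1 : ℂ} {g : ℂ → ℂ} (hg : ContinuousAt g t1)
    {w1 : ℂ} (hw : Q.evalEval (g t1) w1 = 0) (hd : Q.derivative.evalEval (g t1) w1 ≠ 0) :
    ∃ Ψ : ℂ × ℂ → ℂ × ℂ, ContDiffAt ℂ ⊤ Ψ (g t1, 0) ∧ ∀ U : ℂ → ℂ, ContinuousAt U t1 → U t1 = w1 →
      (∀ᶠ t in 𝓝 t1, Q.evalEval (g t) (U t) = 0) → ∀ᶠ t in 𝓝 t1, U t = (Ψ (g t, 0)).2 := by
  obtain ⟨L, hL⟩ := ph_strict Q (g t1, w1) hd
  have hPh : ContDiffAt ℂ ⊤ (Ph Q) (g t1, w1) :=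
    (contDiff_fst.prodMk (ev_contDiff Q)).contDiffAt
  have hval : Ph Q (g t1, w1) = (g t1, 0) := by
    rw [Ph]
    simp only [hw]
  have hinv := hPh.to_localInverse (f' := L) hL.hasFDerivAt (by simp)
  refine ⟨hPh.localInverse hL.hasFDerivAt (by simp), ?_, fun U hU hU1 hUe => ?_⟩
  · rw [hval] at hinv
    exact hinv
  · have h1 := hL.eventually_left_inverse
    have h2 : Tendsto (fun t => (g t, U t)) (𝓝 t1) (𝓝 (g t1, w1)) := by
      have := hg.tendsto.prodMk_nhds hU.tendsto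
      rwa [hU1] at this
    filter_upwards [h2.eventually h1, hUe] with t ht hte
    have h3 : Ph Q (g t, U t) = (g t, 0) := by
      rw [Ph]
      simp only [hte]
    rw [h3] at ht
    have h4 := congrArg Prod.snd ht
    exact h4.symm

theorem root_diff (Q : Polynomial (Polynomial ℂ)) {t1 : ℂ} {g U : ℂ → ℂ}
    (hg : DifferentiableAt ℂ g t1) (hU : ContinuousAt U t1)
    (hd : Q.derivative.evalEval (g t1) (U t1) ≠ 0)
    (hUe : ∀ᶠ t in 𝓝 t1, Q.evalEval (g t) (U t) = 0) : DifferentiableAt ℂ U t1 := by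
  obtain ⟨Ψ, hΨ, h⟩ := root_local Q (w1 := U t1) hg.continuousAt hUe.self_of_nhds hd
  have h1 := h U hU rfl hUe
  have h2 : DifferentiableAt ℂ (fun t => (Ψ (g t, 0)).2) t1 := by
    have h3 : DifferentiableAt ℂ Ψ (g t1, 0) := hΨ.differentiableAt (by simp)
    have h4 : DifferentiableAt ℂ (fun t => (g t, (0 : ℂ))) t1 :=
      hg.prodMk (differentiableAt_const _)
    exact (h3.comp (f := fun t => (g t, (0 : ℂ))) t1 h4).snd
  exact h2.congr_of_eventuallyEq h1

theorem root_germ (Q : Polynomial (Polynomial ℂ)) {t1 : ℂ} {g U1 U2 : ℂ → ℂ}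
    (hg : ContinuousAt g t1) (hU1 : ContinuousAt U1 t1) (hU2 : ContinuousAt U2 t1)
    (hd : Q.derivative.evalEval (g t1) (U1 t1) ≠ 0) (heq : U1 t1 = U2 t1)
    (h1 : ∀ᶠ t in 𝓝 t1, Q.evalEval (g t) (U1 t) = 0)
    (h2 : ∀ᶠ t in 𝓝 t1, Q.evalEval (g t) (U2 t) = 0) : U1 =ᶠ[𝓝 t1] U2 := by
  obtain ⟨Ψ, -, h⟩ := root_local Q (w1 := U1 t1) hg h1.self_of_nhds hd
  filter_upwards [h U1 hU1 rfl h1, h U2 hU2 heq.symm h2] with t e1 e2
  rw [e1, e2]

theorem root_lift (Q : Polynomial (Polynomial ℂ)) (hQ : Q.Monic) (hn : Q.natDegree ≠ 0)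
    {U : Set ℂ} (hUo : IsOpen U) (hUc : Convex ℝ U) {g : ℂ → ℂ} (hg : DifferentiableOn ℂ g U)
    (hreg : ∀ t ∈ U, ∀ w, Q.evalEval (g t) w = 0 → Q.derivative.evalEval (g t) w ≠ 0)
    {t0 w0 : ℂ} (ht0 : t0 ∈ U) (hw0 : Q.evalEval (g t0) w0 = 0) :
    ∃ G : ℂ → ℂ, DifferentiableOn ℂ G U ∧ G t0 = w0 ∧ ∀ t ∈ U, Q.evalEval (g t) (G t) = 0 := by
  have hne : U.Nonempty := ⟨t0, ht0⟩
  have : ContractibleSpace U := hUc.contractibleSpace hne
  have : LocallyPathConnectedSpace U := hUo.locallyPathConnectedSpace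
  obtain ⟨f, hf⟩ : ∃ f : C(U, ℂ × ℂ), ∀ t : U, f t = (g t, 0) :=
    ⟨⟨fun t => (g t, 0), by
      have := hg.continuousOn.domRestrict
      exact this.prodMk continuous_const⟩, fun t => rfl⟩
  obtain ⟨F, ⟨hF0, hF⟩, -⟩ := (ph_cov Q hQ hn).existsUnique_continuousMap_lifts f
    (a₀ := ⟨t0, ht0⟩) (e₀ := (g t0, w0)) (by rw [hf, Ph]; simp only [hw0]) (by
      intro t x hx
      rw [hf, Ph, Prod.mk.injEq] at hx
      have := hreg t t.2 x.2
      rw [← hx.1] at this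
      exact this hx.2)
  classical
  obtain ⟨G, hG⟩ : ∃ G : ℂ → ℂ, ∀ t : U, G t = (F t).2 :=
    ⟨fun t => if h : t ∈ U then (F ⟨t, h⟩).2 else 0, fun t => by simp⟩
  have hP : ∀ t : U, Ph Q (F t) = (g t, 0) := by
    intro t
    rw [← hf t]
    exact congrFun hF t
  have hF1 : ∀ t : U, (F t).1 = g t := fun t => by
    have := hP t
    rw [Ph, Prod.mk.injEq] at this
    exact this.1
  have hF2 : ∀ t ∈ U, Q.evalEval (g t) (G t) = 0 := fun t ht => by
    have := hP ⟨t, ht⟩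
    rw [Ph, Prod.mk.injEq, hF1, ← hG ⟨t, ht⟩] at this
    exact this.2
  have hGc : ContinuousOn G U := by
    rw [continuousOn_iff_continuous_domRestrict]
    have h1 : U.domRestrict G = fun t => (F t).2 := by
      funext t
      exact hG t
    rw [h1]
    exact F.continuous.snd
  refine ⟨G, fun t ht => ?_, ?_, hF2⟩
  · have hnt := hUo.mem_nhds ht
    refine (root_diff Q (hg.differentiableAt hnt) (hGc.continuousAt hnt)
      (hreg t ht _ (hF2 t ht)) ?_).differentiableWithinAt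
    filter_upwards [hnt] with s hs
    exact hF2 s hs
  · have h1 := hG ⟨t0, ht0⟩
    rw [hF0] at h1
    exact h1

theorem root_uniq (Q : Polynomial (Polynomial ℂ)) {U : Set ℂ} (hUo : IsOpen U)
    (hUc : IsPreconnected U) {g G1 G2 : ℂ → ℂ} (hg : DifferentiableOn ℂ g U)
    (hreg : ∀ t ∈ U, ∀ w, Q.evalEval (g t) w = 0 → Q.derivative.evalEval (g t) w ≠ 0)
    (h1 : DifferentiableOn ℂ G1 U) (h2 : DifferentiableOn ℂ G2 U)
    (e1 : ∀ t ∈ U, Q.evalEval (g t) (G1 t) = 0) (e2 : ∀ t ∈ U, Q.evalEval (g t) (G2 t) = 0)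
    {t0 : ℂ} (ht0 : t0 ∈ U) (h0 : G1 t0 = G2 t0) : EqOn G1 G2 U := by
  have hn := hUo.mem_nhds ht0
  have h3 := root_germ Q (hg.differentiableAt hn).continuousAt (h1.differentiableAt hn).continuousAt
    (h2.differentiableAt hn).continuousAt (hreg t0 ht0 _ (e1 t0 ht0)) h0
    (by filter_upwards [hn] with s hs using e1 s hs) (by filter_upwards [hn] with s hs using e2 s hs)
  exact (h1.analyticOnNhd hUo).eqOn_of_preconnected_of_eventuallyEq (h2.analyticOnNhd hUo) hUc ht0 h3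

end Run7.h367.SF
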