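import Pool.Agent.Run7.h367.AAlg2

/-!
Rotations preserving an irreducible annihilating polynomial; the swap of the variables.
-/

set_option autoImplicit false

open Set Filter Topology Metric

namespace Run7.h367.SF

/-- the centroid of the zeros -/
noncomputable def cent (A : Polynomial ℂ) : ℂ :=
  (∑ ζ ∈ A.roots.toFinset, ζ) / A.roots.toFinset.card

/-- a finite nonempty set mapped to itself by a rotation -/
theorem cent_eq {Z : Finset ℂ} {z0 η : ℂ} (hη : η ≠ 1) (hη0 : η ≠ 0) (hz : z0 ∈ Z)
    (h : ∀ ζ ∈ Z, z0 + η * (ζ - z0) ∈ Z) : z0 = (∑ ζ ∈ Z, ζ) / Z.card := by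
  classical
  obtain ⟨f, hf⟩ : ∃ f : ℂ → ℂ, f = fun ζ => z0 + η * (ζ - z0) := ⟨_, rfl⟩
  have hinj : Function.Injective f := by
    intro x y hxy
    rw [hf] at hxy
    simp only [add_right_inj] at hxy
    have := mul_left_cancel₀ hη0 hxy
    linear_combination this
  have himg : Z.image f = Z := by
    refine Finset.eq_of_subset_of_card_le ?_ ?_
    · intro x hx
      obtain ⟨ζ, hζ, rfl⟩ := Finset.mem_image.1 hx
      rw [hf]
      exact h ζ hζ
    · rw [Finset.card_image_of_injective _ hinj]
  have hsum : ∑ ζ ∈ Z, f ζ = ∑ ζ ∈ Z, ζ := by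
    conv_rhs => rw [← himg]
    rw [Finset.sum_image (fun x _ y _ hxy => hinj hxy)]
  have hsum2 : ∑ ζ ∈ Z, f ζ = Z.card * z0 + η * (∑ ζ ∈ Z, ζ - Z.card * z0) := by
    rw [hf]
    simp only
    rw [Finset.sum_add_distrib, ← Finset.mul_sum, Finset.sum_sub_distrib, Finset.sum_const,
      nsmul_eq_mul]
  have hc : (Z.card : ℂ) ≠ 0 := by
    exact_mod_cast (Finset.card_pos.2 ⟨z0, hz⟩).ne'
  rw [hsum] at hsum2
  have h1 : (1 - η) * (∑ ζ ∈ Z, ζ - Z.card * z0) = 0 := by linear_combination hsum2
  have h2 := (mul_eq_zero.1 h1).resolve_left (sub_ne_zero.2 (Ne.symm hη))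
  rw [eq_div_iff hc]
  linear_combination -h2

/-- substitution of affine maps -/
noncomputable def subst (P : Polynomial (Polynomial ℂ)) (r : Polynomial ℂ) (α β : ℂ) :
    Polynomial (Polynomial ℂ) :=
  (P.map (Polynomial.compRingHom r)).comp
    (Polynomial.C (Polynomial.C α) * Polynomial.X + Polynomial.C (Polynomial.C β))

theorem subst_eval (P : Polynomial (Polynomial ℂ)) (r : Polynomial ℂ) (α β z w : ℂ) :
    (subst P r α β).evalEval z w = P.evalEval (r.eval z) (α * w + β) := by
  rw [subst, Polynomial.evalEval, Polynomial.eval_comp]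
  have h1 : Polynomial.eval (Polynomial.C w)
      (Polynomial.C (Polynomial.C α) * Polynomial.X + Polynomial.C (Polynomial.C β)) =
      Polynomial.C (α * w + β) := by
    simp
  rw [h1]
  have h2 : ∀ y : ℂ, Polynomial.eval z (Polynomial.eval (Polynomial.C y)
      (P.map (Polynomial.compRingHom r))) = (P.map (Polynomial.compRingHom r)).evalEval z y :=
    fun y => rfl
  rw [h2, ← Polynomial.map_evalRingHom_eval, Polynomial.map_map,
    ← Polynomial.map_evalRingHom_eval]
  congr 2
  ext x
  · simp
  · simp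

theorem subst_lead (P : Polynomial (Polynomial ℂ)) {r : Polynomial ℂ} (hr : r.natDegree = 1)
    {α β : ℂ} (hα : α ≠ 0) : (subst P r α β).natDegree = P.natDegree ∧
    (subst P r α β).leadingCoeff = P.leadingCoeff.comp r * Polynomial.C α ^ P.natDegree := by
  have hinj : Function.Injective (Polynomial.compRingHom r) := by
    rw [injective_iff_map_eq_zero]
    intro p hp
    have h1 : p.comp r = 0 := hp
    rcases Polynomial.comp_eq_zero_iff.1 h1 with h2 | ⟨-, h2⟩
    · exact h2
    · rw [h2, Polynomial.natDegree_C] at hr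
      omega
  obtain ⟨s, hs⟩ : ∃ s : Polynomial (Polynomial ℂ), s = Polynomial.C (Polynomial.C α) *
    Polynomial.X + Polynomial.C (Polynomial.C β) := ⟨_, rfl⟩
  have hα' : Polynomial.C α ≠ 0 := by simpa using hα
  have hsd : s.natDegree = 1 := by
    rw [hs]
    exact Polynomial.natDegree_linear hα'
  have hsl : s.leadingCoeff = Polynomial.C α := by
    rw [hs]
    exact Polynomial.leadingCoeff_linear hα'
  have hm := Polynomial.natDegree_map_eq_of_injective hinj P
  have hl := Polynomial.leadingCoeff_map_of_injective hinj P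
  rw [subst, ← hs]
  refine ⟨by rw [Polynomial.natDegree_comp, hm, hsd, mul_one], ?_⟩
  rw [Polynomial.leadingCoeff_comp (by rw [hsd]; norm_num), hl, hsl, hm]
  rfl

theorem sym_center {P : Polynomial (Polynomial ℂ)} (hP : Irreducible P) (hn : P.natDegree ≠ 0)
    {S : Set ℂ} {g G : ℂ → ℂ} (hinf : (g '' S).Infinite)
    (hz : ∀ t ∈ S, P.evalEval (g t) (G t) = 0) {z0 w η : ℂ} (hη : η ≠ 1) (hη0 : η ≠ 0)
    (hsym : ∀ t ∈ S, P.evalEval (z0 + η * (g t - z0)) (w + η⁻¹ * (G t - w)) = 0)
    (h0 : P.leadingCoeff.eval z0 = 0) : z0 = cent P.leadingCoeff := by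
  obtain ⟨r, hr⟩ : ∃ r : Polynomial ℂ, r = Polynomial.C η * Polynomial.X +
    Polynomial.C (z0 - η * z0) := ⟨_, rfl⟩
  have hrd : r.natDegree = 1 := by
    rw [hr]
    exact Polynomial.natDegree_linear hη0
  have hre : ∀ z, r.eval z = z0 + η * (z - z0) := by
    intro z
    rw [hr]
    simp
    ring
  obtain ⟨hd, hl⟩ := subst_lead P hrd (α := η⁻¹) (β := w - η⁻¹ * w) (inv_ne_zero hη0)
  have hdvd : P ∣ subst P r η⁻¹ (w - η⁻¹ * w) := by
    refine dvd_of_ann hP hn hinf hz fun t ht => ?_
    rw [subst_eval, hre, ← hsym t ht]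
    congr 1
    ring
  obtain ⟨κ, hκ⟩ := hdvd
  have hP0 : P ≠ 0 := hP.ne_zero
  have hA : P.leadingCoeff ≠ 0 := Polynomial.leadingCoeff_ne_zero.2 hP0
  have hlead := congrArg Polynomial.leadingCoeff hκ
  rw [hl, Polynomial.leadingCoeff_mul] at hlead
  refine cent_eq hη hη0 ?_ fun ζ hζ => ?_
  · rw [Multiset.mem_toFinset, Polynomial.mem_roots hA]
    exact h0
  · rw [Multiset.mem_toFinset, Polynomial.mem_roots hA, Polynomial.IsRoot] at hζ ⊢
    have h1 := congrArg (Polynomial.eval ζ) hlead
    rw [Polynomial.eval_mul, Polynomial.eval_mul, hζ, zero_mul, Polynomial.eval_comp, hre,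
      Polynomial.eval_pow, Polynomial.eval_C] at h1
    exact (mul_eq_zero.1 h1).resolve_right (pow_ne_zero _ (inv_ne_zero hη0))

theorem coeff_swap (P : Polynomial (Polynomial ℂ)) (a b : ℕ) :
    ((Polynomial.Bivariate.swap P).coeff a).coeff b = (P.coeff b).coeff a := by
  induction P using Polynomial.induction_on' with
  | add p q hp hq =>
    rw [map_add, Polynomial.coeff_add, Polynomial.coeff_add, Polynomial.coeff_add,
      Polynomial.coeff_add, hp, hq]
  | monomial n p =>
    induction p using Polynomial.induction_on' with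
    | add p q hp hq =>
      rw [map_add, map_add, Polynomial.coeff_add, Polynomial.coeff_add,
        Polynomial.coeff_add, Polynomial.coeff_add, hp, hq]
    | monomial m r =>
      rw [Polynomial.Bivariate.swap_monomial_monomial, Polynomial.coeff_monomial,
        Polynomial.coeff_monomial]
      by_cases h1 : m = a
      · by_cases h2 : n = b
        · simp [h1, h2]
        · simp [h1, h2, Polynomial.coeff_monomial]
      · by_cases h2 : n = b
        · simp [h1, h2, Polynomial.coeff_monomial]
        · simp [h1, h2]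

/-- the coefficients have degree at most the degree of the swapped polynomial -/
theorem coeff_swap_le (P : Polynomial (Polynomial ℂ)) (b : ℕ) :
    (P.coeff b).natDegree ≤ (Polynomial.Bivariate.swap P).natDegree := by
  refine Polynomial.natDegree_le_iff_coeff_eq_zero.2 fun a ha => ?_
  rw [← coeff_swap, Polynomial.coeff_eq_zero_of_natDegree_lt ha, Polynomial.coeff_zero]

theorem swap_eval (P : Polynomial (Polynomial ℂ)) (z w : ℂ) :
    (Polynomial.Bivariate.swap P).evalEval z w = P.evalEval w z := by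
  rw [← Polynomial.coe_aevalAeval_eq_evalEval, ← Polynomial.coe_aevalAeval_eq_evalEval]
  exact Polynomial.Bivariate.aevalAeval_swap z w P

/-- the conjugate polynomial -/
noncomputable def cj (P : Polynomial (Polynomial ℂ)) : Polynomial (Polynomial ℂ) :=
  P.map (Polynomial.mapRingHom (starRingEnd ℂ))

theorem cj_eval (P : Polynomial (Polynomial ℂ)) (z w : ℂ) :
    (cj P).evalEval ((starRingEnd ℂ) z) ((starRingEnd ℂ) w) =
      (starRingEnd ℂ) (P.evalEval z w) :=
  Polynomial.map_mapRingHom_evalEval (starRingEnd ℂ) P z w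

theorem cj_degree (P : Polynomial (Polynomial ℂ)) : (cj P).natDegree = P.natDegree :=
  Polynomial.natDegree_map_eq_of_injective
    (Polynomial.map_injective _ (RingHom.injective (starRingEnd ℂ))) P

theorem swap_degree_le {P : Polynomial (Polynomial ℂ)} (hP : P ≠ 0)
    (h : P ∣ Polynomial.Bivariate.swap (cj P)) :
    (Polynomial.Bivariate.swap P).natDegree ≤ P.natDegree := by
  have h1 := map_dvd (Polynomial.Bivariate.swap (R := ℂ)) h
  rw [Polynomial.Bivariate.swap_swap_apply] at h1
  have h2 : cj P ≠ 0 := by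
    rw [cj, Ne, Polynomial.map_eq_zero_iff
      (Polynomial.map_injective _ (RingHom.injective (starRingEnd ℂ)))]
    exact hP
  have h3 := Polynomial.natDegree_le_of_dvd h1 h2
  rwa [cj_degree] at h3

end Run7.h367.SF
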