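import Mathlib.Analysis.Complex.CauchyIntegral
import Mathlib.Topology.MetricSpace.Thickening
import Mathlib.Algebra.MvPolynomial.Funext
import Pool.Agent.Run7.h367.ASym

/-!
Automorphisms of the disc; real polynomials as polynomials in `z` and `conj z`.
-/

set_option autoImplicit false

open Set Filter Topology Metric ComplexConjugate

namespace Run7.h367.SF

/-- automorphisms of the disc -/
noncomputable def Mob (p v : ℂ) : ℂ := (v + p) / (1 + conj p * v)

theorem mob_id (p v : ℂ) : Complex.normSq (1 + conj p * v) - Complex.normSq (v + p) =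
    (1 - Complex.normSq v) * (1 - Complex.normSq p) := by
  simp only [Complex.normSq_apply, Complex.add_re, Complex.add_im, Complex.mul_re, Complex.mul_im,
    Complex.conj_re, Complex.conj_im, Complex.one_re, Complex.one_im]
  ring

theorem mob_den {p v : ℂ} (hp : ‖p‖ < 1) (hv : ‖v‖ ≤ 1) : 1 + conj p * v ≠ 0 := by
  intro h
  have h1 : conj p * v = -1 := by linear_combination h
  have h2 := congrArg norm h1
  rw [norm_mul, RCLike.norm_conj, norm_neg, norm_one] at h2
  have h3 := norm_nonneg p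
  nlinarith [norm_nonneg v]

theorem mob_norm {p v : ℂ} (hd : 1 + conj p * v ≠ 0) :
    1 - ‖Mob p v‖ ^ 2 = (1 - ‖v‖ ^ 2) * (1 - ‖p‖ ^ 2) / ‖1 + conj p * v‖ ^ 2 := by
  have h1 : 0 < ‖1 + conj p * v‖ := norm_pos_iff.2 hd
  have h2 := mob_id p v
  rw [Complex.normSq_eq_norm_sq, Complex.normSq_eq_norm_sq, Complex.normSq_eq_norm_sq,
    Complex.normSq_eq_norm_sq] at h2
  rw [Mob, norm_div, div_pow, ← h2, eq_div_iff (by positivity), sub_mul, one_mul,
    div_mul_cancel₀ _ (by positivity)]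

theorem mob_lt {p v : ℂ} (hp : ‖p‖ < 1) (hv : ‖v‖ < 1) : ‖Mob p v‖ < 1 := by
  have hd := mob_den hp hv.le
  have h1 := mob_norm hd
  have h2 : 0 < ‖1 + conj p * v‖ := norm_pos_iff.2 hd
  have h3 := norm_nonneg v
  have h4 := norm_nonneg p
  have h5 : 0 < (1 - ‖v‖ ^ 2) * (1 - ‖p‖ ^ 2) / ‖1 + conj p * v‖ ^ 2 := by
    have : 0 < 1 - ‖v‖ ^ 2 := by nlinarith
    have : 0 < 1 - ‖p‖ ^ 2 := by nlinarith
    positivity
  rw [← h1] at h5
  have h6 := norm_nonneg (Mob p v)
  nlinarith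

theorem mob_one {p v : ℂ} (hp : ‖p‖ < 1) (hv : ‖v‖ = 1) : ‖Mob p v‖ = 1 := by
  have h1 := mob_norm (mob_den hp hv.le)
  rw [hv] at h1
  have h2 : ‖Mob p v‖ ^ 2 = 1 := by
    have : (1 - (1 : ℝ) ^ 2) * (1 - ‖p‖ ^ 2) / ‖1 + conj p * v‖ ^ 2 = 0 := by ring
    rw [this] at h1
    linarith
  have h3 := norm_nonneg (Mob p v)
  nlinarith

theorem mob_inj {p v u : ℂ} (hp : ‖p‖ < 1) (hv : 1 + conj p * v ≠ 0) (hu : 1 + conj p * u ≠ 0)
    (h : Mob p v = Mob p u) : v = u := by
  rw [Mob, Mob, div_eq_div_iff hv hu] at h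
  have h1 : (v - u) * (1 - p * conj p) = 0 := by linear_combination h
  have h2 : (1 : ℂ) - p * conj p ≠ 0 := by
    rw [Complex.mul_conj, Complex.normSq_eq_norm_sq]
    intro h0
    have h3 : (1 : ℝ) - ‖p‖ ^ 2 = 0 := by exact_mod_cast h0
    have h4 := norm_nonneg p
    nlinarith
  exact sub_eq_zero.1 ((mul_eq_zero.1 h1).resolve_right h2)

theorem mob_inv {p w : ℂ} (hp : ‖p‖ < 1) (hw : ‖w‖ < 1) : Mob p (Mob (-p) w) = w := by
  have h1 : 1 + conj (-p) * w ≠ 0 := mob_den (by rwa [norm_neg]) hw.le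
  have h2 : 1 + conj p * Mob (-p) w ≠ 0 := mob_den hp (mob_lt (by rwa [norm_neg]) hw).le
  rw [Mob, div_eq_iff h2]
  obtain ⟨d, hd⟩ : ∃ d : ℂ, d = 1 + conj (-p) * w := ⟨_, rfl⟩
  have h3 : Mob (-p) w = (w + -p) / d := by rw [Mob, hd]
  rw [← hd] at h1
  rw [h3]
  have h4 : d = 1 - conj p * w := by rw [hd, map_neg]; ring
  have h5 : (w + -p) / d * d = w + -p := div_mul_cancel₀ _ h1
  have h6 : ((w + -p) / d + p) * d = (w * (1 + conj p * ((w + -p) / d))) * d := by
    linear_combination (1 - w * conj p) * h5 + p * h4 - w * h4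
  exact mul_right_cancel₀ h1 h6

theorem mobius {p : ℂ} (hp : ‖p‖ < 1) {r : ℝ} (hr : 1 < r) : ∃ (M : ℂ → ℂ) (r' : ℝ), 1 < r' ∧
    DifferentiableOn ℂ M (ball 0 r') ∧ InjOn M (ball 0 r') ∧ MapsTo M (ball 0 r') (ball 0 r) ∧
    M '' ball 0 1 = ball 0 1 ∧ M 0 = p ∧ ∀ v, ‖v‖ = 1 → ‖M v‖ = 1 := by
  obtain ⟨U, hU⟩ : ∃ U : Set ℂ, U = {v : ℂ | 1 + conj p * v ≠ 0} := ⟨_, rfl⟩
  have hUo : IsOpen U := by
    rw [hU]
    exact isOpen_ne_fun (by fun_prop) continuous_const
  have hMd : DifferentiableOn ℂ (Mob p) U := by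
    intro v hv
    rw [hU] at hv
    have : DifferentiableAt ℂ (fun v : ℂ => (v + p) / (1 + conj p * v)) v := by
      refine DifferentiableAt.div (by fun_prop) (by fun_prop) hv
    exact this.differentiableWithinAt
  have hVo : IsOpen (U ∩ Mob p ⁻¹' ball 0 r) :=
    hMd.continuousOn.isOpen_inter_preimage hUo isOpen_ball
  have hsub : closedBall (0 : ℂ) 1 ⊆ U ∩ Mob p ⁻¹' ball 0 r := by
    intro v hv
    rw [mem_closedBall_zero_iff] at hv
    refine ⟨by rw [hU]; exact mob_den hp hv, ?_⟩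
    rw [mem_preimage, mem_ball_zero_iff]
    rcases lt_or_eq_of_le hv with h | h
    · exact (mob_lt hp h).trans hr
    · rw [mob_one hp h]
      exact hr
  obtain ⟨δ, hδ, hδ'⟩ := (isCompact_closedBall (0 : ℂ) 1).exists_thickening_subset_open hVo hsub
  rw [thickening_closedBall hδ zero_le_one] at hδ'
  have hden : ∀ v ∈ ball (0 : ℂ) (δ + 1), 1 + conj p * v ≠ 0 := by
    intro v hv
    have := (hδ' hv).1
    rwa [hU] at this
  refine ⟨Mob p, δ + 1, by linarith, hMd.mono fun v hv => (hδ' hv).1,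
    fun v hv u hu h => mob_inj hp (hden v hv) (hden u hu) h, fun v hv => (hδ' hv).2, ?_, ?_,
    fun v hv => mob_one hp hv⟩
  · ext w
    constructor
    · rintro ⟨v, hv, rfl⟩
      rw [mem_ball_zero_iff] at hv ⊢
      exact mob_lt hp hv
    · intro hw
      rw [mem_ball_zero_iff] at hw
      refine ⟨Mob (-p) w, ?_, mob_inv hp hw⟩
      rw [mem_ball_zero_iff]
      exact mob_lt (by rwa [norm_neg]) hw
  · rw [Mob]
    simp

/-- total degree at most `k` -/
def Dg (k : ℕ) (Q : Polynomial (Polynomial ℂ)) : Prop :=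
  ∀ a b : ℕ, (Q.coeff b).coeff a ≠ 0 → a + b ≤ k

theorem Dg.mono {k l : ℕ} (h : k ≤ l) {Q : Polynomial (Polynomial ℂ)} (hQ : Dg k Q) : Dg l Q :=
  fun a b hab => (hQ a b hab).trans h

theorem Dg.add {k : ℕ} {Q Q' : Polynomial (Polynomial ℂ)} (h : Dg k Q) (h' : Dg k Q') :
    Dg k (Q + Q') := by
  intro a b hab
  rw [Polynomial.coeff_add, Polynomial.coeff_add] at hab
  by_cases h1 : (Q.coeff b).coeff a = 0
  · rw [h1, zero_add] at hab
    exact h' a b hab
  · exact h a b h1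

theorem Dg.sum {k : ℕ} {ι : Type*} (s : Finset ι) {f : ι → Polynomial (Polynomial ℂ)}
    (h : ∀ i ∈ s, Dg k (f i)) : Dg k (∑ i ∈ s, f i) := by
  intro a b hab
  rw [Polynomial.finsetSum_coeff, Polynomial.finsetSum_coeff] at hab
  obtain ⟨i, hi, hi'⟩ := Finset.exists_ne_zero_of_sum_ne_zero hab
  exact h i hi a b hi'

theorem Dg.mul {k l : ℕ} {Q Q' : Polynomial (Polynomial ℂ)} (h : Dg k Q) (h' : Dg l Q') :
    Dg (k + l) (Q * Q') := by
  intro a b hab
  rw [Polynomial.coeff_mul, Polynomial.finsetSum_coeff] at hab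
  obtain ⟨i, hi, hi'⟩ := Finset.exists_ne_zero_of_sum_ne_zero hab
  rw [Polynomial.coeff_mul] at hi'
  obtain ⟨j, hj, hj'⟩ := Finset.exists_ne_zero_of_sum_ne_zero hi'
  rw [Finset.mem_antidiagonal] at hi hj
  have h1 := h j.1 i.1 (left_ne_zero_of_mul hj')
  have h2 := h' j.2 i.2 (right_ne_zero_of_mul hj')
  omega

theorem dg_const (c : ℂ) : Dg 0 (Polynomial.C (Polynomial.C c)) := by
  intro a b hab
  rw [Polynomial.coeff_C] at hab
  by_cases hb : b = 0
  · rw [if_pos hb, Polynomial.coeff_C] at hab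
    by_cases ha : a = 0
    · omega
    · rw [if_neg ha] at hab
      exact absurd rfl hab
  · rw [if_neg hb, Polynomial.coeff_zero] at hab
    exact absurd rfl hab

theorem Dg.pow {k : ℕ} {Q : Polynomial (Polynomial ℂ)} (h : Dg k Q) (m : ℕ) :
    Dg (m * k) (Q ^ m) := by
  induction m with
  | zero =>
    rw [zero_mul, pow_zero]
    have := dg_const 1
    rwa [Polynomial.C_1, Polynomial.C_1] at this
  | succ m ih =>
    rw [pow_succ, add_mul, one_mul]
    exact ih.mul h

theorem dg_X : Dg 1 (Polynomial.C Polynomial.X) := by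
  intro a b hab
  rw [Polynomial.coeff_C] at hab
  by_cases hb : b = 0
  · rw [if_pos hb, Polynomial.coeff_X] at hab
    by_cases ha : 1 = a
    · omega
    · rw [if_neg ha] at hab
      exact absurd rfl hab
  · rw [if_neg hb, Polynomial.coeff_zero] at hab
    exact absurd rfl hab

theorem dg_Y : Dg 1 (Polynomial.X : Polynomial (Polynomial ℂ)) := by
  intro a b hab
  rw [Polynomial.coeff_X] at hab
  by_cases hb : 1 = b
  · rw [if_pos hb, Polynomial.coeff_one] at hab
    by_cases ha : a = 0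
    · omega
    · rw [if_neg ha] at hab
      exact absurd rfl hab
  · rw [if_neg hb, Polynomial.coeff_zero] at hab
    exact absurd rfl hab

theorem dg_lead {k : ℕ} {Q : Polynomial (Polynomial ℂ)} (hQ : Q ≠ 0) (h : Dg k Q) :
    Q.leadingCoeff.natDegree + Q.natDegree ≤ k := by
  apply h
  have h1 : Q.leadingCoeff ≠ 0 := Polynomial.leadingCoeff_ne_zero.2 hQ
  have h2 : (Q.leadingCoeff).leadingCoeff ≠ 0 := Polynomial.leadingCoeff_ne_zero.2 h1
  exact h2

/-- the variable `x = (z + w) / 2` -/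
noncomputable def xh : Polynomial (Polynomial ℂ) :=
  Polynomial.C (Polynomial.C (1 / 2)) * (Polynomial.C Polynomial.X + Polynomial.X)

/-- the variable `y = (z - w) / (2 i)` -/
noncomputable def yh : Polynomial (Polynomial ℂ) :=
  Polynomial.C (Polynomial.C (1 / (2 * Complex.I))) *
    (Polynomial.C Polynomial.X + Polynomial.C (Polynomial.C (-1)) * Polynomial.X)

theorem dg_xh : Dg 1 xh := by
  have := (dg_const (1 / 2)).mul (dg_X.add dg_Y)
  rwa [zero_add] at this

theorem dg_yh : Dg 1 yh := by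
  have h1 := (dg_const (-1)).mul dg_Y
  rw [zero_add] at h1
  have := (dg_const (1 / (2 * Complex.I))).mul (dg_X.add h1)
  rwa [zero_add] at this

/-- a real polynomial in `x, y` as a polynomial in `z, w` -/
noncomputable def zw (p : MvPolynomial (Fin 2) ℝ) : Polynomial (Polynomial ℂ) :=
  MvPolynomial.eval₂ ((Polynomial.C.comp Polynomial.C).comp Complex.ofRealHom) ![xh, yh] p

theorem zw_eval (p : MvPolynomial (Fin 2) ℝ) (ζ : ℂ) :
    (zw p).evalEval ζ (conj ζ) = ((MvPolynomial.eval ![ζ.re, ζ.im] p : ℝ) : ℂ) := by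
  have h1 : (zw p).evalEval ζ (conj ζ) =
      Polynomial.evalEvalRingHom ζ (conj ζ) (zw p) := rfl
  have h2 : ((MvPolynomial.eval ![ζ.re, ζ.im] p : ℝ) : ℂ) =
      Complex.ofRealHom (MvPolynomial.eval₂ (RingHom.id ℝ) ![ζ.re, ζ.im] p) := rfl
  rw [h1, h2, zw, MvPolynomial.eval₂_comp_left, MvPolynomial.eval₂_comp_left]
  congr 1
  · ext x
    simp
  · funext i
    fin_cases i
    · simp [xh]
      apply Complex.ext
      · simp
        ring
      · simp
    · simp [yh]
      apply Complex.ext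
      · simp
        ring
      · simp

theorem zw_ne {p : MvPolynomial (Fin 2) ℝ} (hp : p ≠ 0) : zw p ≠ 0 := by
  intro h
  apply hp
  refine MvPolynomial.funext fun x => ?_
  have h1 := zw_eval p ⟨x 0, x 1⟩
  rw [h, Polynomial.evalEval_zero] at h1
  have h2 : MvPolynomial.eval ![x 0, x 1] p = 0 := by exact_mod_cast h1.symm
  have h3 : ![x 0, x 1] = x := by
    funext i
    fin_cases i <;> rfl
  rw [h3] at h2
  rw [h2, map_zero]

theorem zw_dg (p : MvPolynomial (Fin 2) ℝ) : Dg p.totalDegree (zw p) := by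
  rw [zw, MvPolynomial.eval₂_eq']
  refine Dg.sum _ fun m hm => ?_
  have h1 : Dg (m 0 + m 1) (((Polynomial.C.comp Polynomial.C).comp Complex.ofRealHom)
      (MvPolynomial.coeff m p) * ∏ i, ![xh, yh] i ^ m i) := by
    rw [Fin.prod_univ_two]
    have h2 := (dg_const (Complex.ofRealHom (MvPolynomial.coeff m p))).mul
      ((dg_xh.pow (m 0)).mul (dg_yh.pow (m 1)))
    rw [mul_one, mul_one, zero_add] at h2
    exact h2
  refine h1.mono ?_
  have h3 := MvPolynomial.le_totalDegree hm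
  have h4 : (m.sum fun _ e => e) = m 0 + m 1 := by
    rw [Finsupp.sum_fintype _ _ (fun _ => rfl), Fin.sum_univ_two]
  rwa [h4] at h3

/-- swapping and conjugation -/
theorem swap_cj_le (Q : Polynomial (Polynomial ℂ)) :
    (Polynomial.Bivariate.swap (cj Q)).natDegree ≤ (Polynomial.Bivariate.swap Q).natDegree := by
  refine Polynomial.natDegree_le_iff_coeff_eq_zero.2 fun a ha => ?_
  ext b
  rw [coeff_swap, cj, Polynomial.coeff_map, Polynomial.coe_mapRingHom, Polynomial.coeff_map,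
    ← coeff_swap, Polynomial.coeff_eq_zero_of_natDegree_lt ha, Polynomial.coeff_zero, map_zero]

end Run7.h367.SF
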