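import Pool.Agent.Run7.h367.AMain
import Pool.Agent.Run7.h367.AMob

/-!
Algebraic boundaries: assembly.
-/

set_option autoImplicit false

open Complex MeasureTheory Metric Set Filter Topology ComplexConjugate
open Pool.Agent.Y245.SC Pool.Agent.Y245.UC
open Pool.Agent.TH298.Sch (Sol)
open Pool.Agent.Y245.SG (Bn)

namespace Run7.h367.SF

/-- the alternative for an irreducible polynomial -/
theorem alg_main1 {φ : ℂ → ℂ} {r lam c : ℝ} {u : ℂ → ℝ} {U : ℂ → ℂ} (hr : 1 < r)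
    (hφ : DifferentiableOn ℂ φ (ball 0 r)) (hinj : InjOn φ (ball 0 r)) (hlam : 0 < lam)
    (hc : c ≠ 0) (hS : Sol (φ '' ball 0 1) lam c u U) {P : Polynomial (Polynomial ℂ)}
    (hP : Irreducible P) (hn : P.natDegree ≠ 0)
    (hd : ∀ b, (P.coeff b).natDegree ≤ P.natDegree)
    (hb : ∀ v : ℂ, ‖v‖ = 1 → P.evalEval (φ v) (conj (φ v)) = 0)
    (hcent : ∀ v ∈ ball (0 : ℂ) 1, v ≠ 0 → φ v ≠ cent P.leadingCoeff) :
    (∃ (p : ℂ) (r0 : ℝ), 0 < r0 ∧ φ '' ball 0 1 = ball p r0) ∨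
    Reso (lam / 4) (φ '' ball 0 1) P.leadingCoeff P.natDegree := by
  obtain ⟨ho, ψ, hψ, hψm, hψi⟩ := inv_exists φ r hr hφ hinj
  have D : Dat φ ψ r (lam / 4) := ⟨hr, hφ, hinj, by positivity, ho, hψ, hψm, hψi⟩
  exact alg_main0 D (fun v h1 h2 => inv_base φ r lam c u U hr hφ hinj hlam hc hS v h1 h2) hP hn hd
    (fun v h1 h2 => circle_ann hr hφ P hb v h1 (by linarith)) hcent

theorem alg_main2 {φ : ℂ → ℂ} {r lam c : ℝ} {u : ℂ → ℝ} {U : ℂ → ℂ} (hr : 1 < r)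
    (hφ : DifferentiableOn ℂ φ (ball 0 r)) (hinj : InjOn φ (ball 0 r)) (hlam : 0 < lam)
    (hc : c ≠ 0) (hS : Sol (φ '' ball 0 1) lam c u U) {P : Polynomial (Polynomial ℂ)}
    (hP : Irreducible P) (hn : P.natDegree ≠ 0)
    (hd : ∀ b, (P.coeff b).natDegree ≤ P.natDegree)
    (hb : ∀ v : ℂ, ‖v‖ = 1 → P.evalEval (φ v) (conj (φ v)) = 0) :
    (∃ (p : ℂ) (r0 : ℝ), 0 < r0 ∧ φ '' ball 0 1 = ball p r0) ∨
    Reso (lam / 4) (φ '' ball 0 1) P.leadingCoeff P.natDegree := by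
  by_cases hcm : cent P.leadingCoeff ∈ φ '' ball 0 1
  · obtain ⟨p, hp, hpc⟩ := hcm
    obtain ⟨M, r', hr', hM, hMi, hMm, hM1, hM0, hMs⟩ := mobius (mem_ball_zero_iff.1 hp) hr
    have himg : (φ ∘ M) '' ball 0 1 = φ '' ball 0 1 := by rw [image_comp, hM1]
    have hφ' : DifferentiableOn ℂ (φ ∘ M) (ball 0 r') := hφ.comp hM hMm
    have hinj' : InjOn (φ ∘ M) (ball 0 r') := hinj.comp hMi hMm
    have hmain := alg_main1 (φ := φ ∘ M) hr' hφ' hinj' hlam hc (by rw [himg]; exact hS) hP hn hd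
      (fun v hv => hb (M v) (hMs v hv)) (by
        intro v hv hv0 h
        have hsub : ball (0 : ℂ) 1 ⊆ ball 0 r := ball_subset_ball hr.le
        have hMv : M v ∈ ball (0 : ℂ) 1 := by rw [← hM1]; exact ⟨v, hv, rfl⟩
        have h1 : φ (M v) = φ p := by rw [hpc]; exact h
        have h2 := hinj (hsub hMv) (hsub hp) h1
        rw [← hM0] at h2
        exact hv0 (hMi (ball_subset_ball hr'.le hv) (mem_ball_self (by linarith)) h2))
    rwa [himg] at hmain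
  · exact alg_main1 hr hφ hinj hlam hc hS hP hn hd hb fun v hv _ h => hcm ⟨v, hv, h⟩

/-- the resonances forced by an algebraic counterexample, for an arbitrary polynomial -/
theorem alg_main {φ : ℂ → ℂ} {r lam c : ℝ} {u : ℂ → ℝ} {U : ℂ → ℂ} (hr : 1 < r)
    (hφ : DifferentiableOn ℂ φ (ball 0 r)) (hinj : InjOn φ (ball 0 r)) (hlam : 0 < lam)
    (hc : c ≠ 0) (hS : Sol (φ '' ball 0 1) lam c u U) {Q : Polynomial (Polynomial ℂ)}
    (hQ : Q ≠ 0) (hb : ∀ v : ℂ, ‖v‖ = 1 → Q.evalEval (φ v) (conj (φ v)) = 0) :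
    (∃ (p : ℂ) (r0 : ℝ), 0 < r0 ∧ φ '' ball 0 1 = ball p r0) ∨
    ∃ (z0 C : ℂ) (q j j' : ℕ), z0 ∈ φ '' ball 0 1 ∧ 3 ≤ q ∧ 2 * q < j ∧ j + q < j' ∧ ¬ q ∣ j ∧
      ¬ q ∣ j' ∧ ¬ q ∣ j' - j ∧ (Polynomial.X - Polynomial.C z0) ^ q ∣ Q.leadingCoeff ∧
      q + j ≤ 2 * Q.natDegree ∧ q + j ≤ 2 * (Polynomial.Bivariate.swap Q).natDegree ∧
      (∃ x : ℝ, 0 < x ∧ C = x) ∧ Bn 1 ((lam / 4 : ℝ) * C) = 0 ∧
      ResC ((lam / 4 : ℝ) * C) ((j : ℝ) / q - 1) ∧
      ResC ((lam / 4 : ℝ) * C) ((j' : ℝ) / q - 1) := by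
  have hr0 : 0 < r := by linarith
  obtain ⟨S, hS'⟩ : ∃ S : Set ℂ, S = {v : ℂ | r⁻¹ < ‖v‖ ∧ ‖v‖ < r} := ⟨_, rfl⟩
  have hSo : IsOpen S := by rw [hS']; exact annulus_open _ _
  have hSc : IsPreconnected S := by
    have := annulus_conn (-Real.log r) (Real.log r)
    rwa [Real.exp_neg, Real.exp_log hr0, ← hS'] at this
  have hSr : S ⊆ ball 0 r := by
    intro v hv
    rw [hS'] at hv
    rw [mem_ball_zero_iff]
    exact hv.2
  have h1S : (1 : ℂ) ∈ S := by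
    rw [hS', mem_ofPred_eq, norm_one]
    exact ⟨inv_lt_one_of_one_lt₀ hr, hr⟩
  have hRd : DifferentiableOn ℂ (Rf φ) S := by
    intro v hv
    rw [hS'] at hv
    exact (rf_diff hr hφ hv.1).differentiableWithinAt
  have hinf : (φ '' S).Infinite := by
    have h1 : S.Infinite := infinite_of_mem_nhds 1 (hSo.mem_nhds h1S)
    exact h1.image (hinj.mono hSr)
  have hQS : ∀ v ∈ S, Q.evalEval (φ v) (Rf φ v) = 0 := by
    intro v hv
    rw [hS'] at hv
    exact circle_ann hr hφ Q hb v hv.1 hv.2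
  obtain ⟨P, hP, hPQ, hPS⟩ := irr_factor hSo hSc ⟨1, h1S⟩ (hφ.mono hSr) hRd Q hQ hQS
  have hn := natDegree_pos_of_ann hP.ne_zero hinf hPS
  have hbP : ∀ v : ℂ, ‖v‖ = 1 → P.evalEval (φ v) (conj (φ v)) = 0 := by
    intro v hv
    have h1 : 1 / conj v = v := by
      have h2 : v * conj v = 1 := by
        rw [Complex.mul_conj, Complex.normSq_eq_norm_sq, hv]
        norm_num
      have h3 : conj v ≠ 0 := by
        intro h0
        rw [h0, mul_zero] at h2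
        exact zero_ne_one h2
      rw [div_eq_iff h3, h2]
    have h2 := hPS v (by
      rw [hS', mem_ofPred_eq, hv]
      exact ⟨inv_lt_one_of_one_lt₀ hr, hr⟩)
    rwa [Rf, h1] at h2
  -- the conjugate polynomial
  have hdvd : P ∣ Polynomial.Bivariate.swap (cj P) := by
    refine dvd_of_ann hP hn hinf hPS fun v hv => ?_
    rw [hS'] at hv
    refine circle_ann hr hφ _ (fun v hv => ?_) v hv.1 hv.2
    rw [swap_eval]
    have h1 := cj_eval P (φ v) (conj (φ v))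
    rw [hbP v hv, map_zero, Complex.conj_conj] at h1
    exact h1
  have hd : ∀ b, (P.coeff b).natDegree ≤ P.natDegree := fun b =>
    (coeff_swap_le P b).trans (swap_degree_le hP.ne_zero hdvd)
  have hcj0 : ∀ R : Polynomial (Polynomial ℂ), R ≠ 0 → cj R ≠ 0 := by
    intro R hR
    rw [cj, Ne, Polynomial.map_eq_zero_iff
      (Polynomial.map_injective _ (RingHom.injective (starRingEnd ℂ)))]
    exact hR
  have hsw0 : ∀ R : Polynomial (Polynomial ℂ), R ≠ 0 → Polynomial.Bivariate.swap R ≠ 0 := by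
    intro R hR
    rw [Ne, EmbeddingLike.map_eq_zero_iff]
    exact hR
  have hn1 : P.natDegree ≤ Q.natDegree := Polynomial.natDegree_le_of_dvd hPQ hQ
  have hn2 : P.natDegree ≤ (Polynomial.Bivariate.swap Q).natDegree := by
    have h1 : cj P ∣ cj Q := Polynomial.map_dvd _ hPQ
    have h2 : P ∣ Polynomial.Bivariate.swap (cj Q) :=
      hdvd.trans (map_dvd (Polynomial.Bivariate.swap (R := ℂ)) h1)
    exact (Polynomial.natDegree_le_of_dvd h2 (hsw0 _ (hcj0 Q hQ))).trans (swap_cj_le Q)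
  have hlead : P.leadingCoeff ∣ Q.leadingCoeff := by
    obtain ⟨K, hK⟩ := hPQ
    rw [hK, Polynomial.leadingCoeff_mul]
    exact dvd_mul_right _ _
  rcases alg_main2 hr hφ hinj hlam hc hS hP hn hd hbP with h | h
  · exact Or.inl h
  · right
    obtain ⟨z0, C, q, j, j', h1, h2, h3, h4, h5, h6, h7, h8, h9, h10, h11, h12, h13⟩ := h
    exact ⟨z0, C, q, j, j', h1, h2, h3, h4, h5, h6, h7, h8.trans hlead, by omega, by omega, h10,
      h11, h12, h13⟩

theorem boundary_sub {φ : ℂ → ℂ} {r : ℝ} (hr : 1 < r) (hφ : DifferentiableOn ℂ φ (ball 0 r))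
    (hinj : InjOn φ (ball 0 r)) {v : ℂ} (hv : ‖v‖ = 1) : φ v ∈ frontier (φ '' ball 0 1) := by
  obtain ⟨ho, -⟩ := inv_exists φ r hr hφ hinj
  rw [ho.frontier_eq]
  have hvr : v ∈ ball (0 : ℂ) r := by rw [mem_ball_zero_iff, hv]; exact hr
  refine ⟨?_, ?_⟩
  · have h1 : v ∈ closure (ball (0 : ℂ) 1) := by
      rw [closure_ball (0 : ℂ) one_ne_zero, mem_closedBall_zero_iff, hv]
    have h2 : ContinuousWithinAt φ (ball 0 1) v :=
      (hφ.continuousOn.continuousAt (isOpen_ball.mem_nhds hvr)).continuousWithinAt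
    exact h2.mem_closure_image h1
  · rintro ⟨u, hu, huv⟩
    have h1 := hinj (ball_subset_ball hr.le hu) hvr huv
    rw [mem_ball_zero_iff, h1, hv] at hu
    exact lt_irrefl _ hu

/-- real algebraic curves of degree at most seven -/
theorem alg_seven {φ : ℂ → ℂ} {r lam c : ℝ} {u : ℂ → ℝ} {U : ℂ → ℂ} (hr : 1 < r)
    (hφ : DifferentiableOn ℂ φ (ball 0 r)) (hinj : InjOn φ (ball 0 r)) (hlam : 0 < lam)
    (hc : c ≠ 0) (hS : Sol (φ '' ball 0 1) lam c u U) {p : MvPolynomial (Fin 2) ℝ} (hp : p ≠ 0)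
    (hd : p.totalDegree ≤ 7)
    (hb : ∀ ζ ∈ frontier (φ '' ball 0 1), MvPolynomial.eval ![ζ.re, ζ.im] p = 0) :
    ∃ (p : ℂ) (r0 : ℝ), 0 < r0 ∧ φ '' ball 0 1 = ball p r0 := by
  rcases alg_main hr hφ hinj hlam hc hS (zw_ne hp) (fun v hv => by
    rw [zw_eval, hb _ (boundary_sub hr hφ hinj hv), Complex.ofReal_zero]) with h | h
  · exact h
  · exfalso
    obtain ⟨z0, C, q, j, j', h1, h2, h3, h4, h5, h6, h7, h8, h9, h10⟩ := h
    have h11 := dg_lead (zw_ne hp) (zw_dg p)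
    have h12 := Polynomial.natDegree_le_of_dvd h8
      (Polynomial.leadingCoeff_ne_zero.2 (zw_ne hp))
    rw [Polynomial.natDegree_pow, Polynomial.natDegree_X_sub_C, mul_one] at h12
    omega

end Run7.h367.SF
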