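import Mathlib.Analysis.Complex.CauchyIntegral
import Mathlib.Analysis.Analytic.Uniqueness
import Mathlib.Analysis.Complex.Convex
import Mathlib.Analysis.SpecialFunctions.Complex.Log

/-!
Extension of periodic functions from a strip to a half-plane.
-/

set_option autoImplicit false

open Set Filter Topology Metric

namespace Run7.h367.SF

/-- the strip `x < Re s < 0` -/
def Str (x : ℝ) : Set ℂ := {s : ℂ | x < s.re ∧ s.re < 0}

theorem str_open (x : ℝ) : IsOpen (Str x) :=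
  (isOpen_lt continuous_const Complex.continuous_re).inter
    (isOpen_lt Complex.continuous_re continuous_const)

theorem str_convex (x : ℝ) : Convex ℝ (Str x) :=
  (convex_halfSpace_re_gt x).inter (convex_halfSpace_re_lt 0)

theorem str_mono {x y : ℝ} (h : x ≤ y) : Str y ⊆ Str x := fun _ hs => ⟨h.trans_lt hs.1, hs.2⟩

theorem str_mem {x : ℝ} (hx : x < 0) : ((x / 2 : ℝ) : ℂ) ∈ Str x := by
  refine ⟨?_, ?_⟩
  · rw [Complex.ofReal_re]; linarith
  · rw [Complex.ofReal_re]; linarith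

/-- two functions on a strip -/
theorem str_eq {x x0 : ℝ} (hx : x ≤ x0) (hx0 : x0 < 0) {X Y : ℂ → ℂ}
    (hX : DifferentiableOn ℂ X (Str x)) (hY : DifferentiableOn ℂ Y (Str x))
    (h : ∀ s ∈ Str x0, X s = Y s) : EqOn X Y (Str x) := by
  refine (hX.analyticOnNhd (str_open x)).eqOn_of_preconnected_of_eventuallyEq
    (hY.analyticOnNhd (str_open x)) (str_convex x).isPreconnected (str_mono hx (str_mem hx0)) ?_
  filter_upwards [(str_open x0).mem_nhds (str_mem hx0)] with s hs using h s hs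

theorem str_shift {x : ℝ} {s : ℂ} (hs : s ∈ Str x) (k : ℤ) :
    s + k * (2 * Real.pi * Complex.I) ∈ Str x := by
  have h : (s + k * (2 * Real.pi * Complex.I)).re = s.re := by simp
  exact ⟨by rw [h]; exact hs.1, by rw [h]; exact hs.2⟩

/-- local extensions of uniform size -/
theorem uniform_ext {x : ℝ} {X : ℂ → ℂ}
    (hper : ∀ s ∈ Str x, X (s + 2 * Real.pi * Complex.I) = X s)
    (H : ∀ s0 : ℂ, s0.re = x → ∃ ε > 0, ∃ E : ℂ → ℂ, DifferentiableOn ℂ E (ball s0 ε) ∧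
      ∀ s ∈ ball s0 ε ∩ Str x, E s = X s) :
    ∃ δ > 0, ∀ s0 : ℂ, s0.re = x → ∃ E : ℂ → ℂ, DifferentiableOn ℂ E (ball s0 δ) ∧
      ∀ s ∈ ball s0 δ ∩ Str x, E s = X s := by
  have hperk : ∀ (k : ℤ), ∀ s ∈ Str x, X (s + k * (2 * Real.pi * Complex.I)) = X s := by
    have hn : ∀ (k : ℕ), ∀ s ∈ Str x, X (s + k * (2 * Real.pi * Complex.I)) = X s := by
      intro k
      induction k with
      | zero => intro s _; simp
      | succ k ih =>
        intro s hs
        have h1 := hper _ (str_shift hs k)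
        rw [Int.cast_natCast] at h1
        rw [← ih s hs, ← h1]
        congr 1
        push_cast
        ring
    intro k s hs
    obtain ⟨m, rfl | rfl⟩ := k.eq_nat_or_neg
    · exact_mod_cast hn m s hs
    · have h1 := hn m _ (str_shift hs (-(m : ℤ)))
      rw [← h1]
      congr 1
      push_cast
      ring
  obtain ⟨K, hK⟩ : ∃ K : Set ℂ, K = (fun y : ℝ => (x : ℂ) + y * Complex.I) '' Icc 0 (2 * Real.pi) :=
    ⟨_, rfl⟩
  have hKc : IsCompact K := by
    rw [hK]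
    refine isCompact_Icc.image ?_
    fun_prop
  have hKr : ∀ s ∈ K, s.re = x := by
    intro s hs
    rw [hK] at hs
    obtain ⟨y, -, rfl⟩ := hs
    simp
  choose! ε hε E hE using H
  obtain ⟨δ, hδ, hδ'⟩ := lebesgue_number_lemma_of_metric (c := fun i : K => ball (i : ℂ) (ε i)) hKc
    (fun _ => isOpen_ball) (fun s hs => mem_iUnion.2 ⟨⟨s, hs⟩, mem_ball_self (hε s (hKr s hs))⟩)
  refine ⟨δ, hδ, fun s0 hs0 => ?_⟩
  obtain ⟨k, hk⟩ : ∃ k : ℤ, k = ⌊s0.im / (2 * Real.pi)⌋ := ⟨_, rfl⟩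
  have hpi := Real.pi_pos
  obtain ⟨s1, hs1⟩ : ∃ s1 : ℂ, s1 = s0 - k * (2 * Real.pi * Complex.I) := ⟨_, rfl⟩
  have hs1K : s1 ∈ K := by
    rw [hK]
    refine ⟨s0.im - k * (2 * Real.pi), ⟨?_, ?_⟩, ?_⟩
    · have h1 := Int.floor_le (s0.im / (2 * Real.pi))
      rw [← hk, le_div_iff₀ (by positivity)] at h1
      linarith
    · have h1 := Int.lt_floor_add_one (s0.im / (2 * Real.pi))
      rw [← hk, div_lt_iff₀ (by positivity)] at h1
      linarith
    · rw [hs1]
      apply Complex.ext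
      · simp [hs0]
      · simp
  obtain ⟨i, hi⟩ := hδ' s1 hs1K
  obtain ⟨hE1, hE2⟩ := hE i (hKr i i.2)
  refine ⟨fun s => E i (s - k * (2 * Real.pi * Complex.I)), ?_, ?_⟩
  · refine hE1.comp (by fun_prop) fun s hs => hi ?_
    rw [hs1, mem_ball, dist_sub_right]
    exact hs
  · rintro s ⟨hsb, hss⟩
    have h1 : s - k * (2 * Real.pi * Complex.I) ∈ Str x := by
      have := str_shift hss (-k)
      rwa [Int.cast_neg, neg_mul, ← sub_eq_add_neg] at this
    simp only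
    rw [hE2 _ ⟨hi ?_, h1⟩, ← hperk k _ h1, sub_add_cancel]
    rw [hs1, mem_ball, dist_sub_right]
    exact hsb

/-- extension to a bigger strip -/
theorem strip_step {x : ℝ} (hx : x < 0) {X : ℂ → ℂ} (hX : DifferentiableOn ℂ X (Str x)) {δ : ℝ}
    (hδ : 0 < δ) (H : ∀ s0 : ℂ, s0.re = x → ∃ E : ℂ → ℂ, DifferentiableOn ℂ E (ball s0 δ) ∧
      ∀ s ∈ ball s0 δ ∩ Str x, E s = X s) :
    ∃ Y : ℂ → ℂ, DifferentiableOn ℂ Y (Str (x - δ)) ∧ ∀ s ∈ Str x, Y s = X s := by
  classical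
  choose! E hE1 hE2 using H
  obtain ⟨p, hp⟩ : ∃ p : ℂ → ℂ, p = fun s => (x : ℂ) + s.im * Complex.I := ⟨_, rfl⟩
  have hpr : ∀ s, (p s).re = x := by intro s; rw [hp]; simp
  have hpi : ∀ s, (p s).im = s.im := by intro s; rw [hp]; simp
  have hps : ∀ s, x - δ < s.re → s.re ≤ x → s ∈ ball (p s) δ := by
    intro s h1 h2
    rw [mem_ball_iff_norm]
    have h3 : s - p s = ((s.re - x : ℝ) : ℂ) := by
      apply Complex.ext
      · simp [hpr]
      · simp [hpi]
    rw [h3, Complex.norm_real, Real.norm_eq_abs, abs_lt]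
    constructor <;> linarith
  refine ⟨fun s => if x < s.re then X s else E (p s) s, fun s1 hs1 => ?_, fun s hs => if_pos hs.1⟩
  apply DifferentiableAt.differentiableWithinAt
  rcases lt_or_ge x s1.re with h1 | h1
  · refine (hX.differentiableAt ((str_open x).mem_nhds ⟨h1, hs1.2⟩)).congr_of_eventuallyEq ?_
    filter_upwards [(isOpen_lt continuous_const Complex.continuous_re).mem_nhds h1] with s hs
    exact if_pos hs
  · have hb := hps s1 hs1.1 h1
    refine ((hE1 (p s1) (hpr s1)).differentiableAt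
      (isOpen_ball.mem_nhds hb)).congr_of_eventuallyEq ?_
    filter_upwards [isOpen_ball.mem_nhds hb, (str_open (x - δ)).mem_nhds hs1] with s hsb hss
    by_cases h2 : x < s.re
    · rw [if_pos h2]
      exact (hE2 (p s1) (hpr s1) s ⟨hsb, h2, hss.2⟩).symm
    · rw [if_neg h2]
      have h3 := hps s hss.1 (not_lt.1 h2)
      -- both extensions agree on the intersection of the discs
      obtain ⟨τ, hτ⟩ : ∃ τ : ℝ, τ = min (δ / 4) (-x / 2) := ⟨_, rfl⟩
      have hτ0 : 0 < τ := by rw [hτ]; exact lt_min (by linarith) (by linarith)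
      have hτ1 : τ ≤ δ / 4 := by rw [hτ]; exact min_le_left _ _
      have hτ2 : τ ≤ -x / 2 := by rw [hτ]; exact min_le_right _ _
      have him : |s.im - s1.im| < δ := by
        have h4 := Complex.abs_im_le_norm (s - p s1)
        rw [mem_ball_iff_norm] at hsb
        rw [Complex.sub_im, hpi] at h4
        linarith
      obtain ⟨m, hm⟩ : ∃ m : ℂ, m = ((x + τ : ℝ) : ℂ) + (((s.im + s1.im) / 2 : ℝ) : ℂ) *
        Complex.I := ⟨_, rfl⟩
      have hmr : m.re = x + τ := by rw [hm]; simp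
      have hmi : m.im = (s.im + s1.im) / 2 := by
        rw [hm, Complex.add_im, Complex.ofReal_im, Complex.im_ofReal_mul, Complex.I_im]
        ring
      have hmb : ∀ s' : ℂ, |m.im - s'.im| < δ / 2 → m ∈ ball (p s') δ := by
        intro s' h5
        rw [mem_ball_iff_norm]
        refine (Complex.norm_le_abs_re_add_abs_im _).trans_lt ?_
        rw [Complex.sub_re, Complex.sub_im, hmr, hpr, hpi, add_sub_cancel_left, abs_of_pos hτ0]
        linarith
      have hm1 : m ∈ ball (p s1) δ := hmb s1 (by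
        rw [hmi, show (s.im + s1.im) / 2 - s1.im = (s.im - s1.im) / 2 by ring, abs_div]
        rw [abs_of_pos (by norm_num : (0 : ℝ) < 2)]
        linarith)
      have hm2 : m ∈ ball (p s) δ := hmb s (by
        rw [hmi, show (s.im + s1.im) / 2 - s.im = -((s.im - s1.im) / 2) by ring, abs_neg, abs_div]
        rw [abs_of_pos (by norm_num : (0 : ℝ) < 2)]
        linarith)
      have hms : m ∈ Str x := ⟨by rw [hmr]; linarith, by rw [hmr]; linarith⟩
      obtain ⟨B, hB⟩ : ∃ B : Set ℂ, B = ball (p s) δ ∩ ball (p s1) δ := ⟨_, rfl⟩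
      have hBo : IsOpen B := by rw [hB]; exact isOpen_ball.inter isOpen_ball
      have hBc : IsPreconnected B := by
        rw [hB]
        exact ((convex_ball _ _).inter (convex_ball _ _)).isPreconnected
      have h6 : EqOn (E (p s)) (E (p s1)) B := by
        refine (((hE1 (p s) (hpr s)).mono (by rw [hB]; exact
          inter_subset_left)).analyticOnNhd hBo).eqOn_of_preconnected_of_eventuallyEq
          (((hE1 (p s1) (hpr s1)).mono (by rw [hB]; exact
          inter_subset_right)).analyticOnNhd hBo) hBc (z₀ := m) (by rw [hB]; exact ⟨hm2, hm1⟩) ?_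
        filter_upwards [isOpen_ball.mem_nhds hm1, isOpen_ball.mem_nhds hm2,
          (str_open x).mem_nhds hms] with s' e1 e2 e3
        rw [hE2 (p s) (hpr s) s' ⟨e2, e3⟩, hE2 (p s1) (hpr s1) s' ⟨e1, e3⟩]
      exact h6 (by rw [hB]; exact ⟨h3, hsb⟩)

/-- extension to the half-plane -/
theorem strip_all {f0 : ℂ → ℂ} {x0 : ℝ} (hx0 : x0 < 0) (hf0 : DifferentiableOn ℂ f0 (Str x0))
    (hper : ∀ s ∈ Str x0, f0 (s + 2 * Real.pi * Complex.I) = f0 s)
    (H : ∀ x ≤ x0, ∀ X : ℂ → ℂ, DifferentiableOn ℂ X (Str x) → (∀ s ∈ Str x0, X s = f0 s) →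
      (∀ s ∈ Str x, X (s + 2 * Real.pi * Complex.I) = X s) → ∀ s0 : ℂ, s0.re = x →
      ∃ ε > 0, ∃ E : ℂ → ℂ, DifferentiableOn ℂ E (ball s0 ε) ∧
      ∀ s ∈ ball s0 ε ∩ Str x, E s = X s) :
    ∃ X : ℂ → ℂ, DifferentiableOn ℂ X {s : ℂ | s.re < 0} ∧ (∀ s ∈ Str x0, X s = f0 s) ∧
      ∀ s : ℂ, s.re < 0 → X (s + 2 * Real.pi * Complex.I) = X s := by
  -- periodicity
  have hperX : ∀ x ≤ x0, ∀ X : ℂ → ℂ, DifferentiableOn ℂ X (Str x) →
      (∀ s ∈ Str x0, X s = f0 s) → ∀ s ∈ Str x, X (s + 2 * Real.pi * Complex.I) = X s := by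
    intro x hx X hX hXf
    have hm : ∀ y : ℝ, ∀ s ∈ Str y, s + 2 * Real.pi * Complex.I ∈ Str y := by
      intro y s hs
      have := str_shift hs 1
      rwa [Int.cast_one, one_mul] at this
    refine str_eq hx hx0 (hX.comp (by fun_prop) (hm x)) hX fun s hs => ?_
    rw [hXf _ (hm x0 s hs), hXf s hs, hper s hs]
  obtain ⟨𝒳, h𝒳⟩ : ∃ 𝒳 : Set ℝ, 𝒳 = {x | x ≤ x0 ∧ ∃ X : ℂ → ℂ, DifferentiableOn ℂ X (Str x) ∧
    ∀ s ∈ Str x0, X s = f0 s} := ⟨_, rfl⟩
  have hx0m : x0 ∈ 𝒳 := by rw [h𝒳]; exact ⟨le_rfl, f0, hf0, fun _ _ => rfl⟩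
  -- glueing
  obtain ⟨W, hW⟩ : ∃ W : Set ℂ, W = {s : ℂ | s.re < 0 ∧ ∃ x ∈ 𝒳, x < s.re} := ⟨_, rfl⟩
  have hglue : ∃ X : ℂ → ℂ, DifferentiableOn ℂ X W ∧ ∀ s ∈ Str x0, X s = f0 s := by
    have hc : ∀ s : ℂ, ∃ x : ℝ, s ∈ W → x ∈ 𝒳 ∧ x < s.re := by
      intro s
      by_cases hs : s ∈ W
      · have hs' := hs
        rw [hW] at hs'
        obtain ⟨-, x, h1, h2⟩ := hs'
        exact ⟨x, fun _ => ⟨h1, h2⟩⟩
      · exact ⟨0, fun h => absurd h hs⟩
    choose x hx using hc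
    have hc2 : ∀ y : ℝ, ∃ X : ℂ → ℂ, y ∈ 𝒳 → DifferentiableOn ℂ X (Str y) ∧
        ∀ s ∈ Str x0, X s = f0 s := by
      intro y
      by_cases hy : y ∈ 𝒳
      · have hy' := hy
        rw [h𝒳] at hy'
        obtain ⟨-, X, h1, h2⟩ := hy'
        exact ⟨X, fun _ => ⟨h1, h2⟩⟩
      · exact ⟨0, fun h => absurd h hy⟩
    choose X hX using hc2
    have hle : ∀ y ∈ 𝒳, y ≤ x0 := by
      intro y hy
      rw [h𝒳] at hy
      exact hy.1
    have hcons : ∀ y ∈ 𝒳, ∀ s ∈ W, y < s.re → X (x s) s = X y s := by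
      intro y hy s hs hys
      obtain ⟨h1, h2⟩ := hx s hs
      have h3 : max y (x s) ≤ x0 := max_le (hle y hy) (hle _ h1)
      have h4 := str_eq h3 hx0 ((hX _ h1).1.mono (str_mono (le_max_right y (x s))))
        ((hX y hy).1.mono (str_mono (le_max_left y (x s))))
        (fun s' hs' => by rw [(hX _ h1).2 s' hs', (hX y hy).2 s' hs'])
      have hs0 : s.re < 0 := by
        rw [hW] at hs
        exact hs.1
      exact h4 ⟨max_lt hys h2, hs0⟩
    refine ⟨fun s => X (x s) s, fun s hs => ?_, fun s hs => ?_⟩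
    · obtain ⟨h1, h2⟩ := hx s hs
      have hs0 : s.re < 0 := by
        rw [hW] at hs
        exact hs.1
      apply DifferentiableAt.differentiableWithinAt
      refine ((hX _ h1).1.differentiableAt ((str_open _).mem_nhds
        ⟨h2, hs0⟩)).congr_of_eventuallyEq ?_
      filter_upwards [(str_open (x s)).mem_nhds (show s ∈ Str (x s) from ⟨h2, hs0⟩)] with s' hs'
      exact hcons _ h1 s' (by rw [hW]; exact ⟨hs'.2, _, h1, hs'.1⟩) hs'.1
    · have hsW : s ∈ W := by rw [hW]; exact ⟨hs.2, x0, hx0m, hs.1⟩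
      simp only
      rw [hcons x0 hx0m s hsW hs.1]
      exact (hX x0 hx0m).2 s hs
  obtain ⟨X, hX, hXf⟩ := hglue
  by_cases hbd : BddBelow 𝒳
  · exfalso
    obtain ⟨y, hy⟩ : ∃ y : ℝ, y = sInf 𝒳 := ⟨_, rfl⟩
    have hyx0 : y ≤ x0 := by rw [hy]; exact csInf_le hbd hx0m
    have hsub : Str y ⊆ W := by
      intro s hs
      rw [hW]
      refine ⟨hs.2, ?_⟩
      have h1 := hs.1
      rw [hy] at h1
      exact exists_lt_of_csInf_lt ⟨x0, hx0m⟩ h1
    have hXy := hX.mono hsub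
    have hp := hperX y hyx0 X hXy hXf
    obtain ⟨δ, hδ, hδ'⟩ := uniform_ext hp (H y hyx0 X hXy hXf hp)
    obtain ⟨Y, hY, hYX⟩ := strip_step (by linarith) hXy hδ hδ'
    have h1 : y - δ ∈ 𝒳 := by
      rw [h𝒳]
      refine ⟨by linarith, Y, hY, fun s hs => ?_⟩
      rw [hYX s (str_mono hyx0 hs), hXf s hs]
    have h2 := csInf_le hbd h1
    rw [← hy] at h2
    linarith
  · have hall : {s : ℂ | s.re < 0} ⊆ W := by
      intro s hs
      rw [hW]
      refine ⟨hs, ?_⟩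
      rw [not_bddBelow_iff] at hbd
      exact hbd s.re
    have hX' := hX.mono hall
    refine ⟨X, hX', hXf, fun s hs => ?_⟩
    obtain ⟨z, hz⟩ : ∃ z : ℝ, z = min x0 (s.re - 1) := ⟨_, rfl⟩
    have h1 : z ≤ x0 := by rw [hz]; exact min_le_left _ _
    have h2 : z < s.re := by
      have : z ≤ s.re - 1 := by rw [hz]; exact min_le_right _ _
      linarith
    exact hperX z h1 X (hX'.mono fun s' hs' => hs'.2) hXf s ⟨h2, hs⟩

end Run7.h367.SF
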