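import Pool.Agent.Run7.h367.ALoc2
import Pool.Agent.Run7.h367.Strip

/-!
Global extension of the reflected map.
-/

set_option autoImplicit false

open Complex MeasureTheory Metric Set Filter Topology ComplexConjugate
open Pool.Agent.Y245.SC Pool.Agent.Y245.UC
open Pool.Agent.TH298.Sch (Sol)
open Pool.Agent.Y245.SG (Bn)

namespace Run7.h367.SF

/-- periodic functions on a strip are functions on the annulus -/
theorem per_desc_strip {x : ℝ} {X : ℂ → ℂ} (hX : DifferentiableOn ℂ X (Str x))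
    (hper : ∀ s ∈ Str x, X (s + 2 * Real.pi * I) = X s) :
    ∃ F : ℂ → ℂ, DifferentiableOn ℂ F {v : ℂ | Real.exp x < ‖v‖ ∧ ‖v‖ < 1} ∧
      ∀ s ∈ Str x, F (exp s) = X s := by
  have hperk : ∀ (k : ℤ), ∀ s ∈ Str x, X (s + k * (2 * Real.pi * I)) = X s := by
    have hn : ∀ (k : ℕ), ∀ s ∈ Str x, X (s + k * (2 * Real.pi * I)) = X s := by
      intro k
      induction k with
      | zero => intro s _; simp
      | succ k ih =>
        intro s hs
        have h1 := hper _ (str_shift hs k)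
        rw [Int.cast_natCast] at h1
        rw [← ih s hs, ← h1]
        congr 1
        push_cast
        ring
    intro k s hs
    obtain ⟨m, rfl | rfl⟩ := k.eq_nat_or_neg
    · exact_mod_cast hn m s hs
    · have h1 := hn m _ (str_shift hs (-(m : ℤ)))
      rw [← h1]
      congr 1
      push_cast
      ring
  have hlog : ∀ v : ℂ, Real.exp x < ‖v‖ → ‖v‖ < 1 → Complex.log v ∈ Str x := by
    intro v h1 h2
    have h0 : 0 < ‖v‖ := (Real.exp_pos x).trans h1
    refine ⟨?_, ?_⟩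
    · rw [Complex.log_re]
      exact (Real.lt_log_iff_exp_lt h0).2 h1
    · rw [Complex.log_re]
      exact Real.log_neg h0 h2
  have hval : ∀ s ∈ Str x, X (Complex.log (exp s)) = X s := by
    intro s hs
    have e1 : exp (Complex.log (exp s)) = exp s := Complex.exp_log (Complex.exp_ne_zero s)
    obtain ⟨n, hn⟩ := Complex.exp_eq_exp_iff_exists_int.1 e1
    rw [hn]
    exact hperk n s hs
  refine ⟨fun v => X (Complex.log v), fun v hv => ?_, hval⟩
  obtain ⟨h1, h2⟩ := hv
  have h0 : v ≠ 0 := norm_pos_iff.1 ((Real.exp_pos x).trans h1)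
  apply DifferentiableAt.differentiableWithinAt
  obtain ⟨t, ht⟩ : ∃ t : ℂ, t = Complex.log v := ⟨_, rfl⟩
  have het : exp t = v := by rw [ht, Complex.exp_log h0]
  have htm : t ∈ Str x := by rw [ht]; exact hlog v h1 h2
  have hl : DifferentiableAt ℂ (fun y : ℂ => t + Complex.log (y / v)) v := by
    refine (differentiableAt_const _).add ?_
    refine DifferentiableAt.clog (by fun_prop) ?_
    rw [div_self h0]
    exact Complex.one_mem_slitPlane
  have hv1 : t + Complex.log (v / v) = t := by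
    rw [div_self h0, Complex.log_one, add_zero]
  have hcomp : DifferentiableAt ℂ (fun y : ℂ => X (t + Complex.log (y / v))) v := by
    refine DifferentiableAt.comp (g := X) (f := fun y : ℂ => t + Complex.log (y / v)) v ?_ hl
    rw [hv1]
    exact hX.differentiableAt ((str_open x).mem_nhds htm)
  refine hcomp.congr_of_eventuallyEq ?_
  have h3 : ∀ᶠ y in 𝓝 v, t + Complex.log (y / v) ∈ Str x := by
    refine hl.continuousAt.eventually_mem ?_
    rw [hv1]
    exact (str_open x).mem_nhds htm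
  filter_upwards [h3, isOpen_ne.mem_nhds h0] with y hy hy0
  have e1 : exp (t + Complex.log (y / v)) = y := by
    rw [Complex.exp_add, het, Complex.exp_log (div_ne_zero hy0 h0)]
    field_simp
  have h4 := hval _ hy
  rw [e1] at h4
  exact h4

theorem annulus_image (x y : ℝ) : {v : ℂ | Real.exp x < ‖v‖ ∧ ‖v‖ < Real.exp y} =
    exp '' {s : ℂ | x < s.re ∧ s.re < y} := by
  ext v
  constructor
  · rintro ⟨h1, h2⟩
    have h0 : 0 < ‖v‖ := (Real.exp_pos x).trans h1
    refine ⟨Complex.log v, ⟨?_, ?_⟩, Complex.exp_log (norm_pos_iff.1 h0)⟩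
    · rw [Complex.log_re]
      exact (Real.lt_log_iff_exp_lt h0).2 h1
    · rw [Complex.log_re]
      exact (Real.log_lt_iff_lt_exp h0).2 h2
  · rintro ⟨s, ⟨h1, h2⟩, rfl⟩
    rw [mem_ofPred_eq, Complex.norm_exp]
    exact ⟨Real.exp_lt_exp.2 h1, Real.exp_lt_exp.2 h2⟩

theorem annulus_conn (x y : ℝ) : IsPreconnected {v : ℂ | Real.exp x < ‖v‖ ∧ ‖v‖ < Real.exp y} := by
  rw [annulus_image]
  have h1 : Convex ℝ {s : ℂ | x < s.re ∧ s.re < y} :=
    (convex_halfSpace_re_gt x).inter (convex_halfSpace_re_lt y)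
  exact h1.isPreconnected.image _ Complex.continuous_exp.continuousOn

theorem annulus_open (x y : ℝ) : IsOpen {v : ℂ | x < ‖v‖ ∧ ‖v‖ < y} :=
  (isOpen_lt continuous_const continuous_norm).inter (isOpen_lt continuous_norm continuous_const)

/-- univalent functions whose reflection extends do not exist -/
theorem no_ext {φ : ℂ → ℂ} {r : ℝ} (hr : 1 < r) (hφ : DifferentiableOn ℂ φ (ball 0 r))
    (hinj : InjOn φ (ball 0 r)) {E : ℂ → ℂ} (hE : DifferentiableOn ℂ E (ball 0 1))
    (h : ∀ v : ℂ, r⁻¹ < ‖v‖ → ‖v‖ < 1 → E v = Rf φ v) : False := by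
  classical
  have hr0 : 0 < r := by linarith
  obtain ⟨R, hR⟩ : ∃ R : ℂ → ℂ, R = fun w => conj (E (1 / conj w)) := ⟨_, rfl⟩
  have hRφ : ∀ w : ℂ, 1 < ‖w‖ → ‖w‖ < r → R w = φ w := by
    intro w h1 h2
    have hw0 : 0 < ‖w‖ := by linarith
    have hn : ‖1 / conj w‖ = ‖w‖⁻¹ := by rw [one_div, norm_inv, RCLike.norm_conj]
    rw [hR]
    simp only
    rw [h (1 / conj w) (by rw [hn]; exact inv_strictAnti₀ hw0 h2)
      (by rw [hn]; exact inv_lt_one_of_one_lt₀ h1), Rf]
    simp
  have hRd : ∀ w : ℂ, 1 < ‖w‖ → DifferentiableAt ℂ R w := by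
    intro w h1
    have hw0 : w ≠ 0 := norm_pos_iff.1 (by linarith)
    have h3 : DifferentiableAt ℂ (conj ∘ E ∘ conj) (w⁻¹) := by
      rw [differentiableAt_conj_conj_iff]
      refine hE.differentiableAt (isOpen_ball.mem_nhds ?_)
      rw [mem_ball_zero_iff, RCLike.norm_conj, norm_inv]
      exact inv_lt_one_of_one_lt₀ h1
    have h4 : R = (conj ∘ E ∘ conj) ∘ (fun v : ℂ => v⁻¹) := by
      funext x
      rw [hR]
      simp only [Function.comp_apply, map_inv₀, one_div]
    rw [h4]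
    exact h3.comp w (differentiableAt_inv hw0)
  obtain ⟨Φ, hΦ⟩ : ∃ Φ : ℂ → ℂ, Φ = fun w => if ‖w‖ < r then φ w else R w := ⟨_, rfl⟩
  have hΦR : ∀ w : ℂ, 1 < ‖w‖ → Φ w = R w := by
    intro w h1
    rw [hΦ]
    simp only
    by_cases h2 : ‖w‖ < r
    · rw [if_pos h2, hRφ w h1 h2]
    · rw [if_neg h2]
  have hΦφ : ∀ w : ℂ, ‖w‖ < r → Φ w = φ w := by
    intro w h1
    rw [hΦ]
    exact if_pos h1
  have hd : Differentiable ℂ Φ := by
    intro w
    by_cases h1 : ‖w‖ < r
    · have hw : w ∈ ball (0 : ℂ) r := by rwa [mem_ball_zero_iff]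
      refine (hφ.differentiableAt (isOpen_ball.mem_nhds hw)).congr_of_eventuallyEq ?_
      filter_upwards [isOpen_ball.mem_nhds hw] with v hv
      exact hΦφ v (by rwa [mem_ball_zero_iff] at hv)
    · have h2 : 1 < ‖w‖ := by linarith
      refine (hRd w h2).congr_of_eventuallyEq ?_
      filter_upwards [(isOpen_lt continuous_const continuous_norm).mem_nhds h2] with v hv
      exact hΦR v hv
  obtain ⟨ρ, hρ1, hρ2⟩ : ∃ ρ : ℝ, 1 < ρ ∧ ρ < r := exists_between hr
  obtain ⟨B1, hB1⟩ := (isCompact_closedBall (0 : ℂ) ρ).exists_bound_of_continuousOn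
    hd.continuous.continuousOn
  obtain ⟨B2, hB2⟩ := (isCompact_closedBall (0 : ℂ) ρ⁻¹).exists_bound_of_continuousOn
    (hE.continuousOn.mono (closedBall_subset_ball (inv_lt_one_of_one_lt₀ hρ1)))
  have hbd : Bornology.IsBounded (range Φ) := by
    refine isBounded_iff_forall_norm_le.2 ⟨max B1 B2, ?_⟩
    rintro _ ⟨w, rfl⟩
    by_cases h1 : ‖w‖ ≤ ρ
    · exact (hB1 w (by rwa [mem_closedBall_zero_iff])).trans (le_max_left _ _)
    · rw [not_le] at h1
      rw [hΦR w (by linarith), hR]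
      simp only
      rw [RCLike.norm_conj]
      refine (hB2 _ ?_).trans (le_max_right _ _)
      rw [mem_closedBall_zero_iff, one_div, norm_inv, RCLike.norm_conj]
      exact inv_anti₀ (by linarith) h1.le
  have h1 := hd.apply_eq_apply_of_bounded hbd 0 (1 / 2)
  have h2 : ‖(1 / 2 : ℂ)‖ = 1 / 2 := by norm_num
  rw [hΦφ 0 (by rw [norm_zero]; exact hr0), hΦφ (1 / 2) (by rw [h2]; linarith)] at h1
  have h3 := hinj (mem_ball_self hr0) (by rw [mem_ball_zero_iff, h2]; linarith) h1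
  norm_num at h3

theorem rf_diff {φ : ℂ → ℂ} {r : ℝ} (hr : 1 < r) (hφ : DifferentiableOn ℂ φ (ball 0 r)) {v : ℂ}
    (hv : r⁻¹ < ‖v‖) : DifferentiableAt ℂ (Rf φ) v := by
  have hr0 : 0 < r := by linarith
  have hv0 : v ≠ 0 := by
    rintro rfl
    rw [norm_zero] at hv
    exact absurd hv (not_lt.2 (inv_nonneg.2 hr0.le))
  have h3 : DifferentiableAt ℂ (conj ∘ φ ∘ conj) (v⁻¹) := by
    rw [differentiableAt_conj_conj_iff]
    refine hφ.differentiableAt (isOpen_ball.mem_nhds ?_)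
    rw [mem_ball_zero_iff, RCLike.norm_conj, norm_inv]
    exact (inv_lt_comm₀ hr0 (norm_pos_iff.2 hv0)).1 hv
  have h4 : Rf φ = (conj ∘ φ ∘ conj) ∘ (fun v : ℂ => v⁻¹) := by
    funext x
    simp only [Rf, Function.comp_apply, map_inv₀, one_div]
  rw [h4]
  exact h3.comp v (differentiableAt_inv hv0)

/-- annihilation on the circle and on the annulus -/
theorem circle_ann {φ : ℂ → ℂ} {r : ℝ} (hr : 1 < r) (hφ : DifferentiableOn ℂ φ (ball 0 r))
    (Q : Polynomial (Polynomial ℂ))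
    (hQ : ∀ v : ℂ, ‖v‖ = 1 → Q.evalEval (φ v) (conj (φ v)) = 0) :
    ∀ v : ℂ, r⁻¹ < ‖v‖ → ‖v‖ < r → Q.evalEval (φ v) (Rf φ v) = 0 := by
  have hr0 : 0 < r := by linarith
  obtain ⟨S, hS⟩ : ∃ S : Set ℂ, S = {v : ℂ | r⁻¹ < ‖v‖ ∧ ‖v‖ < r} := ⟨_, rfl⟩
  have hSo : IsOpen S := by rw [hS]; exact annulus_open _ _
  have hSc : IsPreconnected S := by
    have := annulus_conn (-Real.log r) (Real.log r)
    rwa [Real.exp_neg, Real.exp_log hr0, ← hS] at this
  have hd : DifferentiableOn ℂ (fun v => Q.evalEval (φ v) (Rf φ v)) S := by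
    refine ev_differentiableOn Q (hφ.mono ?_) fun v hv => ?_
    · intro v hv
      rw [hS] at hv
      rw [mem_ball_zero_iff]
      exact hv.2
    · rw [hS] at hv
      exact (rf_diff hr hφ hv.1).differentiableWithinAt
  have h1S : (1 : ℂ) ∈ S := by
    rw [hS, mem_ofPred_eq, norm_one]
    exact ⟨inv_lt_one_of_one_lt₀ hr, hr⟩
  have hzero : ∀ v : ℂ, ‖v‖ = 1 → Q.evalEval (φ v) (Rf φ v) = 0 := by
    intro v hv
    have h1 : 1 / conj v = v := by
      have h2 : v * conj v = 1 := by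
        rw [Complex.mul_conj, Complex.normSq_eq_norm_sq, hv]
        norm_num
      have h3 : conj v ≠ 0 := by
        intro h0
        rw [h0, mul_zero] at h2
        exact zero_ne_one h2
      rw [div_eq_iff h3, h2]
    have h2 : Rf φ v = conj (φ v) := by rw [Rf, h1]
    rw [h2]
    exact hQ v hv
  have hfreq : ∃ᶠ v in 𝓝[≠] (1 : ℂ), Q.evalEval (φ v) (Rf φ v) = 0 := by
    have h1 : Tendsto (fun θ : ℝ => exp ((θ : ℂ) * I)) (𝓝[>] 0) (𝓝[≠] 1) := by
      rw [tendsto_nhdsWithin_iff]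
      refine ⟨?_, ?_⟩
      · have h2 : ContinuousAt (fun θ : ℝ => exp ((θ : ℂ) * I)) 0 := by fun_prop
        have h3 := h2.tendsto
        rw [Complex.ofReal_zero, zero_mul, Complex.exp_zero] at h3
        exact h3.mono_left nhdsWithin_le_nhds
      · have h2 : ∀ᶠ θ : ℝ in 𝓝[>] 0, θ < 1 :=
          eventually_nhdsWithin_of_eventually_nhds (gt_mem_nhds zero_lt_one)
        filter_upwards [h2, self_mem_nhdsWithin] with θ hθ1 hθ0 h3
        have hθ0' : (0 : ℝ) < θ := hθ0
        have h4 : exp ((θ : ℂ) * I) = 1 := h3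
        have h5 := congrArg Complex.im h4
        rw [Complex.exp_ofReal_mul_I_im, Complex.one_im] at h5
        have h6 := Real.sin_pos_of_pos_of_lt_pi hθ0' (by linarith [Real.pi_gt_three])
        linarith
    refine h1.frequently (Filter.Eventually.frequently (Eventually.of_forall fun θ => ?_))
    exact hzero _ (Complex.norm_exp_ofReal_mul_I θ)
  have h2 := (hd.analyticOnNhd hSo).eqOn_zero_of_preconnected_of_frequently_eq_zero hSc h1S hfreq
  intro v hv1 hv2
  exact h2 (show v ∈ S by rw [hS]; exact ⟨hv1, hv2⟩)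

end Run7.h367.SF
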