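import Pool.Agent.Run7.h367.Fin

/-!
The local symmetry of a branched simple pole, or a second resonance.
-/

set_option autoImplicit false

open Complex MeasureTheory Metric Set Filter Topology ComplexConjugate
open Pool.Agent.Y245.SC Pool.Agent.Y245.UC
open Pool.Agent.TH298.Sch (Sol)
open Pool.Agent.Y245.SG (Bn)

namespace Run7.h367.SF

/-- the Lommel polynomials -/
noncomputable def lom (ν : ℚ) : ℕ → Polynomial ℚ
  | 0 => 0
  | 1 => 1
  | d + 2 => Polynomial.C (-ν - (d + 1)) * lom ν (d + 1) - Polynomial.X * lom ν d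

theorem lom_zero {ν : ℚ} (hν : 0 < ν) : ∀ d : ℕ, (lom ν (d + 1)).eval 0 ≠ 0 := by
  intro d
  induction d with
  | zero => simp [lom]
  | succ d ih =>
    rw [lom]
    simp only [Polynomial.eval_sub, Polynomial.eval_mul, Polynomial.eval_C, Polynomial.eval_X,
      zero_mul, sub_zero]
    refine mul_ne_zero ?_ ih
    have : (0 : ℚ) ≤ d := Nat.cast_nonneg d
    intro h
    linarith

/-- orders differing by an integer -/
theorem siegel_shift {y : ℝ} (hy : 0 < y) (h1 : Bn 1 (y : ℂ) = 0) {ν : ℚ} (hν : 0 < ν) (d : ℕ)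
    (hd : 1 ≤ d) (h2 : Zf y (-ν) = 0) (h3 : Zf y (-ν - d) = 0) : False := by
  obtain ⟨A, hA⟩ : ∃ A : ℝ, A = Zf y (-ν + 1) := ⟨_, rfl⟩
  have hA0 : A ≠ 0 := by
    intro h
    have := zf_spacing y hy (-ν) (-ν + 1) (by linarith) h2 (by rw [← hA]; exact h)
    linarith
  have hrep : ∀ d : ℕ, Zf y (-ν - d) = -y * A * Polynomial.aeval y (lom ν d) ∧
      Zf y (-ν - (d + 1 : ℕ)) = -y * A * Polynomial.aeval y (lom ν (d + 1)) := by
    intro d
    induction d with
    | zero =>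
      refine ⟨?_, ?_⟩
      · simp [lom, h2]
      · have h4 := zf_rec y (-ν)
        rw [h2, ← hA, mul_zero] at h4
        simp only [lom, map_one, mul_one]
        have e9 : (-(ν : ℝ) - ((0 + 1 : ℕ) : ℝ)) = -ν - 1 := by push_cast; ring
        rw [e9]
        linarith
    | succ d ih =>
      refine ⟨ih.2, ?_⟩
      have h4 := zf_rec y (-ν - (d + 1 : ℕ))
      have e1 : (-(ν : ℝ) - (d + 1 : ℕ)) + 1 = -ν - d := by push_cast; ring
      have e2 : (-(ν : ℝ) - (d + 1 : ℕ)) - 1 = -ν - (d + 1 + 1 : ℕ) := by push_cast; ring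
      rw [e1, e2, ih.1, ih.2] at h4
      rw [lom]
      rw [map_sub, map_mul, map_mul, Polynomial.aeval_C, Polynomial.aeval_X]
      have e3 : (algebraMap ℚ ℝ) (-ν - (d + 1)) = -(ν : ℝ) - (d + 1 : ℕ) := by
        push_cast
        simp
      rw [e3]
      linear_combination h4
  obtain ⟨e, rfl⟩ : ∃ e : ℕ, d = e + 1 := ⟨d - 1, by omega⟩
  have h5 := (hrep e).2
  rw [h3] at h5
  have h6 : Polynomial.aeval y (lom ν (e + 1)) = 0 := by
    rcases mul_eq_zero.1 h5.symm with h | h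
    · rcases mul_eq_zero.1 h with h' | h'
      · linarith
      · exact absurd h' hA0
    · exact h
  have hp : lom ν (e + 1) ≠ 0 := by
    intro h
    apply lom_zero hν e
    rw [h, Polynomial.eval_zero]
  have halg : IsAlgebraic ℚ (y : ℂ) := by
    refine ⟨lom ν (e + 1), hp, ?_⟩
    have := congrArg (algebraMap ℝ ℂ) h6
    rw [← Polynomial.aeval_algebraMap_apply, map_zero] at this
    exact this
  exact Pool.Agent.Y245.SG.siegel_thm (y : ℂ) (by exact_mod_cast hy.ne') halg h1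

/-- the second resonance -/
def Second (a : ℝ) (q : ℕ) (C : ℂ) (j : ℕ) : Prop :=
  ∃ j' : ℕ, j + q < j' ∧ ¬ q ∣ j' ∧ ¬ q ∣ j' - j ∧ ResC (a * C) ((j' : ℝ) / q - 1)

theorem hfrac {q : ℕ} (hq : 1 ≤ q) (i : ℕ) (hi : ¬ q ∣ i) : ∀ n : ℤ, ((i : ℝ) / q - 1) ≠ n := by
  have hqr : (0 : ℝ) < q := by exact_mod_cast hq
  intro n hn
  apply hi
  have h1 : (i : ℝ) = q * ((n : ℝ) + 1) := by
    rw [← hn]
    field_simp
    ring
  have h2 : (i : ℤ) = q * (n + 1) := by exact_mod_cast h1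
  have h3 : (q : ℤ) ∣ (i : ℤ) := ⟨n + 1, h2⟩
  exact_mod_cast h3

theorem sym_or {a δ : ℝ} (ha : 0 < a) {G : ℂ → ℂ} {q : ℕ} (hq : 1 ≤ q) (h : Turn a δ G)
    {w C : ℂ} {j : ℕ} {H : ℂ → ℂ} {T : ℝ} (hB : BrPole a q G w C j H T) :
    (∀ t ∈ HP δ, w + exp ((2 * Real.pi * q / j : ℝ) * I) *
      (G (t + (2 * Real.pi * q / j : ℝ) * I) - w) = G t) ∨ Second a q C j := by
  obtain ⟨hC, hj, hjq, hHa, hH0, hGe, hB1, ⟨x, hx, hCx⟩, hR⟩ := hB
  have hqr : (0 : ℝ) < q := by exact_mod_cast hq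
  have hq0 : (q : ℂ) ≠ 0 := by exact_mod_cast (by omega : q ≠ 0)
  have hjr : (0 : ℝ) < j := by exact_mod_cast (by omega : 0 < j)
  have hj0 : (j : ℂ) ≠ 0 := by exact_mod_cast (by omega : j ≠ 0)
  have hpi := Real.pi_pos
  obtain ⟨θ, hθ⟩ : ∃ θ : ℝ, θ = 2 * Real.pi * q / j := ⟨_, rfl⟩
  rw [← hθ]
  obtain ⟨η, hη⟩ : ∃ η : ℂ, η = exp ((θ : ℂ) * I / q) := ⟨_, rfl⟩
  have hηj : η ^ j = 1 := by
    rw [hη, ← Complex.exp_nat_mul]
    have : (j : ℂ) * ((θ : ℂ) * I / q) = 2 * Real.pi * I := by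
      rw [hθ]
      push_cast
      field_simp
    rw [this, Complex.exp_two_pi_mul_I]
  -- the difference
  obtain ⟨Δ, hΔ⟩ : ∃ Δ : ℂ → ℂ, Δ = fun x => H (η * x) - H x := ⟨_, rfl⟩
  have hΔa : AnalyticAt ℂ Δ 0 := by
    rw [hΔ]
    have h1 : AnalyticAt ℂ H (η * 0) := by rw [mul_zero]; exact hHa
    exact (AnalyticAt.fun_comp h1 (by fun_prop)).sub hHa
  have hm : ∀ t ∈ HP δ, t + θ * I ∈ HP δ := by
    intro t ht
    rw [hp_iff] at ht ⊢
    simpa using ht
  have hDG : ∀ t : ℂ, t.re ≤ T → w + exp (θ * I) * (G (t + θ * I) - w) - G t =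
      exp (t / q) ^ j * exp (-t) * Δ (exp (t / q)) := by
    intro t ht
    rw [hGe t ht, hGe (t + θ * I) (by simpa using ht)]
    have e1 : exp ((t + θ * I) / q) = η * exp (t / q) := by
      rw [hη, ← Complex.exp_add]
      congr 1
      ring
    have e2 : exp (-(t + θ * I)) = exp (-t) * (exp (θ * I))⁻¹ := by
      rw [← Complex.exp_neg, ← Complex.exp_add]
      congr 1
      ring
    rw [e1, e2, mul_pow, hηj, one_mul, hΔ]
    have := Complex.exp_ne_zero ((θ : ℂ) * I)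
    field_simp
    ring
  by_cases hz : ∀ᶠ x in 𝓝 (0 : ℂ), Δ x = 0
  · left
    obtain ⟨T1, hT1⟩ := small_root hq hz
    have hd : DifferentiableOn ℂ (fun t => w + exp (θ * I) * (G (t + θ * I) - w) - G t) (HP δ) :=
      (turn_rot h w θ).1.sub h.1
    have han := hd.analyticOnNhd (hp_open δ)
    obtain ⟨T2, hT2⟩ : ∃ T2 : ℝ, T2 = min (min T1 T) δ := ⟨_, rfl⟩
    have hmem : ((T2 - 1 : ℝ) : ℂ) ∈ HP δ := by
      rw [hp_iff, ofReal_re, hT2]
      have := min_le_right (min T1 T) δ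
      linarith
    have hev : ∀ᶠ t in 𝓝 ((T2 - 1 : ℝ) : ℂ),
        w + exp (θ * I) * (G (t + θ * I) - w) - G t = 0 := by
      filter_upwards [(hp_open T2).mem_nhds (by
        rw [hp_iff, ofReal_re]
        linarith)] with t ht
      rw [hp_iff, hT2] at ht
      have h1 := ht.le.trans ((min_le_left _ _).trans (min_le_left _ _))
      have h2 := ht.le.trans ((min_le_left _ _).trans (min_le_right _ _))
      rw [hDG t h2, hT1 t h1, mul_zero]
    have h2 := han.eqOn_zero_of_preconnected_of_eventuallyEq_zero (hp_convex δ).isPreconnected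
      hmem hev
    intro t ht
    exact sub_eq_zero.1 (h2 ht)
  right
  obtain ⟨i, F, hFa, hF0, hFe⟩ := hΔa.exists_eventuallyEq_pow_smul_nonzero_iff.2 hz
  simp only [sub_zero, smul_eq_mul] at hFe
  have hi0 : i ≠ 0 := by
    rintro rfl
    have h1 := hFe.self_of_nhds
    rw [pow_zero, one_mul, hΔ] at h1
    simp only [mul_zero, sub_self] at h1
    exact hF0 h1.symm
  obtain ⟨T1, hT1⟩ := small_root hq hFe
  have hexpj : ∀ (i : ℕ) (t : ℂ), exp (t / q) ^ i * exp (-t) =
      exp ((((i : ℝ) / q - 1 : ℝ) : ℂ) * t) := by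
    intro i t
    rw [← Complex.exp_nat_mul, ← Complex.exp_add]
    congr 1
    push_cast
    field_simp
    ring
  obtain ⟨δ1, hδ1⟩ : ∃ δ1 : ℝ, δ1 = min (min T1 T) δ := ⟨_, rfl⟩
  have hδ1' : δ1 ≤ δ := by rw [hδ1]; exact min_le_right _ _
  have hrvD : RegVar (fun t => w + exp (θ * I) * (G (t + θ * I) - w) - G t)
      (-(((i + j : ℕ) : ℝ) / q - 1)) := by
    refine rv_of (δ := δ1) hq hFa.continuousAt hF0 fun t ht => ?_
    rw [hp_iff, hδ1] at ht
    have h1 := ht.le.trans ((min_le_left _ _).trans (min_le_left _ _))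
    have h2 := ht.le.trans ((min_le_left _ _).trans (min_le_right _ _))
    rw [hDG t h2, hT1 t h1, ← hexpj (i + j) t]
    ring
  -- the pole
  have hP : Pole G w C := by
    have h1 : ContinuousAt (fun x => C + w * x ^ q + x ^ j * H x) 0 := by
      have := hHa.continuousAt
      fun_prop
    have h2 := pole_of (G := G) (Ψ := fun x => C + w * x ^ q + x ^ j * H x) (δ := min T δ) hq h1 w
      (by
        intro t ht
        rw [hp_iff] at ht
        rw [hGe t (ht.le.trans (min_le_left _ _)), Complex.exp_neg, exp_div_pow q hq]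
        have := Complex.exp_ne_zero t
        field_simp)
    simpa [zero_pow (by omega : q ≠ 0), zero_pow (by omega : j ≠ 0)] using h2
  have hJ : Jf (((i + j : ℕ) : ℝ) / q - 1) (a * C) = 0 := by
    have h1 := lim_diff t_KAP ha (turn_rot h w θ) h (pole_rot hP θ) hP
      (D := fun t => w + exp (θ * I) * (G (t + θ * I) - w) - G t) (fun t _ => rfl) hrvD
    unfold Jf
    rw [← h1]
    refine intervalIntegral.integral_congr fun s _ => ?_
    rw [mul_assoc (a : ℂ) C]
  have hjq2 : (2 : ℝ) < (j : ℝ) / q := by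
    rw [lt_div_iff₀ hqr]
    exact_mod_cast hj
  have hir : (0 : ℝ) < (i : ℝ) / q := by
    have : (0 : ℝ) < i := by exact_mod_cast Nat.pos_of_ne_zero hi0
    positivity
  have hsum : ((i + j : ℕ) : ℝ) / q = (i : ℝ) / q + (j : ℝ) / q := by
    push_cast
    ring
  obtain ⟨hc1, hc2, hc3, hc4⟩ := first_exp_concl ha (σ := ((i + j : ℕ) : ℝ) / q - 1)
    (by rw [hsum]; linarith) (by rw [hsum]; intro h0; linarith) hC hB1 hJ
  have hy : (0 : ℝ) < a * x := by positivity
  have hyc : (a : ℂ) * C = ((a * x : ℝ) : ℂ) := by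
    rw [hCx]
    push_cast
    ring
  have hz1 : Zf (a * x) (-((j : ℝ) / q)) = 0 := by
    have h1 := hR
    unfold ResC at h1
    rw [hyc] at h1
    have h2 := zf_frac (hfrac hq j hjq) h1
    rwa [show -((j : ℝ) / q - 1) - 1 = -((j : ℝ) / q) by ring] at h2
  have hz2 : Zf (a * x) (-(((i + j : ℕ) : ℝ) / q)) = 0 := by
    have h1 := hc4
    rw [hyc] at h1
    have h2 := zf_frac hc1 h1
    rwa [show -(((i + j : ℕ) : ℝ) / q - 1) - 1 = -(((i + j : ℕ) : ℝ) / q) by ring] at h2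
  have hB1' : Bn 1 ((a * x : ℝ) : ℂ) = 0 := by rw [← hyc]; exact hB1
  refine ⟨i + j, ?_, ?_, ?_, hc4⟩
  · have h1 := zf_spacing (a * x) hy _ _ (by rw [hsum]; linarith) hz2 hz1
    have h2 : (j : ℝ) + q < ((i + j : ℕ) : ℝ) := by
      rw [hsum] at h1
      have h3 : 1 < (i : ℝ) / q := by linarith
      rw [lt_div_iff₀ hqr] at h3
      push_cast
      linarith
    exact_mod_cast h2
  · rintro ⟨c, hc⟩
    apply hc1 ((c : ℤ) - 1)
    rw [hc]
    push_cast
    field_simp
  · rintro ⟨c, hc⟩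
    rw [Nat.add_sub_cancel] at hc
    have hc0 : 1 ≤ c := by
      rcases Nat.eq_zero_or_pos c with h0 | h0
      · rw [h0, mul_zero] at hc
        exact absurd hc hi0
      · exact h0
    have hjQ : (0 : ℚ) < (j : ℚ) / q := by
      have h8 : (0 : ℚ) < q := by exact_mod_cast hq
      have h9 : (0 : ℚ) < j := by exact_mod_cast (by omega : 0 < j)
      positivity
    refine siegel_shift hy hB1' (ν := (j : ℚ) / q) hjQ c hc0 ?_ ?_
    · push_cast
      exact hz1
    · rw [← hz2, hsum, hc]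
      congr 1
      push_cast
      field_simp
      ring

end Run7.h367.SF
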