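import Pool.Agent.Run7.h367.APole
import Pool.Agent.Run7.h367.ASym
import Pool.Agent.Run7.h367.Sym

/-!
Local extension of algebraic branches with the invariants.
-/

set_option autoImplicit false

open Complex MeasureTheory Metric Set Filter Topology ComplexConjugate
open Pool.Agent.Y245.SC Pool.Agent.Y245.UC
open Pool.Agent.Y245.SG (Bn)

namespace Run7.h367.SF

theorem hp_shift {δ : ℝ} {t : ℂ} (ht : t ∈ HP δ) (k : ℕ) : t + k * (2 * Real.pi * I) ∈ HP δ := by
  rw [hp_iff] at ht ⊢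
  simpa using ht

theorem hp_shift_neg {δ : ℝ} {t : ℂ} (ht : t ∈ HP δ) (k : ℕ) :
    t - k * (2 * Real.pi * I) ∈ HP δ := by
  rw [hp_iff] at ht ⊢
  simpa using ht

theorem exp_shift (t : ℂ) (k : ℕ) : exp (t + k * (2 * Real.pi * I)) = exp t := by
  rw [Complex.exp_add, Complex.exp_nat_mul_two_pi_mul_I, mul_one]

/-- coincidence at one point -/
theorem coinc {P : Polynomial (Polynomial ℂ)} {δ : ℝ} {z0 : ℂ} {G : ℂ → ℂ}
    (hG : DifferentiableOn ℂ G (HP δ)) (hreg : ∀ t ∈ HP δ, RegPt P (z0 + exp t))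
    (hz : ∀ t ∈ HP δ, P.evalEval (z0 + exp t) (G t) = 0) {k l : ℕ} (hkl : k ≤ l) {t : ℂ}
    (ht : t ∈ HP δ) (h : G (t + k * (2 * Real.pi * I)) = G (t + l * (2 * Real.pi * I))) :
    ∀ s ∈ HP δ, G (s + (l - k : ℕ) * (2 * Real.pi * I)) = G s := by
  have hd : ∀ k : ℕ, DifferentiableOn ℂ (fun s => G (s + k * (2 * Real.pi * I))) (HP δ) := by
    intro k
    exact hG.comp (by fun_prop) fun s hs => hp_shift hs k
  have he : ∀ k : ℕ, ∀ s ∈ HP δ, P.evalEval (z0 + exp s) (G (s + k * (2 * Real.pi * I))) = 0 := by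
    intro k s hs
    have := hz _ (hp_shift hs k)
    rwa [exp_shift] at this
  have h1 := puniq P (hp_open δ) (hp_convex δ).isPreconnected (g := fun s => z0 + exp s)
    (by fun_prop) hreg (hd k) (hd l) (he k) (he l) ht h
  intro s hs
  have h2 := h1 (hp_shift_neg hs k)
  simp only [sub_add_cancel] at h2
  rw [h2]
  congr 1
  rw [Nat.cast_sub hkl]
  ring

/-- algebraic branches have finitely many sheets -/
theorem period_exists {P : Polynomial (Polynomial ℂ)} {δ : ℝ} {z0 : ℂ} {G : ℂ → ℂ}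
    (hG : DifferentiableOn ℂ G (HP δ)) (hreg : ∀ t ∈ HP δ, RegPt P (z0 + exp t))
    (hz : ∀ t ∈ HP δ, P.evalEval (z0 + exp t) (G t) = 0) :
    ∃ q : ℕ, 1 ≤ q ∧ ∀ s ∈ HP δ, G (s + q * (2 * Real.pi * I)) = G s := by
  classical
  obtain ⟨t, ht⟩ : ∃ t : ℂ, t ∈ HP δ := ⟨((δ - 1 : ℝ) : ℂ), by
    rw [hp_iff, ofReal_re]
    linarith⟩
  obtain ⟨p, hp⟩ : ∃ p : Polynomial ℂ, p = P.map (Polynomial.evalRingHom (z0 + exp t)) :=
    ⟨_, rfl⟩
  have hp0 : p ≠ 0 := by
    intro h0
    have h1 := (hreg t ht).1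
    apply h1
    have h2 := congrArg (fun p : Polynomial ℂ => p.coeff P.natDegree) h0
    rw [hp] at h2
    simpa using h2
  have hcard : p.roots.toFinset.card < (Finset.range (P.natDegree + 1)).card := by
    rw [Finset.card_range]
    have h1 := Multiset.toFinset_card_le p.roots
    have h2 := p.card_roots'
    have h3 : p.natDegree ≤ P.natDegree := by
      rw [hp]
      exact Polynomial.natDegree_map_le
    omega
  obtain ⟨k, hk, l, hl, hkl, heq⟩ := Finset.exists_ne_map_eq_of_card_lt_of_maps_to hcard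
    (f := fun k : ℕ => G (t + k * (2 * Real.pi * I))) (fun k _ => by
      rw [Finset.mem_coe, Multiset.mem_toFinset, Polynomial.mem_roots hp0, Polynomial.IsRoot, hp,
        Polynomial.map_evalRingHom_eval]
      have := hz _ (hp_shift ht k)
      rwa [exp_shift] at this)
  rcases lt_or_gt_of_ne hkl with h | h
  · exact ⟨l - k, by omega, coinc hG hreg hz h.le ht heq⟩
  · exact ⟨k - l, by omega, coinc hG hreg hz h.le ht heq.symm⟩

/-- algebraic branches grow polynomially -/
theorem alg_growth {P : Polynomial (Polynomial ℂ)} (hn : P.natDegree ≠ 0) (z0 : ℂ) :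
    ∃ (μ : ℕ) (K T : ℝ), ∀ (t w : ℂ), t.re ≤ T → P.evalEval (z0 + exp t) w = 0 →
      ‖exp t ^ μ * w‖ ≤ K := by
  have hP0 : P ≠ 0 := by
    rintro rfl
    exact hn rfl
  have hA : P.leadingCoeff ≠ 0 := Polynomial.leadingCoeff_ne_zero.2 hP0
  obtain ⟨A1, hA1, hnd⟩ :=
    Polynomial.exists_eq_pow_rootMultiplicity_mul_and_not_dvd P.leadingCoeff hA z0
  obtain ⟨μ, hμ⟩ : ∃ μ : ℕ, μ = P.leadingCoeff.rootMultiplicity z0 := ⟨_, rfl⟩
  rw [← hμ] at hA1
  rw [Polynomial.dvd_iff_isRoot, Polynomial.IsRoot] at hnd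
  obtain ⟨M, hM⟩ := monic_bound P.integralNormalization
    (Polynomial.monic_integralNormalization hP0) (by
      intro h0
      have h1 : P.integralNormalization.coeff P.natDegree = 1 :=
        Polynomial.integralNormalization_coeff_natDegree hP0
      rw [Polynomial.coeff_eq_zero_of_natDegree_lt (by omega)] at h1
      exact zero_ne_one h1) (‖z0‖ + 1)
  have hc : 0 < ‖A1.eval z0‖ / 2 := by
    have := norm_pos_iff.2 hnd
    linarith
  have h1 : Tendsto (fun x => ‖A1.eval (z0 + x)‖) (𝓝 0) (𝓝 ‖A1.eval (z0 + 0)‖) :=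
    ((A1.continuous.comp (continuous_const.add continuous_id)).norm).tendsto 0
  rw [add_zero] at h1
  have h2 : ∀ᶠ x in 𝓝 (0 : ℂ), ‖A1.eval z0‖ / 2 < ‖A1.eval (z0 + x)‖ :=
    h1.eventually (lt_mem_nhds (by linarith))
  obtain ⟨T1, hT1⟩ := small_root le_rfl h2
  refine ⟨μ, M / (‖A1.eval z0‖ / 2), min T1 0, fun t w ht hw => ?_⟩
  have ht1 := hT1 t (ht.trans (min_le_left _ _))
  rw [Nat.cast_one, div_one] at ht1
  have h3 : ‖z0 + exp t‖ ≤ ‖z0‖ + 1 := by
    refine (norm_add_le _ _).trans ?_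
    rw [Complex.norm_exp]
    have := Real.exp_le_one_iff.2 (ht.trans (min_le_right _ _))
    linarith
  have h4 := hM (z0 + exp t) (P.leadingCoeff.eval (z0 + exp t) * w) h3 (by
    rw [norm_ev P hn, hw, mul_zero, norm_zero]
    have := norm_nonneg z0
    linarith)
  rw [le_div_iff₀ hc]
  rw [hA1, Polynomial.eval_mul, Polynomial.eval_pow, Polynomial.eval_sub, Polynomial.eval_X,
    Polynomial.eval_C, add_sub_cancel_left] at h4
  calc ‖exp t ^ μ * w‖ * (‖A1.eval z0‖ / 2) ≤ ‖exp t ^ μ * w‖ * ‖A1.eval (z0 + exp t)‖ := by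
        gcongr
    _ = ‖exp t ^ μ * A1.eval (z0 + exp t) * w‖ := by
        rw [← norm_mul]
        congr 1
        ring
    _ ≤ M := h4

/-- an irreducible polynomial does not vanish on the osculating circle -/
theorem circ_ne {P : Polynomial (Polynomial ℂ)} (hP : Irreducible P) (hn : P.natDegree ≠ 0)
    {G H : ℂ → ℂ} {z0 w C : ℂ} {q j : ℕ} {T : ℝ} (hq : 1 ≤ q) (hC : C ≠ 0)
    (hH : ContinuousAt H 0) (hH0 : H 0 ≠ 0)
    (hGe : ∀ t : ℂ, t.re ≤ T → G t = C * exp (-t) + w +
      exp (t / q) ^ j * exp (-t) * H (exp (t / q)))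
    (hPG : ∀ t : ℂ, t.re ≤ T → P.evalEval (z0 + exp t) (G t) = 0) :
    circp P w z0 (1 / C) ≠ 0 := by
  intro h0
  have hz : ∀ s : ℂ, s ≠ 0 → P.evalEval (z0 + s) (w + C / s) = 0 := by
    intro s hs
    have h1 := congrArg (Polynomial.eval (z0 + s)) h0
    have hu : 1 / C * (z0 + s - z0) ≠ 0 := by
      rw [add_sub_cancel_left]
      exact mul_ne_zero (one_div_ne_zero hC) hs
    rw [circp_eval, hatp_ne P w _ hu, Polynomial.eval_zero] at h1
    have h2 := (mul_eq_zero.1 h1).resolve_left (pow_ne_zero _ hu)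
    rw [add_sub_cancel_left] at h2
    have h3 : (1 : ℂ) / (1 / C * s) = C / s := by field_simp
    rwa [h3] at h2
  obtain ⟨Q, hQ⟩ : ∃ Q : Polynomial (Polynomial ℂ), Q =
      Polynomial.C (Polynomial.X - Polynomial.C z0) *
        (Polynomial.X - Polynomial.C (Polynomial.C w)) - Polynomial.C (Polynomial.C C) := ⟨_, rfl⟩
  have hQe : ∀ z v : ℂ, Q.evalEval z v = (z - z0) * (v - w) - C := by
    intro z v
    rw [hQ]
    simp [Polynomial.evalEval]
  by_cases hd : P ∣ Q
  · -- the polynomial of the circle annihilates the branch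
    have h1 : ∀ t : ℂ, t.re ≤ T → H (exp (t / q)) = 0 := by
      intro t ht
      have h2 := Polynomial.evalEval_dvd (z0 + exp t) (G t) hd
      rw [hPG t ht, zero_dvd_iff, hQe, add_sub_cancel_left, hGe t ht, Complex.exp_neg] at h2
      have h3 := Complex.exp_ne_zero t
      have h4 : exp (t / q) ^ j * H (exp (t / q)) = 0 := by
        have h5 : exp t * (C * (exp t)⁻¹ + w + exp (t / q) ^ j * (exp t)⁻¹ * H (exp (t / q)) - w)
            - C = exp (t / q) ^ j * H (exp (t / q)) := by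
          field_simp
          ring
        rwa [h5] at h2
      exact (mul_eq_zero.1 h4).resolve_left (pow_ne_zero _ (Complex.exp_ne_zero _))
    apply hH0
    have h2 : Tendsto (fun x : ℝ => exp ((x : ℂ) / q)) atBot (𝓝 0) := by
      rw [tendsto_zero_iff_norm_tendsto_zero]
      have h3 : (fun x : ℝ => ‖exp ((x : ℂ) / q)‖) = fun x : ℝ => Real.exp (x / q) := by
        funext x
        rw [Complex.norm_exp, ← Complex.ofReal_natCast, ← Complex.ofReal_div, Complex.ofReal_re]
      rw [h3]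
      have hqr : (0 : ℝ) < q := by exact_mod_cast hq
      exact Real.tendsto_exp_atBot.comp (tendsto_id.atBot_div_const hqr)
    have h3 : Tendsto (fun x : ℝ => H (exp ((x : ℂ) / q))) atBot (𝓝 (H 0)) := hH.tendsto.comp h2
    have h4 : Tendsto (fun x : ℝ => H (exp ((x : ℂ) / q))) atBot (𝓝 0) := by
      refine tendsto_const_nhds.congr' ?_
      filter_upwards [eventually_le_atBot T] with x hx
      exact (h1 x (by rwa [Complex.ofReal_re])).symm
    exact tendsto_nhds_unique h3 h4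
  · obtain ⟨A, B, R, hR, hAB⟩ := bez hP hn hd
    have hroot : ∀ s : ℂ, s ≠ 0 → R.eval (z0 + s) = 0 := by
      intro s hs
      have h1 := congrArg (Polynomial.evalEval (z0 + s) (w + C / s)) hAB
      rw [Polynomial.evalEval_add, Polynomial.evalEval_mul, Polynomial.evalEval_mul, hz s hs, hQe,
        Polynomial.evalEval_C] at h1
      rw [← h1]
      field_simp
      ring
    have hinf : ({s : ℂ | R.IsRoot s}).Infinite := by
      have h1 : (({z0} : Set ℂ)ᶜ).Infinite := (Set.finite_singleton z0).infinite_compl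
      refine h1.mono fun s hs => ?_
      have h2 := hroot (s - z0) (sub_ne_zero.2 hs)
      rw [add_sub_cancel] at h2
      exact h2
    exact hR (Polynomial.eq_zero_of_infinite_isRoot R hinf)

end Run7.h367.SF
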