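import Pool.Agent.Run7.h367.ALoc

/-!
Local extension of algebraic branches with the invariants.
-/

set_option autoImplicit false

open Complex MeasureTheory Metric Set Filter Topology ComplexConjugate
open Pool.Agent.Y245.SC Pool.Agent.Y245.UC
open Pool.Agent.Y245.SG (Bn)

namespace Run7.h367.SF

/-- the resonances forced by an algebraic counterexample -/
def Reso (a : ℝ) (Ω : Set ℂ) (A : Polynomial ℂ) (n : ℕ) : Prop :=
  ∃ (z0 C : ℂ) (q j j' : ℕ), z0 ∈ Ω ∧ 3 ≤ q ∧ 2 * q < j ∧ j + q < j' ∧ ¬ q ∣ j ∧ ¬ q ∣ j' ∧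
    ¬ q ∣ j' - j ∧ (Polynomial.X - Polynomial.C z0) ^ q ∣ A ∧ q + j ≤ 2 * n ∧
    (∃ x : ℝ, 0 < x ∧ C = x) ∧ Bn 1 (a * C) = 0 ∧ ResC (a * C) ((j : ℝ) / q - 1) ∧
    ResC (a * C) ((j' : ℝ) / q - 1)

theorem local_ext {φ ψ : ℂ → ℂ} {r a : ℝ} (D : Dat φ ψ r a) {P : Polynomial (Polynomial ℂ)}
    (hP : Irreducible P) (hn : P.natDegree ≠ 0)
    (hd : ∀ b, (P.coeff b).natDegree ≤ P.natDegree) {p : ℂ} (hp : p ∈ ball (0 : ℂ) 1)
    (hcent : φ p ≠ cent P.leadingCoeff) :
    (∃ (p : ℂ) (r0 : ℝ), 0 < r0 ∧ φ '' ball 0 1 = ball p r0) ∨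
    Reso a (φ '' ball 0 1) P.leadingCoeff P.natDegree ∨
    ∃ ε > 0, ball p ε ⊆ ball 0 1 ∧ ∀ u ∈ ball p ε, u ≠ p → ∀ F : ℂ → ℂ, SInv a φ u F →
      (∀ᶠ v in 𝓝 u, P.evalEval (φ v) (F v) = 0) →
      ∃ E : ℂ → ℂ, DifferentiableOn ℂ E (ball p ε) ∧ E =ᶠ[𝓝 u] F := by
  by_cases hdisc : ∃ (p : ℂ) (r0 : ℝ), 0 < r0 ∧ φ '' ball 0 1 = ball p r0
  · exact Or.inl hdisc
  by_cases hres : Reso a (φ '' ball 0 1) P.leadingCoeff P.natDegree
  · exact Or.inr (Or.inl hres)
  right
  right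
  obtain ⟨z0, hz0⟩ : ∃ z0 : ℂ, z0 = φ p := ⟨_, rfl⟩
  have hz0m : z0 ∈ φ '' ball 0 1 := by rw [hz0]; exact ⟨p, hp, rfl⟩
  obtain ⟨Z, hZ, hreg⟩ := bad_exists hP hn
  -- a small disc
  obtain ⟨R, hR, hR1, hR2⟩ : ∃ R : ℝ, 0 < R ∧ ball z0 R ⊆ φ '' ball 0 1 ∧
      ∀ z ∈ ball z0 R, z ≠ z0 → z ∉ Z := by
    have h1 : φ '' ball 0 1 ∩ (Z \ {z0})ᶜ ∈ 𝓝 z0 := by
      refine inter_mem (D.ho.mem_nhds hz0m) ?_
      exact (hZ.subset sdiff_subset).isClosed.isOpen_compl.mem_nhds fun h => h.2 rfl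
    obtain ⟨R, hR, hR'⟩ := Metric.mem_nhds_iff.1 h1
    exact ⟨R, hR, fun z hz => (hR' hz).1, fun z hz hne hzZ => (hR' hz).2 ⟨hzZ, hne⟩⟩
  obtain ⟨δ, hδ⟩ : ∃ δ : ℝ, δ = Real.log R := ⟨_, rfl⟩
  have hexpδ : Real.exp δ = R := by rw [hδ, Real.exp_log hR]
  have hgm : ∀ t ∈ HP δ, z0 + exp t ∈ ball z0 R ∧ z0 + exp t ≠ z0 := by
    intro t ht
    refine ⟨?_, ?_⟩
    · rw [mem_ball_iff_norm, add_sub_cancel_left, Complex.norm_exp, ← hexpδ]
      exact Real.exp_lt_exp.2 ht
    · rw [Ne, add_eq_left]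
      exact Complex.exp_ne_zero t
  have hregt : ∀ t ∈ HP δ, RegPt P (z0 + exp t) := fun t ht =>
    hreg _ (hR2 _ (hgm t ht).1 (hgm t ht).2)
  have hφc : ContinuousAt φ p := D.hφ1.continuousOn.continuousAt (isOpen_ball.mem_nhds hp)
  obtain ⟨ε, hε, hε'⟩ : ∃ ε > 0, ∀ v ∈ ball p ε, v ∈ ball (0 : ℂ) 1 ∧ φ v ∈ ball z0 R := by
    have h1 : ∀ᶠ v in 𝓝 p, v ∈ ball (0 : ℂ) 1 ∧ φ v ∈ ball z0 R := by
      refine Filter.Eventually.and (isOpen_ball.mem_nhds hp) (hφc.eventually_mem ?_)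
      rw [← hz0]
      exact isOpen_ball.mem_nhds (mem_ball_self hR)
    exact Metric.eventually_nhds_iff_ball.1 h1
  refine ⟨ε, hε, fun v hv => (hε' v hv).1, fun u hu hup F hF hPF => ?_⟩
  obtain ⟨hu1, hu2⟩ := hε' u hu
  have hne : φ u - z0 ≠ 0 := by
    intro h
    rw [sub_eq_zero, hz0] at h
    apply hup
    rw [← D.hψi u hu1, h, D.hψi p hp]
  obtain ⟨t0, ht0⟩ : ∃ t0 : ℂ, t0 = Complex.log (φ u - z0) := ⟨_, rfl⟩
  have het0 : exp t0 = φ u - z0 := by rw [ht0, Complex.exp_log hne]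
  have hgt0 : z0 + exp t0 = φ u := by rw [het0]; ring
  have ht0m : t0 ∈ HP δ := by
    rw [hp_iff, ht0, Complex.log_re, hδ]
    refine Real.log_lt_log (norm_pos_iff.2 hne) ?_
    rwa [mem_ball_iff_norm] at hu2
  have hψu : ψ (z0 + exp t0) = u := by rw [hgt0, D.hψi u hu1]
  -- the lift
  obtain ⟨G, hG, hG0, hGz⟩ := plift P hn (hp_open δ) (hp_convex δ) (g := fun t => z0 + exp t)
    (by fun_prop) hregt ht0m (w0 := F u) (by
      rw [hgt0]
      exact hPF.self_of_nhds)
  have hFd : DifferentiableAt ℂ F u := hF.2.2.self_of_nhds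
  have hψt : ContinuousAt (fun t => ψ (z0 + exp t)) t0 := by
    have h1 : ContinuousAt ψ (z0 + exp t0) := by
      rw [hgt0]
      exact D.hψ.continuousOn.continuousAt (D.ho.mem_nhds ⟨u, hu1, rfl⟩)
    exact ContinuousAt.comp (g := ψ) (f := fun t => z0 + exp t) h1 (by fun_prop)
  have hψtt : Tendsto (fun t => ψ (z0 + exp t)) (𝓝 t0) (𝓝 u) := by
    have := hψt.tendsto
    rwa [hψu] at this
  have hFG : ∀ᶠ t in 𝓝 t0, G t = F (ψ (z0 + exp t)) := by
    refine root_germ P (g := fun t => z0 + exp t) (by fun_prop)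
      (hG.differentiableAt ((hp_open δ).mem_nhds ht0m)).continuousAt ?_
      ((hregt t0 ht0m).2 _ (hGz t0 ht0m)) ?_ ?_ ?_
    · refine ContinuousAt.comp (g := F) (f := fun t => ψ (z0 + exp t)) ?_ hψt
      rw [hψu]
      exact hFd.continuousAt
    · rw [hG0, hψu]
    · filter_upwards [(hp_open δ).mem_nhds ht0m] with t ht using hGz t ht
    · filter_upwards [hψtt.eventually hPF, (hp_open δ).mem_nhds ht0m] with t ht htm
      rwa [(D.hψm _ (hR1 (hgm t htm).1)).2] at ht
  -- the number of sheets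
  have hper := period_exists hG hregt hGz
  classical
  obtain ⟨q, hq⟩ : ∃ q : ℕ, q = Nat.find hper := ⟨_, rfl⟩
  obtain ⟨hq1, hqp⟩ := Nat.find_spec hper
  rw [← hq] at hq1 hqp
  have hqmin : ∀ m : ℕ, 1 ≤ m → (∀ s ∈ HP δ, G (s + m * (2 * Real.pi * I)) = G s) → q ≤ m := by
    intro m hm1 hm2
    rw [hq]
    exact Nat.find_min' hper ⟨hm1, hm2⟩
  have hdist : ∀ t : ℂ, t ∈ HP δ → ∀ k < q, ∀ l < q,
      G (t + (k : ℕ) * (2 * Real.pi * I)) = G (t + (l : ℕ) * (2 * Real.pi * I)) → k = l := by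
    intro t ht k hk l hl h
    by_contra hkl
    rcases lt_or_gt_of_ne hkl with h1 | h1
    · have := hqmin (l - k) (by omega) (coinc hG hregt hGz h1.le ht h)
      omega
    · have := hqmin (k - l) (by omega) (coinc hG hregt hGz h1.le ht h.symm)
      omega
  obtain ⟨μ, K, T0, hgr⟩ := alg_growth hn z0
  have hball : ball z0 (Real.exp δ) ⊆ φ '' ball 0 1 := by rw [hexpδ]; exact hR1
  have hF' : SInv a φ (ψ (z0 + exp t0)) F := by rw [hψu]; exact hF
  rcases D.finite hball hG ht0m hF' hFG hq1 hqp (q * μ) K T0 (fun t ht htT => by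
    rw [pow_mul, exp_div_pow q hq1]
    exact hgr t (G t) htT (hGz t ht)) with h | ⟨E, hE, hEG⟩ | ⟨w, C, j, H, T, hB⟩
  · exact absurd h hdisc
  · -- the branch is regular
    refine ⟨fun v => E (φ v), ?_, ?_⟩
    · refine hE.comp (D.hφ1.mono fun v hv => (hε' v hv).1) fun v hv => ?_
      rw [hexpδ]
      exact (hε' v hv).2
    · have h1 : map (fun t => z0 + exp t) (𝓝 t0) = 𝓝 (φ u) := by
        have h2 : HasStrictDerivAt (fun t => z0 + exp t) (exp t0) t0 :=
          (Complex.hasStrictDerivAt_exp t0).const_add z0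
        have h3 := h2.map_nhds_eq (Complex.exp_ne_zero t0)
        rwa [hgt0] at h3
      have h2 : ∀ᶠ z in 𝓝 (φ u), E z = F (ψ z) := by
        rw [← h1, eventually_map]
        filter_upwards [hFG, (hp_open δ).mem_nhds ht0m] with t ht htm
        rw [hEG t htm, ht]
      have h3 : ContinuousAt φ u := D.hφ1.continuousOn.continuousAt (isOpen_ball.mem_nhds hu1)
      filter_upwards [h3.eventually h2, isOpen_ball.mem_nhds hu1] with v hv hv1
      rw [hv, D.hψi v hv1]
  · -- branched poles are excluded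
    exfalso
    have hsym := sym_or D.ha hq1 (D.turn hball hG ht0m hF' hFG) hB
    obtain ⟨hC, hj, hjq, hHa, hH0, hGe, hB1, hx, hRes⟩ := hB
    obtain ⟨T', hT'⟩ : ∃ T' : ℝ, T' = min T (δ - 1) := ⟨_, rfl⟩
    have hT'1 : T' ≤ T := by rw [hT']; exact min_le_left _ _
    have hT'2 : ∀ t : ℂ, t.re ≤ T' → t ∈ HP δ := by
      intro t ht
      have : T' ≤ δ - 1 := by rw [hT']; exact min_le_right _ _
      rw [hp_iff]
      linarith
    obtain ⟨ho1, ho2⟩ := pole_orders P (T := T') hq1 (by omega : 1 ≤ j) hC hHa.continuousAt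
      (fun t ht => hGe t (ht.trans hT'1)) (fun t ht => hGz t (hT'2 t ht))
      (fun t ht => hdist t (hT'2 t ht))
    have hcirc := circ_ne hP hn (T := T') hq1 hC hHa.continuousAt hH0
      (fun t ht => hGe t (ht.trans hT'1)) (fun t ht => hGz t (hT'2 t ht))
    have hqj : q + j ≤ 2 * P.natDegree := by
      have h1 := Polynomial.natDegree_le_of_dvd ho2 hcirc
      rw [Polynomial.natDegree_pow, Polynomial.natDegree_X_sub_C, mul_one] at h1
      have h2 := circp_deg P w z0 (1 / C) hd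
      omega
    rcases hsym with hs | ⟨j', hj', hj'q, hjj', hRes'⟩
    · apply hcent
      rw [← hz0]
      obtain ⟨θ, hθ⟩ : ∃ θ : ℝ, θ = 2 * Real.pi * q / j := ⟨_, rfl⟩
      rw [← hθ] at hs
      have hqr : (0 : ℝ) < q := by exact_mod_cast hq1
      have hjr : (0 : ℝ) < j := by exact_mod_cast (by omega : 0 < j)
      have hθ0 : 0 < θ := by
        rw [hθ]
        have := Real.pi_pos
        positivity
      have hθ1 : θ < 2 * Real.pi := by
        rw [hθ, div_lt_iff₀ hjr]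
        have h1 : (q : ℝ) < j := by exact_mod_cast (by omega : q < j)
        have := Real.pi_pos
        nlinarith
      have hη : exp ((θ : ℂ) * I) ≠ 1 := by
        intro h
        rw [Complex.exp_eq_one_iff] at h
        obtain ⟨m, hm⟩ := h
        have h1 : θ = m * (2 * Real.pi) := by
          have h2 := congrArg Complex.im hm
          simpa using h2
        rw [h1] at hθ0 hθ1
        have hpi := Real.pi_pos
        have h3 : (0 : ℝ) < m := by
          by_contra h4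
          rw [not_lt] at h4
          nlinarith
        have h5 : (m : ℝ) < 1 := by
          by_contra h4
          rw [not_lt] at h4
          nlinarith
        have h6 : (0 : ℤ) < m := by exact_mod_cast h3
        have h7 : m < (1 : ℤ) := by exact_mod_cast h5
        omega
      refine sym_center hP hn (S := HP δ) (g := fun t => z0 + exp t) (G := G) ?_ hGz hη
        (Complex.exp_ne_zero _) (w := w) (fun t ht => ?_) ?_
      · -- infinitely many values
        have h1 : (((ball z0 R) \ {z0}) : Set ℂ).Infinite := by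
          have h2 : (ball z0 R).Infinite := infinite_of_mem_nhds z0 (isOpen_ball.mem_nhds
            (mem_ball_self hR))
          exact h2.sdiff (Set.finite_singleton z0)
        refine h1.mono fun z hz => ?_
        have hz1 : z - z0 ≠ 0 := sub_ne_zero.2 hz.2
        refine ⟨Complex.log (z - z0), ?_, ?_⟩
        · rw [hp_iff, Complex.log_re, hδ]
          refine Real.log_lt_log (norm_pos_iff.2 hz1) ?_
          have := hz.1
          rwa [mem_ball_iff_norm] at this
        · simp only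
          rw [Complex.exp_log hz1, add_sub_cancel]
      · have h1 : t + θ * I ∈ HP δ := by
          rw [hp_iff] at ht ⊢
          simpa using ht
        have h2 := hGz _ h1
        have h3 := hs t ht
        have h4 := Complex.exp_ne_zero ((θ : ℂ) * I)
        have h5 : w + (exp ((θ : ℂ) * I))⁻¹ * (G t - w) = G (t + θ * I) := by
          rw [← h3]
          field_simp
          ring
        rw [h5, add_sub_cancel_left, ← Complex.exp_add, add_comm ((θ : ℂ) * I) t]
        exact h2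
      · obtain ⟨A', hA'⟩ := ho1
        rw [hA', Polynomial.eval_mul, Polynomial.eval_pow]
        simp [zero_pow (by omega : q ≠ 0)]
    · apply hres
      refine ⟨z0, C, q, j, j', hz0m, ?_, hj, hj', hjq, hj'q, hjj', ho1, hqj, hx, hB1, hRes, hRes'⟩
      by_contra hq3
      have h1 : q = 1 ∨ q = 2 := by omega
      rcases h1 with rfl | rfl
      · exact hjq (one_dvd j)
      · omega

end Run7.h367.SF
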