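import Pool.Agent.Run7.h367.AGlob

/-!
Algebraic boundaries: the main alternative.
-/

set_option autoImplicit false

open Complex MeasureTheory Metric Set Filter Topology ComplexConjugate
open Pool.Agent.Y245.SC Pool.Agent.Y245.UC
open Pool.Agent.TH298.Sch (Sol)
open Pool.Agent.Y245.SG (Bn)

namespace Run7.h367.SF

/-- the extension of the reflected map to the punctured disc -/
theorem alg_ext {φ ψ : ℂ → ℂ} {r a : ℝ} (D : Dat φ ψ r a)
    (hbase : ∀ v : ℂ, r⁻¹ < ‖v‖ → ‖v‖ < 1 → SInv a φ v (Rf φ))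
    {P : Polynomial (Polynomial ℂ)} (hP : Irreducible P) (hn : P.natDegree ≠ 0)
    (hd : ∀ b, (P.coeff b).natDegree ≤ P.natDegree)
    (hann : ∀ v : ℂ, r⁻¹ < ‖v‖ → ‖v‖ < 1 → P.evalEval (φ v) (Rf φ v) = 0)
    (hcent : ∀ v ∈ ball (0 : ℂ) 1, v ≠ 0 → φ v ≠ cent P.leadingCoeff) :
    (∃ (p : ℂ) (r0 : ℝ), 0 < r0 ∧ φ '' ball 0 1 = ball p r0) ∨
    Reso a (φ '' ball 0 1) P.leadingCoeff P.natDegree ∨
    ∃ F : ℂ → ℂ, DifferentiableOn ℂ F (ball 0 1 \ {0}) ∧
      ∀ v : ℂ, r⁻¹ < ‖v‖ → ‖v‖ < 1 → F v = Rf φ v := by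
  by_cases hdisc : ∃ (p : ℂ) (r0 : ℝ), 0 < r0 ∧ φ '' ball 0 1 = ball p r0
  · exact Or.inl hdisc
  by_cases hres : Reso a (φ '' ball 0 1) P.leadingCoeff P.natDegree
  · exact Or.inr (Or.inl hres)
  right
  right
  have hr := D.hr
  have hr0 : 0 < r := by linarith
  obtain ⟨x0, hx0⟩ : ∃ x0 : ℝ, x0 = -Real.log r := ⟨_, rfl⟩
  have hexp0 : Real.exp x0 = r⁻¹ := by rw [hx0, Real.exp_neg, Real.exp_log hr0]
  have hx0n : x0 < 0 := by
    rw [hx0]
    have := Real.log_pos hr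
    linarith
  have hm : ∀ x : ℝ, ∀ s ∈ Str x, Real.exp x < ‖exp s‖ ∧ ‖exp s‖ < 1 := by
    intro x s hs
    rw [Complex.norm_exp]
    exact ⟨Real.exp_lt_exp.2 hs.1, Real.exp_lt_one_iff.2 hs.2⟩
  have hbase0 : ∀ s ∈ Str x0, r⁻¹ < ‖exp s‖ ∧ ‖exp s‖ < 1 := by
    intro s hs
    have := hm x0 s hs
    rwa [hexp0] at this
  have hf0 : DifferentiableOn ℂ (fun s => Rf φ (exp s)) (Str x0) := by
    intro s hs
    have h1 := rf_diff hr D.hφ (hbase0 s hs).1
    exact (h1.comp s Complex.differentiable_exp.differentiableAt).differentiableWithinAt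
  obtain ⟨X, hX, hXf, hXp⟩ := strip_all hx0n hf0 (fun s _ => by
    rw [Complex.exp_add, Complex.exp_two_pi_mul_I, mul_one]) (by
    intro x hx X hX hXf hXp s0 hs0
    have hxn : x < 0 := by linarith
    obtain ⟨F, hF, hFX⟩ := per_desc_strip hX hXp
    obtain ⟨A, hA⟩ : ∃ A : Set ℂ, A = {v : ℂ | Real.exp x < ‖v‖ ∧ ‖v‖ < 1} := ⟨_, rfl⟩
    rw [← hA] at hF
    have hAo : IsOpen A := by rw [hA]; exact annulus_open _ _
    have hAc : IsPreconnected A := by
      have := annulus_conn x 0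
      rwa [Real.exp_zero, ← hA] at this
    have hAs : A ⊆ ball 0 1 := by
      intro v hv
      rw [hA] at hv
      rw [mem_ball_zero_iff]
      exact hv.2
    have hAexp : ∀ s ∈ Str x, exp s ∈ A := by
      intro s hs
      rw [hA]
      exact hm x s hs
    -- `F` is the reflected map near the circle
    have hFR : ∀ v : ℂ, r⁻¹ < ‖v‖ → ‖v‖ < 1 → F v = Rf φ v := by
      intro v h1 h2
      have h3 : v ∈ exp '' {s : ℂ | x0 < s.re ∧ s.re < 0} := by
        rw [← annulus_image, hexp0, Real.exp_zero]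
        exact ⟨h1, h2⟩
      obtain ⟨s, hs, rfl⟩ := h3
      have hs' : s ∈ Str x0 := hs
      rw [hFX s (str_mono hx hs'), hXf s hs']
    obtain ⟨v0, hv0⟩ : ∃ v0 : ℂ, v0 = exp ((x0 / 2 : ℝ) : ℂ) := ⟨_, rfl⟩
    have hv0s := str_mem hx0n
    have hv0A : v0 ∈ A := by rw [hv0]; exact hAexp _ (str_mono hx hv0s)
    obtain ⟨hv01, hv02⟩ := hbase0 _ hv0s
    rw [← hv0] at hv01 hv02
    have hnear : ∀ᶠ v in 𝓝 v0, r⁻¹ < ‖v‖ ∧ ‖v‖ < 1 :=
      (annulus_open r⁻¹ 1).mem_nhds ⟨hv01, hv02⟩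
    have hI0 : SInv a φ v0 F := by
      refine inv_germ D.ha D.hφ1 ?_ (hbase v0 hv01 hv02)
      filter_upwards [hnear] with v hv
      exact (hFR v hv.1 hv.2).symm
    have hIA : ∀ u ∈ A, SInv a φ u F := fun u hu =>
      inv_conn D.ha D.hφ1 hAo hAc hAs hF hv0A hu hI0
    have hPA : ∀ v ∈ A, P.evalEval (φ v) (F v) = 0 := by
      have h1 : DifferentiableOn ℂ (fun v => P.evalEval (φ v) (F v)) A :=
        ev_differentiableOn P (D.hφ1.mono hAs) hF
      have h2 : ∀ᶠ v in 𝓝 v0, P.evalEval (φ v) (F v) = 0 := by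
        filter_upwards [hnear] with v hv
        rw [hFR v hv.1 hv.2]
        exact hann v hv.1 hv.2
      exact (h1.analyticOnNhd hAo).eqOn_zero_of_preconnected_of_eventuallyEq_zero hAc hv0A h2
    -- the point
    obtain ⟨p, hp⟩ : ∃ p : ℂ, p = exp s0 := ⟨_, rfl⟩
    have hpn : ‖p‖ = Real.exp x := by rw [hp, Complex.norm_exp, hs0]
    have hp1 : p ∈ ball (0 : ℂ) 1 := by
      rw [mem_ball_zero_iff, hpn]
      exact Real.exp_lt_one_iff.2 hxn
    have hp0 : p ≠ 0 := by rw [hp]; exact Complex.exp_ne_zero s0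
    rcases local_ext D hP hn hd hp1 (hcent p hp1 hp0) with h | h | ⟨ε, hε, hεb, hloc⟩
    · exact absurd h hdisc
    · exact absurd h hres
    obtain ⟨ε', hε', hε'b⟩ : ∃ ε' > 0, ∀ s ∈ ball s0 ε', exp s ∈ ball p ε := by
      have h1 : ∀ᶠ s in 𝓝 s0, exp s ∈ ball p ε := by
        refine Complex.continuous_exp.continuousAt.eventually_mem ?_
        rw [← hp]
        exact isOpen_ball.mem_nhds (mem_ball_self hε)
      exact Metric.eventually_nhds_iff_ball.1 h1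
    obtain ⟨τ, hτ⟩ : ∃ τ : ℝ, τ = min (ε' / 2) (-x / 2) := ⟨_, rfl⟩
    have hτ0 : 0 < τ := by rw [hτ]; exact lt_min (by linarith) (by linarith)
    have hτ1 : τ ≤ ε' / 2 := by rw [hτ]; exact min_le_left _ _
    have hτ2 : τ ≤ -x / 2 := by rw [hτ]; exact min_le_right _ _
    obtain ⟨s1, hs1⟩ : ∃ s1 : ℂ, s1 = s0 + (τ : ℂ) := ⟨_, rfl⟩
    have hs1b : s1 ∈ ball s0 ε' := by
      rw [hs1, mem_ball_iff_norm, add_sub_cancel_left, Complex.norm_real, Real.norm_eq_abs,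
        abs_of_pos hτ0]
      linarith
    have hs1r : s1.re = x + τ := by rw [hs1, Complex.add_re, hs0, Complex.ofReal_re]
    have hs1s : s1 ∈ Str x := ⟨by rw [hs1r]; linarith, by rw [hs1r]; linarith⟩
    have hup : exp s1 ≠ p := by
      intro h
      have h1 := congrArg norm h
      rw [Complex.norm_exp, hpn, hs1r] at h1
      have := Real.exp_injective h1
      linarith
    have hs1A := hAexp s1 hs1s
    obtain ⟨E, hE, hEF⟩ := hloc (exp s1) (hε'b s1 hs1b) hup F (hIA _ hs1A) (by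
      filter_upwards [hAo.mem_nhds hs1A] with v hv using hPA v hv)
    refine ⟨ε', hε', fun s => E (exp s), ?_, ?_⟩
    · exact hE.comp Complex.differentiable_exp.differentiableOn hε'b
    · obtain ⟨B, hB⟩ : ∃ B : Set ℂ, B = ball s0 ε' ∩ Str x := ⟨_, rfl⟩
      have hBo : IsOpen B := by rw [hB]; exact isOpen_ball.inter (str_open x)
      have hBc : IsPreconnected B := by
        rw [hB]
        exact ((convex_ball _ _).inter (str_convex x)).isPreconnected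
      rw [← hB]
      have h1 : DifferentiableOn ℂ (fun s => E (exp s)) B := by
        refine hE.comp Complex.differentiable_exp.differentiableOn fun s hs => ?_
        rw [hB] at hs
        exact hε'b s hs.1
      have h2 : DifferentiableOn ℂ X B := hX.mono (by rw [hB]; exact inter_subset_right)
      have hs1B : s1 ∈ B := by rw [hB]; exact ⟨hs1b, hs1s⟩
      refine (h1.analyticOnNhd hBo).eqOn_of_preconnected_of_eventuallyEq
        (h2.analyticOnNhd hBo) hBc hs1B ?_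
      have h3 : ∀ᶠ s in 𝓝 s1, E (exp s) = F (exp s) :=
        Complex.continuous_exp.continuousAt.eventually hEF
      filter_upwards [h3, (str_open x).mem_nhds hs1s] with s e1 e2
      rw [e1, hFX s e2])
  -- back to the disc
  have hX' : DifferentiableOn ℂ X (HP 0) := hX
  obtain ⟨S, hS, hSX⟩ := per_desc (δ := 0) 0 hX' (fun t ht => hXp t ht)
  rw [Real.exp_zero] at hS
  refine ⟨S, hS, fun v h1 h2 => ?_⟩
  have h3 : v ∈ exp '' {s : ℂ | x0 < s.re ∧ s.re < 0} := by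
    rw [← annulus_image, hexp0, Real.exp_zero]
    exact ⟨h1, h2⟩
  obtain ⟨s, hs, rfl⟩ := h3
  have h4 := hSX s (show s ∈ HP 0 from hs.2)
  rw [zero_add] at h4
  rw [h4, hXf s hs]

/-- the alternative for a normalised Riemann map -/
theorem alg_main0 {φ ψ : ℂ → ℂ} {r a : ℝ} (D : Dat φ ψ r a)
    (hbase : ∀ v : ℂ, r⁻¹ < ‖v‖ → ‖v‖ < 1 → SInv a φ v (Rf φ))
    {P : Polynomial (Polynomial ℂ)} (hP : Irreducible P) (hn : P.natDegree ≠ 0)
    (hd : ∀ b, (P.coeff b).natDegree ≤ P.natDegree)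
    (hann : ∀ v : ℂ, r⁻¹ < ‖v‖ → ‖v‖ < 1 → P.evalEval (φ v) (Rf φ v) = 0)
    (hcent : ∀ v ∈ ball (0 : ℂ) 1, v ≠ 0 → φ v ≠ cent P.leadingCoeff) :
    (∃ (p : ℂ) (r0 : ℝ), 0 < r0 ∧ φ '' ball 0 1 = ball p r0) ∨
    Reso a (φ '' ball 0 1) P.leadingCoeff P.natDegree := by
  rcases alg_ext D hbase hP hn hd hann hcent with h | h | ⟨F, hF, hFR⟩
  · exact Or.inl h
  · exact Or.inr h
  left
  have hr := D.hr
  have hr0 : 0 < r := by linarith
  have hri : r⁻¹ < 1 := inv_lt_one_of_one_lt₀ hr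
  have hri0 : 0 < r⁻¹ := inv_pos.2 hr0
  obtain ⟨v0, hv0⟩ : ∃ v0 : ℂ, v0 = (((r⁻¹ + 1) / 2 : ℝ) : ℂ) := ⟨_, rfl⟩
  have hv0n : ‖v0‖ = (r⁻¹ + 1) / 2 := by
    rw [hv0, Complex.norm_real, Real.norm_eq_abs, abs_of_pos (by linarith)]
  have hv01 : r⁻¹ < ‖v0‖ := by rw [hv0n]; linarith
  have hv02 : ‖v0‖ < 1 := by rw [hv0n]; linarith
  have hv0B : v0 ∈ ball (0 : ℂ) 1 \ {0} := by
    refine ⟨by rwa [mem_ball_zero_iff], fun h => ?_⟩
    rw [mem_singleton_iff] at h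
    rw [h, norm_zero] at hv01
    linarith
  have hI0 : SInv a φ v0 F := by
    refine inv_germ D.ha D.hφ1 ?_ (hbase v0 hv01 hv02)
    filter_upwards [(annulus_open r⁻¹ 1).mem_nhds (show v0 ∈ {v : ℂ | r⁻¹ < ‖v‖ ∧ ‖v‖ < 1} from
      ⟨hv01, hv02⟩)] with v hv
    exact (hFR v hv.1 hv.2).symm
  rcases mainU Pool.Agent.Y508.UC.ures Pool.Agent.Y845.UC.ustep φ r a D.hr D.hφ D.hinj D.ha 0 1
    one_pos (fun v hv => hv) F hF v0 hv0B hI0.1 hI0.2.1 with h1 | ⟨E, hE, hEF⟩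
  · exact h1
  · exfalso
    refine no_ext hr D.hφ D.hinj hE fun v h1 h2 => ?_
    have hv : v ≠ 0 := by
      rintro rfl
      rw [norm_zero] at h1
      linarith
    rw [hEF v (by rwa [mem_ball_zero_iff]) hv, hFR v h1 h2]

end Run7.h367.SF
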