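import Pool.Agent.Run7.h367.AAlg2
import Pool.Agent.Run7.h367.Sym

/-!
Orders of contact at a branched pole.
-/

set_option autoImplicit false

open Set Filter Topology Metric

namespace Run7.h367.SF

/-- the polynomial `u ^ n P(z, w + 1 / u)` -/
noncomputable def hatp (P : Polynomial (Polynomial ℂ)) (w z : ℂ) : Polynomial ℂ :=
  ∑ b ∈ Finset.range (P.natDegree + 1), Polynomial.C ((P.coeff b).eval z) *
    Polynomial.X ^ (P.natDegree - b) * (1 + Polynomial.C w * Polynomial.X) ^ b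

theorem hatp_eval (P : Polynomial (Polynomial ℂ)) (w z u : ℂ) : (hatp P w z).eval u =
    ∑ b ∈ Finset.range (P.natDegree + 1), (P.coeff b).eval z * u ^ (P.natDegree - b) *
      (1 + w * u) ^ b := by
  rw [hatp, Polynomial.eval_finsetSum]
  refine Finset.sum_congr rfl fun b _ => ?_
  simp

theorem hatp_ne (P : Polynomial (Polynomial ℂ)) (w z : ℂ) {u : ℂ} (hu : u ≠ 0) :
    (hatp P w z).eval u = u ^ P.natDegree * P.evalEval z (w + 1 / u) := by
  rw [hatp_eval, ev_sum, Finset.mul_sum]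
  refine Finset.sum_congr rfl fun b hb => ?_
  have hb' : b ≤ P.natDegree := Nat.lt_succ_iff.1 (Finset.mem_range.1 hb)
  obtain ⟨c, hc⟩ := Nat.exists_eq_add_of_le hb'
  have h1 : w + 1 / u = (1 + w * u) / u := by
    field_simp
    ring
  rw [h1, div_pow, hc, Nat.add_sub_cancel_left, pow_add]
  field_simp

theorem hatp_zero (P : Polynomial (Polynomial ℂ)) (w z : ℂ) :
    (hatp P w z).eval 0 = P.leadingCoeff.eval z := by
  rw [hatp_eval, Finset.sum_range_succ, Finset.sum_eq_zero, zero_add]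
  · simp
  · intro b hb
    have hb' : b < P.natDegree := Finset.mem_range.1 hb
    rw [zero_pow (by omega), mul_zero, zero_mul]

/-- the restriction to the circle `(z - z0) (w' - w) = 1 / c` -/
noncomputable def circp (P : Polynomial (Polynomial ℂ)) (w z0 c : ℂ) : Polynomial ℂ :=
  ∑ b ∈ Finset.range (P.natDegree + 1), P.coeff b *
    (Polynomial.C c * (Polynomial.X - Polynomial.C z0)) ^ (P.natDegree - b) *
    (1 + Polynomial.C w * (Polynomial.C c * (Polynomial.X - Polynomial.C z0))) ^ b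

theorem circp_eval (P : Polynomial (Polynomial ℂ)) (w z0 c z : ℂ) :
    (circp P w z0 c).eval z = (hatp P w z).eval (c * (z - z0)) := by
  rw [hatp_eval, circp, Polynomial.eval_finsetSum]
  refine Finset.sum_congr rfl fun b _ => ?_
  simp

theorem circp_deg (P : Polynomial (Polynomial ℂ)) (w z0 c : ℂ) {d : ℕ}
    (hd : ∀ b, (P.coeff b).natDegree ≤ d) : (circp P w z0 c).natDegree ≤ d + P.natDegree := by
  refine Polynomial.natDegree_sum_le_of_forall_le _ _ fun b hb => ?_
  have hb' : b ≤ P.natDegree := Nat.lt_succ_iff.1 (Finset.mem_range.1 hb)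
  have h1 : (Polynomial.C c * (Polynomial.X - Polynomial.C z0)).natDegree ≤ 1 := by
    refine (Polynomial.natDegree_C_mul_le _ _).trans ?_
    rw [Polynomial.natDegree_X_sub_C]
  have h2 : (1 + Polynomial.C w * (Polynomial.C c * (Polynomial.X - Polynomial.C z0))).natDegree
      ≤ 1 := by
    refine (Polynomial.natDegree_add_le _ _).trans ?_
    rw [Polynomial.natDegree_one]
    exact max_le (by norm_num) ((Polynomial.natDegree_C_mul_le _ _).trans h1)
  refine Polynomial.natDegree_mul_le.trans ?_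
  have h3 := Polynomial.natDegree_pow_le_of_le b h2
  have h4 : (P.coeff b * (Polynomial.C c * (Polynomial.X - Polynomial.C z0)) ^
      (P.natDegree - b)).natDegree ≤ d + (P.natDegree - b) := by
    refine Polynomial.natDegree_mul_le.trans ?_
    have h5 := Polynomial.natDegree_pow_le_of_le (P.natDegree - b) h1
    have h6 := hd b
    omega
  omega

theorem pole_orders (P : Polynomial (Polynomial ℂ)) {G H : ℂ → ℂ} {z0 w C : ℂ} {q j : ℕ} {T : ℝ}
    (hq : 1 ≤ q) (hj : 1 ≤ j) (hC : C ≠ 0) (hH : ContinuousAt H 0)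
    (hGe : ∀ t : ℂ, t.re ≤ T → G t = C * Complex.exp (-t) + w +
      Complex.exp (t / q) ^ j * Complex.exp (-t) * H (Complex.exp (t / q)))
    (hPG : ∀ t : ℂ, t.re ≤ T → P.evalEval (z0 + Complex.exp t) (G t) = 0)
    (hdist : ∀ t : ℂ, t.re ≤ T → ∀ k < q, ∀ l < q,
      G (t + (k : ℕ) * (2 * Real.pi * Complex.I)) = G (t + (l : ℕ) * (2 * Real.pi * Complex.I)) →
        k = l) :
    (Polynomial.X - Polynomial.C z0) ^ q ∣ P.leadingCoeff ∧
    (Polynomial.X - Polynomial.C z0) ^ (q + j) ∣ circp P w z0 (1 / C) := by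
  have hqr : (0 : ℝ) < q := by exact_mod_cast hq
  have hCn : 0 < ‖C‖ := norm_pos_iff.2 hC
  -- the bound for the polynomial
  obtain ⟨M, hM⟩ : ∃ M : ℝ, ∀ z ∈ closedBall z0 1, ∀ u ∈ closedBall (0 : ℂ) 2,
      ‖(hatp P w z).eval u‖ ≤ M := by
    have h1 : Continuous fun x : ℂ × ℂ => (hatp P w x.1).eval x.2 := by
      simp only [hatp_eval]
      refine continuous_finset_sum _ fun b _ => ?_
      have h2 : Continuous fun x : ℂ × ℂ => (P.coeff b).eval x.1 :=
        (P.coeff b).continuous.comp continuous_fst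
      fun_prop
    obtain ⟨M, hM⟩ := ((isCompact_closedBall z0 1).prod
      (isCompact_closedBall (0 : ℂ) 2)).exists_bound_of_continuousOn h1.continuousOn
    exact ⟨M, fun z hz u hu => hM (z, u) ⟨hz, hu⟩⟩
  -- the denominator
  obtain ⟨L, hL⟩ : ∃ L : ℝ, L = ‖H 0‖ + 1 := ⟨_, rfl⟩
  have hev : ∀ᶠ x in 𝓝 (0 : ℂ), ‖C‖ / 2 ≤ ‖C + x ^ j * H x‖ ∧ ‖H x‖ ≤ L := by
    refine Filter.Eventually.and ?_ ?_
    · have h1 : Tendsto (fun x => ‖C + x ^ j * H x‖) (𝓝 0) (𝓝 ‖C + 0 ^ j * H 0‖) :=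
        (tendsto_const_nhds.add (((continuous_pow j).tendsto 0).mul hH.tendsto)).norm
      rw [zero_pow (by omega), zero_mul, add_zero] at h1
      have h2 : ‖C‖ / 2 < ‖C‖ := by linarith
      filter_upwards [h1.eventually (lt_mem_nhds h2)] with x hx using hx.le
    · have h1 := hH.norm.tendsto
      filter_upwards [h1.eventually (gt_mem_nhds (by linarith : ‖H 0‖ < ‖H 0‖ + 1))] with x hx
      rw [hL]
      exact hx.le
  obtain ⟨T1, hT1⟩ := small_root hq hev
  obtain ⟨T2, hT2⟩ : ∃ T2 : ℝ, T2 = min (min T T1) (min 0 (Real.log (‖C‖ / 2))) := ⟨_, rfl⟩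
  have hT2a : T2 ≤ T := by rw [hT2]; exact (min_le_left _ _).trans (min_le_left _ _)
  have hT2b : T2 ≤ T1 := by rw [hT2]; exact (min_le_left _ _).trans (min_le_right _ _)
  have hT2c : T2 ≤ 0 := by rw [hT2]; exact (min_le_right _ _).trans (min_le_left _ _)
  have hT2d : T2 ≤ Real.log (‖C‖ / 2) := by
    rw [hT2]; exact (min_le_right _ _).trans (min_le_right _ _)
  -- the roots
  obtain ⟨τ, hτ⟩ : ∃ τ : ℂ → ℕ → ℂ, τ = fun t k => t + (k : ℕ) * (2 * Real.pi * Complex.I) :=
    ⟨_, rfl⟩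
  have hτre : ∀ t k, (τ t k).re = t.re := by
    intro t k
    rw [hτ]
    simp
  have hτexp : ∀ t k, Complex.exp (τ t k) = Complex.exp t := by
    intro t k
    rw [hτ]
    simp only
    rw [Complex.exp_add, Complex.exp_nat_mul_two_pi_mul_I, mul_one]
  have hτexpn : ∀ t k, Complex.exp (-(τ t k)) = (Complex.exp t)⁻¹ := by
    intro t k
    rw [Complex.exp_neg, hτexp]
  obtain ⟨D, hD⟩ : ∃ D : ℂ → ℕ → ℂ, D = fun t k => C + Complex.exp (τ t k / q) ^ j *
    H (Complex.exp (τ t k / q)) := ⟨_, rfl⟩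
  have hDn : ∀ t : ℂ, t.re ≤ T2 → ∀ k, ‖C‖ / 2 ≤ ‖D t k‖ ∧ D t k ≠ 0 := by
    intro t ht k
    have h1 := (hT1 (τ t k) (by rw [hτre]; exact ht.trans hT2b)).1
    rw [hD]
    refine ⟨h1, fun h2 => ?_⟩
    simp only at h2
    rw [h2, norm_zero] at h1
    linarith
  have hDC : ∀ t : ℂ, t.re ≤ T2 → ∀ k, ‖D t k - C‖ ≤ L * Real.exp (j * (t.re / q)) := by
    intro t ht k
    have h1 := (hT1 (τ t k) (by rw [hτre]; exact ht.trans hT2b)).2
    have h2 : D t k - C = Complex.exp (τ t k / q) ^ j * H (Complex.exp (τ t k / q)) := by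
      rw [hD]
      ring
    have h3 : ‖Complex.exp (τ t k / q) ^ j‖ = Real.exp (j * (t.re / q)) := by
      rw [norm_pow, Complex.norm_exp, ← Real.exp_nat_mul]
      congr 2
      rw [← Complex.ofReal_natCast, Complex.div_ofReal_re, hτre]
    rw [h2, norm_mul, h3, mul_comm]
    exact mul_le_mul_of_nonneg_right h1 (Real.exp_pos _).le
  have hGD : ∀ t : ℂ, t.re ≤ T2 → ∀ k, G (τ t k) - w = D t k / Complex.exp t := by
    intro t ht k
    have h1 := Complex.exp_ne_zero t
    rw [hGe (τ t k) (by rw [hτre]; exact ht.trans hT2a), hτexpn, hD]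
    field_simp
    ring
  obtain ⟨v, hv⟩ : ∃ v : ℂ → ℕ → ℂ, v = fun t k => Complex.exp t / D t k := ⟨_, rfl⟩
  have hv0 : ∀ t : ℂ, t.re ≤ T2 → ∀ k, v t k ≠ 0 := by
    intro t ht k
    rw [hv]
    exact div_ne_zero (Complex.exp_ne_zero t) (hDn t ht k).2
  have hv1 : ∀ t : ℂ, t.re ≤ T2 → ∀ k, ‖v t k‖ ≤ 2 / ‖C‖ * Real.exp t.re := by
    intro t ht k
    rw [hv]
    simp only
    rw [norm_div, Complex.norm_exp, div_le_iff₀ (norm_pos_iff.2 (hDn t ht k).2)]
    have h1 := (hDn t ht k).1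
    have h2 := Real.exp_pos t.re
    calc Real.exp t.re = 2 / ‖C‖ * Real.exp t.re * (‖C‖ / 2) := by field_simp
      _ ≤ 2 / ‖C‖ * Real.exp t.re * ‖D t k‖ := by gcongr
  have hexp1 : ∀ t : ℂ, t.re ≤ T2 → Real.exp t.re ≤ ‖C‖ / 2 := by
    intro t ht
    exact (Real.le_log_iff_exp_le (by linarith)).1 (ht.trans hT2d)
  have hv2 : ∀ t : ℂ, t.re ≤ T2 → ∀ k < q, ‖v t k‖ ≤ 1 := by
    intro t ht k _
    refine (hv1 t ht k).trans ?_
    have := hexp1 t ht
    calc 2 / ‖C‖ * Real.exp t.re ≤ 2 / ‖C‖ * (‖C‖ / 2) := by gcongr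
      _ = 1 := by field_simp
  have hvr : ∀ t : ℂ, t.re ≤ T2 → ∀ k < q,
      (hatp P w (z0 + Complex.exp t)).eval (v t k) = 0 := by
    intro t ht k _
    rw [hatp_ne P w _ (hv0 t ht k)]
    have h1 : w + 1 / v t k = G (τ t k) := by
      have h2 := hGD t ht k
      rw [hv]
      simp only
      rw [one_div_div, ← h2]
      ring
    rw [h1]
    have h3 := hPG (τ t k) (by rw [hτre]; exact ht.trans hT2a)
    rw [hτexp] at h3
    rw [h3, mul_zero]
  have hvi : ∀ t : ℂ, t.re ≤ T2 → ∀ k < q, ∀ l < q, v t k = v t l → k = l := by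
    intro t ht k hk l hl hkl
    apply hdist t (ht.trans hT2a) k hk l hl
    have h1 : G (τ t k) = G (τ t l) := by
      have h2 := hGD t ht k
      have h3 := hGD t ht l
      have h4 : D t k / Complex.exp t = (v t k)⁻¹ := by rw [hv]; simp only; rw [inv_div]
      have h5 : D t l / Complex.exp t = (v t l)⁻¹ := by rw [hv]; simp only; rw [inv_div]
      rw [h4] at h2
      rw [h5, ← hkl, ← h2] at h3
      linear_combination -h3
    rw [hτ] at h1
    exact h1
  have hz : ∀ t : ℂ, t.re ≤ T2 → z0 + Complex.exp t ∈ closedBall z0 1 := by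
    intro t ht
    rw [mem_closedBall_iff_norm, add_sub_cancel_left, Complex.norm_exp]
    exact Real.exp_le_one_iff.2 (ht.trans hT2c)
  have hM0 : 0 ≤ M := (norm_nonneg _).trans (hM z0 (mem_closedBall_self zero_le_one) 0
    (mem_closedBall_self (by norm_num)))
  have hfac : ∀ t : ℂ, t.re ≤ T2 → ∀ u ∈ closedBall (0 : ℂ) 2,
      ‖(hatp P w (z0 + Complex.exp t)).eval u‖ ≤ M * ∏ k ∈ Finset.range q, ‖u - v t k‖ := by
    intro t ht u hu
    exact fac_bound (hv2 t ht) (hvr t ht) (hvi t ht)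
      (fun x hx => hM _ (hz t ht) x (sphere_subset_closedBall hx)) hu
  constructor
  · refine dvd_of_small (K := M * (2 / ‖C‖) ^ q) (T := T2) fun t ht => ?_
    have h1 := hfac t ht 0 (mem_closedBall_self (by norm_num))
    rw [hatp_zero] at h1
    refine h1.trans ?_
    have h2 : ∏ k ∈ Finset.range q, ‖0 - v t k‖ ≤
        ∏ k ∈ Finset.range q, (2 / ‖C‖ * Real.exp t.re) := by
      refine Finset.prod_le_prod (fun _ _ => norm_nonneg _) fun k _ => ?_
      rw [zero_sub, norm_neg]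
      exact hv1 t ht k
    rw [Finset.prod_const, Finset.card_range, mul_pow, ← Real.exp_nat_mul] at h2
    calc M * ∏ k ∈ Finset.range q, ‖0 - v t k‖
        ≤ M * ((2 / ‖C‖) ^ q * Real.exp (q * t.re)) := by gcongr
      _ = M * (2 / ‖C‖) ^ q * Real.exp (q * t.re) := by ring
  · obtain ⟨K1, hK1⟩ : ∃ K1 : ℝ, K1 = 2 * L / ‖C‖ ^ 2 := ⟨_, rfl⟩
    have hL0 : 0 ≤ L := by rw [hL]; positivity
    refine dvd_of_small (K := M * K1 ^ q) (T := T2) fun t ht => ?_
    rw [circp_eval, add_sub_cancel_left]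
    have hu : 1 / C * Complex.exp t ∈ closedBall (0 : ℂ) 2 := by
      rw [mem_closedBall_zero_iff, norm_mul, norm_div, norm_one, Complex.norm_exp]
      have := hexp1 t ht
      calc 1 / ‖C‖ * Real.exp t.re ≤ 1 / ‖C‖ * (‖C‖ / 2) := by gcongr
        _ = 1 / 2 := by field_simp
        _ ≤ 2 := by norm_num
    refine (hfac t ht _ hu).trans ?_
    have h2 : ∏ k ∈ Finset.range q, ‖1 / C * Complex.exp t - v t k‖ ≤
        ∏ k ∈ Finset.range q, (K1 * (Real.exp t.re * Real.exp (j * (t.re / q)))) := by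
      refine Finset.prod_le_prod (fun _ _ => norm_nonneg _) fun k _ => ?_
      have h3 := (hDn t ht k).2
      have h4 : 1 / C * Complex.exp t - v t k = Complex.exp t * (D t k - C) / (C * D t k) := by
        rw [hv]
        field_simp
      rw [h4, norm_div, norm_mul, norm_mul, Complex.norm_exp,
        div_le_iff₀ (mul_pos hCn (norm_pos_iff.2 h3))]
      have h5 := hDC t ht k
      have h6 := (hDn t ht k).1
      have h7 := Real.exp_pos t.re
      have h8 := Real.exp_pos (j * (t.re / q))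
      have h9 : 0 ≤ K1 := by rw [hK1]; positivity
      calc Real.exp t.re * ‖D t k - C‖ ≤ Real.exp t.re * (L * Real.exp (j * (t.re / q))) := by
            gcongr
        _ = K1 * (Real.exp t.re * Real.exp (j * (t.re / q))) * (‖C‖ * (‖C‖ / 2)) := by
            rw [hK1]
            field_simp
        _ ≤ K1 * (Real.exp t.re * Real.exp (j * (t.re / q))) * (‖C‖ * ‖D t k‖) := by gcongr
    have h9 : (Real.exp t.re * Real.exp (j * (t.re / q))) ^ q = Real.exp ((q + j : ℕ) * t.re) := by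
      rw [mul_pow, ← Real.exp_nat_mul, ← Real.exp_nat_mul, ← Real.exp_add]
      congr 1
      push_cast
      field_simp
    rw [Finset.prod_const, Finset.card_range, mul_pow, h9] at h2
    calc M * ∏ k ∈ Finset.range q, ‖1 / C * Complex.exp t - v t k‖
        ≤ M * (K1 ^ q * Real.exp ((q + j : ℕ) * t.re)) := by gcongr
      _ = M * K1 ^ q * Real.exp ((q + j : ℕ) * t.re) := by ring

end Run7.h367.SF
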