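import Pool.Agent.Y245.SG.Main

/-!
Facts on the Bessel functions: the zeros of `Bn 1` are real, and real orders `α < β` at which
`J` vanishes at the same point satisfy `β > α + 1`.
-/

set_option autoImplicit false

open Complex MeasureTheory Metric Set Filter Topology ComplexConjugate
open Pool.Agent.Y245.SG (Bn)

namespace Run7.h367.SF

theorem bnn_has (ν : ℕ) (z : ℂ) : HasSum (fun k : ℕ => (-z) ^ k /
    ((k.factorial : ℂ) * ((k + ν).factorial : ℂ))) (Bn ν z) :=
  (Pool.Agent.Y971.SG.bes ν).2.1 z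

theorem bn_le (ν : ℕ) (z : ℂ) : ‖Bn ν z‖ ≤ Real.exp ‖z‖ / (ν.factorial : ℝ) := by
  have h1 := bnn_has ν z
  have h2 : HasSum (fun k : ℕ => ‖z‖ ^ k / (k.factorial : ℝ) / (ν.factorial : ℝ))
      (Real.exp ‖z‖ / (ν.factorial : ℝ)) := by
    have h3 : HasSum (fun k : ℕ => ‖z‖ ^ k / (k.factorial : ℝ)) (Real.exp ‖z‖) := by
      rw [Real.exp_eq_exp_ℝ]
      exact NormedSpace.expSeries_div_hasSum_exp ‖z‖
    exact h3.div_const _
  rw [← h1.tsum_eq]
  refine tsum_of_norm_bounded h2 fun k => ?_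
  rw [norm_div, norm_pow, norm_neg, norm_mul, Complex.norm_natCast, Complex.norm_natCast, div_div]
  have e1 : (0 : ℝ) < (k.factorial : ℝ) := by exact_mod_cast k.factorial_pos
  have e2 : (0 : ℝ) < (ν.factorial : ℝ) := by exact_mod_cast ν.factorial_pos
  have e3 : (ν.factorial : ℝ) ≤ ((k + ν).factorial : ℝ) := by
    exact_mod_cast Nat.factorial_le (Nat.le_add_left ν k)
  gcongr

/-- the zeros of `Bn 1` are positive -/
theorem bn_real {y : ℂ} (hy : y ≠ 0) (h : Bn 1 y = 0) : ∃ x : ℝ, 0 < x ∧ y = x := by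
  obtain ⟨c, hc⟩ := IsAlgClosed.exists_pow_nat_eq y (n := 2) (by norm_num)
  have hc0 : c ≠ 0 := by
    rintro rfl
    apply hy
    rw [← hc]
    norm_num
  obtain ⟨v, hv⟩ : ∃ v : ℕ → ℂ, v = fun n => c ^ n * Bn n y := ⟨_, rfl⟩
  have hrec : ∀ n : ℕ, v n + v (n + 2) = ((n : ℂ) + 1) * c⁻¹ * v (n + 1) := by
    intro n
    have h1 := (Pool.Agent.Y971.SG.bes n).2.2.2 y
    rw [hv]
    simp only
    rw [pow_add c n 2, pow_succ c n, hc]
    field_simp
    linear_combination h1
  have hv1 : v 1 = 0 := by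
    rw [hv]
    simp only
    rw [h, mul_zero]
  have hv2 : v 2 ≠ 0 := by
    rw [hv]
    simp only
    refine mul_ne_zero (pow_ne_zero _ hc0) fun h2 => ?_
    exact Pool.Agent.Y245.SG.bourget 2 y le_rfl hy ⟨h, h2⟩
  obtain ⟨W, hW⟩ : ∃ W : ℕ → ℂ, W = fun n => v (n + 1) * conj (v n) - v n * conj (v (n + 1)) :=
    ⟨_, rfl⟩
  obtain ⟨q, hq⟩ : ∃ q : ℂ, q = c⁻¹ := ⟨_, rfl⟩
  have hstep : ∀ n : ℕ, W (n + 1) - W n =
      (q - conj q) * (((n : ℝ) + 1) * ‖v (n + 1)‖ ^ 2 : ℝ) := by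
    intro n
    have h1 := hrec n
    rw [← hq] at h1
    have h2 := congrArg conj h1
    rw [map_add, map_mul, map_mul, map_add, map_one, Complex.conj_natCast] at h2
    have h3 : ((‖v (n + 1)‖ ^ 2 : ℝ) : ℂ) = v (n + 1) * conj (v (n + 1)) := by
      rw [Complex.mul_conj, Complex.normSq_eq_norm_sq]
    rw [hW]
    simp only
    rw [ofReal_mul, h3]
    push_cast
    rw [show n + 1 + 1 = n + 2 by ring]
    linear_combination (conj (v (n + 1))) * h1 - (v (n + 1)) * h2
  have hsumW : ∀ N : ℕ, W (N + 1) = (q - conj q) *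
      ((∑ n ∈ Finset.range N, ((n : ℝ) + 2) * ‖v (n + 2)‖ ^ 2 : ℝ)) := by
    intro N
    induction N with
    | zero =>
      rw [hW]
      simp [hv1]
    | succ N ih =>
      have h1 := hstep (N + 1)
      rw [Finset.sum_range_succ, ofReal_add, mul_add, ← ih]
      have e1 : (((N + 1 : ℕ) : ℝ) + 1) * ‖v (N + 1 + 1)‖ ^ 2 =
          ((N : ℝ) + 2) * ‖v (N + 2)‖ ^ 2 := by
        push_cast
        ring_nf
      rw [e1] at h1
      linear_combination h1
  have hvlim : Tendsto v atTop (𝓝 0) := by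
    have h1 : Tendsto (fun n : ℕ => Real.exp ‖y‖ * (‖c‖ ^ n / (n.factorial : ℝ))) atTop
        (𝓝 (Real.exp ‖y‖ * 0)) :=
      (FloorSemiring.tendsto_pow_div_factorial_atTop ‖c‖).const_mul _
    rw [mul_zero] at h1
    refine squeeze_zero_norm (fun n => ?_) h1
    rw [hv]
    simp only
    rw [norm_mul, norm_pow]
    have := bn_le n y
    calc ‖c‖ ^ n * ‖Bn n y‖ ≤ ‖c‖ ^ n * (Real.exp ‖y‖ / (n.factorial : ℝ)) := by gcongr
      _ = _ := by ring
  have hWlim : Tendsto W atTop (𝓝 0) := by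
    have h1 : Tendsto (fun n => v (n + 1)) atTop (𝓝 0) := hvlim.comp (tendsto_add_atTop_nat 1)
    have h2 : Tendsto (fun n => conj (v n)) atTop (𝓝 (conj 0)) :=
      (Complex.continuous_conj.tendsto 0).comp hvlim
    have h3 : Tendsto (fun n => conj (v (n + 1))) atTop (𝓝 (conj 0)) :=
      (Complex.continuous_conj.tendsto 0).comp h1
    have h4 := (h1.mul h2).sub (hvlim.mul h3)
    rw [hW]
    simpa using h4
  have hqr : q - conj q = 0 := by
    by_contra hne
    have h1 : ∀ N : ℕ, 1 ≤ N → ‖q - conj q‖ * (2 * ‖v 2‖ ^ 2) ≤ ‖W (N + 1)‖ := by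
      intro N hN
      rw [hsumW N, norm_mul, Complex.norm_real]
      have h2 : 2 * ‖v 2‖ ^ 2 ≤ ∑ n ∈ Finset.range N, ((n : ℝ) + 2) * ‖v (n + 2)‖ ^ 2 := by
        have := Finset.single_le_sum (f := fun n : ℕ => ((n : ℝ) + 2) * ‖v (n + 2)‖ ^ 2)
          (s := Finset.range N) (fun n _ => by positivity) (Finset.mem_range.2 (by omega : 0 < N))
        simpa using this
      rw [Real.norm_of_nonneg (by positivity)]
      exact mul_le_mul_of_nonneg_left h2 (norm_nonneg _)
    have h3 : Tendsto (fun N => ‖W (N + 1)‖) atTop (𝓝 0) := by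
      have := (hWlim.comp (tendsto_add_atTop_nat 1)).norm
      rwa [norm_zero] at this
    have h4 := ge_of_tendsto h3 (eventually_atTop.2 ⟨1, h1⟩)
    have h5 : 0 < ‖q - conj q‖ * (2 * ‖v 2‖ ^ 2) := by
      have := norm_pos_iff.2 hne
      have := norm_pos_iff.2 hv2
      positivity
    linarith
  have hqc : conj q = q := (sub_eq_zero.1 hqr).symm
  obtain ⟨x, hx⟩ := Complex.conj_eq_iff_real.1 hqc
  have hx0 : x ≠ 0 := by
    rintro rfl
    rw [ofReal_zero, hq] at hx
    exact inv_ne_zero hc0 hx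
  refine ⟨(x⁻¹) ^ 2, by positivity, ?_⟩
  have : c = (x : ℂ)⁻¹ := by rw [← hx, hq, inv_inv]
  rw [← hc, this]
  push_cast
  rfl

/-- the reciprocal Gamma function -/
noncomputable def gi (x : ℝ) : ℝ := (Real.Gamma x)⁻¹

theorem gi_cont : Continuous gi := by
  have h1 : Continuous fun x : ℝ => ((Complex.Gamma (x : ℂ))⁻¹).re :=
    Complex.continuous_re.comp
      (Complex.differentiable_one_div_Gamma.continuous.comp Complex.continuous_ofReal)
  have h2 : gi = fun x : ℝ => ((Complex.Gamma (x : ℂ))⁻¹).re := by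
    funext x
    unfold gi
    rw [Complex.Gamma_ofReal, ← ofReal_inv, ofReal_re]
  rw [h2]
  exact h1

theorem gi_rec (x : ℝ) : gi x = x * gi (x + 1) := by
  unfold gi
  by_cases hx : x = 0
  · rw [hx, Real.Gamma_zero]
    simp
  · rw [Real.Gamma_add_one hx, mul_inv]
    field_simp

theorem gi_pos {x : ℝ} (hx : 0 < x) : 0 < gi x := inv_pos.2 (Real.Gamma_pos_of_pos hx)

theorem gi_add (x : ℝ) (hx : 0 < x) (m : ℕ) : gi (x + m) ≤ gi x / x ^ m := by
  induction m with
  | zero => simp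
  | succ m ih =>
    have h1 := gi_rec (x + m)
    have h2 : 0 < x + m := by positivity
    have h3 : gi (x + (m + 1 : ℕ)) = gi (x + m) / (x + m) := by
      rw [h1]
      push_cast
      rw [add_assoc]
      field_simp
    rw [h3, pow_succ, ← div_div]
    have h4 : 0 ≤ gi (x + m) := (gi_pos h2).le
    have h5 : x ≤ x + m := by
      have : (0 : ℝ) ≤ m := Nat.cast_nonneg m
      linarith
    calc gi (x + m) / (x + m) ≤ gi (x + m) / x := by gcongr
      _ ≤ gi x / x ^ m / x := by gcongr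

theorem gi_fac (x : ℝ) (hx : 1 ≤ x) (m : ℕ) : gi (x + m) ≤ gi x / (m.factorial : ℝ) := by
  induction m with
  | zero => simp
  | succ m ih =>
    have h1 := gi_rec (x + m)
    have hm : (0 : ℝ) ≤ m := Nat.cast_nonneg m
    have h2 : 0 < x + m := by linarith
    have h3 : gi (x + (m + 1 : ℕ)) = gi (x + m) / (x + m) := by
      rw [h1]
      push_cast
      rw [add_assoc]
      field_simp
    rw [h3, Nat.factorial_succ]
    push_cast
    rw [mul_comm, ← div_div]
    have h4 : 0 ≤ gi (x + m) := (gi_pos h2).le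
    have h5 : (m : ℝ) + 1 ≤ x + m := by linarith
    calc gi (x + m) / (x + m) ≤ gi (x + m) / ((m : ℝ) + 1) := by gcongr
      _ ≤ gi x / (m.factorial : ℝ) / ((m : ℝ) + 1) := by gcongr

theorem gi_bdd (A : ℝ) : ∃ B : ℝ, 0 ≤ B ∧ ∀ x : ℝ, A ≤ x → |gi x| ≤ B := by
  obtain ⟨B, hB⟩ := (isCompact_Icc (a := A) (b := 2)).exists_bound_of_continuousOn
    gi_cont.continuousOn
  refine ⟨max B 1, le_trans zero_le_one (le_max_right _ _), fun x hx => ?_⟩
  rcases le_total x 2 with h | h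
  · exact (hB x ⟨hx, h⟩).trans (le_max_left _ _)
  · refine le_trans ?_ (le_max_right _ _)
    unfold gi
    have h1 : 1 ≤ Real.Gamma x := by
      rw [← Real.Gamma_two]
      exact Real.Gamma_strictMonoOn_Ici.monotoneOn (mem_Ici.2 le_rfl) (mem_Ici.2 h) h
    rw [abs_of_pos (inv_pos.2 (by linarith))]
    exact inv_le_one_of_one_le₀ h1

/-- the Bessel-Clifford function as a function of the order -/
noncomputable def Zf (y l : ℝ) : ℝ := ∑' m : ℕ, (-y) ^ m / (m.factorial : ℝ) * gi (m + l + 1)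

theorem zf_has (y l : ℝ) :
    HasSum (fun m : ℕ => (-y) ^ m / (m.factorial : ℝ) * gi (m + l + 1)) (Zf y l) := by
  obtain ⟨B, hB0, hB⟩ := gi_bdd (l + 1)
  refine (Summable.of_norm_bounded (g := fun m : ℕ => |y| ^ m / (m.factorial : ℝ) * B)
    ((Real.summable_pow_div_factorial |y|).mul_right B) fun m => ?_).hasSum
  rw [norm_mul, norm_div, norm_pow, norm_neg, Real.norm_eq_abs, Real.norm_eq_abs,
    Real.norm_eq_abs, abs_of_pos (by positivity : (0 : ℝ) < (m.factorial : ℝ))]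
  have hm : (0 : ℝ) ≤ m := Nat.cast_nonneg m
  have := hB (m + l + 1) (by linarith)
  gcongr

theorem zf_cont (y : ℝ) : Continuous (Zf y) := by
  rw [continuous_iff_continuousAt]
  intro l0
  obtain ⟨B, hB0, hB⟩ := gi_bdd (l0 - 1 + 1)
  have h1 : ContinuousOn (Zf y) (Ioi (l0 - 1)) := by
    unfold Zf
    refine continuousOn_tsum (u := fun m : ℕ => |y| ^ m / (m.factorial : ℝ) * B) ?_
      ((Real.summable_pow_div_factorial |y|).mul_right B) ?_
    · intro m
      have := gi_cont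
      exact (continuous_const.mul (gi_cont.comp (by fun_prop))).continuousOn
    · intro m l hl
      rw [norm_mul, norm_div, norm_pow, norm_neg, Real.norm_eq_abs, Real.norm_eq_abs,
        Real.norm_eq_abs, abs_of_pos (by positivity : (0 : ℝ) < (m.factorial : ℝ))]
      have hm : (0 : ℝ) ≤ m := Nat.cast_nonneg m
      have hl' : l0 - 1 < l := hl
      have := hB (m + l + 1) (by linarith)
      gcongr
  exact h1.continuousAt (Ioi_mem_nhds (by linarith))

theorem zf_rec (y l : ℝ) : Zf y (l - 1) + y * Zf y (l + 1) = l * Zf y l := by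
  have h1 := (zf_has y l).mul_left l
  have h2 := zf_has y (l - 1)
  have h3 := h1.sub h2
  have e : ∀ m : ℕ, l * ((-y) ^ m / (m.factorial : ℝ) * gi (m + l + 1)) -
      (-y) ^ m / (m.factorial : ℝ) * gi (m + (l - 1) + 1) =
      (-y) ^ m / (m.factorial : ℝ) * (-(m : ℝ) * gi (m + l + 1)) := by
    intro m
    have := gi_rec (m + l)
    rw [show (m : ℝ) + (l - 1) + 1 = m + l by ring, this]
    ring
  simp only [e] at h3
  rw [← hasSum_nat_add_iff' 1] at h3
  simp only [Finset.sum_range_one, Nat.cast_zero, neg_zero, zero_mul, mul_zero, sub_zero] at h3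
  have h4 := (zf_has y (l + 1)).mul_left y
  have h5 : (fun m : ℕ => (-y) ^ (m + 1) / ((m + 1).factorial : ℝ) *
      (-((m + 1 : ℕ) : ℝ) * gi (((m + 1 : ℕ) : ℝ) + l + 1))) =
      fun m : ℕ => y * ((-y) ^ m / (m.factorial : ℝ) * gi (m + (l + 1) + 1)) := by
    funext m
    rw [Nat.factorial_succ]
    push_cast
    rw [show (m : ℝ) + 1 + l + 1 = m + (l + 1) + 1 by ring]
    have : (m.factorial : ℝ) ≠ 0 := by positivity
    have h6 : (m : ℝ) + 1 ≠ 0 := by positivity
    field_simp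
    ring
  rw [h5] at h3
  have := h3.unique h4
  linarith

theorem zf_close {y l : ℝ} (hy : 0 < y) (hl : 0 < l + 1) (h : 2 * y ≤ l + 1) : 0 < Zf y l := by
  have h1 := zf_has y l
  rw [← hasSum_nat_add_iff' 1] at h1
  simp only [Finset.sum_range_one, pow_zero, Nat.factorial_zero, Nat.cast_zero, zero_add,
    Nat.cast_one, div_one, one_mul] at h1
  have hg := gi_pos hl
  have hr : y / (l + 1) ≤ 1 / 2 := by
    rw [div_le_div_iff₀ hl (by norm_num)]
    linarith
  have hr0 : 0 ≤ y / (l + 1) := by positivity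
  have h2 : HasSum (fun m : ℕ => gi (l + 1) * ((1 / 2 : ℝ) ^ m / (m.factorial : ℝ)))
      (gi (l + 1) * Real.exp (1 / 2)) := by
    have h3 : HasSum (fun k : ℕ => (1 / 2 : ℝ) ^ k / (k.factorial : ℝ)) (Real.exp (1 / 2)) := by
      rw [Real.exp_eq_exp_ℝ]
      exact NormedSpace.expSeries_div_hasSum_exp (1 / 2 : ℝ)
    exact h3.mul_left _
  rw [← hasSum_nat_add_iff' 1] at h2
  simp only [Finset.sum_range_one, pow_zero, Nat.factorial_zero, Nat.cast_one, div_one,
    mul_one] at h2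
  have h3 : ‖Zf y l - gi (l + 1)‖ ≤ gi (l + 1) * Real.exp (1 / 2) - gi (l + 1) := by
    rw [← h1.tsum_eq]
    refine tsum_of_norm_bounded h2 fun m => ?_
    rw [norm_mul, norm_div, norm_pow, norm_neg, Real.norm_eq_abs, Real.norm_eq_abs,
      Real.norm_eq_abs, abs_of_pos hy,
      abs_of_pos (by positivity : (0 : ℝ) < ((m + 1).factorial : ℝ))]
    have e1 : ((m + 1 : ℕ) : ℝ) + l + 1 = (l + 1) + ((m + 1 : ℕ) : ℝ) := by ring
    have e2 := gi_add (l + 1) hl (m + 1)
    have e3 : 0 < gi ((l + 1) + ((m + 1 : ℕ) : ℝ)) := gi_pos (by positivity)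
    rw [e1, abs_of_pos e3]
    calc y ^ (m + 1) / ((m + 1).factorial : ℝ) * gi ((l + 1) + ((m + 1 : ℕ) : ℝ))
        ≤ y ^ (m + 1) / ((m + 1).factorial : ℝ) * (gi (l + 1) / (l + 1) ^ (m + 1)) := by gcongr
      _ = gi (l + 1) * ((y / (l + 1)) ^ (m + 1) / ((m + 1).factorial : ℝ)) := by
          rw [div_pow]
          field_simp
      _ ≤ gi (l + 1) * ((1 / 2) ^ (m + 1) / ((m + 1).factorial : ℝ)) := by gcongr
  have h4 : Real.exp (1 / 2) < 2 := by
    have h5 := Real.exp_one_lt_d9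
    have h6 : Real.exp (1 / 2) ^ 2 = Real.exp 1 := by
      rw [← Real.exp_nat_mul]
      norm_num
    have h7 := Real.exp_pos (1 / 2)
    nlinarith
  rw [Real.norm_eq_abs] at h3
  have h5 := (abs_le.1 h3).1
  nlinarith

theorem zf_dec (y : ℝ) (hy : 0 < y) (l : ℝ) (hl : 0 ≤ l) (n : ℕ) :
    |Zf y (l + n)| ≤ Real.exp y * gi (l + 1) / (n.factorial : ℝ) := by
  have h1 := zf_has y (l + n)
  have h2 : HasSum (fun m : ℕ => y ^ m / (m.factorial : ℝ) * (gi (l + 1) / (n.factorial : ℝ)))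
      (Real.exp y * (gi (l + 1) / (n.factorial : ℝ))) := by
    have h3 : HasSum (fun k : ℕ => y ^ k / (k.factorial : ℝ)) (Real.exp y) := by
      rw [Real.exp_eq_exp_ℝ]
      exact NormedSpace.expSeries_div_hasSum_exp y
    exact h3.mul_right _
  have h3 : ‖Zf y (l + n)‖ ≤ Real.exp y * (gi (l + 1) / (n.factorial : ℝ)) := by
    rw [← h1.tsum_eq]
    refine tsum_of_norm_bounded h2 fun m => ?_
    rw [norm_mul, norm_div, norm_pow, norm_neg, Real.norm_eq_abs, Real.norm_eq_abs,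
      Real.norm_eq_abs, abs_of_pos hy,
      abs_of_pos (by positivity : (0 : ℝ) < (m.factorial : ℝ))]
    have e1 : (m : ℝ) + (l + n) + 1 = (l + 1) + ((n + m : ℕ) : ℝ) := by push_cast; ring
    have e2 := gi_fac (l + 1) (by linarith) (n + m)
    have e3 : 0 < gi ((l + 1) + ((n + m : ℕ) : ℝ)) := gi_pos (by positivity)
    have e4 : (n.factorial : ℝ) ≤ ((n + m).factorial : ℝ) := by
      exact_mod_cast Nat.factorial_le (Nat.le_add_right n m)
    have e5 : 0 ≤ gi (l + 1) := (gi_pos (by linarith)).le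
    rw [e1, abs_of_pos e3]
    have e6 : (0 : ℝ) < (n.factorial : ℝ) := by positivity
    calc y ^ m / (m.factorial : ℝ) * gi ((l + 1) + ((n + m : ℕ) : ℝ))
        ≤ y ^ m / (m.factorial : ℝ) * (gi (l + 1) / ((n + m).factorial : ℝ)) := by gcongr
      _ ≤ y ^ m / (m.factorial : ℝ) * (gi (l + 1) / (n.factorial : ℝ)) := by gcongr
  rw [Real.norm_eq_abs] at h3
  rw [mul_div_assoc]
  exact h3

theorem zf_sum (y : ℝ) (hy : 0 < y) (α : ℝ) : Summable fun n : ℕ => y ^ n * |Zf y (α + n + 1)| := by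
  obtain ⟨N, hN⟩ := exists_nat_ge (-α)
  rw [← summable_nat_add_iff N]
  obtain ⟨l, hl⟩ : ∃ l : ℝ, l = α + N + 1 := ⟨_, rfl⟩
  have hl0 : 0 ≤ l := by rw [hl]; linarith
  refine Summable.of_nonneg_of_le (fun n => by positivity) (fun n => ?_)
    (((Real.summable_pow_div_factorial y).mul_left (y ^ N * (Real.exp y * gi (l + 1)))))
  have h1 := zf_dec y hy l hl0 n
  have e1 : α + ((n + N : ℕ) : ℝ) + 1 = l + n := by
    rw [hl]
    push_cast
    ring
  rw [e1, pow_add]
  calc y ^ n * y ^ N * |Zf y (l + n)| ≤ y ^ n * y ^ N * (Real.exp y * gi (l + 1) /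
        (n.factorial : ℝ)) := by gcongr
    _ = _ := by ring

theorem zf_bdd (y : ℝ) (hy : 0 < y) (A : ℝ) : ∃ B : ℝ, 0 ≤ B ∧ ∀ l : ℝ, A ≤ l → |Zf y l| ≤ B := by
  obtain ⟨B, hB0, hB⟩ := gi_bdd (A + 1)
  refine ⟨Real.exp y * B, by positivity, fun l hl => ?_⟩
  have h1 := zf_has y l
  have h2 : HasSum (fun m : ℕ => y ^ m / (m.factorial : ℝ) * B) (Real.exp y * B) := by
    have h3 : HasSum (fun k : ℕ => y ^ k / (k.factorial : ℝ)) (Real.exp y) := by
      rw [Real.exp_eq_exp_ℝ]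
      exact NormedSpace.expSeries_div_hasSum_exp y
    exact h3.mul_right _
  rw [← Real.norm_eq_abs, ← h1.tsum_eq]
  refine tsum_of_norm_bounded h2 fun m => ?_
  rw [norm_mul, norm_div, norm_pow, norm_neg, Real.norm_eq_abs, Real.norm_eq_abs,
    Real.norm_eq_abs, abs_of_pos hy,
    abs_of_pos (by positivity : (0 : ℝ) < (m.factorial : ℝ))]
  have hm : (0 : ℝ) ≤ m := Nat.cast_nonneg m
  have := hB (m + l + 1) (by linarith)
  gcongr

theorem zf_casorati (y : ℝ) (hy : 0 < y) (α β : ℝ) :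
    Zf y α * Zf y (β + 1) - Zf y (α + 1) * Zf y β =
      (α - β) * ∑' n : ℕ, y ^ n * (Zf y (α + n + 1) * Zf y (β + n + 1)) := by
  obtain ⟨D, hD⟩ : ∃ D : ℕ → ℝ, D = fun n : ℕ => Zf y (α + n) * Zf y (β + n + 1) -
    Zf y (α + n + 1) * Zf y (β + n) := ⟨_, rfl⟩
  have hstep : ∀ n : ℕ, D n = (α - β) * (Zf y (α + n + 1) * Zf y (β + n + 1)) + y * D (n + 1) := by
    intro n
    have h1 := zf_rec y (α + n + 1)
    have h2 := zf_rec y (β + n + 1)
    rw [add_sub_cancel_right] at h1 h2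
    rw [hD]
    simp only
    push_cast
    rw [← add_assoc α, ← add_assoc β]
    linear_combination (Zf y (β + n + 1)) * h1 - (Zf y (α + n + 1)) * h2
  have hsum : ∀ N : ℕ, D 0 = (α - β) * ∑ n ∈ Finset.range N, y ^ n *
      (Zf y (α + n + 1) * Zf y (β + n + 1)) + y ^ N * D N := by
    intro N
    induction N with
    | zero => simp
    | succ N ih =>
      rw [Finset.sum_range_succ, ih, hstep N, pow_succ]
      ring
  obtain ⟨B, hB0, hB⟩ := zf_bdd y hy (min α β)
  have hs1 := zf_sum y hy α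
  have hs2 : Summable fun n : ℕ => y ^ n * (Zf y (α + n + 1) * Zf y (β + n + 1)) := by
    refine Summable.of_norm_bounded (hs1.mul_right B) fun n => ?_
    rw [norm_mul, norm_mul, Real.norm_of_nonneg (by positivity), Real.norm_eq_abs,
      Real.norm_eq_abs, ← mul_assoc]
    have hn : (0 : ℝ) ≤ n := Nat.cast_nonneg n
    have := hB (β + n + 1) ((min_le_right _ _).trans (by linarith))
    gcongr
  have hlim : Tendsto (fun N => y ^ N * D N) atTop (𝓝 0) := by
    have h1 : Tendsto (fun N : ℕ => y * (y ^ N * |Zf y (α + N + 1)|) * B +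
        y ^ (N + 1) * |Zf y (α + N + 1 + 1)| * B) atTop (𝓝 (y * 0 * B + 0 * B)) := by
      have h2 := hs1.tendsto_atTop_zero
      have h3 : Tendsto (fun N : ℕ => y ^ (N + 1) * |Zf y (α + N + 1 + 1)|) atTop (𝓝 0) := by
        have := h2.comp (tendsto_add_atTop_nat 1)
        refine this.congr fun N => ?_
        simp only [Function.comp]
        push_cast
        rw [← add_assoc α]
      exact ((h2.const_mul y).mul_const B).add (h3.mul_const B)
    rw [mul_zero, zero_mul, add_zero] at h1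
    rw [← tendsto_add_atTop_iff_nat 1]
    refine squeeze_zero_norm (fun N => ?_) h1
    rw [hD]
    simp only
    rw [norm_mul, Real.norm_of_nonneg (by positivity)]
    have hn : (0 : ℝ) ≤ N := Nat.cast_nonneg N
    have b1 := hB (β + ((N + 1 : ℕ) : ℝ) + 1) ((min_le_right _ _).trans (by push_cast; linarith))
    have b2 := hB (β + ((N + 1 : ℕ) : ℝ)) ((min_le_right _ _).trans (by push_cast; linarith))
    have b3 : ‖Zf y (α + ((N + 1 : ℕ) : ℝ)) * Zf y (β + ((N + 1 : ℕ) : ℝ) + 1) -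
        Zf y (α + ((N + 1 : ℕ) : ℝ) + 1) * Zf y (β + ((N + 1 : ℕ) : ℝ))‖ ≤
        |Zf y (α + N + 1)| * B + |Zf y (α + N + 1 + 1)| * B := by
      refine (norm_sub_le _ _).trans ?_
      rw [norm_mul, norm_mul, Real.norm_eq_abs, Real.norm_eq_abs, Real.norm_eq_abs,
        Real.norm_eq_abs]
      push_cast at b1 b2 ⊢
      rw [← add_assoc α]
      gcongr
    calc y ^ (N + 1) * _ ≤ y ^ (N + 1) * (|Zf y (α + N + 1)| * B + |Zf y (α + N + 1 + 1)| * B) := by
          gcongr
      _ = _ := by ring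
  have h3 : Tendsto (fun N : ℕ => (α - β) * ∑ n ∈ Finset.range N, y ^ n *
      (Zf y (α + n + 1) * Zf y (β + n + 1)) + y ^ N * D N) atTop
      (𝓝 ((α - β) * (∑' n : ℕ, y ^ n * (Zf y (α + n + 1) * Zf y (β + n + 1))) + 0)) :=
    (hs2.hasSum.tendsto_sum_nat.const_mul _).add hlim
  have h4 : Tendsto (fun N : ℕ => (α - β) * ∑ n ∈ Finset.range N, y ^ n *
      (Zf y (α + n + 1) * Zf y (β + n + 1)) + y ^ N * D N) atTop (𝓝 (D 0)) := by
    simp only [← hsum]
    exact tendsto_const_nhds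
  have h5 := tendsto_nhds_unique h4 h3
  rw [add_zero] at h5
  rw [← h5, hD]
  simp

theorem zf_near (y : ℝ) (hy : 0 < y) (α : ℝ) (h0 : Zf y α = 0) : ∃ ε : ℝ, 0 < ε ∧
    ∀ β : ℝ, |β - α| < ε → β ≠ α → 0 < Zf y (α + 1) * Zf y β * (β - α) := by
  obtain ⟨S, hS⟩ : ∃ S : ℝ → ℝ, S = fun β => ∑' n : ℕ, y ^ n *
    (Zf y (α + n + 1) * Zf y (β + n + 1)) := ⟨_, rfl⟩
  obtain ⟨B, hB0, hB⟩ := zf_bdd y hy (α - 1)
  have hs1 := zf_sum y hy α
  have hbd : ∀ (n : ℕ) (β : ℝ), β ∈ Ioi (α - 1) →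
      ‖y ^ n * (Zf y (α + n + 1) * Zf y (β + n + 1))‖ ≤ y ^ n * |Zf y (α + n + 1)| * B := by
    intro n β hβ
    have hβ' : α - 1 < β := hβ
    rw [norm_mul, norm_mul, Real.norm_of_nonneg (by positivity), Real.norm_eq_abs,
      Real.norm_eq_abs, ← mul_assoc]
    have hn : (0 : ℝ) ≤ n := Nat.cast_nonneg n
    have := hB (β + n + 1) (by linarith)
    gcongr
  have hSc : ContinuousOn S (Ioi (α - 1)) := by
    rw [hS]
    refine continuousOn_tsum (u := fun n : ℕ => y ^ n * |Zf y (α + n + 1)| * B) ?_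
      (hs1.mul_right B) hbd
    intro n
    have := zf_cont y
    exact (continuous_const.mul (continuous_const.mul ((zf_cont y).comp
      (by fun_prop)))).continuousOn
  have hSat : ContinuousAt S α := hSc.continuousAt (Ioi_mem_nhds (by linarith))
  have hSpos : 0 < S α := by
    rw [hS]
    simp only
    have hsm : Summable fun n : ℕ => y ^ n * (Zf y (α + n + 1) * Zf y (α + n + 1)) :=
      Summable.of_norm_bounded (hs1.mul_right B) fun n =>
        hbd n α (mem_Ioi.2 (by linarith))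
    obtain ⟨N, hN⟩ := exists_nat_ge (max (2 * y - α) (1 - α))
    have hN1 : 2 * y - α ≤ N := (le_max_left _ _).trans hN
    have hN2 : 1 - α ≤ N := (le_max_right _ _).trans hN
    refine hsm.tsum_pos (fun n => ?_) N ?_
    · have := mul_self_nonneg (Zf y (α + n + 1))
      positivity
    · have := zf_close (l := α + N + 1) hy (by linarith) (by linarith)
      positivity
  obtain ⟨ε, hε, hε2⟩ := Metric.eventually_nhds_iff.1 (hSat.eventually (eventually_gt_nhds hSpos))
  refine ⟨ε, hε, fun β hβ hne => ?_⟩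
  have h1 := zf_casorati y hy α β
  have h2 : 0 < S β := hε2 (by rw [Real.dist_eq]; exact hβ)
  have h3 : S β = ∑' n : ℕ, y ^ n * (Zf y (α + n + 1) * Zf y (β + n + 1)) := by rw [hS]
  rw [← h3, h0, zero_mul, zero_sub] at h1
  have h4 : Zf y (α + 1) * Zf y β * (β - α) = (β - α) ^ 2 * S β := by
    linear_combination (-(β - α)) * h1
  rw [h4]
  have h5 : 0 < (β - α) ^ 2 := by
    have : β - α ≠ 0 := sub_ne_zero.2 hne
    positivity
  positivity

theorem zf_next (y : ℝ) (hy : 0 < y) (α β : ℝ) (hab : α < β) (hα : Zf y α = 0)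
    (hβ : Zf y β = 0) (hne : ∀ x, α < x → x < β → Zf y x ≠ 0) :
    ∃ η : ℝ, α + 1 < η ∧ η < β + 1 ∧ Zf y η = 0 := by
  obtain ⟨ε1, hε1, h1⟩ := zf_near y hy α hα
  obtain ⟨ε2, hε2, h2⟩ := zf_near y hy β hβ
  obtain ⟨d, hd⟩ : ∃ d : ℝ, d = min (min (ε1 / 2) (ε2 / 2)) ((β - α) / 2) := ⟨_, rfl⟩
  have hd0 : 0 < d := by
    rw [hd]
    refine lt_min (lt_min (by linarith) (by linarith)) (by linarith)
  have hd1 : d < ε1 := by
    have : d ≤ ε1 / 2 := by rw [hd]; exact (min_le_left _ _).trans (min_le_left _ _)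
    linarith
  have hd2 : d < ε2 := by
    have : d ≤ ε2 / 2 := by rw [hd]; exact (min_le_left _ _).trans (min_le_right _ _)
    linarith
  have hd3 : d ≤ (β - α) / 2 := by rw [hd]; exact min_le_right _ _
  have k1 := h1 (α + d) (by rw [add_sub_cancel_left, abs_of_pos hd0]; exact hd1) (by linarith)
  have k2 := h2 (β - d) (by rw [show β - d - β = -d by ring, abs_neg, abs_of_pos hd0]; exact hd2)
    (by linarith)
  rw [add_sub_cancel_left] at k1
  rw [show β - d - β = -d by ring] at k2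
  -- same sign at `α + d` and `β - d`
  have hs : 0 < Zf y (α + d) * Zf y (β - d) := by
    by_contra hcon
    rw [not_lt] at hcon
    have hle : α + d ≤ β - d := by linarith
    have hc : ContinuousOn (Zf y) (Icc (α + d) (β - d)) := (zf_cont y).continuousOn
    rcases le_total (Zf y (α + d)) 0 with hs1 | hs1
    · have hs2 : 0 ≤ Zf y (β - d) := by
        by_contra h3
        rw [not_le] at h3
        have h4 := hne (α + d) (by linarith) (by linarith)
        have h5 : Zf y (α + d) < 0 := lt_of_le_of_ne hs1 h4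
        nlinarith [mul_pos_of_neg_of_neg h5 h3]
      obtain ⟨x, hx, hx0⟩ := intermediate_value_Icc hle hc ⟨hs1, hs2⟩
      exact hne x (by linarith [hx.1]) (by linarith [hx.2]) hx0
    · have hs2 : Zf y (β - d) ≤ 0 := by
        by_contra h3
        rw [not_le] at h3
        have h4 := hne (α + d) (by linarith) (by linarith)
        have h5 : 0 < Zf y (α + d) := lt_of_le_of_ne hs1 (Ne.symm h4)
        nlinarith [mul_pos h5 h3]
      obtain ⟨x, hx, hx0⟩ := intermediate_value_Icc' hle hc ⟨hs2, hs1⟩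
      exact hne x (by linarith [hx.1]) (by linarith [hx.2]) hx0
  have hop : Zf y (α + 1) * Zf y (β + 1) < 0 := by
    have e1 : 0 < Zf y (α + 1) * Zf y (α + d) := by
      by_contra h3
      rw [not_lt] at h3
      nlinarith
    have e2 : Zf y (β + 1) * Zf y (β - d) < 0 := by
      by_contra h3
      rw [not_lt] at h3
      nlinarith
    have e3 := mul_neg_of_pos_of_neg e1 e2
    have e4 : Zf y (α + 1) * Zf y (α + d) * (Zf y (β + 1) * Zf y (β - d)) =
        (Zf y (α + 1) * Zf y (β + 1)) * (Zf y (α + d) * Zf y (β - d)) := by ring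
    rw [e4] at e3
    by_contra h3
    rw [not_lt] at h3
    nlinarith [mul_nonneg h3 hs.le]
  have hc : ContinuousOn (Zf y) (Icc (α + 1) (β + 1)) := (zf_cont y).continuousOn
  have hle : α + 1 ≤ β + 1 := by linarith
  rcases lt_or_ge (Zf y (α + 1)) 0 with hs1 | hs1
  · have hs2 : 0 < Zf y (β + 1) := by
      by_contra h3
      rw [not_lt] at h3
      nlinarith [mul_nonneg_of_nonpos_of_nonpos hs1.le h3]
    obtain ⟨x, hx, hx0⟩ := intermediate_value_Icc hle hc ⟨hs1.le, hs2.le⟩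
    refine ⟨x, lt_of_le_of_ne hx.1 ?_, lt_of_le_of_ne hx.2 ?_, hx0⟩
    · rintro rfl
      linarith
    · rintro rfl
      linarith
  · have hs3 : Zf y (α + 1) ≠ 0 := by
      intro h3
      rw [h3, zero_mul] at hop
      exact lt_irrefl _ hop
    have hs1' : 0 < Zf y (α + 1) := lt_of_le_of_ne hs1 (Ne.symm hs3)
    have hs2 : Zf y (β + 1) < 0 := by
      by_contra h3
      rw [not_lt] at h3
      nlinarith [mul_nonneg hs1 h3]
    obtain ⟨x, hx, hx0⟩ := intermediate_value_Icc' hle hc ⟨hs2.le, hs1⟩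
    refine ⟨x, lt_of_le_of_ne hx.1 ?_, lt_of_le_of_ne hx.2 ?_, hx0⟩
    · rintro rfl
      linarith
    · rintro rfl
      linarith

/-- two orders at which the Bessel function vanishes differ by more than one -/
theorem zf_spacing (y : ℝ) (hy : 0 < y) (α β : ℝ) (hab : α < β) (hα : Zf y α = 0)
    (hβ : Zf y β = 0) : α + 1 < β := by
  by_contra hcon
  rw [not_lt] at hcon
  obtain ⟨T, hT⟩ : ∃ T : Set ℝ, T = {b : ℝ | Zf y b = 0 ∧ ∃ a : ℝ, Zf y a = 0 ∧ a < b ∧
    b ≤ a + 1} := ⟨_, rfl⟩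
  have hTne : T.Nonempty := ⟨β, by rw [hT]; exact ⟨hβ, α, hα, hab, hcon⟩⟩
  have hTb : BddAbove T := by
    refine ⟨2 * y, fun b hb => ?_⟩
    rw [hT] at hb
    by_contra h1
    rw [not_le] at h1
    have := zf_close (l := b) hy (by linarith) (by linarith)
    linarith [hb.1]
  obtain ⟨s, hs⟩ : ∃ s : ℝ, s = sSup T := ⟨_, rfl⟩
  have hlub : IsLUB T s := by rw [hs]; exact isLUB_csSup hTne hTb
  have hclosed : IsClosed {b : ℝ | Zf y b = 0} := isClosed_eq (zf_cont y) continuous_const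
  have hs0 : Zf y s = 0 := by
    have h1 : s ∈ closure T := hlub.mem_closure hTne
    have h2 : closure T ⊆ {b : ℝ | Zf y b = 0} := by
      refine closure_minimal (fun b hb => ?_) hclosed
      rw [hT] at hb
      exact hb.1
    exact h2 h1
  obtain ⟨ε, hε, hiso⟩ := zf_near y hy s hs0
  have hiso' : ∀ b : ℝ, |b - s| < ε → b ≠ s → Zf y b ≠ 0 := by
    intro b h1 h2 h3
    have := hiso b h1 h2
    rw [h3, mul_zero, zero_mul] at this
    exact lt_irrefl _ this
  have hsT : s ∈ T := by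
    obtain ⟨b, hb, hb1⟩ := (lt_isLUB_iff hlub).1 (show s - ε < s by linarith)
    have hb2 : b ≤ s := hlub.1 hb
    by_cases h3 : b = s
    · rw [← h3]; exact hb
    · exfalso
      have hb0 : Zf y b = 0 := by
        rw [hT] at hb
        exact hb.1
      refine hiso' b ?_ h3 hb0
      rw [abs_lt]
      constructor <;> linarith
  rw [hT] at hsT
  obtain ⟨-, a0, ha0, ha1, ha2⟩ := hsT
  -- the largest zero below `s`
  have hcomp : IsCompact ({b : ℝ | Zf y b = 0} ∩ Icc a0 (s - ε)) :=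
    isCompact_Icc.inter_left hclosed
  have ha3 : a0 ≤ s - ε := by
    by_contra h1
    rw [not_le] at h1
    refine hiso' a0 ?_ ha1.ne ha0
    rw [abs_lt]
    constructor <;> linarith
  obtain ⟨a, ha, hamax⟩ := hcomp.exists_isGreatest ⟨a0, ha0, le_rfl, ha3⟩
  obtain ⟨haz, haI⟩ := ha
  have has : a < s := by linarith [haI.2]
  obtain ⟨η, hη1, hη2, hη0⟩ := zf_next y hy a s has haz hs0 (by
    intro x hx1 hx2 hx0
    rcases le_or_gt x (s - ε) with h1 | h1
    · have := hamax ⟨hx0, by linarith [haI.1], h1⟩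
      linarith
    · refine hiso' x ?_ hx2.ne hx0
      rw [abs_lt]
      constructor <;> linarith)
  have hηs : s < η := by linarith [haI.1]
  have hηT : η ∈ T := by
    rw [hT]
    exact ⟨hη0, s, hs0, hηs, hη2.le⟩
  linarith [hlub.1 hηT]

theorem zf_one (y : ℝ) : ((Zf y 1 : ℝ) : ℂ) = Bn 1 y := by
  have h1 := zf_has y 1
  have h2 : HasSum (fun m : ℕ => (((-y) ^ m / (m.factorial : ℝ) * gi (m + 1 + 1) : ℝ) : ℂ))
      ((Zf y 1 : ℝ) : ℂ) := by exact_mod_cast h1
  have h4 : (fun m : ℕ => (((-y) ^ m / (m.factorial : ℝ) * gi (m + 1 + 1) : ℝ) : ℂ)) =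
      fun m : ℕ => (-(y : ℂ)) ^ m / ((m.factorial : ℂ) * ((m + 1).factorial : ℂ)) := by
    funext m
    have h3 : gi ((m : ℝ) + 1 + 1) = ((m + 1).factorial : ℝ)⁻¹ := by
      unfold gi
      have := Real.Gamma_nat_eq_factorial (m + 1)
      push_cast at this
      rw [this]
    rw [h3]
    push_cast
    field_simp
  rw [h4] at h2
  exact h2.unique (bnn_has 1 y)

theorem zf_neg_one (y : ℝ) : Zf y (-1) = -y * Zf y 1 := by
  have h1 := zf_rec y 0
  simp only [zero_sub, zero_add, zero_mul] at h1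
  linarith

theorem zf_frac {y σ : ℝ} (hσ : ∀ n : ℤ, σ ≠ n)
    (h : HasSum (fun m : ℕ => (y : ℂ) ^ m / ((m.factorial : ℂ) *
      ∏ i ∈ Finset.range m, ((σ : ℂ) - i))) 0) : Zf y (-σ - 1) = 0 := by
  have hne : ∀ i : ℕ, σ - i ≠ 0 := by
    intro i h1
    apply hσ i
    push_cast
    linarith
  have hg : ∀ m : ℕ, gi ((m : ℝ) - σ) * ((-1) ^ m * ∏ i ∈ Finset.range m, (σ - i)) =
      gi (-σ) := by
    intro m
    induction m with
    | zero => simp
    | succ m ih =>
      have h1 := gi_rec ((m : ℝ) - σ)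
      rw [← ih, h1, Finset.prod_range_succ]
      push_cast
      rw [show (m : ℝ) + 1 - σ = m - σ + 1 by ring]
      ring
  have h1 : HasSum (fun m : ℕ => gi (-σ) * (y ^ m / ((m.factorial : ℝ) *
      ∏ i ∈ Finset.range m, (σ - i)))) 0 := by
    have h2 : HasSum (fun m : ℕ => y ^ m / ((m.factorial : ℝ) *
        ∏ i ∈ Finset.range m, (σ - i))) 0 := by
      have h3 : (fun m : ℕ => (y : ℂ) ^ m / ((m.factorial : ℂ) *
          ∏ i ∈ Finset.range m, ((σ : ℂ) - i))) = fun m : ℕ => ((y ^ m / ((m.factorial : ℝ) *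
          ∏ i ∈ Finset.range m, (σ - i)) : ℝ) : ℂ) := by
        funext m
        push_cast
        rfl
      rw [h3, ← ofReal_zero] at h
      exact Complex.hasSum_ofReal.1 h
    have h3 := h2.mul_left (gi (-σ))
    rwa [mul_zero] at h3
  refine (zf_has y (-σ - 1)).unique ?_
  have h4 : (fun m : ℕ => (-y) ^ m / (m.factorial : ℝ) * gi (m + (-σ - 1) + 1)) =
      fun m : ℕ => gi (-σ) * (y ^ m / ((m.factorial : ℝ) *
      ∏ i ∈ Finset.range m, (σ - i))) := by
    funext m
    have n1 : ∏ i ∈ Finset.range m, (σ - (i : ℝ)) ≠ 0 :=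
      Finset.prod_ne_zero_iff.2 fun i _ => hne i
    rw [show (m : ℝ) + (-σ - 1) + 1 = m - σ by ring, ← hg m,
      show (-y) ^ m = (-1) ^ m * y ^ m by rw [← mul_pow]; ring_nf]
    field_simp
  rw [h4]
  exact h1

/-- no resonance below the exponent one -/
theorem no_small {y σ : ℝ} (hy : 0 < y) (h1 : Bn 1 (y : ℂ) = 0) (hσ : ∀ n : ℤ, σ ≠ n)
    (hs : -1 < σ)
    (h : HasSum (fun m : ℕ => (y : ℂ) ^ m / ((m.factorial : ℂ) *
      ∏ i ∈ Finset.range m, ((σ : ℂ) - i))) 0) : 1 < σ := by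
  have e1 : Zf y 1 = 0 := by
    have := zf_one y
    rw [h1] at this
    exact_mod_cast this
  have e2 : Zf y (-1) = 0 := by rw [zf_neg_one, e1, mul_zero]
  have e3 := zf_frac hσ h
  by_contra hcon
  rw [not_lt] at hcon
  have hσ1 : σ ≠ 1 := by
    have := hσ 1
    rwa [Int.cast_one] at this
  have hσ0 : σ ≠ 0 := by
    have := hσ 0
    rwa [Int.cast_zero] at this
  rcases lt_or_gt_of_ne hσ0 with h2 | h2
  · have := zf_spacing y hy (-1) (-σ - 1) (by linarith) e2 e3
    linarith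
  · have := zf_spacing y hy (-σ - 1) (-1) (by linarith) e3 e2
    have h3 : σ < 1 := lt_of_le_of_ne hcon hσ1
    linarith

end Run7.h367.SF
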