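import Pool.Agent.Y508.UC.Res

/-!
The Volterra equation on the universal covering of a punctured disc in the `z`-plane, and the
identity for one turn.
-/

set_option autoImplicit false

open Complex MeasureTheory Metric Set Filter Topology ComplexConjugate
open Pool.Agent.Y245.SC Pool.Agent.Y245.UC

namespace Run7.h367.SF

/-- the left half-plane -/
def HP (δ : ℝ) : Set ℂ := {t : ℂ | t.re < δ}

theorem hp_open (δ : ℝ) : IsOpen (HP δ) := isOpen_lt Complex.continuous_re continuous_const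

theorem hp_convex (δ : ℝ) : Convex ℝ (HP δ) := convex_halfSpace_re_lt δ

/-- the kernel -/
noncomputable def KK (a : ℝ) (G : ℂ → ℂ) (b t τ : ℂ) : ℂ :=
  (G τ - b) ^ 2 * kap a ((G τ - b) * (exp τ - exp t)) * exp τ

theorem kk_joint {a δ : ℝ} (hk : Differentiable ℂ (kap a)) {G : ℂ → ℂ}
    (hG : DifferentiableOn ℂ G (HP δ)) (b : ℂ) :
    DifferentiableOn ℂ (fun p : ℂ × ℂ => KK a G b p.1 p.2) (univ ×ˢ HP δ) := by
  have h1 : DifferentiableOn ℂ (fun p : ℂ × ℂ => G p.2) ((univ : Set ℂ) ×ˢ HP δ) :=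
    hG.comp differentiableOn_snd (fun p hp => hp.2)
  have h2 : DifferentiableOn ℂ (fun p : ℂ × ℂ => exp p.2) ((univ : Set ℂ) ×ˢ HP δ) := by
    fun_prop
  have h3 : DifferentiableOn ℂ (fun p : ℂ × ℂ => exp p.1) ((univ : Set ℂ) ×ˢ HP δ) := by
    fun_prop
  have h5 : DifferentiableOn ℂ (fun p : ℂ × ℂ => (G p.2 - b) * (exp p.2 - exp p.1))
      ((univ : Set ℂ) ×ˢ HP δ) := (h1.sub_const b).mul (h2.sub h3)
  exact (((h1.sub_const b).pow 2).mul (hk.comp_differentiableOn h5)).mul h2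

theorem kk_diff {a δ : ℝ} (hk : Differentiable ℂ (kap a)) {G : ℂ → ℂ}
    (hG : DifferentiableOn ℂ G (HP δ)) (b t : ℂ) :
    DifferentiableOn ℂ (fun τ => KK a G b t τ) (HP δ) := by
  refine (kk_joint hk hG b).comp (f := fun τ : ℂ => (t, τ)) (by fun_prop) ?_
  intro τ hτ
  exact ⟨mem_univ _, hτ⟩

theorem kk_per (a : ℝ) (G : ℂ → ℂ) (b t τ : ℂ) :
    KK a G b (t + 2 * Real.pi * I) τ = KK a G b t τ := by
  unfold KK
  rw [Complex.exp_add, Complex.exp_two_pi_mul_I, mul_one]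

/-- the Volterra equation on the universal covering -/
theorem cov_volt (hK : S_KAP) (hSeg : S_SEG) (hPar : S_PAR) (φ ψ F G : ℂ → ℂ) (a δ : ℝ)
    (z0 t0 b : ℂ) (ha : 0 < a) (hφ : DifferentiableOn ℂ φ (ball 0 1))
    (hψ : DifferentiableOn ℂ ψ (ball z0 (Real.exp δ)))
    (hψm : ∀ z ∈ ball z0 (Real.exp δ), ψ z ∈ ball (0 : ℂ) 1 ∧ φ (ψ z) = z)
    (hG : DifferentiableOn ℂ G (HP δ)) (ht0 : t0 ∈ HP δ)
    (hFd : ∀ᶠ v in 𝓝 (ψ (z0 + exp t0)), DifferentiableAt ℂ F v)
    (hFG : ∀ᶠ t in 𝓝 t0, G t = F (ψ (z0 + exp t)))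
    (H : ℂ → ℂ) (hVG : VGH a φ b (ψ (z0 + exp t0)) F H) :
    ∀ t ∈ HP δ, G t - b = H (ψ (z0 + exp t)) + seg (KK a G b t) t0 t := by
  have hkap := (hK a ha.le).1
  obtain ⟨hHd, hHe⟩ := hVG
  have hzm : ∀ t ∈ HP δ, z0 + exp t ∈ ball z0 (Real.exp δ) := by
    intro t ht
    rw [mem_ball_iff_norm, add_sub_cancel_left, Complex.norm_exp]
    exact Real.exp_lt_exp.2 ht
  obtain ⟨V, hV⟩ : ∃ V : ℂ → ℂ, V = fun t => ψ (z0 + exp t) := ⟨_, rfl⟩
  have hVm : ∀ t ∈ HP δ, V t ∈ ball (0 : ℂ) 1 := fun t ht => by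
    rw [hV]; exact (hψm _ (hzm t ht)).1
  have hVφ : ∀ t ∈ HP δ, φ (V t) = z0 + exp t := fun t ht => by
    rw [hV]; exact (hψm _ (hzm t ht)).2
  have hVd : DifferentiableOn ℂ V (HP δ) := by
    rw [hV]
    exact hψ.comp (f := fun t : ℂ => z0 + exp t) (by fun_prop) hzm
  have hVda : ∀ t ∈ HP δ, DifferentiableAt ℂ V t := fun t ht =>
    hVd.differentiableAt ((hp_open δ).mem_nhds ht)
  -- the derivative of `φ ∘ V`
  have hchain : ∀ t ∈ HP δ, deriv φ (V t) * deriv V t = exp t := by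
    intro t ht
    have h1 : HasDerivAt φ (deriv φ (V t)) (V t) :=
      (hφ.differentiableAt (isOpen_ball.mem_nhds (hVm t ht))).hasDerivAt
    have h2 : HasDerivAt V (deriv V t) t := (hVda t ht).hasDerivAt
    have h3 := HasDerivAt.comp (h₂ := φ) (h := V) t h1 h2
    have h4 : HasDerivAt (fun t => z0 + exp t) (exp t) t := (Complex.hasDerivAt_exp t).const_add z0
    have h5 : (φ ∘ V) =ᶠ[𝓝 t] fun t => z0 + exp t := by
      filter_upwards [(hp_open δ).mem_nhds ht] with s hs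
      exact hVφ s hs
    exact (h4.congr_of_eventuallyEq h5).unique h3 |>.symm
  -- the function which vanishes
  obtain ⟨A, hA⟩ : ∃ A : ℂ → ℂ, A = fun t => G t - b - H (V t) - seg (KK a G b t) t0 t := ⟨_, rfl⟩
  have hpt : ∀ t ∈ HP δ, ∀ s ∈ Icc (0 : ℝ) 1, t0 + s * (t - t0) ∈ HP δ := by
    intro t ht s hs
    have := (hp_convex δ).add_smul_sub_mem ht0 ht hs
    simpa [Complex.real_smul] using this
  have hAd : DifferentiableOn ℂ A (HP δ) := by
    rw [hA]
    refine ((hG.sub_const b).sub (hHd.comp hVd hVm)).sub ?_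
    refine hPar (HP δ) (fun t s => (fun p : ℂ × ℂ => KK a G b p.1 p.2)
      (t, t0 + s * (t - t0)) * (t - t0)) (hp_open δ) ?_ ?_
    · refine ContinuousOn.mul ?_ (by fun_prop)
      refine (kk_joint hkap hG b).continuousOn.comp
        (f := fun p : ℂ × ℝ => (p.1, t0 + p.2 * (p.1 - t0))) (by fun_prop) ?_
      rintro ⟨t, s⟩ ⟨ht, hs⟩
      exact ⟨mem_univ _, hpt t ht s hs⟩
    · intro s hs
      refine DifferentiableOn.mul ?_ (by fun_prop)
      refine (kk_joint hkap hG b).comp (f := fun t : ℂ => (t, t0 + s * (t - t0)))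
        (by fun_prop) ?_
      intro t ht
      exact ⟨mem_univ _, hpt t ht s hs⟩
  -- it vanishes near `t0`
  obtain ⟨ε, hε0, hε⟩ := Metric.eventually_nhds_iff_ball.1
    (hFd.and ((isOpen_ball : IsOpen (ball (0 : ℂ) 1)).mem_nhds (hψm _ (hzm t0 ht0)).1))
  have hVt : Tendsto V (𝓝 t0) (𝓝 (ψ (z0 + exp t0))) := by
    have := (hVda t0 ht0).continuousAt.tendsto
    rwa [hV] at this ⊢
  have hAnear : ∀ᶠ t in 𝓝 t0, A t = 0 := by
    have h1 : ∀ᶠ t in 𝓝 t0, (t ∈ HP δ ∧ V t ∈ ball (ψ (z0 + exp t0)) ε) ∧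
        G t = F (V t) := by
      have q1 : ∀ᶠ t in 𝓝 t0, t ∈ HP δ := (hp_open δ).mem_nhds ht0
      have q2 : ∀ᶠ t in 𝓝 t0, V t ∈ ball (ψ (z0 + exp t0)) ε := hVt (ball_mem_nhds _ hε0)
      have q3 : ∀ᶠ t in 𝓝 t0, G t = F (V t) := by
        rw [hV]
        exact hFG
      exact (q1.and q2).and q3
    obtain ⟨η, hη0, hη⟩ := Metric.eventually_nhds_iff_ball.1 h1
    filter_upwards [ball_mem_nhds t0 hη0, hVt.eventually hHe] with t ht hsV
    have hpb : ∀ s ∈ Icc (0 : ℝ) 1, t0 + s * (t - t0) ∈ ball t0 η := by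
      intro s hs
      have := (convex_ball t0 η).add_smul_sub_mem (mem_ball_self hη0) ht hs
      simpa [Complex.real_smul] using this
    obtain ⟨g, hg⟩ : ∃ g : ℂ → ℂ, g = fun v => kerU a φ v (V t) (F v - b) := ⟨_, rfl⟩
    have hgd : DifferentiableOn ℂ g (ball (ψ (z0 + exp t0)) ε) := by
      rw [hg]
      intro v hv
      obtain ⟨hv1, hv2⟩ := hε v hv
      have e1 : DifferentiableAt ℂ φ v := hφ.differentiableAt (isOpen_ball.mem_nhds hv2)
      have e2 : DifferentiableAt ℂ (deriv φ) v :=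
        (hφ.deriv isOpen_ball).differentiableAt (isOpen_ball.mem_nhds hv2)
      have e3 : DifferentiableAt ℂ (fun v => kap a ((F v - b) * (φ v - φ (V t)))) v :=
        DifferentiableAt.comp v (hkap _) ((hv1.sub_const b).mul (e1.sub_const _))
      exact ((((hv1.sub_const b).pow 2).mul e3).mul e2).differentiableWithinAt
    have hder := (hSeg (ball (ψ (z0 + exp t0)) ε) g isOpen_ball (convex_ball _ ε) hgd).2
      (ψ (z0 + exp t0)) (mem_ball_self hε0)
    have hS : ∀ s ∈ Icc (0 : ℝ) 1, V (t0 + s * (t - t0)) ∈ ball (ψ (z0 + exp t0)) ε :=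
      fun s hs => (hη _ (hpb s hs)).1.2
    have hH : ∀ s ∈ Icc (0 : ℝ) 1, t0 + s * (t - t0) ∈ HP δ :=
      fun s hs => (hη _ (hpb s hs)).1.1
    have hVd' : DifferentiableOn ℂ (deriv V) (HP δ) := hVd.deriv (hp_open δ)
    have hftc : ∫ s in (0 : ℝ)..1, g (V (t0 + s * (t - t0))) *
        (deriv V (t0 + s * (t - t0)) * (t - t0)) =
        seg g (ψ (z0 + exp t0)) (V (t0 + ((1 : ℝ) : ℂ) * (t - t0))) -
          seg g (ψ (z0 + exp t0)) (V (t0 + ((0 : ℝ) : ℂ) * (t - t0))) := by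
      refine intervalIntegral.integral_eq_sub_of_hasDerivAt
        (f := fun s : ℝ => seg g (ψ (z0 + exp t0)) (V (t0 + s * (t - t0))))
        (f' := fun s : ℝ => g (V (t0 + s * (t - t0))) *
          (deriv V (t0 + s * (t - t0)) * (t - t0))) ?_ ?_
      · intro s hs
        rw [uIcc_of_le zero_le_one] at hs
        have h1 := hder _ (hS s hs)
        have h2 : HasDerivAt (fun σ : ℂ => V (t0 + σ * (t - t0)))
            (deriv V (t0 + s * (t - t0)) * (t - t0)) (s : ℂ) := by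
          have h3 : HasDerivAt (fun σ : ℂ => t0 + σ * (t - t0)) (t - t0) (s : ℂ) := by
            simpa using ((hasDerivAt_id (s : ℂ)).mul_const (t - t0)).const_add t0
          exact HasDerivAt.comp (h₂ := V) (h := fun σ : ℂ => t0 + σ * (t - t0)) (s : ℂ)
            (hVda _ (hH s hs)).hasDerivAt h3
        have h4 := HasDerivAt.comp (s : ℂ) h1 h2
        exact h4.comp_ofReal
      · apply ContinuousOn.intervalIntegrable
        rw [uIcc_of_le zero_le_one]
        intro s hs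
        have h1 : ContinuousAt g (V (t0 + s * (t - t0))) :=
          (hgd.differentiableAt (isOpen_ball.mem_nhds (hS s hs))).continuousAt
        have h2 : ContinuousAt (fun s : ℝ => V (t0 + s * (t - t0))) s :=
          ContinuousAt.comp (f := fun s : ℝ => t0 + (s : ℂ) * (t - t0)) (g := V)
            (hVda _ (hH s hs)).continuousAt (by fun_prop)
        have h3 : ContinuousAt (fun s : ℝ => deriv V (t0 + s * (t - t0))) s :=
          ContinuousAt.comp (f := fun s : ℝ => t0 + (s : ℂ) * (t - t0)) (g := deriv V)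
            (hVd'.differentiableAt ((hp_open δ).mem_nhds (hH s hs))).continuousAt (by fun_prop)
        exact ((ContinuousAt.comp (f := fun s : ℝ => V (t0 + s * (t - t0))) h1 h2).mul
          (h3.mul continuousAt_const)).continuousWithinAt
    have ht1 : t ∈ HP δ := (hη t ht).1.1
    have hseg2 : seg (KK a G b t) t0 t =
        ∫ s in (0 : ℝ)..1, g (V (t0 + s * (t - t0))) *
          (deriv V (t0 + s * (t - t0)) * (t - t0)) := by
      unfold seg
      refine intervalIntegral.integral_congr fun s hs => ?_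
      rw [uIcc_of_le zero_le_one] at hs
      have e1 := hVφ _ (hH s hs)
      have e2 := hVφ t ht1
      have e3 := hchain _ (hH s hs)
      have e4 := (hη _ (hpb s hs)).2
      simp only [hg, kerU, KK]
      rw [e1, e2, ← e4, ← e3]
      ring_nf
    have e1 : t0 + ((1 : ℝ) : ℂ) * (t - t0) = t := by
      rw [ofReal_one]
      ring
    have e0 : t0 + ((0 : ℝ) : ℂ) * (t - t0) = t0 := by
      rw [ofReal_zero]
      ring
    have hV0 : V t0 = ψ (z0 + exp t0) := by rw [hV]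
    rw [e1, e0, hV0] at hftc
    have hz : seg g (ψ (z0 + exp t0)) (ψ (z0 + exp t0)) = 0 := by
      unfold seg
      simp
    rw [← hg] at hsV
    rw [hA]
    simp only
    rw [hseg2, hftc, hz, (hη t ht).2, hsV]
    ring
  have hA0 : EqOn A 0 (HP δ) := by
    have han : AnalyticOnNhd ℂ A (HP δ) := hAd.analyticOnNhd (hp_open δ)
    exact han.eqOn_zero_of_preconnected_of_eventuallyEq_zero (hp_convex δ).isPreconnected ht0
      hAnear
  intro t ht
  have h1 := hA0 ht
  rw [hA] at h1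
  simp only [Pi.zero_apply] at h1
  rw [hV] at h1
  linear_combination h1

/-- the identity for one turn -/
theorem turnK (hK : S_KAP) (hSeg : S_SEG) (hPar : S_PAR) (φ ψ F G : ℂ → ℂ) (a δ : ℝ)
    (z0 t0 b : ℂ) (ha : 0 < a) (hφ : DifferentiableOn ℂ φ (ball 0 1))
    (hψ : DifferentiableOn ℂ ψ (ball z0 (Real.exp δ)))
    (hψm : ∀ z ∈ ball z0 (Real.exp δ), ψ z ∈ ball (0 : ℂ) 1 ∧ φ (ψ z) = z)
    (hG : DifferentiableOn ℂ G (HP δ)) (ht0 : t0 ∈ HP δ)
    (hFd : ∀ᶠ v in 𝓝 (ψ (z0 + exp t0)), DifferentiableAt ℂ F v)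
    (hFG : ∀ᶠ t in 𝓝 t0, G t = F (ψ (z0 + exp t)))
    (hVG : VG a φ b (ψ (z0 + exp t0)) F) :
    ∀ t ∈ HP δ, G (t + 2 * Real.pi * I) - G t = seg (KK a G b t) t (t + 2 * Real.pi * I) := by
  obtain ⟨H, hH⟩ := hVG
  have h := cov_volt hK hSeg hPar φ ψ F G a δ z0 t0 b ha hφ hψ hψm hG ht0 hFd hFG H hH
  intro t ht
  have ht' : t + 2 * Real.pi * I ∈ HP δ := by
    show (t + 2 * Real.pi * I).re < δ
    have : (t + 2 * Real.pi * I).re = t.re := by simp
    rw [this]
    exact ht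
  have h1 := h t ht
  have h2 := h _ ht'
  have hper : KK a G b (t + 2 * Real.pi * I) = KK a G b t := by
    funext τ
    exact kk_per a G b t τ
  have he : exp (t + 2 * Real.pi * I) = exp t := by
    rw [Complex.exp_add, Complex.exp_two_pi_mul_I, mul_one]
  rw [hper, he] at h2
  have h3 := (hSeg (HP δ) (KK a G b t) (hp_open δ) (hp_convex δ)
    (kk_diff (hK a ha.le).1 hG b t)).1 t0 ht0 t ht _ ht'
  linear_combination h2 - h1 - h3

end Run7.h367.SF
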