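import Pool.Agent.Run7.h367.Inv

/-!
Singularities of finite order with finitely many sheets.
-/

set_option autoImplicit false

open Complex MeasureTheory Metric Set Filter Topology ComplexConjugate
open Pool.Agent.Y245.SC Pool.Agent.Y245.UC
open Pool.Agent.TH298.Sch (Sol)
open Pool.Agent.Y245.SG (Bn)

namespace Run7.h367.SF

/-- the resonance condition -/
def ResC (y : ℂ) (σ : ℝ) : Prop := HasSum (fun m : ℕ => y ^ m / ((m.factorial : ℂ) *
  ∏ i ∈ Finset.range m, ((σ : ℂ) - i))) 0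

/-- a branched simple pole of resonant type -/
def BrPole (a : ℝ) (q : ℕ) (G : ℂ → ℂ) (w C : ℂ) (j : ℕ) (H : ℂ → ℂ) (T : ℝ) : Prop :=
  C ≠ 0 ∧ 2 * q < j ∧ ¬ q ∣ j ∧ AnalyticAt ℂ H 0 ∧ H 0 ≠ 0 ∧
  (∀ t : ℂ, t.re ≤ T → G t = C * exp (-t) + w + exp (t / q) ^ j * exp (-t) * H (exp (t / q))) ∧
  Bn 1 (a * C) = 0 ∧ (∃ x : ℝ, 0 < x ∧ C = x) ∧ ResC (a * C) ((j : ℝ) / q - 1)

theorem per_ext {δ δ' : ℝ} {G : ℂ → ℂ} (hG : DifferentiableOn ℂ G (HP δ))
    (h : ∀ t ∈ HP δ', G (t + 2 * Real.pi * I) = G t) :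
    ∀ t ∈ HP δ, G (t + 2 * Real.pi * I) = G t := by
  have hm : ∀ t ∈ HP δ, t + 2 * Real.pi * I ∈ HP δ := by
    intro t ht
    rw [hp_iff] at ht ⊢
    simpa using ht
  have hd : DifferentiableOn ℂ (fun t => G (t + 2 * Real.pi * I) - G t) (HP δ) :=
    (hG.comp (by fun_prop) hm).sub hG
  have han := hd.analyticOnNhd (hp_open δ)
  have hmem : ((min δ' δ - 1 : ℝ) : ℂ) ∈ HP δ := by
    rw [hp_iff, ofReal_re]
    have := min_le_right δ' δ
    linarith
  have hz : ∀ᶠ t in 𝓝 ((min δ' δ - 1 : ℝ) : ℂ), G (t + 2 * Real.pi * I) - G t = 0 := by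
    filter_upwards [(hp_open δ').mem_nhds (by
      rw [hp_iff, ofReal_re]
      have := min_le_left δ' δ
      linarith)] with t ht
    rw [h t ht, sub_self]
  have h2 := han.eqOn_zero_of_preconnected_of_eventuallyEq_zero (hp_convex δ).isPreconnected
    hmem hz
  intro t ht
  exact sub_eq_zero.1 (h2 ht)

theorem Dat.finite {φ ψ : ℂ → ℂ} {r a : ℝ} (D : Dat φ ψ r a) {δ : ℝ} {z0 t0 : ℂ}
    (hball : ball z0 (Real.exp δ) ⊆ φ '' ball 0 1) {G F : ℂ → ℂ}
    (hG : DifferentiableOn ℂ G (HP δ)) (ht0 : t0 ∈ HP δ)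
    (hF : SInv a φ (ψ (z0 + exp t0)) F)
    (hFG : ∀ᶠ t in 𝓝 t0, G t = F (ψ (z0 + exp t))) {q : ℕ} (hq : 1 ≤ q)
    (hper : ∀ t ∈ HP δ, G (t + q * (2 * Real.pi * I)) = G t) (m : ℕ) (K T0 : ℝ)
    (hgr : ∀ t ∈ HP δ, t.re ≤ T0 → ‖exp (t / q) ^ m * G t‖ ≤ K) :
    (∃ (p : ℂ) (r0 : ℝ), 0 < r0 ∧ φ '' ball 0 1 = ball p r0) ∨
    (∃ E : ℂ → ℂ, DifferentiableOn ℂ E (ball z0 (Real.exp δ)) ∧
      ∀ t ∈ HP δ, E (z0 + exp t) = G t) ∨
    ∃ (w C : ℂ) (j : ℕ) (H : ℂ → ℂ) (T : ℝ), BrPole a q G w C j H T := by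
  have hqr : (0 : ℝ) < q := by exact_mod_cast hq
  have hq0 : (q : ℂ) ≠ 0 := by exact_mod_cast (by omega : q ≠ 0)
  have hT := D.turn hball hG ht0 hF hFG
  -- the function of the root
  have hm1 : ∀ s ∈ HP (δ / q), (q : ℂ) * s ∈ HP δ := by
    intro s hs
    rw [hp_iff] at hs ⊢
    rw [← Complex.ofReal_natCast, Complex.re_ofReal_mul]
    rw [lt_div_iff₀ hqr] at hs
    linarith
  obtain ⟨ψ1, hψ1, hψG⟩ := per_desc (δ := δ / q) (G := fun s => G (q * s)) 0
    (hG.comp (by fun_prop) hm1) (by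
      intro s hs
      rw [← hper _ (hm1 s hs)]
      congr 1
      ring)
  simp only [zero_add] at hψG
  have hψG' : ∀ t ∈ HP δ, ψ1 (exp (t / q)) = G t := by
    intro t ht
    have h1 : t / q ∈ HP (δ / q) := by
      rw [hp_iff] at ht ⊢
      rw [← Complex.ofReal_natCast, Complex.div_ofReal_re]
      exact div_lt_div_of_pos_right ht hqr
    rw [hψG _ h1]
    congr 1
    field_simp
  obtain ⟨ρ, hρd⟩ : ∃ ρ : ℝ, ρ = min (Real.exp (δ / q)) (Real.exp (T0 / q)) := ⟨_, rfl⟩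
  have hρ0 : 0 < ρ := by rw [hρd]; exact lt_min (Real.exp_pos _) (Real.exp_pos _)
  have hlogm : ∀ x : ℂ, x ∈ ball (0 : ℂ) ρ \ {0} → ∃ t ∈ HP δ, t.re ≤ T0 ∧ exp (t / q) = x := by
    intro x hx
    obtain ⟨hx1, hx2⟩ := hx
    rw [mem_ball_zero_iff] at hx1
    have hx0 : x ≠ 0 := hx2
    refine ⟨q * Complex.log x, ?_, ?_, ?_⟩
    · apply hm1
      rw [hp_iff, Complex.log_re]
      refine (Real.log_lt_iff_lt_exp (norm_pos_iff.2 hx0)).2 (hx1.trans_le ?_)
      rw [hρd]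
      exact min_le_left _ _
    · rw [← Complex.ofReal_natCast, Complex.re_ofReal_mul, Complex.log_re]
      have h1 : ‖x‖ ≤ Real.exp (T0 / q) := hx1.le.trans (by rw [hρd]; exact min_le_right _ _)
      have h2 := (Real.log_le_iff_le_exp (norm_pos_iff.2 hx0)).2 h1
      rw [le_div_iff₀ hqr] at h2
      linarith
    · rw [mul_div_cancel_left₀ _ hq0, Complex.exp_log hx0]
  -- removal of the singularity of `x ^ m * ψ1 x`
  obtain ⟨f, hf⟩ : ∃ f : ℂ → ℂ, f = fun x => x ^ m * ψ1 x := ⟨_, rfl⟩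
  have hfd : DifferentiableOn ℂ f (ball 0 ρ \ {0}) := by
    rw [hf]
    refine DifferentiableOn.mul (by fun_prop) (hψ1.mono ?_)
    exact sdiff_subset_sdiff_left (ball_subset_ball (by rw [hρd]; exact min_le_left _ _))
  have hfb : BddAbove (norm ∘ f '' (ball 0 ρ \ {0})) := by
    refine ⟨K, ?_⟩
    rintro _ ⟨x, hx, rfl⟩
    obtain ⟨t, ht1, ht2, rfl⟩ := hlogm x hx
    simp only [Function.comp, hf]
    rw [hψG' t ht1]
    exact hgr t ht1 ht2
  have hupd := Complex.differentiableOn_update_limUnder_of_bddAbove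
    (isOpen_ball.mem_nhds (mem_ball_self hρ0)) hfd hfb
  obtain ⟨E1, hE1⟩ : ∃ E1 : ℂ → ℂ, E1 = Function.update f 0 (limUnder (𝓝[≠] (0 : ℂ)) f) := ⟨_, rfl⟩
  rw [← hE1] at hupd
  have hE1a : AnalyticAt ℂ E1 0 := hupd.analyticAt (isOpen_ball.mem_nhds (mem_ball_self hρ0))
  have hE1f : ∀ x : ℂ, x ≠ 0 → E1 x = x ^ m * ψ1 x := by
    intro x hx
    rw [hE1, Function.update_of_ne hx, hf]
  by_cases hz : ∀ᶠ x in 𝓝 (0 : ℂ), E1 x = 0
  · -- the branch vanishes identically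
    right; left
    obtain ⟨T, hT'⟩ := small_root hq hz
    have hG0 : ∀ t ∈ HP δ, G t = 0 := by
      have han := hG.analyticOnNhd (hp_open δ)
      have hmem : ((min T δ - 1 : ℝ) : ℂ) ∈ HP δ := by
        rw [hp_iff, ofReal_re]
        have := min_le_right T δ
        linarith
      have hev : ∀ᶠ t in 𝓝 ((min T δ - 1 : ℝ) : ℂ), G t = 0 := by
        filter_upwards [(hp_open (min T δ)).mem_nhds (by
          rw [hp_iff, ofReal_re]
          linarith)] with t ht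
        rw [hp_iff] at ht
        have h1 : t ∈ HP δ := by
          rw [hp_iff]
          exact ht.trans_le (min_le_right _ _)
        have h2 := hT' t (ht.le.trans (min_le_left _ _))
        rw [hE1f _ (Complex.exp_ne_zero _), hψG' t h1] at h2
        rcases mul_eq_zero.1 h2 with h3 | h3
        · exact absurd h3 (pow_ne_zero _ (Complex.exp_ne_zero _))
        · exact h3
      exact fun t ht => han.eqOn_zero_of_preconnected_of_eventuallyEq_zero
        (hp_convex δ).isPreconnected hmem hev ht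
    exact ⟨fun _ => 0, differentiableOn_const 0, fun t ht => (hG0 t ht).symm⟩
  obtain ⟨i, E2, hE2a, hE20, hE2e⟩ := hE1a.exists_eventuallyEq_pow_smul_nonzero_iff.2 hz
  simp only [sub_zero, smul_eq_mul] at hE2e
  obtain ⟨T, hT'⟩ := small_root hq hE2e
  obtain ⟨δ', hδ'⟩ : ∃ δ' : ℝ, δ' = min T δ := ⟨_, rfl⟩
  have hδle : δ' ≤ δ := by rw [hδ']; exact min_le_right _ _
  have hGE : ∀ t ∈ HP δ', exp (t / q) ^ m * G t = exp (t / q) ^ i * E2 (exp (t / q)) := by
    intro t ht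
    rw [hp_iff, hδ'] at ht
    have h1 : t ∈ HP δ := by
      rw [hp_iff]
      exact ht.trans_le (min_le_right _ _)
    have h2 := hT' t (ht.le.trans (min_le_left _ _))
    rwa [hE1f _ (Complex.exp_ne_zero _), hψG' t h1] at h2
  have hxne : ∀ t : ℂ, exp (t / q) ≠ 0 := fun t => Complex.exp_ne_zero _
  rcases lt_or_ge (i + q) m with hcase | hcase
  · -- a pole of order more than `q`
    exfalso
    refine no_high t_KAP t_SEG D.ha (q := q) (m := m - i) hq (by omega) (turn_mono hT hδle)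
      hE2a.continuousAt hE20 fun t ht => ?_
    have h1 := hGE t ht
    have h2 : exp (t / q) ^ m = exp (t / q) ^ (m - i) * exp (t / q) ^ i := by
      rw [← pow_add]
      congr 1
      omega
    have h3 : exp (t / q) ^ i ≠ 0 := pow_ne_zero _ (hxne t)
    have h4 : exp (t / q) ^ (m - i) ≠ 0 := pow_ne_zero _ (hxne t)
    rw [h2] at h1
    rw [eq_div_iff h4]
    apply mul_left_cancel₀ h3
    linear_combination h1
  have hΨa : AnalyticAt ℂ (fun x => x ^ (i + q - m) * E2 x) 0 :=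
    (by fun_prop : AnalyticAt ℂ (fun x : ℂ => x ^ (i + q - m)) 0).mul hE2a
  have hGΨ : ∀ t ∈ HP δ', G t = (fun x => x ^ (i + q - m) * E2 x) (exp (t / q)) / exp t := by
    intro t ht
    have h1 := hGE t ht
    simp only
    have h2 : exp (t / q) ^ (i + q - m) * exp (t / q) ^ m = exp (t / q) ^ i * exp t := by
      rw [← exp_div_pow q hq t, ← pow_add, ← pow_add]
      congr 1
      omega
    have h3 : exp (t / q) ^ m ≠ 0 := pow_ne_zero _ (hxne t)
    rw [eq_div_iff (Complex.exp_ne_zero t)]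
    apply mul_left_cancel₀ h3
    linear_combination (exp t) * h1 - (E2 (exp (t / q))) * h2
  rcases classify t_KAP D.ha hq (turn_mono hT hδle) hΨa hGΨ with hA | ⟨w, C, j, H, hC, hj, hjq,
    hHa, hH0, hHe, hB, hCx, hR⟩
  · rcases D.single hball hG ht0 hF hFG (per_ext hG hA) with h1 | h1
    · exact Or.inl h1
    · exact Or.inr (Or.inl h1)
  · right; right
    obtain ⟨T2, hT2⟩ := small_root hq hHe
    refine ⟨w, C, j, H, min T2 (δ' - 1), hC, hj, hjq, hHa, hH0, fun t ht => ?_, hB, hCx, hR⟩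
    have h1 := hT2 t (ht.trans (min_le_left _ _))
    have h2 : t ∈ HP δ' := by
      rw [hp_iff]
      have := ht.trans (min_le_right _ _)
      linarith
    rw [hGΨ t h2]
    simp only at h1 ⊢
    rw [h1, exp_div_pow q hq, Complex.exp_neg]
    have := Complex.exp_ne_zero t
    field_simp

end Run7.h367.SF
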