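import Pool.Agent.Run7.h367.Sheets
import Pool.Agent.Y245.UC.Main
import Pool.Agent.Y987.UC.Start
import Pool.Agent.Y845.UC.Step
import Pool.Agent.Y641.UC.Conn
import Pool.Agent.Y500.UC.Rel
import Pool.Agent.Y508.UC.Res

/-!
The invariants of the continuation of the Schwarz function, and the passage from germs to the
identity for one turn.
-/

set_option autoImplicit false

open Complex MeasureTheory Metric Set Filter Topology ComplexConjugate
open Pool.Agent.Y245.SC Pool.Agent.Y245.UC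
open Pool.Agent.TH298.Sch (Sol)

namespace Run7.h367.SF

/-- the inverse of the Riemann map -/
theorem inv_exists (φ : ℂ → ℂ) (r : ℝ) (hr : 1 < r) (hφ : DifferentiableOn ℂ φ (ball 0 r))
    (hinj : InjOn φ (ball 0 r)) : IsOpen (φ '' ball 0 1) ∧ ∃ ψ : ℂ → ℂ,
      DifferentiableOn ℂ ψ (φ '' ball 0 1) ∧ (∀ z ∈ φ '' ball 0 1, ψ z ∈ ball (0 : ℂ) 1 ∧
        φ (ψ z) = z) ∧ ∀ v ∈ ball (0 : ℂ) 1, ψ (φ v) = v := by
  have hsub : ball (0 : ℂ) 1 ⊆ ball 0 r := ball_subset_ball hr.le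
  have hstr : ∀ v ∈ ball (0 : ℂ) 1, HasStrictDerivAt φ (deriv φ v) v := by
    intro v hv
    have h1 : AnalyticAt ℂ φ v := (hφ.mono hsub).analyticAt (isOpen_ball.mem_nhds hv)
    exact h1.hasStrictDerivAt
  have hne : ∀ v ∈ ball (0 : ℂ) 1, deriv φ v ≠ 0 := fun v hv => t_NZ φ r hφ hinj v (hsub hv)
  have hmap : ∀ v ∈ ball (0 : ℂ) 1, map φ (𝓝 v) = 𝓝 (φ v) := fun v hv =>
    (hstr v hv).map_nhds_eq (hne v hv)
  have hopen : IsOpen (φ '' ball 0 1) := by
    rw [isOpen_iff_mem_nhds]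
    rintro z ⟨v, hv, rfl⟩
    rw [← hmap v hv]
    exact image_mem_map (isOpen_ball.mem_nhds hv)
  refine ⟨hopen, Function.invFunOn φ (ball 0 1), ?_, fun z hz => ⟨Function.invFunOn_mem hz,
    Function.invFunOn_eq hz⟩, fun v hv => ?_⟩
  · rintro z ⟨v, hv, rfl⟩
    have hinv : ∀ x ∈ ball (0 : ℂ) 1, Function.invFunOn φ (ball 0 1) (φ x) = x := fun x hx =>
      hinj (hsub (Function.invFunOn_mem ⟨x, hx, rfl⟩)) (hsub hx)
        (Function.invFunOn_eq ⟨x, hx, rfl⟩)
    have hcont : ContinuousAt (Function.invFunOn φ (ball 0 1)) (φ v) := by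
      unfold ContinuousAt
      rw [hinv v hv, ← hmap v hv, tendsto_map'_iff]
      refine (tendsto_id (α := ℂ)).congr' ?_
      filter_upwards [isOpen_ball.mem_nhds hv] with x hx
      exact (hinv x hx).symm
    have hd : HasDerivAt (Function.invFunOn φ (ball 0 1)) (deriv φ v)⁻¹ (φ v) := by
      refine HasDerivAt.of_local_left_inverse (f := φ) hcont ?_ (hne v hv) ?_
      · rw [hinv v hv]
        exact (hstr v hv).hasDerivAt
      · filter_upwards [hopen.mem_nhds ⟨v, hv, rfl⟩] with z hz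
        exact Function.invFunOn_eq hz
    exact hd.differentiableAt.differentiableWithinAt
  · exact hinj (hsub (Function.invFunOn_mem ⟨v, hv, rfl⟩)) (hsub hv)
      (Function.invFunOn_eq ⟨v, hv, rfl⟩)

/-- the invariants of a germ -/
def SInv (a : ℝ) (φ : ℂ → ℂ) (u : ℂ) (F : ℂ → ℂ) : Prop :=
  (∀ b, VG a φ b u F) ∧
  (∀ g0 xs ct : ℂ, (∀ᶠ v in 𝓝 u, (F v - g0) * (φ v - xs) = ct) →
      ∀ w ∈ sphere (0 : ℂ) 1, (conj (φ w) - g0) * (φ w - xs) = ct) ∧
  ∀ᶠ v in 𝓝 u, DifferentiableAt ℂ F v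

theorem inv_germ {a : ℝ} {φ : ℂ → ℂ} (ha : 0 < a) (hφ : DifferentiableOn ℂ φ (ball 0 1)) {u : ℂ}
    {F F' : ℂ → ℂ} (h : F =ᶠ[𝓝 u] F') (hF : SInv a φ u F) : SInv a φ u F' := by
  obtain ⟨h1, h2, h3⟩ := hF
  refine ⟨fun b => ?_, fun g0 xs ct hh => ?_, ?_⟩
  · exact (Pool.Agent.Y641.UC.uconn Pool.Agent.Y845.UC.ustep t_KAP t_SEG t_PAR φ a b ha hφ).2
      F F' u h (h1 b)
  · refine h2 g0 xs ct ?_
    filter_upwards [h, hh] with v hv hv2
    rw [hv]
    exact hv2
  · filter_upwards [h.eventuallyEq_nhds, h3] with v hv hv2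
    exact hv2.congr_of_eventuallyEq hv.symm

theorem inv_conn {a : ℝ} {φ : ℂ → ℂ} (ha : 0 < a) (hφ : DifferentiableOn ℂ φ (ball 0 1))
    {V : Set ℂ} {F : ℂ → ℂ} {u u' : ℂ} (hVo : IsOpen V) (hVc : IsPreconnected V)
    (hVs : V ⊆ ball 0 1) (hF : DifferentiableOn ℂ F V) (hu : u ∈ V) (hu' : u' ∈ V)
    (h : SInv a φ u F) : SInv a φ u' F := by
  obtain ⟨h1, h2, h3⟩ := h
  refine ⟨fun b => ?_, fun g0 xs ct hh => ?_, ?_⟩
  · exact (Pool.Agent.Y641.UC.uconn Pool.Agent.Y845.UC.ustep t_KAP t_SEG t_PAR φ a b ha hφ).1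
      V F u u' hVo hVc hVs hF hu hu' (h1 b)
  · refine h2 g0 xs ct ?_
    have hEq : EqOn (fun v => (F v - g0) * (φ v - xs)) (fun _ => ct) V := by
      refine AnalyticOnNhd.eqOn_of_preconnected_of_eventuallyEq
        (((hF.sub_const _).mul ((hφ.mono hVs).sub_const _)).analyticOnNhd hVo)
        analyticOnNhd_const hVc hu' hh
    filter_upwards [hVo.mem_nhds hu] with v hv
    exact hEq hv
  · filter_upwards [hVo.mem_nhds hu'] with v hv
    exact hF.differentiableAt (hVo.mem_nhds hv)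

theorem inv_base (φ : ℂ → ℂ) (r lam c : ℝ) (u : ℂ → ℝ) (G : ℂ → ℂ) (hr : 1 < r)
    (hφ : DifferentiableOn ℂ φ (ball 0 r)) (hinj : InjOn φ (ball 0 r)) (hlam : 0 < lam)
    (hc : c ≠ 0) (hS : Sol (φ '' ball 0 1) lam c u G) (v : ℂ) (h1 : r⁻¹ < ‖v‖) (h2 : ‖v‖ < 1) :
    SInv (lam / 4) φ v (Rf φ) := by
  have ha : 0 < lam / 4 := by positivity
  have hr0 : 0 < r := by linarith
  have hv0 : v ≠ 0 := by
    rintro rfl
    rw [norm_zero] at h1
    exact absurd h1 (not_lt.2 (inv_nonneg.2 hr0.le))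
  refine ⟨fun b => ?_, fun g0 xs ct h => ?_, ?_⟩
  · obtain ⟨G', hG', hV⟩ := voltB_of_sol φ r r lam c u G hr le_rfl hφ hinj hlam hc hS b
    have hexp : Real.exp (Real.log r) = r := Real.exp_log hr0
    refine Pool.Agent.Y987.UC.ustart t_KAP t_SEG t_PAR φ G' (lam / 4) (Real.log r) b _ ha
      (Real.log_pos hr) (by rw [hexp]; exact hφ) hG' hV ?_ h2
    rw [Real.exp_neg, hexp]
    exact h1
  · exact Pool.Agent.Y500.UC.urel φ r _ g0 xs ct hr hφ h1 h2 h
  · have ho : IsOpen {w : ℂ | r⁻¹ < ‖w‖} := isOpen_lt continuous_const continuous_norm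
    filter_upwards [ho.mem_nhds h1] with w hw
    have hw1 : r⁻¹ < ‖w‖ := hw
    have hw0 : w ≠ 0 := by
      rintro rfl
      rw [norm_zero] at hw1
      exact absurd hw1 (not_lt.2 (inv_nonneg.2 hr0.le))
    have h3 : DifferentiableAt ℂ (conj ∘ φ ∘ conj) (w⁻¹) := by
      rw [differentiableAt_conj_conj_iff]
      refine hφ.differentiableAt (isOpen_ball.mem_nhds ?_)
      rw [mem_ball_zero_iff, RCLike.norm_conj, norm_inv]
      exact (inv_lt_comm₀ hr0 (norm_pos_iff.2 hw0)).1 hw1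
    have h4 : Rf φ = (conj ∘ φ ∘ conj) ∘ (fun v : ℂ => v⁻¹) := by
      funext x
      simp only [Rf, Function.comp_apply, map_inv₀, one_div]
    rw [h4]
    exact h3.comp w (differentiableAt_inv hw0)

/-- the data of the Riemann map -/
structure Dat (φ ψ : ℂ → ℂ) (r a : ℝ) : Prop where
  hr : 1 < r
  hφ : DifferentiableOn ℂ φ (ball 0 r)
  hinj : InjOn φ (ball 0 r)
  ha : 0 < a
  ho : IsOpen (φ '' ball 0 1)
  hψ : DifferentiableOn ℂ ψ (φ '' ball 0 1)
  hψm : ∀ z ∈ φ '' ball 0 1, ψ z ∈ ball (0 : ℂ) 1 ∧ φ (ψ z) = z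
  hψi : ∀ v ∈ ball (0 : ℂ) 1, ψ (φ v) = v

theorem Dat.hφ1 {φ ψ : ℂ → ℂ} {r a : ℝ} (D : Dat φ ψ r a) : DifferentiableOn ℂ φ (ball 0 1) :=
  D.hφ.mono (ball_subset_ball D.hr.le)

/-- preimages of connected sets -/
theorem Dat.pre {φ ψ : ℂ → ℂ} {r a : ℝ} (D : Dat φ ψ r a) {W : Set ℂ} (hW : IsOpen W)
    (hWc : IsPreconnected W) (hWs : W ⊆ φ '' ball 0 1) :
    IsOpen (ψ '' W) ∧ IsPreconnected (ψ '' W) ∧ ψ '' W ⊆ ball 0 1 ∧ ∀ v ∈ ψ '' W, φ v ∈ W := by
  have h1 : ψ '' W = ball 0 1 ∩ φ ⁻¹' W := by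
    ext v
    constructor
    · rintro ⟨z, hz, rfl⟩
      obtain ⟨h2, h3⟩ := D.hψm z (hWs hz)
      exact ⟨h2, by rw [mem_preimage, h3]; exact hz⟩
    · rintro ⟨h2, h3⟩
      exact ⟨φ v, h3, D.hψi v h2⟩
  refine ⟨?_, hWc.image ψ (D.hψ.continuousOn.mono hWs), ?_, ?_⟩
  · rw [h1]
    exact D.hφ1.continuousOn.isOpen_inter_preimage isOpen_ball hW
  · rw [h1]
    exact inter_subset_left
  · intro v hv
    rw [h1] at hv
    exact hv.2

/-- the identity for one turn for a continuation of a germ with the invariants -/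
theorem Dat.turn {φ ψ : ℂ → ℂ} {r a : ℝ} (D : Dat φ ψ r a) {δ : ℝ} {z0 t0 : ℂ}
    (hball : ball z0 (Real.exp δ) ⊆ φ '' ball 0 1) {G F : ℂ → ℂ}
    (hG : DifferentiableOn ℂ G (HP δ)) (ht0 : t0 ∈ HP δ)
    (hF : SInv a φ (ψ (z0 + exp t0)) F)
    (hFG : ∀ᶠ t in 𝓝 t0, G t = F (ψ (z0 + exp t))) : Turn a δ G := by
  refine ⟨hG, fun b => ?_⟩
  exact turnK t_KAP t_SEG t_PAR φ ψ F G a δ z0 t0 b D.ha D.hφ1 (D.hψ.mono hball)
    (fun z hz => D.hψm z (hball hz)) hG ht0 hF.2.2 hFG (hF.1 b)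

/-- periodic functions on the half-plane are functions on the punctured disc -/
theorem per_desc {δ : ℝ} {G : ℂ → ℂ} (z0 : ℂ) (hG : DifferentiableOn ℂ G (HP δ))
    (hper : ∀ t ∈ HP δ, G (t + 2 * Real.pi * I) = G t) :
    ∃ S : ℂ → ℂ, DifferentiableOn ℂ S (ball z0 (Real.exp δ) \ {z0}) ∧
      ∀ t ∈ HP δ, S (z0 + exp t) = G t := by
  have hm : ∀ (t : ℂ) (n : ℤ), t ∈ HP δ → t + n * (2 * Real.pi * I) ∈ HP δ := by
    intro t n ht
    rw [hp_iff] at ht ⊢
    simpa using ht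
  have hpn : ∀ (n : ℕ) (t : ℂ), t ∈ HP δ → G (t + n * (2 * Real.pi * I)) = G t := by
    intro n
    induction n with
    | zero => intro t _; simp
    | succ n ih =>
      intro t ht
      have h1 := hper (t + n * (2 * Real.pi * I)) (by
        have := hm t n ht
        rwa [Int.cast_natCast] at this)
      rw [← ih t ht, ← h1]
      congr 1
      push_cast
      ring
  have hpz : ∀ (n : ℤ) (t : ℂ), t ∈ HP δ → G (t + n * (2 * Real.pi * I)) = G t := by
    intro n t ht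
    obtain ⟨m, rfl | rfl⟩ := n.eq_nat_or_neg
    · exact_mod_cast hpn m t ht
    · have h1 := hpn m (t + (-(m : ℤ) : ℤ) * (2 * Real.pi * I)) (hm t _ ht)
      rw [← h1]
      congr 1
      push_cast
      ring
  refine ⟨fun z => G (Complex.log (z - z0)), ?_, ?_⟩
  · intro z hz
    obtain ⟨hz1, hz2⟩ := hz
    have hne : z - z0 ≠ 0 := sub_ne_zero.2 hz2
    have hzr : ‖z - z0‖ < Real.exp δ := by rwa [mem_ball_iff_norm] at hz1
    -- a branch of the logarithm near `z`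
    obtain ⟨t, ht⟩ : ∃ t : ℂ, t = Complex.log (z - z0) := ⟨_, rfl⟩
    have het : exp t = z - z0 := by rw [ht, Complex.exp_log hne]
    have htm : t ∈ HP δ := by
      rw [hp_iff, ht, Complex.log_re]
      exact (Real.log_lt_iff_lt_exp (norm_pos_iff.2 hne)).2 hzr
    apply DifferentiableAt.differentiableWithinAt
    have hl : DifferentiableAt ℂ (fun x : ℂ => t + Complex.log ((x - z0) / (z - z0))) z := by
      refine (differentiableAt_const _).add ?_
      refine DifferentiableAt.clog (by fun_prop) ?_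
      rw [div_self hne]
      exact Complex.one_mem_slitPlane
    have hval : t + Complex.log ((z - z0) / (z - z0)) = t := by
      rw [div_self hne, Complex.log_one, add_zero]
    have hcomp : DifferentiableAt ℂ (fun x : ℂ => G (t + Complex.log ((x - z0) / (z - z0)))) z := by
      refine DifferentiableAt.comp (g := G) (f := fun x : ℂ => t +
        Complex.log ((x - z0) / (z - z0))) z ?_ hl
      rw [hval]
      exact hG.differentiableAt ((hp_open δ).mem_nhds htm)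
    refine hcomp.congr_of_eventuallyEq ?_
    have hcont : ContinuousAt (fun x : ℂ => t + Complex.log ((x - z0) / (z - z0))) z :=
      hl.continuousAt
    have h1 : ∀ᶠ x in 𝓝 z, t + Complex.log ((x - z0) / (z - z0)) ∈ HP δ := by
      refine hcont.eventually_mem ?_
      rw [hval]
      exact (hp_open δ).mem_nhds htm
    have h2 : ∀ᶠ x in 𝓝 z, x - z0 ≠ 0 := by
      have : Tendsto (fun x : ℂ => x - z0) (𝓝 z) (𝓝 (z - z0)) :=
        (continuous_id.sub continuous_const).tendsto z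
      exact this.eventually_ne hne
    filter_upwards [h1, h2] with x hx hx0
    have e1 : exp (t + Complex.log ((x - z0) / (z - z0))) = exp (Complex.log (x - z0)) := by
      rw [Complex.exp_add, het, Complex.exp_log (div_ne_zero hx0 hne), Complex.exp_log hx0]
      field_simp
    obtain ⟨n, hn⟩ := Complex.exp_eq_exp_iff_exists_int.1 e1
    have h3 := hpz (-n) _ hx
    rw [← h3]
    congr 1
    rw [hn]
    push_cast
    ring
  · intro t ht
    simp only
    rw [add_sub_cancel_left]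
    have e1 : exp (Complex.log (exp t)) = exp t := Complex.exp_log (Complex.exp_ne_zero t)
    obtain ⟨n, hn⟩ := Complex.exp_eq_exp_iff_exists_int.1 e1
    rw [hn]
    exact hpz n t ht

/-- single-valued branches: the domain is a disc or the branch is regular -/
theorem Dat.single {φ ψ : ℂ → ℂ} {r a : ℝ} (D : Dat φ ψ r a) {δ : ℝ} {z0 t0 : ℂ}
    (hball : ball z0 (Real.exp δ) ⊆ φ '' ball 0 1) {G F : ℂ → ℂ}
    (hG : DifferentiableOn ℂ G (HP δ)) (ht0 : t0 ∈ HP δ)
    (hF : SInv a φ (ψ (z0 + exp t0)) F)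
    (hFG : ∀ᶠ t in 𝓝 t0, G t = F (ψ (z0 + exp t)))
    (hper : ∀ t ∈ HP δ, G (t + 2 * Real.pi * I) = G t) :
    (∃ (p : ℂ) (r0 : ℝ), 0 < r0 ∧ φ '' ball 0 1 = ball p r0) ∨
    ∃ E : ℂ → ℂ, DifferentiableOn ℂ E (ball z0 (Real.exp δ)) ∧
      ∀ t ∈ HP δ, E (z0 + exp t) = G t := by
  obtain ⟨S, hS, hSG⟩ := per_desc z0 hG hper
  have hz0 : z0 ∈ φ '' ball 0 1 := hball (mem_ball_self (Real.exp_pos δ))
  obtain ⟨P, hP⟩ : ∃ P : ℂ, P = ψ z0 := ⟨_, rfl⟩
  have hPm : P ∈ ball (0 : ℂ) 1 := by rw [hP]; exact (D.hψm z0 hz0).1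
  have hφP : φ P = z0 := by rw [hP]; exact (D.hψm z0 hz0).2
  -- a small disc
  have hφc : ContinuousAt φ P :=
    (D.hφ1.differentiableAt (isOpen_ball.mem_nhds hPm)).continuousAt
  have hev : ∀ᶠ v in 𝓝 P, v ∈ ball (0 : ℂ) 1 ∧ φ v ∈ ball z0 (Real.exp δ) := by
    refine Filter.Eventually.and (isOpen_ball.mem_nhds hPm) (hφc.eventually_mem ?_)
    rw [hφP]
    exact isOpen_ball.mem_nhds (mem_ball_self (Real.exp_pos δ))
  obtain ⟨ρ, hρ, hρ'⟩ := Metric.eventually_nhds_iff_ball.1 hev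
  obtain ⟨W, hW⟩ : ∃ W : Set ℂ, W = ball z0 (Real.exp δ) \ {z0} := ⟨_, rfl⟩
  have hWo : IsOpen W := by rw [hW]; exact isOpen_ball.sdiff isClosed_singleton
  have hWc : IsPreconnected W := by rw [hW]; exact punct z0 (Real.exp δ)
  have hWs : W ⊆ φ '' ball 0 1 := by
    rw [hW]
    exact sdiff_subset.trans hball
  obtain ⟨hVo, hVc, hVs, hVm⟩ := D.pre hWo hWc hWs
  obtain ⟨X, hX⟩ : ∃ X : ℂ → ℂ, X = fun v => S (φ v) := ⟨_, rfl⟩
  have hXd : DifferentiableOn ℂ X (ψ '' W) := by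
    rw [hX]
    refine hS.comp (D.hφ1.mono hVs) ?_
    intro v hv
    have := hVm v hv
    rwa [hW] at this
  have hzt : z0 + exp t0 ∈ W := by
    rw [hW]
    refine ⟨?_, ?_⟩
    · rw [mem_ball_iff_norm, add_sub_cancel_left, Complex.norm_exp]
      exact Real.exp_lt_exp.2 ht0
    · rw [mem_singleton_iff, add_eq_left]
      exact Complex.exp_ne_zero _
  have hu0 : ψ (z0 + exp t0) ∈ ψ '' W := ⟨_, hzt, rfl⟩
  -- the germs agree
  have hgerm : F =ᶠ[𝓝 (ψ (z0 + exp t0))] X := by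
    obtain ⟨hu1, hu2⟩ := D.hψm _ (hWs hzt)
    have hl : ContinuousAt (fun v : ℂ => t0 + Complex.log ((φ v - z0) / exp t0))
        (ψ (z0 + exp t0)) := by
      have h1 : ContinuousAt φ (ψ (z0 + exp t0)) :=
        (D.hφ1.differentiableAt (isOpen_ball.mem_nhds hu1)).continuousAt
      refine continuousAt_const.add ?_
      refine ContinuousAt.clog ((h1.sub continuousAt_const).div_const _) ?_
      rw [hu2, add_sub_cancel_left, div_self (Complex.exp_ne_zero _)]
      exact Complex.one_mem_slitPlane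
    have hval : t0 + Complex.log ((φ (ψ (z0 + exp t0)) - z0) / exp t0) = t0 := by
      rw [hu2, add_sub_cancel_left, div_self (Complex.exp_ne_zero _), Complex.log_one, add_zero]
    have hl' : Tendsto (fun v : ℂ => t0 + Complex.log ((φ v - z0) / exp t0))
        (𝓝 (ψ (z0 + exp t0))) (𝓝 t0) := by
      have := hl.tendsto
      rwa [hval] at this
    filter_upwards [hl'.eventually hFG, hl'.eventually ((hp_open δ).mem_nhds ht0),
      hVo.mem_nhds hu0] with v hv1 hv2 hv3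
    have h2 : φ v - z0 ≠ 0 := by
      have := hVm v hv3
      rw [hW] at this
      exact sub_ne_zero.2 this.2
    have h3 : z0 + exp (t0 + Complex.log ((φ v - z0) / exp t0)) = φ v := by
      rw [Complex.exp_add, Complex.exp_log (div_ne_zero h2 (Complex.exp_ne_zero _))]
      field_simp
      ring
    rw [h3, D.hψi v (hVs hv3)] at hv1
    rw [hX]
    simp only
    rw [← hv1, ← hSG _ hv2, h3]
  have hI0 : SInv a φ (ψ (z0 + exp t0)) X := inv_germ D.ha D.hφ1 hgerm hF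
  -- a point of the small disc
  obtain ⟨u, hu⟩ : ∃ u : ℂ, u = P + ((ρ / 2 : ℝ) : ℂ) := ⟨_, rfl⟩
  have hBW : ∀ v ∈ ball P ρ \ {P}, v ∈ ψ '' W := by
    intro v hv
    obtain ⟨h1, h2⟩ := hρ' v hv.1
    refine ⟨φ v, ?_, D.hψi v h1⟩
    rw [hW]
    refine ⟨h2, fun h3 => hv.2 ?_⟩
    rw [mem_singleton_iff] at h3 ⊢
    rw [← D.hψi v h1, h3, hP]
  have huB : u ∈ ball P ρ \ {P} := by
    rw [hu]
    refine ⟨?_, ?_⟩
    · rw [mem_ball_iff_norm, add_sub_cancel_left, Complex.norm_real, Real.norm_eq_abs,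
        abs_of_pos (by linarith)]
      linarith
    · intro h3
      rw [mem_singleton_iff, add_eq_left] at h3
      have : (ρ / 2 : ℝ) = 0 := by exact_mod_cast h3
      linarith
  have hIu : SInv a φ u X := inv_conn D.ha D.hφ1 hVo hVc hVs hXd hu0 (hBW u huB) hI0
  rcases mainU Pool.Agent.Y508.UC.ures Pool.Agent.Y845.UC.ustep φ r a D.hr D.hφ D.hinj D.ha P ρ hρ
    (fun v hv => (hρ' v hv).1) X (hXd.mono hBW) u huB hIu.1 hIu.2.1 with h1 | ⟨E, hE, hEX⟩
  · exact Or.inl h1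
  right
  classical
  refine ⟨fun z => if z = z0 then E P else S z, ?_, fun t ht => ?_⟩
  · intro z hz
    apply DifferentiableAt.differentiableWithinAt
    by_cases hne : z = z0
    · subst hne
      have h1 : DifferentiableAt ℂ (fun x => E (ψ x)) z := by
        refine DifferentiableAt.comp (g := E) (f := ψ) z ?_
          (D.hψ.differentiableAt (D.ho.mem_nhds hz0))
        rw [← hP]
        exact hE.differentiableAt (isOpen_ball.mem_nhds (mem_ball_self hρ))
      refine h1.congr_of_eventuallyEq ?_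
      have hψc : ContinuousAt ψ z :=
        (D.hψ.differentiableAt (D.ho.mem_nhds hz0)).continuousAt
      have h2 : ∀ᶠ x in 𝓝 z, ψ x ∈ ball P ρ := by
        refine hψc.eventually_mem ?_
        rw [← hP]
        exact isOpen_ball.mem_nhds (mem_ball_self hρ)
      filter_upwards [h2, D.ho.mem_nhds hz0] with x hx hxΩ
      by_cases hxz : x = z
      · rw [if_pos hxz, hxz, hP]
      · rw [if_neg hxz]
        have h3 : ψ x ≠ P := by
          intro h4
          apply hxz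
          rw [← (D.hψm x hxΩ).2, h4, hφP]
        have h4 := hEX (ψ x) hx h3
        rw [h4, hX]
        simp only
        rw [(D.hψm x hxΩ).2]
    · have hzW : z ∈ ball z0 (Real.exp δ) \ {z0} := ⟨hz, hne⟩
      refine (hS.differentiableAt ((isOpen_ball.sdiff isClosed_singleton).mem_nhds
        hzW)).congr_of_eventuallyEq ?_
      filter_upwards [isOpen_ne.mem_nhds hne] with x hx
      exact if_neg hx
  · have h1 : z0 + exp t ≠ z0 := by
      rw [Ne, add_eq_left]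
      exact Complex.exp_ne_zero _
    simp only
    rw [if_neg h1]
    exact hSG t ht

end Run7.h367.SF
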