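import Pool.Agent.Y245.SC.Stm3

/-!
The method of Laplace, with a lower bound.
-/

set_option autoImplicit false

open Complex MeasureTheory Metric Set Filter Topology ComplexConjugate

namespace Run7.h367.SF

theorem lapq (A : ℕ → ℝ) (h g : ℕ → ℝ → ℂ) (c C μ : ℝ) (g0 : ℂ) (hc : 0 < c) (hμ : 0 < μ)
    (hg0 : g0 ≠ 0) (hA : Tendsto A atTop atTop)
    (hh : ∀ᶠ k in atTop, ContinuousOn (h k) (Icc (-Real.pi) Real.pi))
    (hg : ∀ᶠ k in atTop, ContinuousOn (g k) (Icc (-Real.pi) Real.pi))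
    (hdec : ∀ᶠ k in atTop, ∀ θ ∈ Icc (-Real.pi) Real.pi,
      (A k * (h k θ - h k 0)).re ≤ -c * A k * θ ^ 2)
    (hbd : ∀ᶠ k in atTop, ∀ θ ∈ Icc (-Real.pi) Real.pi, ‖g k θ‖ ≤ C)
    (hl1 : ∀ u : ℝ, Tendsto (fun k => (A k : ℂ) * (h k (u / √(A k)) - h k 0)) atTop
      (𝓝 (((-(μ * u ^ 2 / 2) : ℝ)) : ℂ)))
    (hl2 : ∀ u : ℝ, Tendsto (fun k => g k (u / √(A k))) atTop (𝓝 g0)) :
    ∃ c0 : ℝ, 0 < c0 ∧ ∀ᶠ k in atTop,
      c0 ≤ √(A k) * ‖∫ θ in (-Real.pi)..Real.pi, exp (A k * (h k θ - h k 0)) * g k θ‖ := by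
  have hπ : 0 < Real.pi := Real.pi_pos
  set s : ℕ → ℝ := fun k => √(A k) with hs
  have hs_tend : Tendsto s atTop atTop := by
    exact (Real.tendsto_sqrt_atTop).comp hA
  have hpos : ∀ᶠ k in atTop, 0 < s k := hs_tend.eventually_gt_atTop 0
  have hAp : ∀ᶠ k in atTop, 0 < A k := hA.eventually_gt_atTop 0
  set f : ℕ → ℝ → ℂ := fun k θ => exp (A k * (h k θ - h k 0)) * g k θ with hf
  set F : ℕ → ℝ → ℂ := fun k =>
    indicator (Ioc (-(Real.pi * s k)) (Real.pi * s k)) (fun u => f k (u / s k)) with hF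
  have hmem : ∀ k, 0 < s k → ∀ u ∈ Ioc (-(Real.pi * s k)) (Real.pi * s k),
      u / s k ∈ Icc (-Real.pi) Real.pi := by
    intro k hk u hu
    constructor
    · rw [le_div_iff₀ hk, neg_mul]; exact hu.1.le
    · rw [div_le_iff₀ hk]; exact hu.2
  have hfc : ∀ᶠ k in atTop, ContinuousOn (f k) (Icc (-Real.pi) Real.pi) := by
    filter_upwards [hh, hg] with k h1 h2
    exact ((continuousOn_const.mul (h1.sub continuousOn_const)).cexp).mul h2
  have hmeas : ∀ᶠ k in atTop, AEStronglyMeasurable (F k) volume := by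
    filter_upwards [hpos, hfc] with k hk hfk
    rw [hF]
    simp only
    rw [aestronglyMeasurable_indicator_iff measurableSet_Ioc]
    apply ContinuousOn.aestronglyMeasurable _ measurableSet_Ioc
    refine hfk.comp (continuous_id.div_const (s k)).continuousOn ?_
    intro u hu
    exact hmem k hk u hu
  have hC : 0 ≤ C := by
    obtain ⟨k, hk⟩ := hbd.exists
    exact (norm_nonneg _).trans (hk 0 ⟨by linarith, hπ.le⟩)
  have hbound : ∀ᶠ k in atTop, ∀ᵐ u ∂(volume : Measure ℝ), ‖F k u‖ ≤ C * Real.exp (-c * u ^ 2) := by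
    filter_upwards [hpos, hdec, hbd, hAp] with k hk h1 h2 hAk
    refine Eventually.of_forall fun u => ?_
    rw [hF]
    simp only
    by_cases hu : u ∈ Ioc (-(Real.pi * s k)) (Real.pi * s k)
    · rw [indicator_of_mem hu, hf]
      simp only
      have h3 := hmem k hk u hu
      rw [norm_mul, Complex.norm_exp, mul_comm]
      apply mul_le_mul (h2 _ h3) _ (Real.exp_pos _).le hC
      apply Real.exp_le_exp.2
      refine (h1 _ h3).trans (le_of_eq ?_)
      have h4 : s k ^ 2 = A k := Real.sq_sqrt hAk.le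
      rw [← h4, div_pow]
      field_simp
    · rw [indicator_of_notMem hu, norm_zero]
      positivity
  have hint : Integrable (fun u : ℝ => C * Real.exp (-c * u ^ 2)) :=
    (integrable_exp_neg_mul_sq hc).const_mul C
  have hlim : ∀ᵐ u ∂(volume : Measure ℝ), Tendsto (fun k => F k u) atTop
      (𝓝 (exp (((-(μ * u ^ 2 / 2) : ℝ)) : ℂ) * g0)) := by
    refine Eventually.of_forall fun u => ?_
    have h1 : Tendsto (fun k => f k (u / s k)) atTop
        (𝓝 (exp (((-(μ * u ^ 2 / 2) : ℝ)) : ℂ) * g0)) :=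
      ((hl1 u).cexp).mul (hl2 u)
    refine h1.congr' ?_
    have h2 : ∀ᶠ k in atTop, |u| < Real.pi * s k :=
      (hs_tend.const_mul_atTop hπ).eventually_gt_atTop |u|
    filter_upwards [h2] with k hk
    rw [hF]
    simp only
    rw [abs_lt] at hk
    have h5 : u ∈ Ioc (-(Real.pi * s k)) (Real.pi * s k) := ⟨hk.1, hk.2.le⟩
    rw [indicator_of_mem h5]
  have hconv := tendsto_integral_filter_of_dominated_convergence _ hmeas hbound hint hlim
  obtain ⟨L, hL⟩ : ∃ L : ℂ, L = ∫ u : ℝ, exp (((-(μ * u ^ 2 / 2) : ℝ)) : ℂ) * g0 := ⟨_, rfl⟩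
  have hval : L ≠ 0 := by
    rw [hL, integral_mul_const]
    apply mul_ne_zero _ hg0
    have h1 : ∫ u : ℝ, exp (((-(μ * u ^ 2 / 2) : ℝ)) : ℂ) =
        ((∫ u : ℝ, Real.exp (-(μ / 2) * u ^ 2) : ℝ) : ℂ) := by
      have h4 : ∫ u : ℝ, ((Real.exp (-(μ / 2) * u ^ 2) : ℝ) : ℂ) =
          ((∫ u : ℝ, Real.exp (-(μ / 2) * u ^ 2) : ℝ) : ℂ) := integral_ofReal
      rw [← h4]
      congr 1
      funext u
      rw [← Complex.ofReal_exp]
      congr 2
      ring
    rw [h1, integral_gaussian]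
    have h2 : 0 < √(Real.pi / (μ / 2)) := Real.sqrt_pos.2 (by positivity)
    exact_mod_cast h2.ne'
  rw [← hL] at hconv
  have hLp : 0 < ‖L‖ := norm_pos_iff.2 hval
  refine ⟨‖L‖ / 2, by positivity, ?_⟩
  have hev : ∀ᶠ k in atTop, ‖L‖ / 2 < ‖∫ u, F k u‖ :=
    hconv.norm.eventually (lt_mem_nhds (by linarith))
  filter_upwards [hev, hpos] with k h1 hk
  have e0 : ∫ u, F k u = (s k : ℝ) • ∫ θ in (-Real.pi)..Real.pi, f k θ := by
    rw [hF]
    simp only
    rw [integral_indicator measurableSet_Ioc, ← intervalIntegral.integral_of_le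
      (by nlinarith [mul_pos hπ hk]), intervalIntegral.integral_comp_div _ hk.ne']
    have e1 : -(Real.pi * s k) / s k = -Real.pi := by field_simp
    have e2 : Real.pi * s k / s k = Real.pi := by field_simp
    rw [e1, e2]
  rw [e0, norm_smul, Real.norm_of_nonneg hk.le] at h1
  exact h1.le

end Run7.h367.SF
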