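import Pool.Agent.Run7.h367.Sym

/-!
Branches of the Schwarz function and their local behaviour.
-/

set_option autoImplicit false

open Complex MeasureTheory Metric Set Filter Topology ComplexConjugate
open Pool.Agent.Y245.SC Pool.Agent.Y245.UC
open Pool.Agent.TH298.Sch (Sol)
open Pool.Agent.Y245.SG (Bn)

namespace Run7.h367.SF

/-- the germs of the Schwarz function in the domain -/
inductive SBr (φ : ℂ → ℂ) (r : ℝ) : ℂ → (ℂ → ℂ) → Prop
  | base (w : ℂ) (f : ℂ → ℂ) (h1 : 1 < r * ‖w‖) (h2 : ‖w‖ < 1)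
      (hf : ∀ᶠ v in 𝓝 w, f (φ v) = conj (φ (1 / conj v))) : SBr φ r (φ w) f
  | step (z z' c : ℂ) (ρ : ℝ) (f g : ℂ → ℂ) (h : SBr φ r z f)
      (hB : ball c ρ ⊆ φ '' ball 0 1) (hg : DifferentiableOn ℂ g (ball c ρ))
      (hz : z ∈ ball c ρ) (hz' : z' ∈ ball c ρ) (hfg : f =ᶠ[𝓝 z] g) : SBr φ r z' g

theorem Dat.germ {φ ψ : ℂ → ℂ} {r a : ℝ} (D : Dat φ ψ r a) {z : ℂ} (hz : z ∈ φ '' ball 0 1) :
    Tendsto φ (𝓝 (ψ z)) (𝓝 z) := by
  obtain ⟨h1, h2⟩ := D.hψm z hz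
  have h3 : ContinuousAt φ (ψ z) := D.hφ1.continuousOn.continuousAt (isOpen_ball.mem_nhds h1)
  have h4 := h3.tendsto
  rwa [h2] at h4

theorem sbr_inv {φ ψ : ℂ → ℂ} {r lam : ℝ} (D : Dat φ ψ r (lam / 4)) {c : ℝ} {u : ℂ → ℝ}
    {G : ℂ → ℂ} (hlam : 0 < lam) (hc : c ≠ 0) (hS : Sol (φ '' ball 0 1) lam c u G) {z : ℂ}
    {f : ℂ → ℂ} (h : SBr φ r z f) :
    z ∈ φ '' ball 0 1 ∧ SInv (lam / 4) φ (ψ z) (fun v => f (φ v)) := by
  have hr0 : 0 < r := by linarith [D.hr]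
  induction h with
  | base w f h1 h2 hf =>
    have hw : w ∈ ball (0 : ℂ) 1 := by rwa [mem_ball_zero_iff]
    refine ⟨⟨w, hw, rfl⟩, ?_⟩
    rw [D.hψi w hw]
    have h3 := inv_base φ r lam c u G D.hr D.hφ D.hinj hlam hc hS w
      ((inv_lt_iff_one_lt_mul₀' hr0).2 h1) h2
    refine inv_germ D.ha D.hφ1 ?_ h3
    filter_upwards [hf] with v hv
    rw [hv]
    rfl
  | step z z' c' ρ f g _ hB hg hz hz' hfg ih =>
    obtain ⟨hzm, hI⟩ := ih
    have hz'm := hB hz'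
    refine ⟨hz'm, ?_⟩
    obtain ⟨hVo, hVc, hVs, hVm⟩ := D.pre isOpen_ball (convex_ball c' ρ).isPreconnected hB
    refine inv_conn D.ha D.hφ1 hVo hVc hVs (hg.comp (D.hφ1.mono hVs) hVm)
      (mem_image_of_mem ψ hz) (mem_image_of_mem ψ hz') ?_
    refine inv_germ D.ha D.hφ1 ?_ hI
    exact (D.germ hzm).eventually hfg

/-- a branch over a punctured disc -/
def LBr (φ : ℂ → ℂ) (r : ℝ) (z0 : ℂ) (δ : ℝ) (G : ℂ → ℂ) : Prop :=
  ball z0 (Real.exp δ) ⊆ φ '' ball 0 1 ∧ DifferentiableOn ℂ G {t : ℂ | t.re < δ} ∧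
  ∃ (t0 : ℂ) (f : ℂ → ℂ), t0.re < δ ∧ SBr φ r (z0 + exp t0) f ∧
    ∀ᶠ t in 𝓝 t0, G t = f (z0 + exp t)

theorem lbr_data {φ ψ : ℂ → ℂ} {r lam : ℝ} (D : Dat φ ψ r (lam / 4)) {c : ℝ} {u : ℂ → ℝ}
    {U : ℂ → ℂ} (hlam : 0 < lam) (hc : c ≠ 0) (hS : Sol (φ '' ball 0 1) lam c u U) {z0 : ℂ}
    {δ : ℝ} {G : ℂ → ℂ} (h : LBr φ r z0 δ G) : ∃ (t0 : ℂ) (F : ℂ → ℂ), t0 ∈ HP δ ∧
      SInv (lam / 4) φ (ψ (z0 + exp t0)) F ∧ ∀ᶠ t in 𝓝 t0, G t = F (ψ (z0 + exp t)) := by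
  obtain ⟨hB, hG, t0, f, ht0, hf, hGf⟩ := h
  have h1 := (sbr_inv D hlam hc hS hf).2
  refine ⟨t0, fun v => f (φ v), ht0, h1, ?_⟩
  filter_upwards [hGf, (hp_open δ).mem_nhds ht0] with t ht htm
  have hz : z0 + exp t ∈ φ '' ball 0 1 := by
    apply hB
    rw [mem_ball_iff_norm, add_sub_cancel_left, Complex.norm_exp]
    exact Real.exp_lt_exp.2 htm
  rw [ht, (D.hψm _ hz).2]

theorem lbr_turn {φ ψ : ℂ → ℂ} {r lam : ℝ} (D : Dat φ ψ r (lam / 4)) {c : ℝ} {u : ℂ → ℝ}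
    {U : ℂ → ℂ} (hlam : 0 < lam) (hc : c ≠ 0) (hS : Sol (φ '' ball 0 1) lam c u U) {z0 : ℂ}
    {δ : ℝ} {G : ℂ → ℂ} (h : LBr φ r z0 δ G) : Turn (lam / 4) δ G := by
  obtain ⟨t0, F, h1, h2, h3⟩ := lbr_data D hlam hc hS h
  exact D.turn h.1 h.2.1 h1 h2 h3

theorem lbr_no_pow {φ ψ : ℂ → ℂ} {r lam : ℝ} (D : Dat φ ψ r (lam / 4)) {c : ℝ} {u : ℂ → ℝ}
    {U : ℂ → ℂ} (hlam : 0 < lam) (hc : c ≠ 0) (hS : Sol (φ '' ball 0 1) lam c u U) {z0 : ℂ}
    {δ κ : ℝ} {G : ℂ → ℂ} (h : LBr φ r z0 δ G) (hrv : RegVar G κ) : κ ≤ 1 := by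
  by_contra hk
  rw [not_le] at hk
  have h1 := lbr_turn D hlam hc hS h
  exact no_pow t_KAP t_SEG D.ha hk h1.1 hrv h1.2

/-- a regularly varying function of index greater than `-1` is small compared with `exp (-t)` -/
theorem rv_small {d : ℂ → ℂ} {σ : ℝ} (hσ : -1 < σ) {δ : ℝ} (hd : ContinuousOn d (HP δ))
    (hrv : RegVar d (-σ)) : Pole d 0 0 := by
  intro K η hK hη
  -- the ratio over one step
  obtain ⟨N, hN⟩ : ∃ N : ℝ, N = Real.exp (-(1 + σ) / 2) := ⟨_, rfl⟩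
  have hN1 : N < 1 := by
    rw [hN, Real.exp_lt_one_iff]
    linarith
  have hN0 : 0 < N := by rw [hN]; exact Real.exp_pos _
  obtain ⟨ε, hε⟩ : ∃ ε : ℝ, ε = Real.exp 1 * (N - Real.exp (-(1 + σ))) := ⟨_, rfl⟩
  have hε0 : 0 < ε := by
    rw [hε]
    refine mul_pos (Real.exp_pos _) ?_
    rw [hN, sub_pos]
    apply Real.exp_lt_exp.2
    linarith
  obtain ⟨T1, hT1⟩ := hrv (K + 1) (min ε (1 / 2)) (by linarith) (lt_min hε0 (by norm_num))
  obtain ⟨T, hT⟩ : ∃ T : ℝ, T = min T1 (δ - 1) := ⟨_, rfl⟩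
  have hTT1 : T ≤ T1 := by rw [hT]; exact min_le_left _ _
  have hTδ : T ≤ δ - 1 := by rw [hT]; exact min_le_right _ _
  have hstep : ∀ t : ℂ, t.re ≤ T → |t.im| ≤ K →
      ‖exp (t - 1) * d (t - 1)‖ ≤ N * ‖exp t * d t‖ := by
    intro t ht hi
    have h0 : d t ≠ 0 := by
      intro h0
      have h1 := hT1 t 0 (ht.trans hTT1) (hi.trans (by linarith)) (by rw [norm_zero]; linarith)
      rw [add_zero, h0, div_zero, mul_zero, neg_zero, Complex.exp_zero, zero_sub, norm_neg,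
        norm_one] at h1
      have := min_le_right ε (1 / 2)
      linarith
    have h1 := hT1 t (-1) (ht.trans hTT1) (hi.trans (by linarith)) (by
      rw [norm_neg, norm_one]
      linarith)
    rw [show -(((-σ : ℝ) : ℂ) * -1) = ((-σ : ℝ) : ℂ) by ring] at h1
    have h2 : ‖d (t + -1) / d t‖ ≤ ε + Real.exp (-σ) := by
      have h3 : ‖exp ((-σ : ℝ) : ℂ)‖ = Real.exp (-σ) := by
        rw [Complex.norm_exp, Complex.ofReal_re]
      have h4 := norm_le_norm_sub_add (d (t + -1) / d t) (exp ((-σ : ℝ) : ℂ))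
      rw [h3] at h4
      have := min_le_left ε (1 / 2)
      linarith
    rw [norm_div, div_le_iff₀ (norm_pos_iff.2 h0)] at h2
    rw [sub_eq_add_neg, Complex.exp_add, norm_mul, norm_mul, norm_mul]
    have h5 : ‖exp (-1 : ℂ)‖ = Real.exp (-1) := by
      rw [Complex.norm_exp]
      simp
    rw [h5]
    have h6 : Real.exp (-1) * (ε + Real.exp (-σ)) = N := by
      rw [hε, mul_add, ← mul_assoc, ← Real.exp_add, ← Real.exp_add]
      rw [show (-1 + 1 : ℝ) = 0 by ring, Real.exp_zero, show -1 + -σ = -(1 + σ) by ring]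
      ring
    calc ‖exp t‖ * Real.exp (-1) * ‖d (t + -1)‖
        ≤ ‖exp t‖ * Real.exp (-1) * ((ε + Real.exp (-σ)) * ‖d t‖) := by gcongr
      _ = (Real.exp (-1) * (ε + Real.exp (-σ))) * (‖exp t‖ * ‖d t‖) := by ring
      _ = N * (‖exp t‖ * ‖d t‖) := by rw [h6]
  -- a bound on a rectangle
  obtain ⟨R, hR⟩ : ∃ R : Set ℂ, R = (Icc (T - 1) T ×ℂ Icc (-K) K) := ⟨_, rfl⟩
  have hRc : IsCompact R := by
    rw [hR]
    exact isCompact_Icc.reProdIm isCompact_Icc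
  have hRs : R ⊆ HP δ := by
    intro t ht
    rw [hR, Complex.mem_reProdIm] at ht
    rw [hp_iff]
    linarith [ht.1.2]
  obtain ⟨M, hM⟩ := hRc.exists_bound_of_continuousOn
    (f := fun t => exp t * d t) ((Complex.continuous_exp.continuousOn).mul (hd.mono hRs))
  have hiter : ∀ n : ℕ, ∀ t ∈ R, ‖exp (t - n) * d (t - n)‖ ≤ N ^ n * |M| := by
    intro n
    induction n with
    | zero =>
      intro t ht
      rw [Nat.cast_zero, sub_zero, pow_zero, one_mul]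
      exact (hM t ht).trans (le_abs_self M)
    | succ n ih =>
      intro t ht
      have h1 := ih t ht
      rw [hR, Complex.mem_reProdIm] at ht
      have h2 := hstep (t - n) (by
        rw [Complex.sub_re, Complex.natCast_re]
        have : (0 : ℝ) ≤ n := Nat.cast_nonneg n
        linarith [ht.1.2]) (by
        rw [Complex.sub_im, Complex.natCast_im, sub_zero]
        exact abs_le.2 ⟨ht.2.1, ht.2.2⟩)
      rw [show t - ((n + 1 : ℕ) : ℂ) = t - n - 1 by push_cast; ring]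
      calc ‖exp (t - n - 1) * d (t - n - 1)‖ ≤ N * ‖exp (t - n) * d (t - n)‖ := h2
        _ ≤ N * (N ^ n * |M|) := by gcongr
        _ = N ^ (n + 1) * |M| := by ring
  obtain ⟨n0, hn0⟩ : ∃ n0 : ℕ, ∀ n ≥ n0, N ^ n * |M| ≤ η := by
    have h1 : Tendsto (fun n : ℕ => N ^ n * |M|) atTop (𝓝 (0 * |M|)) :=
      (tendsto_pow_atTop_nhds_zero_of_lt_one hN0.le hN1).mul_const _
    rw [zero_mul] at h1
    have h2 := (h1.eventually (gt_mem_nhds hη))
    obtain ⟨n0, hn0⟩ := eventually_atTop.1 h2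
    exact ⟨n0, fun n hn => (hn0 n hn).le⟩
  refine ⟨T - n0 - 1, fun t ht hi => ?_⟩
  obtain ⟨n, hn⟩ : ∃ n : ℕ, n = ⌊T - t.re⌋₊ := ⟨_, rfl⟩
  have hnn : (0 : ℝ) ≤ T - t.re := by
    have : (0 : ℝ) ≤ n0 := Nat.cast_nonneg n0
    linarith
  have hn1 : (n : ℝ) ≤ T - t.re := by rw [hn]; exact Nat.floor_le hnn
  have hn2 : T - t.re < n + 1 := by rw [hn]; exact Nat.lt_floor_add_one _
  have hn3 : n0 ≤ n := by
    have : (n0 : ℝ) < n + 1 := by linarith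
    have : n0 < n + 1 := by exact_mod_cast this
    omega
  have h1 := hiter n (t + n) (by
    rw [hR, Complex.mem_reProdIm]
    rw [Complex.add_re, Complex.natCast_re, Complex.add_im, Complex.natCast_im, add_zero]
    exact ⟨⟨by linarith, by linarith⟩, abs_le.1 hi⟩)
  rw [add_sub_cancel_right] at h1
  rw [sub_zero, sub_zero]
  exact h1.trans (hn0 n hn3)

theorem lbr_quant {φ ψ : ℂ → ℂ} {r lam : ℝ} (D : Dat φ ψ r (lam / 4)) {c : ℝ} {u : ℂ → ℝ}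
    {U : ℂ → ℂ} (hlam : 0 < lam) (hc : c ≠ 0) (hS : Sol (φ '' ball 0 1) lam c u U) {z0 : ℂ}
    {δ σ : ℝ} {G d : ℂ → ℂ} {w C : ℂ} (h : LBr φ r z0 δ G) (hσ : -1 < σ) (hσ0 : σ ≠ 0)
    (hd : ∀ t : ℂ, t.re < δ → G t = C * exp (-t) + w + d t) (hrv : RegVar d (-σ)) :
    (C = 0 ∧ ∃ n : ℕ, 1 ≤ n ∧ σ = n) ∨
    (∃ x : ℝ, 0 < x ∧ C = x) ∧ (∀ n : ℤ, σ ≠ n) ∧ 1 < σ ∧ Bn 1 ((lam / 4 : ℝ) * C) = 0 ∧
      ResC ((lam / 4 : ℝ) * C) σ := by
  have hT := lbr_turn D hlam hc hS h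
  have hdc : ContinuousOn d (HP δ) := by
    have h1 : ContinuousOn (fun t => G t - C * exp (-t) - w) (HP δ) := by
      have := h.2.1.continuousOn
      refine ContinuousOn.sub (ContinuousOn.sub this ?_) continuousOn_const
      fun_prop
    refine h1.congr fun t ht => ?_
    simp only
    rw [hd t ht]
    ring
  have hP0 := rv_small hσ hdc hrv
  have hP : Pole G w C := by
    intro K η hK hη
    obtain ⟨T, hT⟩ := hP0 K η hK hη
    refine ⟨min T (δ - 1), fun t ht hi => ?_⟩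
    have h1 := hT t (ht.trans (min_le_left _ _)) hi
    have h2 : t.re < δ := by
      have := ht.trans (min_le_right _ _)
      linarith
    have h3 : exp t * exp (-t) = 1 := by rw [← Complex.exp_add, add_neg_cancel, Complex.exp_zero]
    rw [hd t h2]
    have h4 : exp t * (C * exp (-t) + w + d t - w) - C = exp t * (d t - 0) - 0 := by
      linear_combination C * h3
    rw [h4]
    exact h1
  have hJ := first_exp t_KAP D.ha hσ hT hP (d := d) (fun t ht => by rw [hd t ht]; ring) hrv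
  by_cases hC : C = 0
  · left
    refine ⟨hC, ?_⟩
    have hint : ∃ n : ℤ, σ = n := by
      by_contra hcon
      have hn : ∀ n : ℤ, σ ≠ n := fun n hn => hcon ⟨n, hn⟩
      have h1 := jf_frac hn hJ
      rw [hC, mul_zero] at h1
      have h2 : HasSum (fun m : ℕ => (0 : ℂ) ^ m / ((m.factorial : ℂ) *
          ∏ i ∈ Finset.range m, ((σ : ℂ) - i))) 1 := by
        have h3 := hasSum_single (f := fun m : ℕ => (0 : ℂ) ^ m / ((m.factorial : ℂ) *
          ∏ i ∈ Finset.range m, ((σ : ℂ) - i))) 0 (fun m hm => by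
            rw [zero_pow hm, zero_div])
        simpa using h3
      exact one_ne_zero (h2.unique h1)
    obtain ⟨n, hn⟩ := hint
    have h1 : (0 : ℤ) < n := by
      by_contra h3
      rw [not_lt] at h3
      have h4 : (-1 : ℝ) < n := by rw [← hn]; exact hσ
      have h5 : (-1 : ℤ) < n := by exact_mod_cast h4
      have h6 : n = 0 := by omega
      apply hσ0
      rw [hn, h6]
      simp
    obtain ⟨m, rfl⟩ := Int.eq_ofNat_of_zero_le h1.le
    refine ⟨m, ?_, by simpa using hn⟩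
    have : (0 : ℤ) < m := h1
    omega
  · right
    have hB := bn1_of_turn t_KAP D.ha hT hP hC
    obtain ⟨h1, h2, h3, h4⟩ := first_exp_concl D.ha hσ hσ0 hC hB hJ
    exact ⟨h3, h1, h2, hB, h4⟩

end Run7.h367.SF
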