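import Pool.Agent.Y953.SC.Gen

/-!
Series identities from the one-turn identity of the Bessel kernel, and a bound for the integrals of
exponentials over one turn.
-/

set_option autoImplicit false

open Complex MeasureTheory Metric Set Filter Topology
open Pool.Agent.Y245.SC
open Pool.Agent.Y953.SC (coeff_zero summable_prod_exp hasSum_regroup e1 norm_e1 sum1)

namespace Run7.h367.SF

theorem coeff_const {c : ℕ → ℂ} {D : ℂ} (h : ∀ t : ℂ, HasSum (fun i => c i * t ^ i) D) (i : ℕ)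
    (hi : i ≠ 0) : c i = 0 := by
  have h1 : ∀ t : ℂ, HasSum (fun i => (c i - if i = 0 then D else 0) * t ^ i) 0 := by
    intro t
    have h2 : HasSum (fun i : ℕ => (if i = 0 then D else 0)) D := hasSum_ite_eq 0 D
    have h3 := (h t).sub h2
    rw [sub_self] at h3
    refine h3.congrY953 fun j => ?_
    by_cases hj : j = 0
    · simp [hj]
    · simp [hj]
  have h2 := coeff_zero h1 i
  simpa [hi] using h2

theorem hasSum_int {ι : Type} [Countable ι] {f : ι → ℝ → ℂ}
    {g : ℝ → ℂ} {u : ι → ℝ} (hu : Summable u) (hf : ∀ i, ContinuousOn (f i) (Icc 0 1))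
    (hb : ∀ i, ∀ s ∈ Icc (0 : ℝ) 1, ‖f i s‖ ≤ u i)
    (hs : ∀ s ∈ Icc (0 : ℝ) 1, HasSum (fun i => f i s) (g s)) :
    HasSum (fun i => ∫ s in (0 : ℝ)..1, f i s) (∫ s in (0 : ℝ)..1, g s) := by
  refine intervalIntegral.hasSum_integral_of_dominated_convergence (fun i _ => u i) ?_ ?_ ?_
    ?_ ?_
  · intro i
    rw [uIoc_of_le zero_le_one]
    exact ((hf i).mono Ioc_subset_Icc_self).aestronglyMeasurable measurableSet_Ioc
  · intro i
    refine Eventually.of_forall fun s hs' => ?_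
    rw [uIoc_of_le zero_le_one] at hs'
    exact hb i s (Ioc_subset_Icc_self hs')
  · exact Eventually.of_forall fun s _ => hu
  · exact intervalIntegrable_const
  · refine Eventually.of_forall fun s hs' => ?_
    rw [uIoc_of_le zero_le_one] at hs'
    exact hs s (Ioc_subset_Icc_self hs')

/-- the coefficients of the expansion of a constant family of integrals -/
theorem family_int {e : ℕ → ℝ → ℂ} {σ W : ℝ → ℂ} {C K B D : ℝ} {Δ : ℂ}
    (hC : 0 ≤ C) (hK : 0 ≤ K) (hB : 0 ≤ B)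
    (hec : ∀ m, ContinuousOn (e m) (Icc 0 1))
    (hsc : ContinuousOn σ (Icc 0 1)) (hWc : ContinuousOn W (Icc 0 1))
    (he : ∀ m, ∀ s ∈ Icc (0 : ℝ) 1, ‖e m s‖ ≤ C * K ^ m)
    (hs : ∀ s ∈ Icc (0 : ℝ) 1, ‖σ s‖ ≤ B) (hW : ∀ s ∈ Icc (0 : ℝ) 1, ‖W s‖ ≤ D)
    {H : ℂ → ℝ → ℂ}
    (hH : ∀ t : ℂ, ∀ s ∈ Icc (0 : ℝ) 1,
      HasSum (fun m => e m s * ((σ s + t) ^ m / (m.factorial : ℂ))) (H t s))
    (h0 : ∀ t : ℂ, ∫ s in (0 : ℝ)..1, H t s * W s = Δ) (i : ℕ) (hi : i ≠ 0) :
    HasSum (fun l : ℕ => ∫ s in (0 : ℝ)..1, e (l + i) s * (σ s ^ l / (l.factorial : ℂ)) * W s)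
      0 := by
  set A : ℕ → ℕ → ℂ := fun l i =>
    ∫ s in (0 : ℝ)..1, e (l + i) s * (σ s ^ l / (l.factorial : ℂ)) * W s with hA
  have h1 : ∀ t : ℂ, HasSum (fun p : ℕ × ℕ => A p.1 p.2 * (t ^ p.2 / (p.2.factorial : ℂ))) Δ := by
    intro t
    have h2 := hasSum_int
      (f := fun (p : ℕ × ℕ) s => e (p.1 + p.2) s * (σ s ^ p.1 / (p.1.factorial : ℂ)) *
        (t ^ p.2 / (p.2.factorial : ℂ)) * W s) (g := fun s => H t s * W s)
      (u := fun p => C * K ^ (p.1 + p.2) * (B ^ p.1 / (p.1.factorial : ℝ)) *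
        (‖t‖ ^ p.2 / (p.2.factorial : ℝ)) * D)
      ((summable_prod_exp C K B ‖t‖ hK hB (norm_nonneg _)).mul_right D) ?_ ?_ ?_
    · rw [h0 t] at h2
      refine h2.congrY953 fun p => ?_
      rw [hA]
      simp only
      rw [mul_comm, ← intervalIntegral.integral_const_mul]
      congr 1
      ext s
      ring
    · intro p
      exact (((hec _).mul ((hsc.pow _).div_const _)).mul continuousOn_const).mul hWc
    · intro p s hs'
      rw [norm_mul, norm_mul, norm_mul, norm_div, norm_div, norm_pow, norm_pow,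
        Complex.norm_natCast, Complex.norm_natCast]
      have e1 := he (p.1 + p.2) s hs'
      have e2 := hs s hs'
      have e3 := hW s hs'
      gcongr
    · intro s hs'
      exact (hasSum_regroup hK (fun m => he m s hs') (hH t s hs')).mul_right (W s)
  have h2 : ∀ i, Summable fun l => A l i := by
    intro i
    have h3 := (h1 1).summable.comp_injective (i := fun l : ℕ => (l, i))
      (fun l l' h => by simpa using congrArg Prod.fst h)
    have h4 := h3.mul_right (i.factorial : ℂ)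
    refine h4.congr fun l => ?_
    have h6 : (i.factorial : ℂ) ≠ 0 := by exact_mod_cast i.factorial_ne_zero
    simp only [Function.comp, one_pow]
    field_simp
  have h3 : ∀ t : ℂ, HasSum (fun i => ((∑' l, A l i) / (i.factorial : ℂ)) * t ^ i) Δ := by
    intro t
    have h4 := h1 t
    rw [← (Equiv.prodComm ℕ ℕ).hasSum_iff] at h4
    have h4' : HasSum (fun p : ℕ × ℕ => A p.2 p.1 * (t ^ p.1 / (p.1.factorial : ℂ))) Δ :=
      h4.congrY953 fun p => rfl
    have h8 : ∀ i, HasSum (fun l => A l i * (t ^ i / (i.factorial : ℂ)))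
        ((∑' l, A l i) * (t ^ i / (i.factorial : ℂ))) := fun i => (h2 i).hasSum.mul_right _
    have h5 := h4'.prod_fiberwise (g := fun i => (∑' l, A l i) * (t ^ i / (i.factorial : ℂ))) h8
    refine h5.congrY953 fun i => ?_
    ring
  have h4 := coeff_const h3 i hi
  have h6 : (i.factorial : ℂ) ≠ 0 := by exact_mod_cast i.factorial_ne_zero
  have h5 : ∑' l, A l i = 0 := by
    rcases div_eq_zero_iff.1 h4 with h | h
    · exact h
    · exact absurd h h6
  have h7 := (h2 i).hasSum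
  rw [h5] at h7
  exact h7

/-- the basic series identity -/
theorem star (hk : S_KAP) {a B : ℝ} (ha : 0 < a) (hB : 1 ≤ B) {X x W : ℝ → ℂ} {Δ : ℂ}
    (hX : ContinuousOn X (Icc 0 1)) (hx : ContinuousOn x (Icc 0 1))
    (hW : ContinuousOn W (Icc 0 1)) (hXB : ∀ s ∈ Icc (0 : ℝ) 1, ‖X s‖ ≤ B)
    (hxB : ∀ s ∈ Icc (0 : ℝ) 1, ‖x s‖ ≤ B) (hWB : ∀ s ∈ Icc (0 : ℝ) 1, ‖W s‖ ≤ B)
    (h : ∀ b : ℂ, ∫ s in (0 : ℝ)..1, (X s - b) ^ 2 * kap a ((X s - b) * x s) * W s = Δ) (i : ℕ) :
    HasSum (fun l : ℕ => ∫ s in (0 : ℝ)..1, ((-(a : ℂ)) ^ (l + i) * x s ^ (l + i) /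
      ((l + i).factorial : ℂ)) * (X s ^ l / (l.factorial : ℂ)) * W s) 0 := by
  have hB0 : 0 ≤ B := by linarith
  have ha' : (a : ℂ) ≠ 0 := by exact_mod_cast ha.ne'
  have ce1 : ∀ m, ContinuousOn (fun s => e1 a (x s) m) (Icc 0 1) := by
    intro m
    match m with
    | 0 => exact continuousOn_const
    | 1 => exact continuousOn_const
    | k + 2 => exact (continuousOn_const.mul (hx.pow k)).div_const _
  have f1 := family_int (e := fun m s => e1 a (x s) m) (σ := X) (W := W) (C := 1)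
    (K := (a + 1) * B) (B := B) (D := B) (Δ := Δ) zero_le_one (by positivity) hB0 ce1 hX hW
    (fun m s hs => norm_e1 ha hB (hxB s hs) m) hXB hWB (fun t s _ => sum1 hk ha (x s) (X s) t)
    (fun t => by
      have := h (-t)
      rw [← this]
      refine intervalIntegral.integral_congr fun s _ => ?_
      simp only [sub_zero]) (i + 2) (by omega)
  have g1 := f1.mul_left (1 / (-(a : ℂ)))
  rw [mul_zero] at g1
  refine g1.congrY953 fun l => ?_
  rw [← intervalIntegral.integral_const_mul]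
  refine intervalIntegral.integral_congr fun s _ => ?_
  have e : e1 a (x s) (l + (i + 2)) =
    (-(a : ℂ)) ^ (l + i + 1) * x s ^ (l + i) / ((l + i).factorial : ℂ) := rfl
  rw [e]
  have q1 : ((l + i).factorial : ℂ) ≠ 0 := by exact_mod_cast (l + i).factorial_ne_zero
  have q2 : (l.factorial : ℂ) ≠ 0 := by exact_mod_cast l.factorial_ne_zero
  generalize ((l + i).factorial : ℂ) = F1 at *
  generalize (l.factorial : ℂ) = F2 at *
  have q3 : (-(a : ℂ)) ≠ 0 := neg_ne_zero.2 ha'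
  field_simp
  try ring

/-- the bound for the integrals of exponentials -/
theorem exp_bound (hk : S_KAP) {a : ℝ} (ha : 0 < a) {X x W : ℝ → ℂ} {Δ : ℂ}
    (hX : ContinuousOn X (Icc 0 1)) (hx : ContinuousOn x (Icc 0 1))
    (hW : ContinuousOn W (Icc 0 1))
    (h : ∀ b : ℂ, ∫ s in (0 : ℝ)..1, (X s - b) ^ 2 * kap a ((X s - b) * x s) * W s = Δ)
    (α β : ℂ) (hαβ : α * β = -(a : ℂ)) (Y T w ρ : ℝ) (hρ : 1 ≤ ρ) (hY : 0 ≤ Y) (hT : 0 ≤ T)
    (hw : 0 ≤ w)
    (hXY : ∀ s ∈ Icc (0 : ℝ) 1, ‖β * X s‖ ≤ Y)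
    (hxT : ∀ s ∈ Icc (0 : ℝ) 1, ‖α * x s‖ ≤ T) (hWw : ∀ s ∈ Icc (0 : ℝ) 1, ‖W s‖ ≤ w) :
    ‖∫ s in (0 : ℝ)..1, exp (α * x s + β * X s) * W s‖ ≤ w * Real.exp (ρ * Y + T / ρ) := by
  obtain ⟨B1, hB1⟩ := (isCompact_Icc (a := (0 : ℝ)) (b := 1)).exists_bound_of_continuousOn hX
  obtain ⟨B2, hB2⟩ := (isCompact_Icc (a := (0 : ℝ)) (b := 1)).exists_bound_of_continuousOn hx
  obtain ⟨B3, hB3⟩ := (isCompact_Icc (a := (0 : ℝ)) (b := 1)).exists_bound_of_continuousOn hW
  obtain ⟨B, hB, hXB, hxB, hWB⟩ : ∃ B : ℝ, 1 ≤ B ∧ (∀ s ∈ Icc (0 : ℝ) 1, ‖X s‖ ≤ B) ∧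
      (∀ s ∈ Icc (0 : ℝ) 1, ‖x s‖ ≤ B) ∧ ∀ s ∈ Icc (0 : ℝ) 1, ‖W s‖ ≤ B := by
    refine ⟨max 1 (max B1 (max B2 B3)), le_max_left _ _, fun s hs => ?_, fun s hs => ?_,
      fun s hs => ?_⟩
    · exact (hB1 s hs).trans ((le_max_left _ _).trans (le_max_right _ _))
    · exact (hB2 s hs).trans ((le_max_left _ _).trans ((le_max_right _ _).trans
        (le_max_right _ _)))
    · exact (hB3 s hs).trans ((le_max_right _ _).trans ((le_max_right _ _).trans
        (le_max_right _ _)))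
  have ha' : (a : ℂ) ≠ 0 := by exact_mod_cast ha.ne'
  have hρ0 : 0 < ρ := by linarith
  have hstar := star hk ha hB hX hx hW hXB hxB hWB h
  set T' : ℕ × ℕ → ℂ := fun p => ∫ s in (0 : ℝ)..1, ((β * X s) ^ p.1 / (p.1.factorial : ℂ)) *
    ((α * x s) ^ p.2 / (p.2.factorial : ℂ)) * W s with hT'
  -- the terms
  have hTn : ∀ p : ℕ × ℕ, ‖T' p‖ ≤
      w * (Y ^ p.1 / (p.1.factorial : ℝ)) * (T ^ p.2 / (p.2.factorial : ℝ)) := by
    intro p
    have h1 : ∀ s ∈ uIoc (0 : ℝ) 1, ‖((β * X s) ^ p.1 / (p.1.factorial : ℂ)) *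
        ((α * x s) ^ p.2 / (p.2.factorial : ℂ)) * W s‖ ≤
        w * (Y ^ p.1 / (p.1.factorial : ℝ)) * (T ^ p.2 / (p.2.factorial : ℝ)) := by
      intro s hs
      rw [uIoc_of_le zero_le_one] at hs
      have hs' := Ioc_subset_Icc_self hs
      rw [norm_mul, norm_mul, norm_div, norm_div, norm_pow, norm_pow,
        Complex.norm_natCast, Complex.norm_natCast]
      have g1 := hXY s hs'
      have g2 := hxT s hs'
      have g3 := hWw s hs'
      calc ‖β * X s‖ ^ p.1 / (p.1.factorial : ℝ) * (‖α * x s‖ ^ p.2 / (p.2.factorial : ℝ)) * ‖W s‖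
          ≤ Y ^ p.1 / (p.1.factorial : ℝ) * (T ^ p.2 / (p.2.factorial : ℝ)) * w := by
            gcongr
        _ = _ := by ring
    have h2 := intervalIntegral.norm_integral_le_of_norm_le_const h1
    simpa using h2
  have hsumT : HasSum T' (∫ s in (0 : ℝ)..1, exp (α * x s + β * X s) * W s) := by
    refine hasSum_int
      (u := fun p => 1 * 1 ^ (p.1 + p.2) * (Y ^ p.1 / (p.1.factorial : ℝ)) *
        (T ^ p.2 / (p.2.factorial : ℝ)) * w)
      ((summable_prod_exp 1 1 Y T zero_le_one hY hT).mul_right w) ?_ ?_ ?_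
    · intro p
      exact ((((continuousOn_const.mul hX).pow _).div_const _).mul
        (((continuousOn_const.mul hx).pow _).div_const _)).mul hW
    · intro p s hs
      rw [norm_mul, norm_mul, norm_div, norm_div, norm_pow, norm_pow,
        Complex.norm_natCast, Complex.norm_natCast, one_pow, one_mul, one_mul]
      have g1 := hXY s hs
      have g2 := hxT s hs
      have g3 := hWw s hs
      gcongr
    · intro s hs
      have g1 : HasSum (fun m : ℕ => (1 : ℂ) * ((β * X s + α * x s) ^ m / (m.factorial : ℂ)))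
          (exp (α * x s + β * X s)) := by
        rw [add_comm (α * x s), Complex.exp_eq_exp_ℂ]
        refine (NormedSpace.expSeries_div_hasSum_exp (β * X s + α * x s)).congrY953 fun m => ?_
        rw [one_mul]
      have g2 := hasSum_regroup (e := fun _ => (1 : ℂ)) (C := 1) (K := 1) zero_le_one
        (fun m => by simp) g1
      refine (g2.mul_right (W s)).congrY953 fun p => ?_
      rw [one_mul]
  -- the part `p.1 ≤ p.2`
  obtain ⟨Tl, hTl⟩ : ∃ Tl : ℕ × ℕ → ℂ, Tl = fun p => if p.1 ≤ p.2 then T' p else 0 := ⟨_, rfl⟩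
  have hTls : Summable Tl := by
    refine Summable.of_norm_bounded (g := fun p : ℕ × ℕ => 1 * 1 ^ (p.1 + p.2) *
      (Y ^ p.1 / (p.1.factorial : ℝ)) * (T ^ p.2 / (p.2.factorial : ℝ)) * w)
      ((summable_prod_exp 1 1 Y T zero_le_one hY hT).mul_right w) fun p => ?_
    rw [hTl]
    simp only
    split_ifs
    · refine (hTn p).trans (le_of_eq ?_)
      rw [one_pow]
      ring
    · rw [norm_zero]
      positivity
  have hTl0 : HasSum Tl 0 := by
    have hinj : Function.Injective (fun q : ℕ × ℕ => ((q.2, q.2 + q.1) : ℕ × ℕ)) := by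
      rintro ⟨i, l⟩ ⟨i', l'⟩ hq
      simp only [Prod.mk.injEq] at hq
      obtain ⟨h1, h2⟩ := hq
      subst h1
      simp only [Prod.mk.injEq, and_true]
      omega
    have hout : ∀ p ∉ Set.range (fun q : ℕ × ℕ => ((q.2, q.2 + q.1) : ℕ × ℕ)), Tl p = 0 := by
      rintro ⟨l, m⟩ hp
      rw [hTl]
      simp only
      rw [if_neg]
      intro hle
      exact hp ⟨(m - l, l), by simp only [Prod.mk.injEq, true_and]; omega⟩
    have hs1 : Summable (Tl ∘ (fun q : ℕ × ℕ => ((q.2, q.2 + q.1) : ℕ × ℕ))) :=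
      hTls.comp_injective hinj
    have hfib : ∀ i : ℕ, HasSum
        (fun l : ℕ => (Tl ∘ (fun q : ℕ × ℕ => ((q.2, q.2 + q.1) : ℕ × ℕ))) (i, l)) 0 := by
      intro i
      have g1 := (hstar i).mul_left (α ^ i / (-(a : ℂ)) ^ i)
      rw [mul_zero] at g1
      refine g1.congrY953 fun l => ?_
      rw [hTl]
      simp only [Function.comp]
      rw [if_pos (Nat.le_add_right l i), hT']
      simp only
      rw [← intervalIntegral.integral_const_mul]
      refine intervalIntegral.integral_congr fun s _ => ?_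
      have q1 : ((l + i).factorial : ℂ) ≠ 0 := by exact_mod_cast (l + i).factorial_ne_zero
      have q2 : (l.factorial : ℂ) ≠ 0 := by exact_mod_cast l.factorial_ne_zero
      have q3 : (-(a : ℂ)) ^ i ≠ 0 := pow_ne_zero _ (neg_ne_zero.2 ha')
      have q4 : (β * X s) ^ l * (α * x s) ^ (l + i) =
          (-(a : ℂ)) ^ l * α ^ i * (X s ^ l * x s ^ (l + i)) := by
        rw [← hαβ, mul_pow, mul_pow, mul_pow, pow_add α]
        ring
      have q5 : (-(a : ℂ)) ^ (l + i) = (-(a : ℂ)) ^ l * (-(a : ℂ)) ^ i := pow_add _ _ _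
      rw [div_mul_div_comm, q4, q5]
      generalize ((l + i).factorial : ℂ) = F1 at *
      generalize (l.factorial : ℂ) = F2 at *
      generalize (-(a : ℂ)) ^ i = F3 at *
      field_simp
    have h2 := hs1.hasSum.prod_fiberwise hfib
    have h3 : ∑' q, (Tl ∘ (fun q : ℕ × ℕ => ((q.2, q.2 + q.1) : ℕ × ℕ))) q = 0 :=
      h2.unique hasSum_zero
    have h4 := hs1.hasSum
    rw [h3] at h4
    exact (hinj.hasSum_iff hout).1 h4
  -- the part `p.2 < p.1`
  have hd := hsumT.sub hTl0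
  rw [sub_zero] at hd
  have hexp : HasSum (fun p : ℕ × ℕ => w * (((ρ * Y) ^ p.1 / (p.1.factorial : ℝ)) *
      ((T / ρ) ^ p.2 / (p.2.factorial : ℝ)))) (w * Real.exp (ρ * Y + T / ρ)) := by
    have e1 : HasSum (fun n : ℕ => (ρ * Y) ^ n / (n.factorial : ℝ)) (Real.exp (ρ * Y)) := by
      rw [Real.exp_eq_exp_ℝ]
      exact NormedSpace.expSeries_div_hasSum_exp (ρ * Y)
    have e2 : HasSum (fun n : ℕ => (T / ρ) ^ n / (n.factorial : ℝ)) (Real.exp (T / ρ)) := by
      rw [Real.exp_eq_exp_ℝ]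
      exact NormedSpace.expSeries_div_hasSum_exp (T / ρ)
    have e3 := e1.mul e2 (e1.summable.mul_of_nonneg e2.summable (fun n => by positivity)
      (fun n => by positivity))
    rw [← Real.exp_add] at e3
    exact e3.mul_left w
  have hfin := tsum_of_norm_bounded (f := fun p => T' p - Tl p) hexp (fun p => by
    rw [hTl]
    simp only
    split_ifs with hp
    · rw [sub_self, norm_zero]
      positivity
    · rw [sub_zero]
      refine (hTn p).trans ?_
      push Not at hp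
      have h1 : Y ^ p.1 * T ^ p.2 ≤ (ρ * Y) ^ p.1 * (T / ρ) ^ p.2 := by
        have h2 : (ρ * Y) ^ p.1 * (T / ρ) ^ p.2 =
            (Y ^ p.1 * T ^ p.2) * ρ ^ (p.1 - p.2) := by
          obtain ⟨d, hd⟩ : ∃ d, p.1 = p.2 + d := ⟨p.1 - p.2, by omega⟩
          rw [hd, Nat.add_sub_cancel_left, mul_pow, div_pow, pow_add ρ]
          field_simp
        rw [h2]
        exact le_mul_of_one_le_right (by positivity) (one_le_pow₀ hρ)
      calc w * (Y ^ p.1 / (p.1.factorial : ℝ)) * (T ^ p.2 / (p.2.factorial : ℝ))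
          = w * ((Y ^ p.1 * T ^ p.2) / ((p.1.factorial : ℝ) * (p.2.factorial : ℝ))) := by
            rw [mul_assoc, div_mul_div_comm]
        _ ≤ w * (((ρ * Y) ^ p.1 * (T / ρ) ^ p.2) /
            ((p.1.factorial : ℝ) * (p.2.factorial : ℝ))) := by gcongr
        _ = _ := by rw [div_mul_div_comm])
  rw [hd.tsum_eq] at hfin
  exact hfin

end Run7.h367.SF
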