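import Pool.Agent.Run7.h367.RV
import Pool.Agent.Run7.h367.Ser
import Pool.Agent.Run7.h367.Lap

/-!
Singularities of power type with exponent greater than one are impossible.
-/

set_option autoImplicit false

open Complex MeasureTheory Metric Set Filter Topology
open Pool.Agent.Y245.SC

namespace Run7.h367.SF

theorem turn_bound (hk : S_KAP) {a δ : ℝ} (ha : 0 < a) {G : ℂ → ℂ}
    (hG : DifferentiableOn ℂ G (HP δ))
    (hturn : ∀ b : ℂ, ∀ t ∈ HP δ, G (t + 2 * Real.pi * I) - G t =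
      seg (KK a G b t) t (t + 2 * Real.pi * I))
    (t : ℂ) (ht : t ∈ HP δ) (α β : ℂ) (hαβ : α * β = -(a : ℂ)) (Y T ρ : ℝ) (hρ : 1 ≤ ρ)
    (hY : 0 ≤ Y) (hT : 0 ≤ T)
    (hY' : ∀ s ∈ Icc (0 : ℝ) 1, ‖β * G (t + s * (2 * Real.pi * I))‖ ≤ Y)
    (hT' : ∀ s ∈ Icc (0 : ℝ) 1, ‖α * (exp (t + s * (2 * Real.pi * I)) - exp t)‖ ≤ T) :
    ‖seg (fun τ => exp (α * (exp τ - exp t) + β * G τ) * exp τ) t (t + 2 * Real.pi * I)‖ ≤
      2 * Real.pi * Real.exp t.re * Real.exp (ρ * Y + T / ρ) := by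
  have hpt : ∀ s : ℝ, t + s * (2 * Real.pi * I) ∈ HP δ := by
    intro s
    show (t + s * (2 * Real.pi * I)).re < δ
    have : (t + s * (2 * Real.pi * I)).re = t.re := by simp
    rw [this]
    exact ht
  have hpi := Real.pi_pos
  have hGc : Continuous fun s : ℝ => G (t + s * (2 * Real.pi * I)) :=
    hG.continuousOn.comp_continuous (by fun_prop) hpt
  have e0 : t + 2 * Real.pi * I - t = 2 * Real.pi * I := by ring
  have key := exp_bound hk ha (X := fun s : ℝ => G (t + s * (2 * Real.pi * I)))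
    (x := fun s : ℝ => exp (t + s * (2 * Real.pi * I)) - exp t)
    (W := fun s : ℝ => exp (t + s * (2 * Real.pi * I)) * (2 * Real.pi * I))
    (Δ := G (t + 2 * Real.pi * I) - G t) hGc.continuousOn (by fun_prop) (by fun_prop) ?_ α β hαβ
    Y T (2 * Real.pi * Real.exp t.re) ρ hρ hY hT (by positivity) hY' hT' ?_
  · refine le_trans (le_of_eq ?_) key
    congr 1
    unfold seg
    rw [e0]
    refine intervalIntegral.integral_congr fun s _ => ?_
    simp only
    ring
  · intro b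
    rw [hturn b t ht]
    unfold seg
    rw [e0]
    refine intervalIntegral.integral_congr fun s _ => ?_
    simp only [KK]
    ring
  · intro s _
    have h1 : (t + s * (2 * Real.pi * I)).re = t.re := by simp
    rw [norm_mul, Complex.norm_exp, h1, norm_mul, norm_mul, Complex.norm_I, mul_one,
      Complex.norm_real, Real.norm_of_nonneg hpi.le, RCLike.norm_ofNat, mul_comm]

theorem seg_mid (g : ℂ → ℂ) (s : ℂ) :
    seg g (s - Real.pi * I) (s + Real.pi * I) =
      ∫ θ in (-Real.pi)..Real.pi, g (s + θ * I) * I := by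
  have hpi := Real.pi_pos
  have h1 := intervalIntegral.integral_comp_add_mul (a := 0) (b := 1)
    (fun θ : ℝ => g (s + θ * I) * I) (c := 2 * Real.pi) (by positivity) (-Real.pi)
  have e1 : -Real.pi + 2 * Real.pi * 0 = -Real.pi := by ring
  have e2 : -Real.pi + 2 * Real.pi * 1 = Real.pi := by ring
  rw [e1, e2] at h1
  have h2 : ∫ θ in (-Real.pi)..Real.pi, g (s + θ * I) * I = (2 * Real.pi : ℝ) •
      ∫ x in (0 : ℝ)..1, g (s + ((-Real.pi + 2 * Real.pi * x : ℝ) : ℂ) * I) * I := by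
    rw [h1, smul_smul, mul_inv_cancel₀ (by positivity), one_smul]
  rw [h2]
  unfold seg
  rw [← intervalIntegral.integral_smul]
  refine intervalIntegral.integral_congr fun x _ => ?_
  rw [Complex.real_smul]
  have e3 : s - Real.pi * I + x * (s + Real.pi * I - (s - Real.pi * I)) =
      s + ((-Real.pi + 2 * Real.pi * x : ℝ) : ℂ) * I := by
    push_cast
    ring
  rw [e3]
  push_cast
  ring

/-- second order bound at a critical point -/
theorem crit_taylor {f : ℂ → ℂ} {η : ℝ} (hf : DifferentiableOn ℂ f (ball 0 5))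
    (hb : ∀ z ∈ ball (0 : ℂ) 5, ‖f z‖ ≤ η) (h0 : deriv f 0 = 0) (w : ℂ) (hw : ‖w‖ < 7 / 2) :
    ‖f w - f 0‖ ≤ 2 * η * ‖w‖ ^ 2 := by
  have hη : 0 ≤ η := (norm_nonneg _).trans (hb 0 (mem_ball_self (by norm_num)))
  have hd1 : DifferentiableOn ℂ (deriv f) (ball 0 5) := hf.deriv isOpen_ball
  have h1 : ∀ z ∈ ball (0 : ℂ) 4, ‖deriv f z‖ ≤ η := by
    intro z hz
    rw [mem_ball_zero_iff] at hz
    have hs : closedBall z 1 ⊆ ball (0 : ℂ) 5 := by
      intro v hv
      rw [mem_closedBall_iff_norm] at hv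
      rw [mem_ball_zero_iff]
      have := norm_add_le (v - z) z
      rw [sub_add_cancel] at this
      linarith
    have h2 := Complex.norm_deriv_le_of_forall_mem_sphere_norm_le (C := η) one_pos
      ((hf.mono (closure_ball_subset_closedBall.trans hs)).diffContOnCl)
      (fun v hv => hb v (hs (sphere_subset_closedBall hv)))
    rwa [div_one] at h2
  have h2 : ∀ z ∈ ball (0 : ℂ) (7 / 2), ‖deriv (deriv f) z‖ ≤ 2 * η := by
    intro z hz
    rw [mem_ball_zero_iff] at hz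
    have hs : closedBall z (1 / 2) ⊆ ball (0 : ℂ) 4 := by
      intro v hv
      rw [mem_closedBall_iff_norm] at hv
      rw [mem_ball_zero_iff]
      have := norm_add_le (v - z) z
      rw [sub_add_cancel] at this
      linarith
    have h3 := Complex.norm_deriv_le_of_forall_mem_sphere_norm_le (C := η)
      (by norm_num : (0 : ℝ) < 1 / 2)
      ((hd1.mono (closure_ball_subset_closedBall.trans
        (hs.trans (ball_subset_ball (by norm_num))))).diffContOnCl)
      (fun v hv => h1 v (hs (sphere_subset_closedBall hv)))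
    linarith
  have h3 : ∀ z ∈ ball (0 : ℂ) (7 / 2), ‖deriv f z‖ ≤ 2 * η * ‖z‖ := by
    intro z hz
    have h4 := (convex_ball (0 : ℂ) (7 / 2)).norm_image_sub_le_of_norm_deriv_le
      (f := deriv f) (C := 2 * η)
      (fun v hv => hd1.differentiableAt (isOpen_ball.mem_nhds
        (ball_subset_ball (by norm_num) hv))) h2 (mem_ball_self (by norm_num)) hz
    rwa [h0, sub_zero, sub_zero] at h4
  have hsub : closedBall (0 : ℂ) ‖w‖ ⊆ ball 0 (7 / 2) := closedBall_subset_ball hw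
  have h5 := (convex_closedBall (0 : ℂ) ‖w‖).norm_image_sub_le_of_norm_deriv_le
    (f := f) (C := 2 * η * ‖w‖) (x := 0) (y := w)
    (fun v hv => hf.differentiableAt (isOpen_ball.mem_nhds
      (ball_subset_ball (by norm_num) (hsub hv))))
    (fun v hv => (h3 v (hsub hv)).trans (mul_le_mul_of_nonneg_left
      (mem_closedBall_zero_iff.1 hv) (by positivity)))
    (mem_closedBall_self (norm_nonneg _)) (mem_closedBall_zero_iff.2 le_rfl)
  rw [sub_zero] at h5
  exact h5.trans (le_of_eq (by ring))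

theorem exp_cube (t : ℝ) (ht : |t| ≤ 1) :
    ‖exp (t * I) - (1 + t * I + (t * I) ^ 2 / 2)‖ ≤ |t| ^ 3 := by
  have h := Complex.exp_bound (x := t * I) (by simpa using ht) (n := 3) (by norm_num)
  simp only [Finset.sum_range_succ, Finset.sum_range_zero, pow_zero, Nat.factorial, pow_one,
    Nat.cast_one, div_one, zero_add, Nat.succ_eq_add_one] at h
  have h7 : ‖(t : ℂ) * I‖ = |t| := by simp
  rw [h7] at h
  norm_num at h
  have h8 : (0 : ℝ) ≤ |t| ^ 3 := by positivity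
  calc _ ≤ _ := h
    _ ≤ |t| ^ 3 := by nlinarith

/-- the model phase -/
noncomputable def mph (κ θ : ℝ) : ℂ :=
  (exp (θ * I) - 1) + (exp (((-(κ * θ) : ℝ)) * I) - 1) / κ

theorem mph_taylor {κ : ℝ} (hκ : 1 < κ) (θ : ℝ) (hθ : κ * |θ| ≤ 1) :
    ‖mph κ θ + (((1 + κ) * θ ^ 2 / 2 : ℝ) : ℂ)‖ ≤ 2 * κ ^ 2 * |θ| ^ 3 := by
  have hκ0 : 0 < κ := by linarith
  have hκc : (κ : ℂ) ≠ 0 := by exact_mod_cast hκ0.ne'
  have e : mph κ θ + (((1 + κ) * θ ^ 2 / 2 : ℝ) : ℂ) =
      (exp (θ * I) - (1 + θ * I + (θ * I) ^ 2 / 2)) +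
      (exp (((-(κ * θ) : ℝ)) * I) - (1 + ((-(κ * θ) : ℝ)) * I + (((-(κ * θ) : ℝ)) * I) ^ 2 / 2))
        / κ := by
    unfold mph; push_cast
    have hI : I ^ 2 = -1 := Complex.I_sq
    field_simp
    ring_nf
    rw [hI]; ring
  rw [e]
  refine (norm_add_le _ _).trans ?_
  have ha : |(-(κ * θ) : ℝ)| = κ * |θ| := by rw [abs_neg, abs_mul, abs_of_pos hκ0]
  have h1 := exp_cube θ (by nlinarith [abs_nonneg θ])
  have h2 := exp_cube (-(κ * θ)) (by rw [ha]; exact hθ)
  rw [ha] at h2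
  rw [norm_div, Complex.norm_real, Real.norm_of_nonneg hκ0.le]
  have h3 : ‖exp (((-(κ * θ) : ℝ)) * I) - (1 + ((-(κ * θ) : ℝ)) * I +
      (((-(κ * θ) : ℝ)) * I) ^ 2 / 2)‖ / κ ≤ κ ^ 2 * |θ| ^ 3 := by
    rw [div_le_iff₀ hκ0]
    refine h2.trans (le_of_eq ?_)
    ring
  have h4 : |θ| ^ 3 ≤ κ ^ 2 * |θ| ^ 3 := by
    have : (1 : ℝ) ≤ κ ^ 2 := by nlinarith
    nlinarith [pow_nonneg (abs_nonneg θ) 3]
  linarith

theorem mph_re {κ : ℝ} (hκ : 1 < κ) (θ : ℝ) (hθ : |θ| ≤ Real.pi) :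
    (mph κ θ).re ≤ -(2 / Real.pi ^ 2) * θ ^ 2 := by
  have hκ0 : 0 < κ := by linarith
  have e : (mph κ θ).re = (Real.cos θ - 1) + (Real.cos (-(κ * θ)) - 1) / κ := by
    unfold mph
    rw [Complex.add_re, Complex.sub_re, Complex.exp_ofReal_mul_I_re, Complex.one_re,
      Complex.div_ofReal_re, Complex.sub_re, Complex.exp_ofReal_mul_I_re, Complex.one_re]
  rw [e]
  have h1 := Real.cos_le_one_sub_mul_cos_sq hθ
  have h2 : (Real.cos (-(κ * θ)) - 1) / κ ≤ 0 :=
    div_nonpos_of_nonpos_of_nonneg (by linarith [Real.cos_le_one (-(κ * θ))]) hκ0.le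
  linarith

end Run7.h367.SF
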