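import Pool.Agent.Run7.h367.Pow

/-!
Singularities of power type with exponent greater than one are impossible: the estimate at one
saddle and the conclusion.
-/

set_option autoImplicit false

open Complex MeasureTheory Metric Set Filter Topology
open Pool.Agent.Y245.SC

namespace Run7.h367.SF

theorem seg_norm (g : ℂ → ℂ) (p q : ℂ) (C : ℝ)
    (h : ∀ σ ∈ Icc (0 : ℝ) 1, ‖g (p + σ * (q - p))‖ ≤ C) : ‖seg g p q‖ ≤ C * ‖q - p‖ := by
  unfold seg
  have h1 : ∀ σ ∈ uIoc (0 : ℝ) 1, ‖g (p + σ * (q - p)) * (q - p)‖ ≤ C * ‖q - p‖ := by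
    intro σ hσ
    rw [uIoc_of_le zero_le_one] at hσ
    rw [norm_mul]
    exact mul_le_mul_of_nonneg_right (h σ (Ioc_subset_Icc_self hσ)) (norm_nonneg _)
  have h2 := intervalIntegral.norm_integral_le_of_norm_le_const h1
  simpa using h2

theorem log4_bd : 0 < Real.log 4 ∧ Real.log 4 ≤ 1.4 := by
  have e : Real.log 4 = 2 * Real.log 2 := by
    rw [show (4 : ℝ) = 2 ^ 2 by norm_num, Real.log_pow]
    norm_num
  have h1 := Real.log_two_lt_d9
  have h2 := Real.log_two_gt_d9
  rw [e]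
  constructor <;> linarith

theorem norm_xy {x y : ℝ} (hx0 : 0 ≤ x) (hx : x ≤ Real.log 4) (hy : |y| ≤ Real.pi) :
    ‖(x : ℂ) + y * I‖ ≤ 5 := by
  refine (norm_add_le _ _).trans ?_
  rw [norm_mul, Complex.norm_I, mul_one, Complex.norm_real, Complex.norm_real, Real.norm_eq_abs,
    Real.norm_eq_abs, abs_of_nonneg hx0]
  have h1 := log4_bd.2
  have h2 := Real.pi_lt_d2
  linarith

/-- the estimate at one saddle -/
theorem one_step (hk : S_KAP) (hSeg : S_SEG) {a δ κ : ℝ} (ha : 0 < a) (hκ : 1 < κ) {G : ℂ → ℂ}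
    (hG : DifferentiableOn ℂ G (HP δ))
    (hturn : ∀ b : ℂ, ∀ t ∈ HP δ, G (t + 2 * Real.pi * I) - G t =
      seg (KK a G b t) t (t + 2 * Real.pi * I))
    (s : ℂ) (A η : ℝ) (hA : 0 < A) (hη : 0 ≤ η) (hd : deriv G s ≠ 0)
    (hsad : (a : ℂ) * (deriv G s * exp s) = (A : ℂ) ^ 2)
    (hmem : ∀ w : ℂ, ‖w‖ ≤ 5 → s + w ∈ HP δ)
    (hr : ∀ w : ℂ, ‖w‖ ≤ 5 → ‖G (s + w) / deriv G s + exp (-(κ * w)) / κ‖ ≤ η) :
    Real.exp (A * (5 + 1 / κ - η)) * ‖∫ θ in (-Real.pi)..Real.pi,
      exp (A * ((exp (θ * I) - G (s + θ * I) / deriv G s) - (1 - G s / deriv G s))) *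
        exp (θ * I)‖ ≤
      (8 * Real.pi + 8 * Real.log 4) * Real.exp (A * (3 + 1 / κ + 4 * η)) := by
  have hκ0 : 0 < κ := by linarith
  have hκc : (κ : ℂ) ≠ 0 := by exact_mod_cast hκ0.ne'
  have hpi := Real.pi_pos
  obtain ⟨hl0, hl1⟩ := log4_bd
  have hes : exp s ≠ 0 := Complex.exp_ne_zero s
  have hAc : (A : ℂ) ≠ 0 := by exact_mod_cast hA.ne'
  obtain ⟨α, hα⟩ : ∃ α : ℂ, α = A / exp s := ⟨_, rfl⟩
  obtain ⟨β, hβ⟩ : ∃ β : ℂ, β = -A / deriv G s := ⟨_, rfl⟩
  have hαβ : α * β = -(a : ℂ) := by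
    rw [hα, hβ]
    field_simp
    linear_combination hsad
  obtain ⟨t, ht⟩ : ∃ t : ℂ, t = s + ((Real.log 4 : ℝ) + ((-Real.pi : ℝ) : ℂ) * I) := ⟨_, rfl⟩
  have hwt : ‖((Real.log 4 : ℝ) : ℂ) + ((-Real.pi : ℝ) : ℂ) * I‖ ≤ 5 :=
    norm_xy hl0.le le_rfl (by rw [abs_neg, abs_of_pos hpi])
  have htm : t ∈ HP δ := by rw [ht]; exact hmem _ hwt
  have hexpxy : ∀ x y : ℝ, exp ((x : ℂ) + y * I) = (Real.exp x : ℂ) * exp (y * I) := by
    intro x y
    rw [Complex.exp_add, Complex.ofReal_exp]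
  have hepi : exp (((-Real.pi : ℝ) : ℂ) * I) = -1 := by
    rw [Complex.ofReal_neg, neg_mul, Complex.exp_neg, Complex.exp_pi_mul_I]
    norm_num
  have hexp4 : Real.exp (Real.log 4) = 4 := Real.exp_log (by norm_num)
  have het : exp t = -4 * exp s := by
    rw [ht, Complex.exp_add, hexpxy, hepi, hexp4]
    push_cast
    ring
  have htre : Real.exp t.re = 4 * Real.exp s.re := by
    have : t.re = s.re + Real.log 4 := by
      rw [ht, Complex.add_re, Complex.add_re, Complex.ofReal_re, Complex.re_ofReal_mul,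
        Complex.I_re, mul_zero, add_zero]
    rw [this, Real.exp_add, hexp4]
    ring
  obtain ⟨E, hE⟩ : ∃ E : ℂ → ℂ, E = fun τ => exp (α * (exp τ - exp t) + β * G τ) * exp τ :=
    ⟨_, rfl⟩
  have hEd : DifferentiableOn ℂ E (HP δ) := by
    rw [hE]
    have h1 : DifferentiableOn ℂ (fun τ => exp τ) (HP δ) := by fun_prop
    exact ((((h1.sub_const _).const_mul α).add (hG.const_mul β)).cexp).mul h1
  -- the exponent in terms of `w`
  have hα1 : ∀ w : ℂ, α * (exp (s + w) - exp t) = A * (exp w + 4) := by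
    intro w
    rw [het, hα, Complex.exp_add]
    field_simp
    ring
  have hβ1 : ∀ w : ℂ, β * G (s + w) = A * (exp (-(κ * w)) / κ -
      (G (s + w) / deriv G s + exp (-(κ * w)) / κ)) := by
    intro w
    rw [hβ]
    field_simp
    ring
  have hβn : ∀ x y : ℝ, 0 ≤ x → x ≤ Real.log 4 → |y| ≤ Real.pi →
      ‖β * G (s + ((x : ℂ) + y * I))‖ ≤ A * (Real.exp (-(κ * x)) / κ + η) := by
    intro x y hx0 hx1 hy
    rw [hβ1, norm_mul, Complex.norm_real, Real.norm_of_nonneg hA.le]
    refine mul_le_mul_of_nonneg_left ((norm_sub_le _ _).trans ?_) hA.le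
    refine add_le_add (le_of_eq ?_) (hr _ (norm_xy hx0 hx1 hy))
    rw [norm_div, Complex.norm_exp, Complex.norm_real, Real.norm_of_nonneg hκ0.le]
    congr 2
    simp
  have hεκ : ∀ x : ℝ, 0 ≤ x → Real.exp (-(κ * x)) / κ ≤ 1 / κ := by
    intro x hx
    refine div_le_div_of_nonneg_right ?_ hκ0.le
    rw [Real.exp_le_one_iff]
    nlinarith
  -- the horizontal parts
  have hhor : ∀ (x y : ℝ), 0 ≤ x → x ≤ Real.log 4 → |y| = Real.pi →
      exp ((y : ℂ) * I) = -1 →
      ‖E (s + ((x : ℂ) + y * I))‖ ≤ 4 * Real.exp s.re * Real.exp (A * (3 + 1 / κ + 4 * η)) := by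
    intro x y hx0 hx1 hy hey
    rw [hE]
    simp only
    rw [norm_mul, Complex.norm_exp, Complex.norm_exp, Complex.add_re, hα1]
    have h1 : (β * G (s + ((x : ℂ) + y * I))).re ≤ A * (1 / κ + η) := by
      refine (Complex.re_le_norm _).trans ((hβn x y hx0 hx1 hy.le).trans ?_)
      exact mul_le_mul_of_nonneg_left (add_le_add (hεκ x hx0) le_rfl) hA.le
    have h2 : ((A : ℂ) * (exp ((x : ℂ) + y * I) + 4)).re ≤ A * 3 := by
      rw [hexpxy, hey]
      have e1 : (A : ℂ) * ((Real.exp x : ℂ) * -1 + 4) = ((A * (4 - Real.exp x) : ℝ) : ℂ) := by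
        push_cast
        ring
      rw [e1, Complex.ofReal_re]
      have := Real.one_le_exp hx0
      exact mul_le_mul_of_nonneg_left (by linarith) hA.le
    have h3 : (s + ((x : ℂ) + y * I)).re = s.re + x := by simp
    rw [h3]
    have h4 : Real.exp x ≤ 4 := by
      rw [← hexp4]
      exact Real.exp_le_exp.2 hx1
    have h5 : Real.exp (((A : ℂ) * (exp ((x : ℂ) + y * I) + 4)).re +
        (β * G (s + ((x : ℂ) + y * I))).re) ≤ Real.exp (A * (3 + 1 / κ + 4 * η)) := by
      apply Real.exp_le_exp.2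
      nlinarith [mul_nonneg hA.le hη]
    rw [Real.exp_add s.re x]
    have h6 := Real.exp_pos s.re
    calc _ ≤ Real.exp (A * (3 + 1 / κ + 4 * η)) * (Real.exp s.re * 4) :=
          mul_le_mul h5 (mul_le_mul_of_nonneg_left h4 h6.le) (by positivity) (Real.exp_pos _).le
      _ = _ := by ring
  obtain ⟨p1, hp1⟩ : ∃ p1 : ℂ, p1 = s - Real.pi * I := ⟨_, rfl⟩
  obtain ⟨p2, hp2⟩ : ∃ p2 : ℂ, p2 = s + Real.pi * I := ⟨_, rfl⟩
  obtain ⟨q, hq⟩ : ∃ q : ℂ, q = t + 2 * Real.pi * I := ⟨_, rfl⟩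
  have hp1m : p1 ∈ HP δ := by
    have := hmem (((0 : ℝ) : ℂ) + ((-Real.pi : ℝ) : ℂ) * I) (norm_xy le_rfl hl0.le
      (by rw [abs_neg, abs_of_pos hpi]))
    convert this using 1
    rw [hp1]
    push_cast
    ring
  have hp2m : p2 ∈ HP δ := by
    have := hmem (((0 : ℝ) : ℂ) + ((Real.pi : ℝ) : ℂ) * I) (norm_xy le_rfl hl0.le
      (by rw [abs_of_pos hpi]))
    convert this using 1
    rw [hp2]
    push_cast
    ring
  have hqm : q ∈ HP δ := by
    have := hmem (((Real.log 4 : ℝ) : ℂ) + ((Real.pi : ℝ) : ℂ) * I) (norm_xy hl0.le le_rfl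
      (by rw [abs_of_pos hpi]))
    convert this using 1
    rw [hq, ht]
    push_cast
    ring
  obtain ⟨hadd, -⟩ := hSeg (HP δ) E (hp_open δ) (hp_convex δ) hEd
  have hsplit : seg E p1 p2 = seg E t q - seg E t p1 - seg E p2 q := by
    have h1 := hadd t htm p1 hp1m q hqm
    have h2 := hadd p1 hp1m p2 hp2m q hqm
    linear_combination h2 + h1
  have hn1 : ‖seg E t p1‖ ≤ 4 * Real.exp s.re * Real.exp (A * (3 + 1 / κ + 4 * η)) *
      Real.log 4 := by
    have h1 : p1 - t = ((-Real.log 4 : ℝ) : ℂ) := by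
      rw [hp1, ht]
      push_cast
      ring
    have h2 := seg_norm E t p1 (4 * Real.exp s.re * Real.exp (A * (3 + 1 / κ + 4 * η))) (by
      intro σ hσ
      have h3 := hhor ((1 - σ) * Real.log 4) (-Real.pi)
        (mul_nonneg (by linarith [hσ.2]) hl0.le) (by nlinarith [hσ.1])
        (by rw [abs_neg, abs_of_pos hpi]) hepi
      convert h3 using 3
      rw [h1, ht]
      push_cast
      ring)
    rw [h1, Complex.norm_real, Real.norm_eq_abs, abs_neg, abs_of_pos hl0] at h2
    exact h2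
  have hn2 : ‖seg E p2 q‖ ≤ 4 * Real.exp s.re * Real.exp (A * (3 + 1 / κ + 4 * η)) *
      Real.log 4 := by
    have h1 : q - p2 = ((Real.log 4 : ℝ) : ℂ) := by
      rw [hp2, hq, ht]
      push_cast
      ring
    have h2 := seg_norm E p2 q (4 * Real.exp s.re * Real.exp (A * (3 + 1 / κ + 4 * η))) (by
      intro σ hσ
      have h3 := hhor (σ * Real.log 4) Real.pi
        (mul_nonneg hσ.1 hl0.le) (by nlinarith [hσ.2])
        (abs_of_pos hpi) Complex.exp_pi_mul_I
      convert h3 using 3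
      rw [h1, hp2]
      push_cast
      ring)
    rw [h1, Complex.norm_real, Real.norm_eq_abs, abs_of_pos hl0] at h2
    exact h2
  -- the full turn
  have hn3 : ‖seg E t q‖ ≤ 2 * Real.pi * (4 * Real.exp s.re) * Real.exp (A * (3 + 4 * η)) := by
    have hw : ∀ σ ∈ Icc (0 : ℝ) 1, |-Real.pi + 2 * Real.pi * σ| ≤ Real.pi := by
      intro σ hσ
      rw [abs_le]
      constructor <;> nlinarith [hσ.1, hσ.2]
    have hpt : ∀ σ : ℝ, t + σ * (2 * Real.pi * I) = s + (((Real.log 4 : ℝ) : ℂ) +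
        ((-Real.pi + 2 * Real.pi * σ : ℝ) : ℂ) * I) := by
      intro σ
      rw [ht]
      push_cast
      ring
    have h1 := turn_bound hk ha hG hturn t htm α β hαβ (A * (1 / 4 + η)) (A * 8) 4 (by norm_num)
      (by positivity) (by positivity) (by
        intro σ hσ
        rw [hpt]
        refine (hβn _ _ hl0.le le_rfl (hw σ hσ)).trans ?_
        refine mul_le_mul_of_nonneg_left (add_le_add ?_ le_rfl) hA.le
        have e1 : Real.exp (-(κ * Real.log 4)) ≤ 1 / 4 := by
          have e2 : Real.exp (-Real.log 4) = 1 / 4 := by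
            rw [Real.exp_neg, hexp4]
            norm_num
          rw [← e2]
          apply Real.exp_le_exp.2
          nlinarith
        calc Real.exp (-(κ * Real.log 4)) / κ ≤ (1 / 4) / 1 := by gcongr
          _ = 1 / 4 := by norm_num) (by
        intro σ hσ
        rw [hpt, hα1, norm_mul, Complex.norm_real, Real.norm_of_nonneg hA.le]
        refine mul_le_mul_of_nonneg_left ((norm_add_le _ _).trans ?_) hA.le
        rw [hexpxy, norm_mul, Complex.norm_exp_ofReal_mul_I, hexp4]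
        norm_num)
    rw [← hE, ← hq, htre] at h1
    refine h1.trans (le_of_eq ?_)
    congr 2
    ring
  -- the middle part
  have hmid : seg E p1 p2 = (exp (A * (4 + (1 - G s / deriv G s))) * exp s * I) *
      ∫ θ in (-Real.pi)..Real.pi,
      exp (A * ((exp (θ * I) - G (s + θ * I) / deriv G s) - (1 - G s / deriv G s))) *
        exp (θ * I) := by
    rw [hp1, hp2, seg_mid, ← intervalIntegral.integral_const_mul]
    refine intervalIntegral.integral_congr fun θ _ => ?_
    have e1 : E (s + θ * I) = exp (A * (4 + (1 - G s / deriv G s))) *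
        exp (A * ((exp (θ * I) - G (s + θ * I) / deriv G s) - (1 - G s / deriv G s))) *
        (exp s * exp (θ * I)) := by
      rw [hE]
      simp only
      rw [hα1, ← Complex.exp_add (A * (4 + (1 - G s / deriv G s))), Complex.exp_add s]
      congr 2
      rw [hβ]
      field_simp
      ring
    rw [e1]
    ring
  have hre : 1 + 1 / κ - η ≤ (1 - G s / deriv G s).re := by
    have h1 := hr 0 (by rw [norm_zero]; norm_num)
    rw [add_zero, mul_zero, neg_zero, Complex.exp_zero] at h1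
    have h2 := (Complex.re_le_norm _).trans h1
    rw [Complex.add_re] at h2
    have h3 : ((1 : ℂ) / κ).re = 1 / κ := by
      rw [← Complex.ofReal_one, ← Complex.ofReal_div, Complex.ofReal_re]
    rw [h3] at h2
    rw [Complex.sub_re, Complex.one_re]
    linarith
  have hmn : Real.exp (A * (5 + 1 / κ - η)) * Real.exp s.re * ‖∫ θ in (-Real.pi)..Real.pi,
      exp (A * ((exp (θ * I) - G (s + θ * I) / deriv G s) - (1 - G s / deriv G s))) *
        exp (θ * I)‖ ≤ ‖seg E p1 p2‖ := by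
    rw [hmid, norm_mul, norm_mul, norm_mul, Complex.norm_I, mul_one, Complex.norm_exp,
      Complex.norm_exp]
    refine mul_le_mul_of_nonneg_right (mul_le_mul_of_nonneg_right ?_ (Real.exp_pos _).le)
      (norm_nonneg _)
    apply Real.exp_le_exp.2
    rw [Complex.re_ofReal_mul]
    apply mul_le_mul_of_nonneg_left _ hA.le
    rw [Complex.add_re]
    have : (4 : ℂ).re = 4 := by simp
    rw [this]
    linarith
  have htot : ‖seg E p1 p2‖ ≤ ‖seg E t q‖ + ‖seg E t p1‖ + ‖seg E p2 q‖ := by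
    rw [hsplit]
    exact (norm_sub_le _ _).trans (add_le_add (norm_sub_le _ _) le_rfl)
  have hle : Real.exp (A * (3 + 4 * η)) ≤ Real.exp (A * (3 + 1 / κ + 4 * η)) := by
    apply Real.exp_le_exp.2
    apply mul_le_mul_of_nonneg_left _ hA.le
    have : 0 < 1 / κ := by positivity
    linarith
  have hesp := Real.exp_pos s.re
  have hfin := hmn.trans (htot.trans (add_le_add (add_le_add hn3 hn1) hn2))
  obtain ⟨J, hJ⟩ : ∃ J : ℝ, J = ‖∫ θ in (-Real.pi)..Real.pi,
      exp (A * ((exp (θ * I) - G (s + θ * I) / deriv G s) - (1 - G s / deriv G s))) *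
        exp (θ * I)‖ := ⟨_, rfl⟩
  rw [← hJ] at hfin ⊢
  have h9 : Real.exp s.re * (Real.exp (A * (5 + 1 / κ - η)) * J) ≤
      Real.exp s.re * ((8 * Real.pi + 8 * Real.log 4) * Real.exp (A * (3 + 1 / κ + 4 * η))) := by
    have h10 := mul_le_mul_of_nonneg_left hle (by positivity :
      0 ≤ 2 * Real.pi * (4 * Real.exp s.re))
    nlinarith
  exact le_of_mul_le_mul_left h9 hesp

theorem no_pow (hk : S_KAP) (hSeg : S_SEG) {a δ κ : ℝ} (ha : 0 < a) (hκ : 1 < κ) {G : ℂ → ℂ}
    (hG : DifferentiableOn ℂ G (HP δ)) (hrv : RegVar G κ)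
    (hturn : ∀ b : ℂ, ∀ t ∈ HP δ, G (t + 2 * Real.pi * I) - G t =
      seg (KK a G b t) t (t + 2 * Real.pi * I)) : False := by
  obtain ⟨s, A, K, hK, hA0, hA, hs, hsi, hsad⟩ := seq_exists ha hκ hG hrv
  have hκ0 : 0 < κ := by linarith
  have hκc : (κ : ℂ) ≠ 0 := by exact_mod_cast hκ0.ne'
  have hpi := Real.pi_pos
  obtain ⟨r, hr⟩ : ∃ r : ℕ → ℂ → ℂ, r = fun n w =>
    G (s n + w) / deriv G (s n) + exp (-(κ * w)) / κ := ⟨_, rfl⟩
  have hrb : ∀ η : ℝ, 0 < η → ∀ᶠ n in atTop, deriv G (s n) ≠ 0 ∧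
      (∀ w : ℂ, ‖w‖ ≤ 5 → s n + w ∈ HP δ) ∧ ∀ w : ℂ, ‖w‖ ≤ 5 → ‖r n w‖ ≤ η := by
    intro η hη
    obtain ⟨T, hTd, hT⟩ := rv_quant hκ0 hG hrv (K + 5) η (by linarith) hη
    filter_upwards [hs.eventually_le_atBot T] with n hn
    refine ⟨(hT (s n) 0 hn ((hsi n).trans (by linarith)) (by rw [norm_zero]; linarith)).1,
      fun w hw => hp_add (K := K + 5) (by linarith) (hw.trans (by linarith)), fun w hw => ?_⟩
    rw [hr]
    exact (hT (s n) w hn ((hsi n).trans (by linarith)) (hw.trans (by linarith))).2.2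
  have htay : ∀ η : ℝ, 0 < η → ∀ᶠ n in atTop, ∀ w : ℂ, ‖w‖ < 7 / 2 →
      ‖r n w - r n 0‖ ≤ 2 * η * ‖w‖ ^ 2 := by
    intro η hη
    filter_upwards [hrb η hη] with n hn w hw
    obtain ⟨h1, h2, h3⟩ := hn
    have hder : ∀ w : ℂ, ‖w‖ < 5 → HasDerivAt (r n)
        (deriv G (s n + w) / deriv G (s n) + exp (-(κ * w)) * -(κ * 1) / κ) w := by
      intro w hw
      have h4 : HasDerivAt G (deriv G (s n + w)) (s n + w) :=
        (hG.differentiableAt ((hp_open δ).mem_nhds (h2 w hw.le))).hasDerivAt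
      have h5 : HasDerivAt (fun v => G (s n + v)) (deriv G (s n + w)) w :=
        h4.comp_const_add (s n) w
      have h6 : HasDerivAt (fun v : ℂ => exp (-(κ * v))) (exp (-(κ * w)) * -(κ * 1)) w :=
        (((hasDerivAt_id w).const_mul (κ : ℂ)).neg).cexp
      rw [hr]
      exact (h5.div_const _).add (h6.div_const _)
    refine crit_taylor ?_ ?_ ?_ w hw
    · intro z hz
      exact (hder z (mem_ball_zero_iff.1 hz)).differentiableAt.differentiableWithinAt
    · intro z hz
      exact h3 z (mem_ball_zero_iff.1 hz).le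
    · rw [(hder 0 (by rw [norm_zero]; norm_num)).deriv, add_zero, div_self h1, mul_zero, neg_zero,
        Complex.exp_zero]
      field_simp
      ring
  obtain ⟨h, hh⟩ : ∃ h : ℕ → ℝ → ℂ, h = fun n (θ : ℝ) => exp (θ * I) -
    G (s n + θ * I) / deriv G (s n) := ⟨_, rfl⟩
  have hh0 : ∀ n, h n 0 = 1 - G (s n) / deriv G (s n) := by
    intro n
    rw [hh]
    simp
  have hdiff : ∀ n (θ : ℝ), h n θ - h n 0 = mph κ θ - (r n (θ * I) - r n 0) := by
    intro n θ
    rw [hh0, hh, hr]
    simp only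
    unfold mph
    have e1 : exp (-(κ * (θ * I))) = exp (((-(κ * θ) : ℝ)) * I) := by
      congr 1
      push_cast
      ring
    rw [e1, mul_zero, neg_zero, Complex.exp_zero, add_zero]
    ring
  have hsA : Tendsto (fun n => √(A n)) atTop atTop := (Real.tendsto_sqrt_atTop).comp hA
  have hsAp : ∀ n, 0 < √(A n) := fun n => Real.sqrt_pos.2 (hA0 n)
  have hθ0 : ∀ u : ℝ, Tendsto (fun n => u / √(A n)) atTop (𝓝 0) := fun u =>
    hsA.const_div_atTop u
  have hsq : ∀ n, √(A n) ^ 2 = A n := fun n => Real.sq_sqrt (hA0 n).le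
  obtain ⟨c0, hc0, hlow⟩ := lapq A h (fun _ θ => exp (θ * I)) (1 / 10) 1 (1 + κ) 1 (by norm_num)
    (by linarith) one_ne_zero hA (by
      filter_upwards [hrb 1 one_pos] with n hn
      rw [hh]
      refine ContinuousOn.sub (by fun_prop) (ContinuousOn.div_const ?_ _)
      refine hG.continuousOn.comp (f := fun θ : ℝ => s n + θ * I) (by fun_prop) ?_
      intro θ hθ
      have := norm_xy (x := 0) (y := θ) le_rfl log4_bd.1.le (abs_le.2 hθ)
      rw [Complex.ofReal_zero, zero_add] at this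
      exact hn.2.1 _ this)
    (Eventually.of_forall fun n => by fun_prop) (by
      filter_upwards [htay (1 / 100) (by norm_num)] with n hn θ hθ
      have hθ' : |θ| ≤ Real.pi := abs_le.2 hθ
      rw [hdiff, Complex.re_ofReal_mul]
      have h1 := mph_re hκ θ hθ'
      have h2 : ‖(θ : ℂ) * I‖ = |θ| := by simp
      have h3 := hn (θ * I) (by rw [h2]; have := Real.pi_lt_d2; linarith)
      rw [h2, sq_abs] at h3
      have h4 := (abs_le.1 ((Complex.abs_re_le_norm _).trans h3)).1
      have h5 : (1 / 5 : ℝ) ≤ 2 / Real.pi ^ 2 := by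
        rw [div_le_div_iff₀ (by norm_num) (by positivity)]
        have := Real.pi_lt_d2
        nlinarith [Real.pi_pos]
      have h6 := mul_le_mul_of_nonneg_right h5 (sq_nonneg θ)
      rw [Complex.sub_re]
      have h7 : (mph κ θ).re - (r n (θ * I) - r n 0).re ≤ -(1 / 10) * θ ^ 2 := by
        nlinarith [sq_nonneg θ]
      calc A n * ((mph κ θ).re - (r n (θ * I) - r n 0).re) ≤ A n * (-(1 / 10) * θ ^ 2) :=
            mul_le_mul_of_nonneg_left h7 (hA0 n).le
        _ = _ := by ring)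
    (Eventually.of_forall fun n θ _ => by rw [Complex.norm_exp_ofReal_mul_I]) (by
      intro u
      have hT1 : Tendsto (fun n => (A n : ℂ) * mph κ (u / √(A n))) atTop
          (𝓝 (((-((1 + κ) * u ^ 2 / 2) : ℝ)) : ℂ)) := by
        rw [tendsto_iff_norm_sub_tendsto_zero]
        have h1 : Tendsto (fun n => 2 * κ ^ 2 * |u| ^ 3 / √(A n)) atTop (𝓝 0) :=
          hsA.const_div_atTop _
        refine squeeze_zero' (Eventually.of_forall fun n => norm_nonneg _) ?_ h1
        have h2 : ∀ᶠ n in atTop, κ * |u / √(A n)| ≤ 1 := by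
          have h3 : Tendsto (fun n => κ * |u / √(A n)|) atTop (𝓝 (κ * |(0 : ℝ)|)) :=
            ((hθ0 u).abs).const_mul κ
          rw [abs_zero, mul_zero] at h3
          exact h3.eventually_le_const one_pos
        filter_upwards [h2] with n hn
        have h3 := mph_taylor hκ (u / √(A n)) hn
        have e1 : (A n : ℂ) * mph κ (u / √(A n)) - (((-((1 + κ) * u ^ 2 / 2) : ℝ)) : ℂ) =
            (A n : ℂ) * (mph κ (u / √(A n)) + (((1 + κ) * (u / √(A n)) ^ 2 / 2 : ℝ) : ℂ)) := by
          have e2 : (1 + κ) * (u / √(A n)) ^ 2 / 2 = (1 + κ) * u ^ 2 / 2 / A n := by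
            rw [div_pow, hsq]
            ring
          rw [e2, mul_add]
          have hAc : (A n : ℂ) ≠ 0 := by exact_mod_cast (hA0 n).ne'
          push_cast
          field_simp
          ring
        rw [e1, norm_mul, Complex.norm_real, Real.norm_of_nonneg (hA0 n).le]
        refine (mul_le_mul_of_nonneg_left h3 (hA0 n).le).trans (le_of_eq ?_)
        rw [abs_div, abs_of_pos (hsAp n), div_pow]
        have h4 : √(A n) ^ 3 = A n * √(A n) := by
          rw [pow_succ, hsq]
        rw [h4]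
        have h5 := (hA0 n).ne'
        have h6 := (hsAp n).ne'
        field_simp
      have hT2 : Tendsto (fun n => (A n : ℂ) * (r n ((u / √(A n) : ℝ) * I) - r n 0)) atTop
          (𝓝 0) := by
        rw [tendsto_zero_iff_norm_tendsto_zero, Metric.tendsto_atTop']
        intro ε hε
        have h1 := htay (ε / (2 * u ^ 2 + 2) / 2) (by positivity)
        have h2 : ∀ᶠ n in atTop, |u / √(A n)| < 7 / 2 := by
          have h3 : Tendsto (fun n => |u / √(A n)|) atTop (𝓝 |(0 : ℝ)|) := (hθ0 u).abs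
          rw [abs_zero] at h3
          exact h3.eventually_lt_const (by norm_num)
        obtain ⟨N, hN⟩ := eventually_atTop.1 (h1.and h2)
        refine ⟨N, fun n hn => ?_⟩
        obtain ⟨h3, h4⟩ := hN n hn.le
        have h5 : ‖((u / √(A n) : ℝ) : ℂ) * I‖ = |u / √(A n)| := by
          rw [norm_mul, Complex.norm_I, mul_one, Complex.norm_real, Real.norm_eq_abs]
        have h6 := h3 (((u / √(A n) : ℝ) : ℂ) * I) (by rw [h5]; exact h4)
        rw [h5, sq_abs, div_pow, hsq] at h6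
        rw [Real.dist_eq, sub_zero, abs_of_nonneg (norm_nonneg _), norm_mul, Complex.norm_real,
          Real.norm_of_nonneg (hA0 n).le]
        have h7 := mul_le_mul_of_nonneg_left h6 (hA0 n).le
        refine h7.trans_lt ?_
        have h8 : A n * (2 * (ε / (2 * u ^ 2 + 2) / 2) * (u ^ 2 / A n)) =
            ε * (u ^ 2 / (2 * u ^ 2 + 2)) := by
          have := (hA0 n).ne'
          field_simp
        rw [h8]
        have h9 : u ^ 2 / (2 * u ^ 2 + 2) < 1 := by
          rw [div_lt_one (by positivity)]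
          nlinarith [sq_nonneg u]
        exact mul_lt_of_lt_one_right hε h9
      have hT3 := hT1.sub hT2
      rw [sub_zero] at hT3
      refine hT3.congr fun n => ?_
      rw [hdiff]
      ring)
    (by
      intro u
      have h1 : Tendsto (fun n => exp (((u / √(A n) : ℝ) : ℂ) * I)) atTop
          (𝓝 (exp (((0 : ℝ) : ℂ) * I))) := by
        have h2 : Continuous fun x : ℝ => exp ((x : ℂ) * I) := by fun_prop
        exact (h2.tendsto 0).comp (hθ0 u)
      rw [Complex.ofReal_zero, zero_mul, Complex.exp_zero] at h1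
      exact h1)
  -- the contradiction
  have hfin : ∀ᶠ n in atTop, c0 ≤ (8 * Real.pi + 8 * Real.log 4) *
      (√(A n) * Real.exp (-A n)) := by
    filter_upwards [hlow, hrb (1 / 100) (by norm_num)] with n h1 h2
    obtain ⟨h3, h4, h5⟩ := h2
    have h6 := one_step hk hSeg ha hκ hG hturn (s n) (A n) (1 / 100) (hA0 n) (by norm_num) h3
      (hsad n) h4 (by
        intro w hw
        have := h5 w hw
        rw [hr] at this
        exact this)
    have h7 : (fun θ : ℝ => exp (A n * (h n θ - h n 0)) * exp (θ * I)) = fun θ : ℝ =>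
        exp (A n * ((exp (θ * I) - G (s n + θ * I) / deriv G (s n)) -
          (1 - G (s n) / deriv G (s n)))) * exp (θ * I) := by
      funext θ
      rw [hh0, hh]
    rw [h7] at h1
    obtain ⟨J, hJ⟩ : ∃ J : ℝ, J = ‖∫ θ in (-Real.pi)..Real.pi,
      exp (A n * ((exp (θ * I) - G (s n + θ * I) / deriv G (s n)) -
          (1 - G (s n) / deriv G (s n)))) * exp (θ * I)‖ := ⟨_, rfl⟩
    rw [← hJ] at h1 h6
    obtain ⟨B, hB⟩ : ∃ B : ℝ, B = Real.exp (A n * (5 + 1 / κ - 1 / 100)) := ⟨_, rfl⟩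
    rw [← hB] at h6
    have hBp : 0 < B := by rw [hB]; exact Real.exp_pos _
    have h8 : Real.exp (A n * (3 + 1 / κ + 4 * (1 / 100))) ≤ B * Real.exp (-A n) := by
      rw [hB, ← Real.exp_add]
      apply Real.exp_le_exp.2
      nlinarith [hA0 n]
    have hC : 0 ≤ 8 * Real.pi + 8 * Real.log 4 := by
      have := log4_bd.1
      positivity
    have h9 : B * J ≤ B * ((8 * Real.pi + 8 * Real.log 4) * Real.exp (-A n)) := by
      refine h6.trans ((mul_le_mul_of_nonneg_left h8 hC).trans (le_of_eq (by ring)))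
    have h10 := le_of_mul_le_mul_left h9 hBp
    have h11 := mul_le_mul_of_nonneg_left h10 (hsAp n).le
    refine h1.trans (h11.trans (le_of_eq (by ring)))
  have hlim : Tendsto (fun n => (8 * Real.pi + 8 * Real.log 4) *
      (√(A n) * Real.exp (-A n))) atTop (𝓝 0) := by
    have h1 : Tendsto (fun x : ℝ => x ^ 1 * Real.exp (-x)) atTop (𝓝 0) :=
      Real.tendsto_pow_mul_exp_neg_atTop_nhds_zero 1
    have h2 : Tendsto (fun n => A n ^ 1 * Real.exp (-A n)) atTop (𝓝 0) := h1.comp hA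
    have h3 : Tendsto (fun n => √(A n) * Real.exp (-A n)) atTop (𝓝 0) := by
      refine squeeze_zero' (Eventually.of_forall fun n => by positivity) ?_ h2
      filter_upwards [hA.eventually_ge_atTop 1] with n hn
      rw [pow_one]
      refine mul_le_mul_of_nonneg_right ?_ (Real.exp_pos _).le
      rw [Real.sqrt_le_left (by linarith)]
      nlinarith
    have h4 := h3.const_mul (8 * Real.pi + 8 * Real.log 4)
    rwa [mul_zero] at h4
  obtain ⟨n, hn1, hn2⟩ := (hfin.and (hlim.eventually_lt_const hc0)).exists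
  linarith

end Run7.h367.SF
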