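import Pool.Agent.Run7.h367.Pow2
import Pool.Agent.Y245.SG.Main

/-!
Singularities with `exp t * (G t - w) → C`: the limits of the identity for one turn.
-/

set_option autoImplicit false

open Complex MeasureTheory Metric Set Filter Topology
open Pool.Agent.Y245.SC
open Pool.Agent.Y245.SG (Bn)

namespace Run7.h367.SF

/-- the identity for one turn around the singularity -/
def Turn (a δ : ℝ) (G : ℂ → ℂ) : Prop := DifferentiableOn ℂ G (HP δ) ∧
  ∀ b : ℂ, ∀ t ∈ HP δ, G (t + 2 * Real.pi * I) - G t =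
    seg (KK a G b t) t (t + 2 * Real.pi * I)

/-- `exp t * (G t - w) → C`, uniformly in strips -/
def Pole (G : ℂ → ℂ) (w C : ℂ) : Prop :=
  ∀ K η : ℝ, 0 < K → 0 < η → ∃ T : ℝ, ∀ t : ℂ, t.re ≤ T → |t.im| ≤ K →
    ‖exp t * (G t - w) - C‖ ≤ η

/-- the unit circle -/
noncomputable def EE (s : ℝ) : ℂ := exp (s * (2 * Real.pi * I))

theorem EE_norm (s : ℝ) : ‖EE s‖ = 1 := by
  unfold EE
  rw [show (s : ℂ) * (2 * Real.pi * I) = ((s * (2 * Real.pi) : ℝ) : ℂ) * I by push_cast; ring,
    Complex.norm_exp_ofReal_mul_I]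

theorem EE_ne (s : ℝ) : EE s ≠ 0 := Complex.exp_ne_zero _

theorem EE_cont : Continuous EE := by
  unfold EE
  fun_prop

theorem EEinv_cont : Continuous fun s => (EE s)⁻¹ := EE_cont.inv₀ EE_ne

theorem hp_turn {δ : ℝ} {t : ℂ} (ht : t ∈ HP δ) (s : ℝ) : t + s * (2 * Real.pi * I) ∈ HP δ := by
  show (t + s * (2 * Real.pi * I)).re < δ
  have : (t + s * (2 * Real.pi * I)).re = t.re := by simp
  rw [this]
  exact ht

theorem bn_has (ν : ℕ) (z : ℂ) : HasSum (fun k : ℕ => (-z) ^ k /
    ((k.factorial : ℂ) * ((k + ν).factorial : ℂ))) (Bn ν z) :=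
  (Pool.Agent.Y971.SG.bes ν).2.1 z

theorem bn_diff (ν : ℕ) : Differentiable ℂ (Bn ν) := (Pool.Agent.Y971.SG.bes ν).1

theorem bn_deriv (ν : ℕ) (z : ℂ) : HasDerivAt (Bn ν) (-Bn (ν + 1) z) z :=
  (Pool.Agent.Y971.SG.bes ν).2.2.1 z

theorem m_identity (hk : S_KAP) {a δ : ℝ} (ha : 0 < a) {G : ℂ → ℂ} (h : Turn a δ G) (w t : ℂ)
    (ht : t ∈ HP δ) :
    ∫ s in (0 : ℝ)..1, Bn 0 (a * ((G (t + s * (2 * Real.pi * I)) - w) *
      (exp t * (EE s - 1)))) * EE s = 0 := by
  obtain ⟨hG, hturn⟩ := h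
  have hpt := hp_turn ht
  have hpi := Real.pi_pos
  have hGc : Continuous fun s : ℝ => G (t + s * (2 * Real.pi * I)) - w :=
    (hG.continuousOn.comp_continuous (by fun_prop) hpt).sub continuous_const
  have e0 : t + 2 * Real.pi * I - t = 2 * Real.pi * I := by ring
  obtain ⟨X, hX⟩ : ∃ X : ℝ → ℂ, X = fun (s : ℝ) => G (t + s * (2 * Real.pi * I)) - w := ⟨_, rfl⟩
  obtain ⟨x, hx⟩ : ∃ x : ℝ → ℂ, x = fun (s : ℝ) => exp (t + s * (2 * Real.pi * I)) - exp t := ⟨_, rfl⟩
  obtain ⟨W, hW⟩ : ∃ W : ℝ → ℂ, W = fun (s : ℝ) => exp (t + s * (2 * Real.pi * I)) *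
    (2 * Real.pi * I) := ⟨_, rfl⟩
  have hXc : ContinuousOn X (Icc 0 1) := by rw [hX]; exact hGc.continuousOn
  have hxc : ContinuousOn x (Icc 0 1) := by rw [hx]; fun_prop
  have hWc : ContinuousOn W (Icc 0 1) := by rw [hW]; fun_prop
  obtain ⟨B1, hB1⟩ := (isCompact_Icc (a := (0 : ℝ)) (b := 1)).exists_bound_of_continuousOn hXc
  obtain ⟨B2, hB2⟩ := (isCompact_Icc (a := (0 : ℝ)) (b := 1)).exists_bound_of_continuousOn hxc
  obtain ⟨B3, hB3⟩ := (isCompact_Icc (a := (0 : ℝ)) (b := 1)).exists_bound_of_continuousOn hWc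
  obtain ⟨B, hB, hXB, hxB, hWB⟩ : ∃ B : ℝ, 1 ≤ B ∧ (∀ s ∈ Icc (0 : ℝ) 1, ‖X s‖ ≤ B) ∧
      (∀ s ∈ Icc (0 : ℝ) 1, ‖x s‖ ≤ B) ∧ ∀ s ∈ Icc (0 : ℝ) 1, ‖W s‖ ≤ B := by
    refine ⟨max 1 (max B1 (max B2 B3)), le_max_left _ _, fun s hs => ?_, fun s hs => ?_,
      fun s hs => ?_⟩
    · exact (hB1 s hs).trans ((le_max_left _ _).trans (le_max_right _ _))
    · exact (hB2 s hs).trans (((le_max_left _ _).trans (le_max_right _ _)).trans
        (le_max_right _ _))
    · exact (hB3 s hs).trans (((le_max_right _ _).trans (le_max_right _ _)).trans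
        (le_max_right _ _))
  have hB0 : 0 ≤ B := by linarith
  have h1 := star hk ha hB hXc hxc hWc hXB hxB hWB (Δ := G (t + 2 * Real.pi * I) - G t) (by
    intro b
    rw [hturn (b + w) t ht]
    unfold seg
    rw [e0]
    refine intervalIntegral.integral_congr fun s _ => ?_
    simp only [KK, hX, hx, hW]
    rw [show G (t + s * (2 * Real.pi * I)) - (b + w) = G (t + s * (2 * Real.pi * I)) - w - b by
      ring]
    ring) 0
  have hsum : Summable fun l : ℕ => (a * B * B) ^ l / (l.factorial : ℝ) * B :=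
    (Real.summable_pow_div_factorial (a * B * B)).mul_right B
  have h2 := hasSum_int (f := fun (l : ℕ) s => ((-(a : ℂ)) ^ (l + 0) * x s ^ (l + 0) /
      ((l + 0).factorial : ℂ)) * (X s ^ l / (l.factorial : ℂ)) * W s)
      (g := fun s => Bn 0 (a * (X s * x s)) * W s) hsum ?_ ?_ ?_
  · have h3 := h1.unique h2
    have h4 : (fun s : ℝ => Bn 0 (a * (X s * x s)) * W s) = fun s : ℝ =>
        (exp t * (2 * Real.pi * I)) * (Bn 0 (a * ((G (t + s * (2 * Real.pi * I)) - w) *
          (exp t * (EE s - 1)))) * EE s) := by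
      funext s
      simp only [hX, hx, hW]
      rw [Complex.exp_add]
      unfold EE
      rw [show exp t * exp (s * (2 * Real.pi * I)) - exp t =
        exp t * (exp (s * (2 * Real.pi * I)) - 1) by ring]
      ring
    rw [h4, intervalIntegral.integral_const_mul] at h3
    have h5 : exp t * (2 * Real.pi * I) ≠ 0 := by
      refine mul_ne_zero (Complex.exp_ne_zero _) ?_
      refine mul_ne_zero (mul_ne_zero two_ne_zero ?_) Complex.I_ne_zero
      exact_mod_cast hpi.ne'
    rcases mul_eq_zero.1 h3.symm with h6 | h6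
    · exact absurd h6 h5
    · exact h6
  · intro l
    exact ((((continuousOn_const).mul (hxc.pow _)).div_const _).mul
      ((hXc.pow _).div_const _)).mul hWc
  · intro l s hs
    rw [add_zero, norm_mul, norm_mul, norm_div, norm_div, norm_mul, norm_pow, norm_pow, norm_pow,
      norm_neg, Complex.norm_natCast, Complex.norm_real, Real.norm_of_nonneg ha.le]
    have e1 := hXB s hs
    have e2 := hxB s hs
    have e3 := hWB s hs
    have e4 : (1 : ℝ) ≤ (l.factorial : ℝ) := by exact_mod_cast l.factorial_pos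
    calc a ^ l * ‖x s‖ ^ l / (l.factorial : ℝ) * (‖X s‖ ^ l / (l.factorial : ℝ)) * ‖W s‖
        ≤ a ^ l * B ^ l / (l.factorial : ℝ) * (B ^ l / 1) * B := by gcongr
      _ = (a * B * B) ^ l / (l.factorial : ℝ) * B := by
          rw [mul_pow, mul_pow]
          ring
  · intro s _
    have h3 := (bn_has 0 (a * (X s * x s))).mul_right (W s)
    refine h3.congrY953 fun l => ?_
    rw [add_zero]
    congr 1
    rw [show -((a : ℂ) * (X s * x s)) = (-(a : ℂ)) * x s * X s by ring, mul_pow, mul_pow]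
    field_simp

/-- a bound for the argument of the Bessel function -/
theorem pole_arg {a δ : ℝ} {G : ℂ → ℂ} {w C : ℂ} (p : Pole G w C) :
    (∀ s : ℝ, Tendsto (fun n : ℕ => (a : ℂ) * ((G (-(n : ℂ) + s * (2 * Real.pi * I)) - w) *
      (exp (-(n : ℂ)) * (EE s - 1)))) atTop (𝓝 (a * (C * (1 - (EE s)⁻¹))))) ∧
    ∀ᶠ n : ℕ in atTop, -(n : ℂ) ∈ HP δ ∧ ∀ s ∈ Icc (0 : ℝ) 1,
      ‖(a : ℂ) * ((G (-(n : ℂ) + s * (2 * Real.pi * I)) - w) *
        (exp (-(n : ℂ)) * (EE s - 1)))‖ ≤ |a| * (‖C‖ + 1) * 2 := by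
  have hpi := Real.pi_pos
  have key : ∀ (n : ℕ) (s : ℝ), (a : ℂ) * ((G (-(n : ℂ) + s * (2 * Real.pi * I)) - w) *
      (exp (-(n : ℂ)) * (EE s - 1))) = a * ((exp (-(n : ℂ) + s * (2 * Real.pi * I)) *
        (G (-(n : ℂ) + s * (2 * Real.pi * I)) - w)) * (1 - (EE s)⁻¹)) := by
    intro n s
    rw [Complex.exp_add]
    have := EE_ne s
    unfold EE at this ⊢
    field_simp
  have hre : ∀ (n : ℕ) (s : ℝ), (-(n : ℂ) + s * (2 * Real.pi * I)).re = -(n : ℝ) := by
    intro n s
    simp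
  have him : ∀ (n : ℕ) (s : ℝ), (-(n : ℂ) + s * (2 * Real.pi * I)).im = s * (2 * Real.pi) := by
    intro n s
    simp
  have hat : Tendsto (fun n : ℕ => -(n : ℝ)) atTop atBot :=
    tendsto_neg_atTop_atBot.comp tendsto_natCast_atTop_atTop
  constructor
  · intro s
    have h1 : Tendsto (fun n : ℕ => exp (-(n : ℂ) + s * (2 * Real.pi * I)) *
        (G (-(n : ℂ) + s * (2 * Real.pi * I)) - w)) atTop (𝓝 C) := by
      rw [Metric.tendsto_atTop']
      intro ε hε
      obtain ⟨T, hT⟩ := p (|s * (2 * Real.pi)| + 1) (ε / 2) (by positivity) (by positivity)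
      obtain ⟨N, hN⟩ := eventually_atTop.1 (hat.eventually_le_atBot T)
      refine ⟨N, fun n hn => ?_⟩
      rw [dist_eq_norm]
      refine (hT _ ?_ ?_).trans_lt (by linarith)
      · rw [hre]; exact hN n hn.le
      · rw [him]; linarith
    have h2 := ((h1.mul_const (1 - (EE s)⁻¹)).const_mul (a : ℂ))
    exact h2.congr fun n => (key n s).symm
  · obtain ⟨T, hT⟩ := p (2 * Real.pi) 1 (by positivity) one_pos
    filter_upwards [hat.eventually_le_atBot T, hat.eventually_lt_atBot δ] with n h1 h2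
    refine ⟨?_, fun s hs => ?_⟩
    · show (-(n : ℂ)).re < δ
      rw [Complex.neg_re, Complex.natCast_re]
      exact h2
    · rw [key, norm_mul, norm_mul, Complex.norm_real, Real.norm_eq_abs, mul_assoc |a|]
      refine mul_le_mul_of_nonneg_left ?_ (abs_nonneg a)
      have h3 := hT (-(n : ℂ) + s * (2 * Real.pi * I)) (by rw [hre]; exact h1) (by
        rw [him, abs_of_nonneg (mul_nonneg hs.1 (by positivity))]
        nlinarith [hs.2])
      have h4 : ‖exp (-(n : ℂ) + s * (2 * Real.pi * I)) *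
          (G (-(n : ℂ) + s * (2 * Real.pi * I)) - w)‖ ≤ ‖C‖ + 1 := by
        have := norm_sub_norm_le (exp (-(n : ℂ) + s * (2 * Real.pi * I)) *
          (G (-(n : ℂ) + s * (2 * Real.pi * I)) - w)) C
        linarith
      have h5 : ‖1 - (EE s)⁻¹‖ ≤ 2 := by
        refine (norm_sub_le _ _).trans ?_
        rw [norm_one, norm_inv, EE_norm]
        norm_num
      exact mul_le_mul h4 h5 (norm_nonneg _) (by positivity)

theorem m_limit (hk : S_KAP) {a δ : ℝ} (ha : 0 < a) {G : ℂ → ℂ} {w C : ℂ} (h : Turn a δ G)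
    (p : Pole G w C) :
    ∫ s in (0 : ℝ)..1, Bn 0 (a * (C * (1 - (EE s)⁻¹))) * EE s = 0 := by
  obtain ⟨h1, h2⟩ := pole_arg (a := a) (δ := δ) p
  obtain ⟨R, hR⟩ : ∃ R : ℝ, R = |a| * (‖C‖ + 1) * 2 := ⟨_, rfl⟩
  obtain ⟨M, hM⟩ := (isCompact_closedBall (0 : ℂ) R).exists_bound_of_continuousOn
    (bn_diff 0).continuous.continuousOn
  have hlim : Tendsto (fun n : ℕ => ∫ s in (0 : ℝ)..1,
      Bn 0 (a * ((G (-(n : ℂ) + s * (2 * Real.pi * I)) - w) *
        (exp (-(n : ℂ)) * (EE s - 1)))) * EE s) atTop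
      (𝓝 (∫ s in (0 : ℝ)..1, Bn 0 (a * (C * (1 - (EE s)⁻¹))) * EE s)) := by
    refine intervalIntegral.tendsto_integral_filter_of_dominated_convergence (fun _ => M) ?_ ?_
      intervalIntegrable_const ?_
    · filter_upwards [h2] with n hn
      rw [uIoc_of_le zero_le_one]
      refine Continuous.aestronglyMeasurable ?_
      have hGc : Continuous fun s : ℝ => G (-(n : ℂ) + s * (2 * Real.pi * I)) :=
        h.1.continuousOn.comp_continuous (by fun_prop) (hp_turn hn.1)
      have := EE_cont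
      have h3 : Continuous fun s : ℝ => (a : ℂ) * ((G (-(n : ℂ) + s * (2 * Real.pi * I)) - w) *
        (exp (-(n : ℂ)) * (EE s - 1))) :=
        continuous_const.mul ((hGc.sub continuous_const).mul
          (continuous_const.mul (EE_cont.sub continuous_const)))
      exact ((bn_diff 0).continuous.comp h3).mul EE_cont
    · filter_upwards [h2] with n hn
      refine Eventually.of_forall fun s hs => ?_
      rw [uIoc_of_le zero_le_one] at hs
      rw [norm_mul, EE_norm, mul_one]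
      refine hM _ ?_
      rw [mem_closedBall_zero_iff, hR]
      exact hn.2 s (Ioc_subset_Icc_self hs)
    · refine Eventually.of_forall fun s _ => ?_
      exact (((bn_diff 0).continuous.tendsto _).comp (h1 s)).mul_const _
  refine tendsto_nhds_unique hlim ?_
  refine tendsto_const_nhds.congr' ?_
  filter_upwards [h2] with n hn
  exact (m_identity hk ha h w _ hn.1).symm

/-- the limit of the difference of the identities of two functions -/
theorem lim_diff (hk : S_KAP) {a δ σ : ℝ} (ha : 0 < a) {G G' D : ℂ → ℂ} {w C : ℂ}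
    (h : Turn a δ G) (h' : Turn a δ G') (p : Pole G w C) (p' : Pole G' w C)
    (hD : ∀ t ∈ HP δ, D t = G t - G' t) (hrv : RegVar D (-σ)) :
    ∫ s in (0 : ℝ)..1, Bn 1 (a * (C * (1 - (EE s)⁻¹))) * (EE s - 1) * EE s *
      exp (σ * (s * (2 * Real.pi * I))) = 0 := by
  have hpi := Real.pi_pos
  obtain ⟨h1, h2⟩ := pole_arg (a := a) (δ := δ) p
  obtain ⟨h1', h2'⟩ := pole_arg (a := a) (δ := δ) p'
  obtain ⟨R, hR⟩ : ∃ R : ℝ, R = |a| * (‖C‖ + 1) * 2 := ⟨_, rfl⟩
  rw [← hR] at h2 h2'
  obtain ⟨L, hL⟩ := (isCompact_closedBall (0 : ℂ) R).exists_bound_of_continuousOn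
    (bn_diff 1).continuous.continuousOn
  obtain ⟨P, hP⟩ : ∃ P : ℕ → ℝ → ℂ, P = fun (n : ℕ) (s : ℝ) => (a : ℂ) *
    ((G (-(n : ℂ) + s * (2 * Real.pi * I)) - w) * (exp (-(n : ℂ)) * (EE s - 1))) := ⟨_, rfl⟩
  obtain ⟨Q, hQ⟩ : ∃ Q : ℕ → ℝ → ℂ, Q = fun (n : ℕ) (s : ℝ) => (a : ℂ) *
    ((G' (-(n : ℂ) + s * (2 * Real.pi * I)) - w) * (exp (-(n : ℂ)) * (EE s - 1))) := ⟨_, rfl⟩
  have hPn : ∀ n s, P n s = (a : ℂ) * ((G (-(n : ℂ) + s * (2 * Real.pi * I)) - w) *
    (exp (-(n : ℂ)) * (EE s - 1))) := fun n s => by rw [hP]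
  have hQn : ∀ n s, Q n s = (a : ℂ) * ((G' (-(n : ℂ) + s * (2 * Real.pi * I)) - w) *
    (exp (-(n : ℂ)) * (EE s - 1))) := fun n s => by rw [hQ]
  simp only [← hPn] at h1 h2
  simp only [← hQn] at h1' h2'
  have hat : Tendsto (fun n : ℕ => -(n : ℝ)) atTop atBot :=
    tendsto_neg_atTop_atBot.comp tendsto_natCast_atTop_atTop
  -- the quotient of the differences
  have hrat : ∀ η : ℝ, 0 < η → ∀ᶠ n : ℕ in atTop, ∀ s ∈ Icc (0 : ℝ) 1,
      ‖D (-(n : ℂ) + s * (2 * Real.pi * I)) / D (-(n : ℂ)) - exp (σ * (s * (2 * Real.pi * I)))‖ ≤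
        η := by
    intro η hη
    obtain ⟨T, hT⟩ := hrv (2 * Real.pi) η (by positivity) hη
    filter_upwards [hat.eventually_le_atBot T] with n hn s hs
    have h3 := hT (-(n : ℂ)) (s * (2 * Real.pi * I)) (by
      rw [Complex.neg_re, Complex.natCast_re]; exact hn) (by
      rw [Complex.neg_im, Complex.natCast_im, neg_zero, abs_zero]; positivity) (by
      rw [show (s : ℂ) * (2 * Real.pi * I) = ((s * (2 * Real.pi) : ℝ) : ℂ) * I by push_cast; ring,
        norm_mul, Complex.norm_I, mul_one, Complex.norm_real, Real.norm_eq_abs,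
        abs_of_nonneg (mul_nonneg hs.1 (by positivity))]
      nlinarith [hs.2])
    have e1 : -(((-σ : ℝ) : ℂ) * (s * (2 * Real.pi * I))) = σ * (s * (2 * Real.pi * I)) := by
      push_cast
      ring
    rwa [e1] at h3
  have hD0 : ∀ᶠ n : ℕ in atTop, D (-(n : ℂ)) ≠ 0 := by
    filter_upwards [hrat (1 / 2) (by norm_num)] with n hn h0
    have h3 := hn 0 ⟨le_rfl, zero_le_one⟩
    rw [h0, div_zero, ofReal_zero, zero_mul, mul_zero, Complex.exp_zero, zero_sub, norm_neg,
      norm_one] at h3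
    norm_num at h3
  obtain ⟨U, hU⟩ : ∃ U : ℕ → ℂ, U = fun (n : ℕ) => exp (-(n : ℂ)) * D (-(n : ℂ)) := ⟨_, rfl⟩
  have hPQ : ∀ᶠ n : ℕ in atTop, ∀ s : ℝ, (P n s - Q n s) / U n =
      a * (D (-(n : ℂ) + s * (2 * Real.pi * I)) / D (-(n : ℂ))) * (EE s - 1) := by
    filter_upwards [h2, hD0] with n hn hn0 s
    rw [hPn, hQn, hU, hD _ (hp_turn hn.1 s)]
    have := Complex.exp_ne_zero (-(n : ℂ))
    field_simp
    ring
  obtain ⟨F, hF⟩ : ∃ F : ℕ → ℝ → ℂ, F = fun n s => (Bn 0 (P n s) - Bn 0 (Q n s)) / U n * EE s :=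
    ⟨_, rfl⟩
  have hlim : Tendsto (fun n : ℕ => ∫ s in (0 : ℝ)..1, F n s) atTop
      (𝓝 (∫ s in (0 : ℝ)..1, (-(a : ℂ)) * (Bn 1 (a * (C * (1 - (EE s)⁻¹))) * (EE s - 1) * EE s *
      exp (σ * (s * (2 * Real.pi * I)))))) := by
    refine intervalIntegral.tendsto_integral_filter_of_dominated_convergence
      (fun _ => |L| * (a * (1 + 1) * 2)) ?_ ?_ intervalIntegrable_const ?_
    · filter_upwards [h2, h2'] with n hn hn'
      rw [uIoc_of_le zero_le_one]
      refine Continuous.aestronglyMeasurable ?_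
      have hGc : Continuous fun s : ℝ => G (-(n : ℂ) + s * (2 * Real.pi * I)) :=
        h.1.continuousOn.comp_continuous (by fun_prop) (hp_turn hn.1)
      have hGc' : Continuous fun s : ℝ => G' (-(n : ℂ) + s * (2 * Real.pi * I)) :=
        h'.1.continuousOn.comp_continuous (by fun_prop) (hp_turn hn.1)
      have h3 : Continuous (P n) := by
        rw [hP]
        exact continuous_const.mul ((hGc.sub continuous_const).mul
          (continuous_const.mul (EE_cont.sub continuous_const)))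
      have h4 : Continuous (Q n) := by
        rw [hQ]
        exact continuous_const.mul ((hGc'.sub continuous_const).mul
          (continuous_const.mul (EE_cont.sub continuous_const)))
      rw [hF]
      exact ((((bn_diff 0).continuous.comp h3).sub ((bn_diff 0).continuous.comp h4)).div_const
        _).mul EE_cont
    · filter_upwards [h2, h2', hPQ, hrat 1 one_pos] with n hn hn' hn2 hn3
      refine Eventually.of_forall fun s hs => ?_
      rw [uIoc_of_le zero_le_one] at hs
      have hs' := Ioc_subset_Icc_self hs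
      rw [hF]
      simp only
      rw [norm_mul, EE_norm, mul_one, norm_div]
      have h3 : ‖Bn 0 (P n s) - Bn 0 (Q n s)‖ ≤ |L| * ‖P n s - Q n s‖ := by
        refine Convex.norm_image_sub_le_of_norm_deriv_le (s := closedBall (0 : ℂ) R)
          (fun x _ => (bn_diff 0) x) ?_ (convex_closedBall _ _) ?_ ?_
        · intro x hx
          rw [(bn_deriv 0 x).deriv, norm_neg]
          exact (hL x hx).trans (le_abs_self L)
        · rw [mem_closedBall_zero_iff]; exact hn'.2 s hs'
        · rw [mem_closedBall_zero_iff]; exact hn.2 s hs'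
      have h4 : ‖P n s - Q n s‖ / ‖U n‖ ≤ a * (1 + 1) * 2 := by
        rw [← norm_div, hn2 s, norm_mul, norm_mul, Complex.norm_real, Real.norm_of_nonneg ha.le]
        have h5 := hn3 s hs'
        have h6 : ‖exp (σ * (s * (2 * Real.pi * I)))‖ = 1 := by
          rw [show (σ : ℂ) * (s * (2 * Real.pi * I)) = ((σ * (s * (2 * Real.pi)) : ℝ) : ℂ) * I by
            push_cast; ring, Complex.norm_exp_ofReal_mul_I]
        have h7 : ‖D (-(n : ℂ) + s * (2 * Real.pi * I)) / D (-(n : ℂ))‖ ≤ 1 + 1 := by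
          have := norm_sub_norm_le (D (-(n : ℂ) + s * (2 * Real.pi * I)) / D (-(n : ℂ)))
            (exp (σ * (s * (2 * Real.pi * I))))
          linarith
        have h8 : ‖EE s - 1‖ ≤ 2 := by
          refine (norm_sub_le _ _).trans ?_
          rw [norm_one, EE_norm]
          norm_num
        gcongr
      calc ‖Bn 0 (P n s) - Bn 0 (Q n s)‖ / ‖U n‖ ≤ |L| * ‖P n s - Q n s‖ / ‖U n‖ :=
            div_le_div_of_nonneg_right h3 (norm_nonneg _)
        _ = |L| * (‖P n s - Q n s‖ / ‖U n‖) := by ring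
        _ ≤ |L| * (a * (1 + 1) * 2) := mul_le_mul_of_nonneg_left h4 (abs_nonneg L)
    · refine Eventually.of_forall fun s hs => ?_
      rw [uIoc_of_le zero_le_one] at hs
      have hs' := Ioc_subset_Icc_self hs
      obtain ⟨p0, hp0⟩ : ∃ p0 : ℂ, p0 = a * (C * (1 - (EE s)⁻¹)) := ⟨_, rfl⟩
      have hst : HasStrictDerivAt (Bn 0) (-Bn 1 p0) p0 := by
        have h3 : AnalyticAt ℂ (Bn 0) p0 := (bn_diff 0).analyticAt p0
        have h4 := h3.hasStrictDerivAt
        rwa [(bn_deriv 0 p0).deriv] at h4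
      have hpq : Tendsto (fun n => (P n s, Q n s)) atTop (𝓝 (p0, p0)) := by
        rw [hp0]
        exact (h1 s).prodMk_nhds (h1' s)
      have hr : (fun n => Bn 0 (P n s) - Bn 0 (Q n s) - (P n s - Q n s) • (-Bn 1 p0)) =o[atTop]
          fun n => P n s - Q n s := hst.isLittleO.comp_tendsto hpq
      have hu : Tendsto (fun n => (P n s - Q n s) / U n) atTop
          (𝓝 (a * exp (σ * (s * (2 * Real.pi * I))) * (EE s - 1))) := by
        have h3 : Tendsto (fun n : ℕ => D (-(n : ℂ) + s * (2 * Real.pi * I)) / D (-(n : ℂ))) atTop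
            (𝓝 (exp (σ * (s * (2 * Real.pi * I))))) := by
          rw [Metric.tendsto_atTop']
          intro ε hε
          obtain ⟨N, hN⟩ := eventually_atTop.1 (hrat (ε / 2) (by positivity))
          refine ⟨N, fun n hn => ?_⟩
          rw [dist_eq_norm]
          exact (hN n hn.le s hs').trans_lt (by linarith)
        refine ((h3.const_mul (a : ℂ)).mul_const (EE s - 1)).congr' ?_
        filter_upwards [hPQ] with n hn
        exact (hn s).symm
      have h0 : Tendsto (fun n => (Bn 0 (P n s) - Bn 0 (Q n s) -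
          (P n s - Q n s) • (-Bn 1 p0)) / U n) atTop (𝓝 0) := by
        rw [← Asymptotics.isLittleO_one_iff ℂ]
        have h3 : (fun n => (Bn 0 (P n s) - Bn 0 (Q n s) -
          (P n s - Q n s) • (-Bn 1 p0)) / U n) =o[atTop] fun n => (P n s - Q n s) / U n := by
          simp only [div_eq_mul_inv]
          exact hr.mul_isBigO (Asymptotics.isBigO_refl _ _)
        exact h3.trans_isBigO (hu.isBigO_one ℂ)
      have h3 := (h0.add (hu.mul_const (-Bn 1 p0))).mul_const (EE s)
      have e1 : (0 + a * exp (σ * (s * (2 * Real.pi * I))) * (EE s - 1) * -Bn 1 p0) * EE s =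
          (-(a : ℂ)) * (Bn 1 (a * (C * (1 - (EE s)⁻¹))) * (EE s - 1) * EE s *
            exp (σ * (s * (2 * Real.pi * I)))) := by
        rw [← hp0]
        ring
      rw [e1] at h3
      refine h3.congr fun n => ?_
      rw [hF]
      simp only [smul_eq_mul]
      ring
  have hzero : Tendsto (fun n : ℕ => ∫ s in (0 : ℝ)..1, F n s) atTop (𝓝 0) := by
    refine tendsto_const_nhds.congr' ?_
    filter_upwards [h2, h2'] with n hn hn'
    have hGc : Continuous fun s : ℝ => G (-(n : ℂ) + s * (2 * Real.pi * I)) :=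
      h.1.continuousOn.comp_continuous (by fun_prop) (hp_turn hn.1)
    have hGc' : Continuous fun s : ℝ => G' (-(n : ℂ) + s * (2 * Real.pi * I)) :=
      h'.1.continuousOn.comp_continuous (by fun_prop) (hp_turn hn.1)
    have h3 : Continuous (P n) := by
      rw [hP]
      exact continuous_const.mul ((hGc.sub continuous_const).mul
        (continuous_const.mul (EE_cont.sub continuous_const)))
    have h4 : Continuous (Q n) := by
      rw [hQ]
      exact continuous_const.mul ((hGc'.sub continuous_const).mul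
        (continuous_const.mul (EE_cont.sub continuous_const)))
    have e1 := m_identity hk ha h w _ hn.1
    have e2 := m_identity hk ha h' w _ hn.1
    simp only [← hPn] at e1
    simp only [← hQn] at e2
    have e3 : (fun s => F n s) = fun s => (U n)⁻¹ * (Bn 0 (P n s) * EE s - Bn 0 (Q n s) * EE s) := by
      funext s
      rw [hF]
      ring
    rw [e3, intervalIntegral.integral_const_mul, intervalIntegral.integral_sub, e1, e2, sub_zero,
      mul_zero]
    · exact (((bn_diff 0).continuous.comp h3).mul EE_cont).intervalIntegrable _ _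
    · exact (((bn_diff 0).continuous.comp h4).mul EE_cont).intervalIntegrable _ _
  have hfin := tendsto_nhds_unique hlim hzero
  rw [intervalIntegral.integral_const_mul] at hfin
  rcases mul_eq_zero.1 hfin with h3 | h3
  · exact absurd h3 (neg_ne_zero.2 (by exact_mod_cast ha.ne'))
  · exact h3

end Run7.h367.SF
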