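import Pool.Agent.Run7.h367.Quant1

/-!
Evaluation of the limit integrals.
-/

set_option autoImplicit false

open Complex MeasureTheory Metric Set Filter Topology
open Pool.Agent.Y245.SC
open Pool.Agent.Y245.SG (Bn)

namespace Run7.h367.SF

/-- the basic integrals -/
noncomputable def Ik (k : ℕ) (p : ℂ) : ℂ :=
  ∫ s in (0 : ℝ)..1, (1 - (EE s)⁻¹) ^ k * exp (p * (s * (2 * Real.pi * I)))

theorem two_pi_I_ne : (2 * Real.pi * I : ℂ) ≠ 0 := Complex.two_pi_I_ne_zero

theorem ik_cont (k : ℕ) (p : ℂ) :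
    Continuous fun s : ℝ => (1 - (EE s)⁻¹) ^ k * exp (p * (s * (2 * Real.pi * I))) := by
  have := EEinv_cont
  exact ((continuous_const.sub EEinv_cont).pow k).mul (by fun_prop)

theorem ik_zero {p : ℂ} (hp : p ≠ 0) :
    Ik 0 p = (exp (2 * Real.pi * I * p) - 1) / (2 * Real.pi * I * p) := by
  unfold Ik
  have h1 : ∀ s : ℝ, (1 - (EE s)⁻¹) ^ 0 * exp (p * (s * (2 * Real.pi * I))) =
      exp ((2 * Real.pi * I * p) * s) := by
    intro s
    rw [pow_zero, one_mul]
    congr 1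
    ring
  simp only [h1]
  rw [integral_exp_mul_complex (mul_ne_zero two_pi_I_ne hp)]
  simp

theorem ik_zero_zero : Ik 0 0 = 1 := by
  unfold Ik
  simp

theorem ik_succ (k : ℕ) (p : ℂ) : Ik (k + 1) p = Ik k p - Ik k (p - 1) := by
  unfold Ik
  rw [← intervalIntegral.integral_sub ((ik_cont k p).intervalIntegrable _ _)
    ((ik_cont k (p - 1)).intervalIntegrable _ _)]
  refine intervalIntegral.integral_congr fun s _ => ?_
  have e1 : exp ((p - 1) * (s * (2 * Real.pi * I))) =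
      exp (p * (s * (2 * Real.pi * I))) * (EE s)⁻¹ := by
    unfold EE
    rw [← Complex.exp_neg, ← Complex.exp_add]
    congr 1
    ring
  rw [e1]
  ring

theorem exp_int (n : ℤ) : exp (2 * Real.pi * I * n) = 1 := by
  rw [mul_comm]
  exact Complex.exp_int_mul_two_pi_mul_I n

theorem ik_neg (k : ℕ) : ∀ n : ℕ, Ik k (-(n : ℂ) - 1) = 0 := by
  induction k with
  | zero =>
    intro n
    have hp : (-(n : ℂ) - 1) ≠ 0 := by
      intro h
      have h1 := congrArg Complex.re h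
      simp at h1
      have : (0 : ℝ) ≤ n := Nat.cast_nonneg n
      linarith
    rw [ik_zero hp]
    have h1 := exp_int (-(n : ℤ) - 1)
    push_cast at h1
    rw [h1, sub_self, zero_div]
  | succ k ih =>
    intro n
    rw [ik_succ, ih n]
    have := ih (n + 1)
    push_cast at this
    rw [show -(n : ℂ) - 1 - 1 = -((n : ℂ) + 1) - 1 by ring, this, sub_self]

theorem ik_nat (k : ℕ) : ∀ n : ℕ, Ik k (n : ℂ) = (-1) ^ n * (k.choose n : ℂ) := by
  induction k with
  | zero =>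
    intro n
    match n with
    | 0 => simp [ik_zero_zero]
    | n + 1 =>
      have hp : ((n + 1 : ℕ) : ℂ) ≠ 0 := by exact_mod_cast n.succ_ne_zero
      rw [ik_zero hp]
      have h1 := exp_int ((n : ℤ) + 1)
      push_cast at h1 ⊢
      rw [h1, sub_self, zero_div]
      simp
  | succ k ih =>
    intro n
    match n with
    | 0 =>
      rw [ik_succ, ih 0]
      have := ik_neg k 0
      simp only [Nat.cast_zero, neg_zero] at this ⊢
      rw [this]
      simp
    | n + 1 =>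
      rw [ik_succ, ih (n + 1)]
      have e1 : ((n + 1 : ℕ) : ℂ) - 1 = (n : ℂ) := by push_cast; ring
      rw [e1, ih n, Nat.choose_succ_succ]
      push_cast
      ring

theorem ik_frac (k : ℕ) : ∀ p : ℂ, (∀ n : ℤ, p ≠ n) →
    Ik k p = (exp (2 * Real.pi * I * p) - 1) / (2 * Real.pi * I) *
      ((-1) ^ k * (k.factorial : ℂ) / ∏ i ∈ Finset.range (k + 1), (p - i)) := by
  induction k with
  | zero =>
    intro p hp
    have h0 : p ≠ 0 := by simpa using hp 0
    rw [ik_zero h0]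
    have := two_pi_I_ne
    simp
    field_simp
  | succ k ih =>
    intro p hp
    have hp' : ∀ n : ℤ, p - 1 ≠ n := by
      intro n h
      apply hp (n + 1)
      push_cast
      rw [← h]
      ring
    rw [ik_succ, ih p hp, ih (p - 1) hp']
    have e1 : exp (2 * Real.pi * I * (p - 1)) = exp (2 * Real.pi * I * p) := by
      rw [mul_sub, mul_one, Complex.exp_sub, Complex.exp_two_pi_mul_I, div_one]
    rw [e1, ← mul_sub]
    congr 1
    have hne : ∀ i : ℕ, p - i ≠ 0 := by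
      intro i h
      apply hp i
      push_cast
      linear_combination h
    have e2 : ∏ i ∈ Finset.range (k + 1), (p - 1 - (i : ℂ)) =
        ∏ i ∈ Finset.range (k + 1), (p - ((i + 1 : ℕ) : ℂ)) := by
      refine Finset.prod_congr rfl fun i _ => ?_
      push_cast
      ring
    have e3 : ∏ i ∈ Finset.range (k + 1 + 1), (p - (i : ℂ)) =
        (∏ i ∈ Finset.range (k + 1), (p - ((i + 1 : ℕ) : ℂ))) * p := by
      rw [Finset.prod_range_succ']
      simp
    have e4 : ∏ i ∈ Finset.range (k + 1 + 1), (p - (i : ℂ)) =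
        (∏ i ∈ Finset.range (k + 1), (p - (i : ℂ))) * (p - ((k + 1 : ℕ) : ℂ)) :=
      Finset.prod_range_succ _ _
    have n1 : ∏ i ∈ Finset.range (k + 1), (p - (i : ℂ)) ≠ 0 :=
      Finset.prod_ne_zero_iff.2 fun i _ => hne i
    have n2 : ∏ i ∈ Finset.range (k + 1), (p - ((i + 1 : ℕ) : ℂ)) ≠ 0 :=
      Finset.prod_ne_zero_iff.2 fun i _ => hne (i + 1)
    have n3 : ∏ i ∈ Finset.range (k + 1 + 1), (p - (i : ℂ)) ≠ 0 :=
      Finset.prod_ne_zero_iff.2 fun i _ => hne i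
    have n4 : p ≠ 0 := by simpa using hne 0
    have n5 : p - ((k + 1 : ℕ) : ℂ) ≠ 0 := hne (k + 1)
    rw [e2]
    have f1 : (1 : ℂ) / ∏ i ∈ Finset.range (k + 1), (p - (i : ℂ)) =
        (p - ((k + 1 : ℕ) : ℂ)) / ∏ i ∈ Finset.range (k + 1 + 1), (p - (i : ℂ)) := by
      rw [e4]
      field_simp
    have f2 : (1 : ℂ) / ∏ i ∈ Finset.range (k + 1), (p - ((i + 1 : ℕ) : ℂ)) =
        p / ∏ i ∈ Finset.range (k + 1 + 1), (p - (i : ℂ)) := by
      rw [e3]
      field_simp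
    rw [div_eq_mul_one_div, f1, div_eq_mul_one_div ((-1) ^ k * (k.factorial : ℂ))
      (∏ i ∈ Finset.range (k + 1), (p - ((i + 1 : ℕ) : ℂ))), f2, Nat.factorial_succ]
    push_cast
    field_simp
    ring

theorem one_sub_le (s : ℝ) : ‖1 - (EE s)⁻¹‖ ≤ 2 := by
  refine (norm_sub_le _ _).trans ?_
  rw [norm_one, norm_inv, EE_norm]
  norm_num

theorem exp_norm_one (σ s : ℝ) : ‖exp ((σ : ℂ) * (s * (2 * Real.pi * I)))‖ = 1 := by
  rw [show (σ : ℂ) * (s * (2 * Real.pi * I)) = ((σ * (s * (2 * Real.pi)) : ℝ) : ℂ) * I by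
    push_cast; ring, Complex.norm_exp_ofReal_mul_I]

/-- integration of a Bessel series -/
theorem bn_int (ν d : ℕ) (y : ℂ) (σ : ℝ) :
    HasSum (fun m : ℕ => (-y) ^ m / ((m.factorial : ℂ) * ((m + ν).factorial : ℂ)) *
      Ik (m + d) σ) (∫ s in (0 : ℝ)..1, Bn ν (y * (1 - (EE s)⁻¹)) *
        ((1 - (EE s)⁻¹) ^ d * exp (σ * (s * (2 * Real.pi * I))))) := by
  have hsum : Summable fun m : ℕ => (‖y‖ * 2) ^ m / (m.factorial : ℝ) * 2 ^ d :=
    (Real.summable_pow_div_factorial (‖y‖ * 2)).mul_right _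
  have h := hasSum_int
    (f := fun (m : ℕ) s => (-y) ^ m / ((m.factorial : ℂ) * ((m + ν).factorial : ℂ)) *
      ((1 - (EE s)⁻¹) ^ (m + d) * exp ((σ : ℂ) * (s * (2 * Real.pi * I)))))
    (g := fun s => Bn ν (y * (1 - (EE s)⁻¹)) *
        ((1 - (EE s)⁻¹) ^ d * exp (σ * (s * (2 * Real.pi * I))))) hsum ?_ ?_ ?_
  · refine h.congrY953 fun m => ?_
    unfold Ik
    rw [intervalIntegral.integral_const_mul]
  · intro m
    exact (continuous_const.mul (ik_cont (m + d) σ)).continuousOn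
  · intro m s _
    rw [norm_mul, norm_mul, exp_norm_one, mul_one, norm_div, norm_mul, norm_pow, norm_pow,
      norm_neg, Complex.norm_natCast, Complex.norm_natCast]
    have e1 := one_sub_le s
    have e2 : (1 : ℝ) ≤ ((m + ν).factorial : ℝ) := by exact_mod_cast (m + ν).factorial_pos
    have e3 : (0 : ℝ) < (m.factorial : ℝ) := by exact_mod_cast m.factorial_pos
    calc ‖y‖ ^ m / ((m.factorial : ℝ) * ((m + ν).factorial : ℝ)) * ‖1 - (EE s)⁻¹‖ ^ (m + d)
        ≤ ‖y‖ ^ m / ((m.factorial : ℝ) * 1) * 2 ^ (m + d) := by gcongr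
      _ = (‖y‖ * 2) ^ m / (m.factorial : ℝ) * 2 ^ d := by
          rw [mul_pow, pow_add]
          ring
  · intro s _
    have h3 := (bn_has ν (y * (1 - (EE s)⁻¹))).mul_right
      ((1 - (EE s)⁻¹) ^ d * exp (σ * (s * (2 * Real.pi * I))))
    refine h3.congrY953 fun m => ?_
    rw [show -(y * (1 - (EE s)⁻¹)) = (-y) * (1 - (EE s)⁻¹) by ring, mul_pow, pow_add]
    ring

theorem EE_pow (σ s : ℝ) (n : ℕ) : EE s ^ n * exp ((σ : ℂ) * (s * (2 * Real.pi * I))) =
    exp (((σ + n : ℝ) : ℂ) * (s * (2 * Real.pi * I))) := by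
  unfold EE
  rw [← Complex.exp_nat_mul, ← Complex.exp_add]
  congr 1
  push_cast
  ring

theorem bn1_of_turn (hk : S_KAP) {a δ : ℝ} (ha : 0 < a) {G : ℂ → ℂ} {w C : ℂ} (h : Turn a δ G)
    (p : Pole G w C) (hC : C ≠ 0) : Bn 1 (a * C) = 0 := by
  have h1 := m_limit hk ha h p
  obtain ⟨y, hy⟩ : ∃ y : ℂ, y = a * C := ⟨_, rfl⟩
  have hy0 : y ≠ 0 := by
    rw [hy]
    exact mul_ne_zero (by exact_mod_cast ha.ne') hC
  have h2 := bn_int 0 0 y 1
  have e1 : (∫ s in (0 : ℝ)..1, Bn 0 (y * (1 - (EE s)⁻¹)) *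
        ((1 - (EE s)⁻¹) ^ 0 * exp (((1 : ℝ) : ℂ) * (s * (2 * Real.pi * I))))) = 0 := by
    rw [← h1]
    refine intervalIntegral.integral_congr fun s _ => ?_
    rw [pow_zero, one_mul, ofReal_one, one_mul, hy, mul_assoc]
    rfl
  rw [e1] at h2
  have h3 : HasSum (fun m : ℕ => y * ((-y) ^ m /
      ((m.factorial : ℂ) * ((m + 1).factorial : ℂ)))) 0 := by
    rw [← hasSum_nat_add_iff' 1] at h2
    simp only [Finset.sum_range_one, pow_zero] at h2
    have e2 : Ik (0 + 0) ((1 : ℝ) : ℂ) = 0 := by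
      have := ik_nat 0 1
      simpa using this
    rw [e2, mul_zero, sub_zero] at h2
    refine h2.congrY953 fun m => ?_
    have e3 := ik_nat (m + 1) 1
    simp only [Nat.cast_one, pow_one, Nat.choose_one_right] at e3
    rw [add_zero, ofReal_one, e3, Nat.factorial_succ]
    have h4 : (m.factorial : ℂ) ≠ 0 := by exact_mod_cast m.factorial_ne_zero
    have h5 : ((m + 1 : ℕ) : ℂ) ≠ 0 := by exact_mod_cast m.succ_ne_zero
    push_cast at h5 ⊢
    field_simp
    ring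
  have h4 := (bn_has 1 y).mul_left y
  have h5 := h3.unique h4
  rw [← hy]
  rcases mul_eq_zero.1 h5.symm with h6 | h6
  · exact absurd h6 hy0
  · exact h6

/-- the integral in `lim_diff` -/
noncomputable def Jf (σ : ℝ) (y : ℂ) : ℂ := ∫ s in (0 : ℝ)..1,
  Bn 1 (y * (1 - (EE s)⁻¹)) * (EE s - 1) * EE s * exp (σ * (s * (2 * Real.pi * I)))

theorem jf_has (σ : ℝ) (y : ℂ) :
    HasSum (fun m : ℕ => (-y) ^ m / ((m.factorial : ℂ) * ((m + 1).factorial : ℂ)) *
      Ik (m + 1) ((σ + 2 : ℝ) : ℂ)) (Jf σ y) := by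
  have h := bn_int 1 1 y (σ + 2)
  have e : (∫ s in (0 : ℝ)..1, Bn 1 (y * (1 - (EE s)⁻¹)) *
        ((1 - (EE s)⁻¹) ^ 1 * exp (((σ + 2 : ℝ) : ℂ) * (s * (2 * Real.pi * I))))) = Jf σ y := by
    unfold Jf
    refine intervalIntegral.integral_congr fun s _ => ?_
    have e1 := EE_pow σ s 2
    push_cast at e1 ⊢
    rw [← e1]
    have := EE_ne s
    field_simp
  rwa [e] at h

theorem jf_nat (n : ℕ) {y : ℂ} (hy : y ≠ 0) (h : Jf n y = 0) : Bn (n + 1) y = 0 := by
  have h1 := jf_has n y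
  rw [h] at h1
  have hz : ∀ m : ℕ, (-y) ^ m / ((m.factorial : ℂ) * ((m + 1).factorial : ℂ)) *
      Ik (m + 1) (((n : ℝ) + 2 : ℝ) : ℂ) = (-y) ^ m / ((m.factorial : ℂ) *
        ((m + 1).factorial : ℂ)) * ((-1) ^ (n + 2) * ((m + 1).choose (n + 2) : ℂ)) := by
    intro m
    have := ik_nat (m + 1) (n + 2)
    push_cast at this ⊢
    rw [this]
  simp only [hz] at h1
  rw [← hasSum_nat_add_iff' (n + 1)] at h1
  have e1 : ∑ i ∈ Finset.range (n + 1), (-y) ^ i / ((i.factorial : ℂ) *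
        ((i + 1).factorial : ℂ)) * ((-1) ^ (n + 2) * ((i + 1).choose (n + 2) : ℂ)) = 0 := by
    refine Finset.sum_eq_zero fun i hi => ?_
    rw [Finset.mem_range] at hi
    rw [Nat.choose_eq_zero_of_lt (by omega)]
    simp
  rw [e1, sub_zero] at h1
  have h2 := (bn_has (n + 1) y).mul_left ((-y) ^ (n + 1) * (-1) ^ (n + 2) /
    ((n + 2).factorial : ℂ))
  have h3 : HasSum (fun m : ℕ => (-y) ^ (n + 1) * (-1) ^ (n + 2) / ((n + 2).factorial : ℂ) *
      ((-y) ^ m / ((m.factorial : ℂ) * ((m + (n + 1)).factorial : ℂ)))) 0 := by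
    refine h1.congrY953 fun m => ?_
    have e2 : ((m + (n + 1) + 1).choose (n + 2) : ℂ) * ((n + 2).factorial : ℂ) *
        (m.factorial : ℂ) = ((m + (n + 1) + 1).factorial : ℂ) := by
      have := Nat.choose_mul_factorial_mul_factorial (n := m + (n + 1) + 1) (k := n + 2) (by omega)
      rw [show m + (n + 1) + 1 - (n + 2) = m by omega] at this
      exact_mod_cast this
    have h4 : (m.factorial : ℂ) ≠ 0 := by exact_mod_cast m.factorial_ne_zero
    have h5 : ((n + 2).factorial : ℂ) ≠ 0 := by exact_mod_cast (n + 2).factorial_ne_zero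
    have h6 : ((m + (n + 1)).factorial : ℂ) ≠ 0 := by
      exact_mod_cast (m + (n + 1)).factorial_ne_zero
    have h7 : ((m + (n + 1) + 1).factorial : ℂ) ≠ 0 := by
      exact_mod_cast (m + (n + 1) + 1).factorial_ne_zero
    have h8 : ((m + (n + 1) + 1).choose (n + 2) : ℂ) = ((m + (n + 1) + 1).factorial : ℂ) /
        (((n + 2).factorial : ℂ) * (m.factorial : ℂ)) := by
      rw [← e2]
      field_simp
    rw [h8, pow_add (-y) m (n + 1)]
    field_simp
  have h4 := h3.unique h2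
  have h5 : (-y) ^ (n + 1) * (-1) ^ (n + 2) / ((n + 2).factorial : ℂ) ≠ 0 := by
    refine div_ne_zero (mul_ne_zero (pow_ne_zero _ (neg_ne_zero.2 hy)) ?_) ?_
    · exact pow_ne_zero _ (by norm_num)
    · exact_mod_cast (n + 2).factorial_ne_zero
  rcases mul_eq_zero.1 h4.symm with h6 | h6
  · exact absurd h6 h5
  · exact h6

theorem jf_frac {σ : ℝ} (hσ : ∀ n : ℤ, σ ≠ n) {y : ℂ} (h : Jf σ y = 0) :
    HasSum (fun m : ℕ => y ^ m / ((m.factorial : ℂ) *
      ∏ i ∈ Finset.range m, ((σ : ℂ) - i))) 0 := by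
  have h1 := jf_has σ y
  rw [h] at h1
  have hσ' : ∀ n : ℤ, ((σ + 2 : ℝ) : ℂ) ≠ n := by
    intro n hn
    apply hσ (n - 2)
    have : σ + 2 = (n : ℝ) := by exact_mod_cast hn
    push_cast
    linarith
  obtain ⟨c, hc⟩ : ∃ c : ℂ, c = (exp (2 * Real.pi * I * ((σ + 2 : ℝ) : ℂ)) - 1) /
    (2 * Real.pi * I) := ⟨_, rfl⟩
  have hc0 : c ≠ 0 := by
    rw [hc]
    refine div_ne_zero ?_ two_pi_I_ne
    intro h2
    rw [sub_eq_zero, Complex.exp_eq_one_iff] at h2
    obtain ⟨n, hn⟩ := h2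
    apply hσ' n
    have := two_pi_I_ne
    have h3 : (2 * Real.pi * I : ℂ) * ((σ + 2 : ℝ) : ℂ) = 2 * Real.pi * I * n := by
      rw [hn]
      ring
    exact mul_left_cancel₀ this h3
  have hn1 : (σ : ℂ) + 2 ≠ 0 := by
    have := hσ' 0
    push_cast at this
    exact this
  have hn2 : (σ : ℂ) + 1 ≠ 0 := by
    intro h3
    apply hσ' 1
    push_cast
    linear_combination h3
  have hn3 : ∀ i : ℕ, (σ : ℂ) - i ≠ 0 := by
    intro i h3
    apply hσ i
    have : (σ : ℂ) = (i : ℂ) := by linear_combination h3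
    exact_mod_cast this
  have hz : ∀ m : ℕ, (-y) ^ m / ((m.factorial : ℂ) * ((m + 1).factorial : ℂ)) *
      Ik (m + 1) ((σ + 2 : ℝ) : ℂ) = (-c / (((σ : ℂ) + 2) * ((σ : ℂ) + 1))) *
        (y ^ m / ((m.factorial : ℂ) * ∏ i ∈ Finset.range m, ((σ : ℂ) - i))) := by
    intro m
    rw [ik_frac (m + 1) _ hσ', ← hc]
    have e1 : ∏ i ∈ Finset.range (m + 1 + 1), (((σ + 2 : ℝ) : ℂ) - (i : ℂ)) =
        (∏ i ∈ Finset.range m, ((σ : ℂ) - i)) * ((σ : ℂ) + 1) * ((σ : ℂ) + 2) := by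
      rw [Finset.prod_range_succ', Finset.prod_range_succ']
      have e2 : ∏ i ∈ Finset.range m, (((σ + 2 : ℝ) : ℂ) - ((i + 1 + 1 : ℕ) : ℂ)) =
          ∏ i ∈ Finset.range m, ((σ : ℂ) - i) := by
        refine Finset.prod_congr rfl fun i _ => ?_
        push_cast
        ring
      rw [e2]
      push_cast
      ring
    rw [e1]
    have n1 : ∏ i ∈ Finset.range m, ((σ : ℂ) - (i : ℂ)) ≠ 0 :=
      Finset.prod_ne_zero_iff.2 fun i _ => hn3 i
    have h4 : (m.factorial : ℂ) ≠ 0 := by exact_mod_cast m.factorial_ne_zero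
    have h5 : ((m + 1).factorial : ℂ) ≠ 0 := by exact_mod_cast (m + 1).factorial_ne_zero
    rw [show (-y) ^ m = (-1) ^ m * y ^ m by rw [← mul_pow]; ring_nf]
    field_simp
    have h6 : ((-1 : ℂ) ^ m) * (-1) ^ (m + 1) = -1 := by
      rw [← pow_add, show m + (m + 1) = 2 * m + 1 by ring, pow_add, pow_mul]
      norm_num
    linear_combination (y ^ m) * h6
  simp only [hz] at h1
  have hK : -c / (((σ : ℂ) + 2) * ((σ : ℂ) + 1)) ≠ 0 :=
    div_ne_zero (neg_ne_zero.2 hc0) (mul_ne_zero hn1 hn2)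
  have h2 := h1.mul_left (-c / (((σ : ℂ) + 2) * ((σ : ℂ) + 1)))⁻¹
  rw [mul_zero] at h2
  refine h2.congrY953 fun m => ?_
  rw [← mul_assoc, inv_mul_cancel₀ hK, one_mul]

end Run7.h367.SF
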