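import Pool.Agent.Run7.h367.Cov

/-!
Regularly varying functions on a left half-plane, and points at which the saddle is real.
-/

set_option autoImplicit false

open Complex MeasureTheory Metric Set Filter Topology

namespace Run7.h367.SF

/-- `G` behaves like `exp (-κ t)` at `-∞` in horizontal strips, up to slowly varying factors -/
def RegVar (G : ℂ → ℂ) (κ : ℝ) : Prop :=
  ∀ K η : ℝ, 0 < K → 0 < η → ∃ T : ℝ, ∀ t w : ℂ, t.re ≤ T → |t.im| ≤ K → ‖w‖ ≤ K →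
    ‖G (t + w) / G t - exp (-(κ * w))‖ ≤ η

theorem hp_add {δ K : ℝ} {t w : ℂ} (ht : t.re ≤ δ - K - 1) (hw : ‖w‖ ≤ K) : t + w ∈ HP δ := by
  show (t + w).re < δ
  rw [Complex.add_re]
  have := (abs_le.1 ((Complex.abs_re_le_norm w).trans hw)).2
  linarith

theorem rv_deriv {G : ℂ → ℂ} {κ δ : ℝ} (hG : DifferentiableOn ℂ G (HP δ)) (hrv : RegVar G κ)
    (K η : ℝ) (hK : 0 < K) (hη : 0 < η) :
    ∃ T : ℝ, T ≤ δ - K - 2 ∧ ∀ t w : ℂ, t.re ≤ T → |t.im| ≤ K → ‖w‖ ≤ K →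
      ‖deriv G (t + w) / G t + κ * exp (-(κ * w))‖ ≤ η := by
  obtain ⟨T, hT⟩ := hrv (K + 1) η (by linarith) hη
  refine ⟨min T (δ - K - 2), min_le_right _ _, fun t w ht hi hw => ?_⟩
  have ht1 : t.re ≤ T := ht.trans (min_le_left _ _)
  have ht2 : t.re ≤ δ - (K + 1) - 1 := by
    have := ht.trans (min_le_right _ _)
    linarith
  have hd : ∀ v : ℂ, ‖v‖ ≤ K + 1 → HasDerivAt (fun v => G (t + v) / G t - exp (-(κ * v)))
      (deriv G (t + v) / G t + κ * exp (-(κ * v))) v := by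
    intro v hv
    have h1 : HasDerivAt G (deriv G (t + v)) (t + v) :=
      (hG.differentiableAt ((hp_open δ).mem_nhds (hp_add ht2 hv))).hasDerivAt
    have h2 : HasDerivAt (fun v => G (t + v)) (deriv G (t + v)) v := h1.comp_const_add t v
    have h3 : HasDerivAt (fun v : ℂ => exp (-(κ * v))) (exp (-(κ * v)) * -(κ * 1)) v :=
      (((hasDerivAt_id v).const_mul (κ : ℂ)).neg).cexp
    have h4 := (h2.div_const (G t)).sub h3
    refine h4.congr_deriv ?_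
    ring
  have hsub : ∀ v ∈ closedBall w 1, ‖v‖ ≤ K + 1 := by
    intro v hv
    rw [mem_closedBall_iff_norm] at hv
    have := norm_add_le (v - w) w
    rw [sub_add_cancel] at this
    linarith
  have hdc : DiffContOnCl ℂ (fun v => G (t + v) / G t - exp (-(κ * v))) (ball w 1) := by
    refine DifferentiableOn.diffContOnCl ?_
    intro v hv
    exact (hd v (hsub v (closure_ball_subset_closedBall hv))).differentiableAt.differentiableWithinAt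
  have h5 := Complex.norm_deriv_le_of_forall_mem_sphere_norm_le (C := η) one_pos hdc (by
    intro v hv
    exact hT t v ht1 (hi.trans (by linarith)) (hsub v (sphere_subset_closedBall hv)))
  rw [(hd w (hw.trans (by linarith))).deriv, div_one] at h5
  exact h5

theorem quot_close {N D x : ℂ} {κ ε M : ℝ} (hκ : 0 < κ) (h1 : ‖N - x‖ ≤ ε) (h2 : ‖D + κ‖ ≤ ε)
    (hε : ε ≤ κ / 2) (hx : ‖x‖ ≤ M) :
    D ≠ 0 ∧ ‖N / D + x / κ‖ ≤ ε * (2 / κ + 2 * M / κ ^ 2) := by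
  have hε0 : 0 ≤ ε := (norm_nonneg _).trans h1
  have hM : 0 ≤ M := (norm_nonneg _).trans hx
  have hD : κ / 2 ≤ ‖D‖ := by
    have h3 : ‖(κ : ℂ)‖ ≤ ‖D + κ‖ + ‖D‖ := by
      have := norm_sub_le (D + κ) D
      rwa [add_sub_cancel_left] at this
    rw [Complex.norm_real, Real.norm_of_nonneg hκ.le] at h3
    linarith
  have hD0 : D ≠ 0 := by
    rw [← norm_pos_iff]
    linarith
  have hDp : 0 < ‖D‖ := norm_pos_iff.2 hD0
  have hκc : (κ : ℂ) ≠ 0 := by exact_mod_cast hκ.ne'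
  refine ⟨hD0, ?_⟩
  have e : N / D + x / κ = (N - x) / D + x * (D + κ) / (D * κ) := by
    field_simp
    ring
  rw [e]
  refine (norm_add_le _ _).trans ?_
  rw [norm_div, norm_div, norm_mul, norm_mul, Complex.norm_real, Real.norm_of_nonneg hκ.le]
  have e1 : ‖N - x‖ / ‖D‖ ≤ ε / (κ / 2) := by gcongr
  have e2 : ‖x‖ * ‖D + κ‖ / (‖D‖ * κ) ≤ M * ε / (κ / 2 * κ) := by gcongr
  refine (add_le_add e1 e2).trans (le_of_eq ?_)
  field_simp

theorem rv_quant {G : ℂ → ℂ} {κ δ : ℝ} (hκ : 0 < κ) (hG : DifferentiableOn ℂ G (HP δ))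
    (hrv : RegVar G κ) (K η : ℝ) (hK : 0 < K) (hη : 0 < η) :
    ∃ T : ℝ, T ≤ δ - K - 2 ∧ ∀ t w : ℂ, t.re ≤ T → |t.im| ≤ K → ‖w‖ ≤ K →
      deriv G t ≠ 0 ∧ ‖deriv G (t + w) / deriv G t - exp (-(κ * w))‖ ≤ η ∧
      ‖G (t + w) / deriv G t + exp (-(κ * w)) / κ‖ ≤ η := by
  obtain ⟨M, hMd⟩ : ∃ M : ℝ, M = (κ + 1) * Real.exp (κ * K) := ⟨_, rfl⟩
  have hM : 0 < M := by rw [hMd]; positivity
  obtain ⟨c, hcd⟩ : ∃ c : ℝ, c = 2 / κ + 2 * M / κ ^ 2 := ⟨_, rfl⟩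
  have hc : 0 < c := by rw [hcd]; positivity
  obtain ⟨ε, hεd⟩ : ∃ ε : ℝ, ε = min (κ / 2) (η / c) := ⟨_, rfl⟩
  have hε : 0 < ε := by rw [hεd]; positivity
  have hε1 : ε ≤ κ / 2 := by rw [hεd]; exact min_le_left _ _
  have hε2 : ε * c ≤ η := by
    have : ε ≤ η / c := by rw [hεd]; exact min_le_right _ _
    rwa [le_div_iff₀ hc] at this
  obtain ⟨T1, hT1d, hT1⟩ := rv_deriv hG hrv K ε hK hε
  obtain ⟨T2, hT2⟩ := hrv K ε hK hε
  refine ⟨min T1 T2, (min_le_left _ _).trans hT1d, fun t w ht hi hw => ?_⟩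
  have ht1 : t.re ≤ T1 := ht.trans (min_le_left _ _)
  have ht2 : t.re ≤ T2 := ht.trans (min_le_right _ _)
  have hD := hT1 t 0 ht1 hi (by rw [norm_zero]; exact hK.le)
  rw [add_zero, mul_zero, neg_zero, Complex.exp_zero, mul_one] at hD
  have hew : ‖exp (-(κ * w))‖ ≤ Real.exp (κ * K) := by
    rw [Complex.norm_exp]
    apply Real.exp_le_exp.2
    have h1 : (-((κ : ℂ) * w)).re = κ * (-w.re) := by
      rw [Complex.neg_re, Complex.re_ofReal_mul]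
      ring
    rw [h1]
    apply mul_le_mul_of_nonneg_left _ hκ.le
    have := (abs_le.1 ((Complex.abs_re_le_norm w).trans hw)).1
    linarith
  have h1 := hT1 t w ht1 hi hw
  have h2 := hT2 t w ht2 hi hw
  have e1 : ‖deriv G (t + w) / G t - (-(κ * exp (-(κ * w))))‖ ≤ ε := by
    rw [sub_neg_eq_add]
    exact h1
  have hx1 : ‖-((κ : ℂ) * exp (-(κ * w)))‖ ≤ M := by
    rw [norm_neg, norm_mul, Complex.norm_real, Real.norm_of_nonneg hκ.le, hMd]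
    gcongr
    linarith
  have hx2 : ‖exp (-((κ : ℂ) * w))‖ ≤ M := by
    rw [hMd]
    refine hew.trans ?_
    exact le_mul_of_one_le_left (Real.exp_pos _).le (by linarith)
  obtain ⟨q1, q2⟩ := quot_close hκ e1 hD hε1 hx1
  obtain ⟨-, q3⟩ := quot_close hκ h2 hD hε1 hx2
  rw [← hcd] at q2 q3
  have hd0 : deriv G t ≠ 0 := fun h0 => q1 (by rw [h0, zero_div])
  have hg0 : G t ≠ 0 := fun h0 => q1 (by rw [h0, div_zero])
  have hκc : (κ : ℂ) ≠ 0 := by exact_mod_cast hκ.ne'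
  refine ⟨hd0, ?_, ?_⟩
  · refine le_trans (le_of_eq ?_) (q2.trans hε2)
    congr 1
    field_simp
    ring
  · refine le_trans (le_of_eq ?_) (q3.trans hε2)
    congr 1
    field_simp

/-- the points where the saddle is real -/
theorem dir_exists {G : ℂ → ℂ} {κ δ a : ℝ} (ha : 0 < a) (hκ : 1 < κ)
    (hG : DifferentiableOn ℂ G (HP δ)) (hrv : RegVar G κ) :
    ∃ n0 : ℕ, ∀ n : ℕ, n0 ≤ n → ∃ (θ A : ℝ), 0 ≤ θ ∧ θ ≤ 4 * Real.pi / (κ - 1) ∧ 0 < A ∧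
      a * ‖deriv G (-(n : ℂ)) * exp (-(n : ℂ))‖ ≤ 2 * A ^ 2 ∧
      (a : ℂ) * (deriv G (-(n : ℂ) + θ * I) * exp (-(n : ℂ) + θ * I)) = (A : ℂ) ^ 2 := by
  have hν : 0 < κ - 1 := by linarith
  have hπ := Real.pi_pos
  obtain ⟨Θ, hΘd⟩ : ∃ Θ : ℝ, Θ = 4 * Real.pi / (κ - 1) := ⟨_, rfl⟩
  have hΘ : 0 < Θ := by rw [hΘd]; positivity
  have hΘν : (κ - 1) * Θ = 4 * Real.pi := by rw [hΘd]; field_simp
  obtain ⟨T, hTd, hT⟩ := rv_quant (by linarith) hG hrv (Θ + 1) (1 / 2) (by linarith) (by norm_num)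
  obtain ⟨n0, hn0⟩ := exists_nat_ge (-T)
  refine ⟨n0, fun n hn => ?_⟩
  have hnT : (-(n : ℂ)).re ≤ T := by
    rw [Complex.neg_re, Complex.natCast_re]
    have : (n0 : ℝ) ≤ n := by exact_mod_cast hn
    linarith
  have hni : |(-(n : ℂ)).im| ≤ Θ + 1 := by
    rw [Complex.neg_im, Complex.natCast_im, neg_zero, abs_zero]
    linarith
  obtain ⟨P, hP⟩ : ∃ P : ℂ → ℂ, P = fun t => deriv G t * exp t := ⟨_, rfl⟩
  obtain ⟨hd0, -, -⟩ := hT (-(n : ℂ)) 0 hnT hni (by rw [norm_zero]; linarith)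
  have hP0 : P (-(n : ℂ)) ≠ 0 := by
    rw [hP]
    exact mul_ne_zero hd0 (Complex.exp_ne_zero _)
  obtain ⟨u, hu⟩ : ∃ u : ℝ → ℂ, u = fun θ : ℝ => P (-(n : ℂ) + θ * I) / P (-(n : ℂ)) *
      exp (((κ - 1) * θ : ℝ) * I) := ⟨_, rfl⟩
  have hwn : ∀ θ ∈ Icc (0 : ℝ) Θ, ‖(θ : ℂ) * I‖ ≤ Θ + 1 := by
    intro θ hθ
    rw [norm_mul, Complex.norm_I, mul_one, Complex.norm_real, Real.norm_of_nonneg hθ.1]
    linarith [hθ.2]
  have hu1 : ∀ θ ∈ Icc (0 : ℝ) Θ, ‖u θ - 1‖ ≤ 1 / 2 := by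
    intro θ hθ
    obtain ⟨-, h1, -⟩ := hT (-(n : ℂ)) (θ * I) hnT hni (hwn θ hθ)
    have e1 : u θ - 1 = (deriv G (-(n : ℂ) + θ * I) / deriv G (-(n : ℂ)) -
        exp (-(κ * (θ * I)))) * exp ((κ * θ : ℝ) * I) := by
      rw [hu, hP]
      simp only
      have e2 : exp (-(n : ℂ) + θ * I) = exp (-(n : ℂ)) * exp (θ * I) := Complex.exp_add _ _
      have e3 : exp (θ * I) * exp (((κ - 1) * θ : ℝ) * I) = exp ((κ * θ : ℝ) * I) := by
        rw [← Complex.exp_add]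
        congr 1
        push_cast
        ring
      have e4 : exp (-(κ * (θ * I))) * exp ((κ * θ : ℝ) * I) = 1 := by
        rw [← Complex.exp_add, ← Complex.exp_zero]
        congr 1
        push_cast
        ring
      have e5 : exp (-(n : ℂ)) ≠ 0 := Complex.exp_ne_zero _
      rw [sub_mul (deriv G (-(n : ℂ) + θ * I) / deriv G (-(n : ℂ))), e4, e2, ← e3]
      field_simp
    rw [e1, norm_mul, Complex.norm_exp_ofReal_mul_I, mul_one]
    exact h1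
  have hHP : ∀ θ ∈ Icc (0 : ℝ) Θ, -(n : ℂ) + θ * I ∈ HP δ := by
    intro θ hθ
    exact hp_add (by linarith [hnT, hTd]) (hwn θ hθ)
  have huc : ContinuousOn u (Icc 0 Θ) := by
    rw [hu, hP]
    have h1 : ContinuousOn (fun θ : ℝ => deriv G (-(n : ℂ) + θ * I)) (Icc 0 Θ) := by
      refine (hG.deriv (hp_open δ)).continuousOn.comp (f := fun θ : ℝ => -(n : ℂ) + θ * I)
        (by fun_prop) hHP
    refine ContinuousOn.mul (ContinuousOn.div_const (ContinuousOn.mul h1 ?_) _) ?_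
    · fun_prop
    · fun_prop
  have hslit : ∀ θ ∈ Icc (0 : ℝ) Θ, u θ ∈ slitPlane := by
    intro θ hθ
    left
    have h1 := hu1 θ hθ
    have h2 := (abs_le.1 ((Complex.abs_re_le_norm _).trans h1)).1
    rw [Complex.sub_re, Complex.one_re] at h2
    linarith
  have hΨc : ContinuousOn (fun θ : ℝ => arg (P (-(n : ℂ))) - (κ - 1) * θ + arg (u θ))
      (Icc 0 Θ) := by
    refine ContinuousOn.add (by fun_prop) ?_
    intro θ hθ
    exact (continuousAt_arg (hslit θ hθ)).comp_continuousWithinAt (huc θ hθ)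
  have hu0 : u 0 = 1 := by
    rw [hu]
    simp only [Complex.ofReal_zero, zero_mul, add_zero, mul_zero, Complex.exp_zero, mul_one]
    exact div_self hP0
  have hiv := intermediate_value_Icc' hΘ.le hΨc
  have hmem : -(2 * Real.pi) ∈ Icc
      ((fun θ : ℝ => arg (P (-(n : ℂ))) - (κ - 1) * θ + arg (u θ)) Θ)
      ((fun θ : ℝ => arg (P (-(n : ℂ))) - (κ - 1) * θ + arg (u θ)) 0) := by
    constructor
    · simp only
      rw [hΘν]
      have h1 := arg_le_pi (P (-(n : ℂ)))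
      have h2 := arg_le_pi (u Θ)
      linarith
    · simp only
      rw [hu0, arg_one, mul_zero]
      have h1 := neg_pi_lt_arg (P (-(n : ℂ)))
      linarith
  obtain ⟨θ, hθ, hθe⟩ := hiv hmem
  simp only at hθe
  have hun : 1 / 2 ≤ ‖u θ‖ := by
    have h1 := hu1 θ hθ
    have h2 := norm_sub_norm_le (1 : ℂ) (1 - u θ)
    rw [sub_sub_cancel, norm_one, ← norm_neg (1 - u θ), neg_sub] at h2
    linarith
  have hval : P (-(n : ℂ) + θ * I) = ((‖P (-(n : ℂ))‖ * ‖u θ‖ : ℝ) : ℂ) := by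
    have h1 : P (-(n : ℂ) + θ * I) = P (-(n : ℂ)) * u θ * exp (((-((κ - 1) * θ)) : ℝ) * I) := by
      rw [hu]
      simp only
      have e1 : exp (((κ - 1) * θ : ℝ) * I) * exp (((-((κ - 1) * θ)) : ℝ) * I) = 1 := by
        rw [← Complex.exp_add, ← Complex.exp_zero]
        congr 1
        push_cast
        ring
      have e2 : P (-(n : ℂ)) * (P (-(n : ℂ) + θ * I) / P (-(n : ℂ)) *
          exp (((κ - 1) * θ : ℝ) * I)) * exp (((-((κ - 1) * θ)) : ℝ) * I) =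
          P (-(n : ℂ) + θ * I) * (exp (((κ - 1) * θ : ℝ) * I) *
          exp (((-((κ - 1) * θ)) : ℝ) * I)) * (P (-(n : ℂ)) / P (-(n : ℂ))) := by ring
      rw [e2, e1, div_self hP0, mul_one, mul_one]
    have h2 : P (-(n : ℂ)) = ‖P (-(n : ℂ))‖ * exp (arg (P (-(n : ℂ))) * I) :=
      (Complex.norm_mul_exp_arg_mul_I _).symm
    have h3 : u θ = ‖u θ‖ * exp (arg (u θ) * I) := (Complex.norm_mul_exp_arg_mul_I _).symm
    have h4 : exp (arg (P (-(n : ℂ))) * I) * exp (arg (u θ) * I) *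
        exp (((-((κ - 1) * θ)) : ℝ) * I) = 1 := by
      rw [← Complex.exp_add, ← Complex.exp_add]
      have e5 : (arg (P (-(n : ℂ))) : ℂ) * I + arg (u θ) * I + ((-((κ - 1) * θ) : ℝ) : ℂ) * I =
          ((arg (P (-(n : ℂ))) - (κ - 1) * θ + arg (u θ) : ℝ) : ℂ) * I := by
        push_cast
        ring
      rw [e5, hθe]
      have e6 : ((-(2 * Real.pi) : ℝ) : ℂ) * I = -(2 * Real.pi * I) := by
        push_cast
        ring
      rw [e6, Complex.exp_neg, Complex.exp_two_pi_mul_I, inv_one]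
    calc P (-(n : ℂ) + θ * I) = P (-(n : ℂ)) * u θ * exp (((-((κ - 1) * θ)) : ℝ) * I) := h1
      _ = (‖P (-(n : ℂ))‖ * exp (arg (P (-(n : ℂ))) * I)) * (‖u θ‖ * exp (arg (u θ) * I)) *
          exp (((-((κ - 1) * θ)) : ℝ) * I) := by rw [← h2, ← h3]
      _ = (‖P (-(n : ℂ))‖ * ‖u θ‖) * (exp (arg (P (-(n : ℂ))) * I) * exp (arg (u θ) * I) *
          exp (((-((κ - 1) * θ)) : ℝ) * I)) := by ring
      _ = _ := by rw [h4, mul_one]; push_cast; ring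
  have hPp : 0 < ‖P (-(n : ℂ))‖ := norm_pos_iff.2 hP0
  obtain ⟨q, hq⟩ : ∃ q : ℝ, q = a * (‖P (-(n : ℂ))‖ * ‖u θ‖) := ⟨_, rfl⟩
  have hq0 : 0 < q := by rw [hq]; positivity
  refine ⟨θ, √q, hθ.1, by rw [← hΘd]; exact hθ.2, Real.sqrt_pos.2 hq0, ?_, ?_⟩
  · rw [Real.sq_sqrt hq0.le, hq]
    have e7 : ‖deriv G (-(n : ℂ)) * exp (-(n : ℂ))‖ = ‖P (-(n : ℂ))‖ := by rw [hP]
    rw [e7]
    nlinarith [mul_pos ha hPp]
  · rw [← Complex.ofReal_pow, Real.sq_sqrt hq0.le, hq]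
    have e8 : deriv G (-(n : ℂ) + θ * I) * exp (-(n : ℂ) + θ * I) = P (-(n : ℂ) + θ * I) := by
      rw [hP]
    rw [e8, hval]
    push_cast
    ring

/-- the growth of `G' exp` -/
theorem growth {G : ℂ → ℂ} {κ δ : ℝ} (hκ : 1 < κ)
    (hG : DifferentiableOn ℂ G (HP δ)) (hrv : RegVar G κ) :
    Tendsto (fun n : ℕ => ‖deriv G (-(n : ℂ)) * exp (-(n : ℂ))‖) atTop atTop := by
  have hν : 0 < κ - 1 := by linarith
  obtain ⟨c, hc⟩ : ∃ c : ℝ, c = Real.exp (κ - 1) := ⟨_, rfl⟩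
  have hc1 : 1 < c := by
    rw [hc]
    exact Real.one_lt_exp_iff.2 hν
  have he1 : Real.exp (-1) * Real.exp κ = c := by
    rw [hc, ← Real.exp_add]
    congr 1
    ring
  obtain ⟨T, hTd, hT⟩ := rv_quant (by linarith) hG hrv 1 ((c - 1) / 2 * Real.exp 1) one_pos
    (by have := Real.exp_pos 1; nlinarith)
  obtain ⟨n0, hn0⟩ := exists_nat_ge (-T)
  obtain ⟨v, hv⟩ : ∃ v : ℕ → ℝ, v = fun n : ℕ =>
    ‖deriv G (-((n + n0 : ℕ) : ℂ)) * exp (-((n + n0 : ℕ) : ℂ))‖ := ⟨_, rfl⟩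
  have hb : ∀ n : ℕ, (-((n + n0 : ℕ) : ℂ)).re ≤ T ∧ |(-((n + n0 : ℕ) : ℂ)).im| ≤ 1 := by
    intro n
    rw [Complex.neg_re, Complex.natCast_re, Complex.neg_im, Complex.natCast_im, neg_zero, abs_zero]
    push_cast
    exact ⟨by linarith [Nat.cast_nonneg (α := ℝ) n], zero_le_one⟩
  have hvp : ∀ n, 0 < v n := by
    intro n
    rw [hv]
    obtain ⟨h1, -, -⟩ := hT _ 0 (hb n).1 (hb n).2 (by rw [norm_zero]; exact zero_le_one)
    exact norm_pos_iff.2 (mul_ne_zero h1 (Complex.exp_ne_zero _))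
  have hstep : ∀ n, (c + 1) / 2 * v n ≤ v (n + 1) := by
    intro n
    obtain ⟨h1, h2, -⟩ := hT _ (-1) (hb n).1 (hb n).2 (by rw [norm_neg, norm_one])
    have e1 : (-((n + n0 : ℕ) : ℂ)) + -1 = -((n + 1 + n0 : ℕ) : ℂ) := by
      push_cast
      ring
    rw [e1] at h2
    have e2 : ‖exp (-((κ : ℂ) * -1))‖ = Real.exp κ := by
      rw [Complex.norm_exp]
      congr 1
      simp
    have h3 : Real.exp κ - (c - 1) / 2 * Real.exp 1 ≤
        ‖deriv G (-((n + 1 + n0 : ℕ) : ℂ)) / deriv G (-((n + n0 : ℕ) : ℂ))‖ := by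
      have := norm_sub_norm_le (exp (-((κ : ℂ) * -1))) (exp (-((κ : ℂ) * -1)) -
        deriv G (-((n + 1 + n0 : ℕ) : ℂ)) / deriv G (-((n + n0 : ℕ) : ℂ)))
      rw [sub_sub_cancel, e2, ← norm_neg (exp (-((κ : ℂ) * -1)) - _), neg_sub] at this
      linarith
    rw [norm_div, le_div_iff₀ (norm_pos_iff.2 h1)] at h3
    have e3 : v (n + 1) = ‖deriv G (-((n + 1 + n0 : ℕ) : ℂ))‖ * Real.exp (-((n + 1 + n0 : ℕ) : ℝ)) := by
      rw [hv]
      simp only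
      rw [norm_mul, Complex.norm_exp]
      congr 2
    have e4 : v n = ‖deriv G (-((n + n0 : ℕ) : ℂ))‖ * Real.exp (-((n + n0 : ℕ) : ℝ)) := by
      rw [hv]
      simp only
      rw [norm_mul, Complex.norm_exp]
      congr 2
    have e5 : Real.exp (-((n + 1 + n0 : ℕ) : ℝ)) = Real.exp (-((n + n0 : ℕ) : ℝ)) * Real.exp (-1) := by
      rw [← Real.exp_add]
      congr 1
      push_cast
      ring
    rw [e3, e4, e5]
    have e6 : Real.exp 1 * Real.exp (-1) = 1 := by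
      rw [← Real.exp_add]
      simp
    have h4 := mul_le_mul_of_nonneg_right h3
      (mul_nonneg (Real.exp_pos (-((n + n0 : ℕ) : ℝ))).le (Real.exp_pos (-1)).le)
    refine le_trans (le_of_eq ?_) (h4.trans (le_of_eq (by ring)))
    obtain ⟨y, hy⟩ : ∃ y : ℝ, y = Real.exp (-((n + n0 : ℕ) : ℝ)) := ⟨_, rfl⟩
    rw [← hy]
    have e7 : (Real.exp κ - (c - 1) / 2 * Real.exp 1) * Real.exp (-1) = (c + 1) / 2 := by
      have : (Real.exp κ - (c - 1) / 2 * Real.exp 1) * Real.exp (-1) =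
        Real.exp (-1) * Real.exp κ - (c - 1) / 2 * (Real.exp 1 * Real.exp (-1)) := by ring
      rw [this, he1, e6]
      ring
    rw [← e7]
    ring
  have h1 := tendsto_atTop_of_geom_le (hvp 0) (by linarith : 1 < (c + 1) / 2) hstep
  rw [hv] at h1
  exact (tendsto_add_atTop_iff_nat (f := fun n : ℕ =>
    ‖deriv G (-(n : ℂ)) * exp (-(n : ℂ))‖) n0).1 h1

theorem seq_exists {G : ℂ → ℂ} {κ δ a : ℝ} (ha : 0 < a) (hκ : 1 < κ)
    (hG : DifferentiableOn ℂ G (HP δ)) (hrv : RegVar G κ) :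
    ∃ (s : ℕ → ℂ) (A : ℕ → ℝ) (K : ℝ), 0 < K ∧ (∀ n, 0 < A n) ∧ Tendsto A atTop atTop ∧
      Tendsto (fun n => (s n).re) atTop atBot ∧ (∀ n, |(s n).im| ≤ K) ∧
      ∀ n, (a : ℂ) * (deriv G (s n) * exp (s n)) = (A n : ℂ) ^ 2 := by
  obtain ⟨n0, hn0⟩ := dir_exists ha hκ hG hrv
  have h1 : ∀ n : ℕ, ∃ (θ A : ℝ), 0 ≤ θ ∧ θ ≤ 4 * Real.pi / (κ - 1) ∧ 0 < A ∧
      a * ‖deriv G (-((n + n0 : ℕ) : ℂ)) * exp (-((n + n0 : ℕ) : ℂ))‖ ≤ 2 * A ^ 2 ∧
      (a : ℂ) * (deriv G (-((n + n0 : ℕ) : ℂ) + θ * I) * exp (-((n + n0 : ℕ) : ℂ) + θ * I)) =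
        (A : ℂ) ^ 2 := fun n => hn0 (n + n0) (Nat.le_add_left _ _)
  choose θ A hθ0 hθ1 hA0 hA1 hA2 using h1
  have hν : 0 < κ - 1 := by linarith
  have hπ := Real.pi_pos
  refine ⟨fun n => -((n + n0 : ℕ) : ℂ) + θ n * I, A, 4 * Real.pi / (κ - 1), by positivity, hA0,
    ?_, ?_, ?_, hA2⟩
  · have h2 := (growth hκ hG hrv)
    have h3 := (tendsto_add_atTop_iff_nat (f := fun n : ℕ =>
      ‖deriv G (-(n : ℂ)) * exp (-(n : ℂ))‖) n0).2 h2
    have h4 : Tendsto (fun n => 2 * A n ^ 2) atTop atTop := by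
      refine tendsto_atTop_mono hA1 (h3.const_mul_atTop ha)
    rw [Filter.tendsto_atTop]
    intro M
    have h5 := h4.eventually_gt_atTop (2 * (|M|) ^ 2)
    filter_upwards [h5] with n hn
    have h6 : |M| ^ 2 < A n ^ 2 := by linarith
    have h7 := abs_lt_of_sq_lt_sq h6 (hA0 n).le
    rw [abs_abs] at h7
    exact (le_abs_self M).trans h7.le
  · have h2 : (fun n : ℕ => (-((n + n0 : ℕ) : ℂ) + θ n * I).re) = fun n : ℕ =>
        -((n + n0 : ℕ) : ℝ) := by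
      funext n
      simp
    rw [h2]
    exact tendsto_neg_atTop_atBot.comp
      ((tendsto_natCast_atTop_atTop).comp (tendsto_add_atTop_nat n0))
  · intro n
    have h2 : (-((n + n0 : ℕ) : ℂ) + θ n * I).im = θ n := by simp
    rw [h2, abs_of_nonneg (hθ0 n)]
    exact hθ1 n

end Run7.h367.SF
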