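import Pool.Agent.Run7.h367.Quant2
import Pool.Agent.Run7.h367.Bes

/-!
Singularities with finitely many sheets.
-/

set_option autoImplicit false

open Complex MeasureTheory Metric Set Filter Topology
open Pool.Agent.Y245.SC
open Pool.Agent.Y245.SG (Bn)

namespace Run7.h367.SF

/-! ### operations -/

theorem hp_iff {δ : ℝ} {t : ℂ} : t ∈ HP δ ↔ t.re < δ := Iff.rfl

theorem turn_shift {a δ : ℝ} {G : ℂ → ℂ} (h : Turn a δ G) :
    Turn a δ (fun t => G (t + 2 * Real.pi * I)) := by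
  have hm : ∀ t ∈ HP δ, t + 2 * Real.pi * I ∈ HP δ := by
    intro t ht
    rw [hp_iff] at ht ⊢
    simpa using ht
  refine ⟨h.1.comp (by fun_prop) hm, fun b t ht => ?_⟩
  have h1 := h.2 b _ (hm t ht)
  rw [h1]
  unfold seg
  refine intervalIntegral.integral_congr fun s _ => ?_
  have e2 : t + 2 * Real.pi * I + s * (t + 2 * Real.pi * I + 2 * Real.pi * I -
      (t + 2 * Real.pi * I)) = t + s * (t + 2 * Real.pi * I - t) + 2 * Real.pi * I := by ring
  have e3 : t + 2 * Real.pi * I + 2 * Real.pi * I - (t + 2 * Real.pi * I) =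
      t + 2 * Real.pi * I - t := by ring
  rw [kk_per, e2, e3]
  unfold KK
  rw [Complex.exp_add, Complex.exp_two_pi_mul_I, mul_one]

theorem turn_rot {a δ : ℝ} {G : ℂ → ℂ} (h : Turn a δ G) (w : ℂ) (θ : ℝ) :
    Turn a δ (fun t => w + exp (θ * I) * (G (t + θ * I) - w)) := by
  have hm : ∀ t ∈ HP δ, t + θ * I ∈ HP δ := by
    intro t ht
    rw [hp_iff] at ht ⊢
    simpa using ht
  have hd : DifferentiableOn ℂ (fun t => G (t + θ * I)) (HP δ) := h.1.comp (by fun_prop) hm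
  refine ⟨((hd.sub_const w).const_mul _).const_add w, fun b t ht => ?_⟩
  have hE : exp (θ * I) ≠ 0 := Complex.exp_ne_zero _
  have h1 := h.2 (w + (b - w) / exp (θ * I)) _ (hm t ht)
  have e1 : t + 2 * Real.pi * I + θ * I = t + θ * I + 2 * Real.pi * I := by ring
  have e2 : w + exp (θ * I) * (G (t + 2 * Real.pi * I + θ * I) - w) -
      (w + exp (θ * I) * (G (t + θ * I) - w)) =
      exp (θ * I) * (G (t + θ * I + 2 * Real.pi * I) - G (t + θ * I)) := by
    rw [e1]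
    ring
  simp only
  rw [e2, h1]
  unfold seg
  rw [← intervalIntegral.integral_const_mul]
  refine intervalIntegral.integral_congr fun s _ => ?_
  have e3 : t + θ * I + s * (t + θ * I + 2 * Real.pi * I - (t + θ * I)) =
      t + s * (t + 2 * Real.pi * I - t) + θ * I := by ring
  have e4 : t + θ * I + 2 * Real.pi * I - (t + θ * I) = t + 2 * Real.pi * I - t := by ring
  rw [e3, e4]
  unfold KK
  obtain ⟨u, hu⟩ : ∃ u : ℂ, u = t + s * (t + 2 * Real.pi * I - t) := ⟨_, rfl⟩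
  rw [← hu]
  have e5 : G (u + θ * I) - (w + (b - w) / exp (θ * I)) =
      (w + exp (θ * I) * (G (u + θ * I) - w) - b) / exp (θ * I) := by
    field_simp
    ring
  have e6 : exp (u + θ * I) - exp (t + θ * I) = exp (θ * I) * (exp u - exp t) := by
    rw [Complex.exp_add, Complex.exp_add]
    ring
  rw [e5, e6]
  have e7 : (w + exp (θ * I) * (G (u + θ * I) - w) - b) / exp (θ * I) *
      (exp (θ * I) * (exp u - exp t)) =
      (w + exp (θ * I) * (G (u + θ * I) - w) - b) * (exp u - exp t) := by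
    field_simp
  rw [e7, Complex.exp_add u]
  field_simp

theorem pole_shift {G : ℂ → ℂ} {w C : ℂ} (p : Pole G w C) :
    Pole (fun t => G (t + 2 * Real.pi * I)) w C := by
  intro K η hK hη
  have hpi := Real.pi_pos
  obtain ⟨T, hT⟩ := p (K + 2 * Real.pi) η (by positivity) hη
  refine ⟨T, fun t h1 h2 => ?_⟩
  have h3 := hT (t + 2 * Real.pi * I) (by simpa using h1) (by
    have : (t + 2 * Real.pi * I).im = t.im + 2 * Real.pi := by simp
    rw [this]
    refine (abs_add_le _ _).trans ?_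
    rw [abs_of_pos (by positivity : 0 < 2 * Real.pi)]
    linarith)
  rwa [Complex.exp_add, Complex.exp_two_pi_mul_I, mul_one] at h3

theorem pole_rot {G : ℂ → ℂ} {w C : ℂ} (p : Pole G w C) (θ : ℝ) :
    Pole (fun t => w + exp (θ * I) * (G (t + θ * I) - w)) w C := by
  intro K η hK hη
  obtain ⟨T, hT⟩ := p (K + |θ|) η (by positivity) hη
  refine ⟨T, fun t h1 h2 => ?_⟩
  have h3 := hT (t + θ * I) (by simpa using h1) (by
    have : (t + θ * I).im = t.im + θ := by simp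
    rw [this]
    refine (abs_add_le _ _).trans ?_
    linarith)
  have e1 : exp t * (w + exp (θ * I) * (G (t + θ * I) - w) - w) =
      exp (t + θ * I) * (G (t + θ * I) - w) := by
    rw [Complex.exp_add]
    ring
  rw [e1]
  exact h3

/-- regular variation of the difference of a function and its rotation -/
theorem rv_rot {d : ℂ → ℂ} {σ : ℝ} (hσ : -1 < σ) (hd : RegVar d (-σ)) :
    RegVar (fun t => d t - exp ((Real.pi / (1 + σ) : ℝ) * I) *
      d (t + (Real.pi / (1 + σ) : ℝ) * I)) (-σ) := by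
  have hpi := Real.pi_pos
  have hσ1 : 0 < 1 + σ := by linarith
  obtain ⟨θ, hθ⟩ : ∃ θ : ℝ, θ = Real.pi / (1 + σ) := ⟨_, rfl⟩
  have hθ0 : 0 < θ := by rw [hθ]; positivity
  have hθσ : θ * (1 + σ) = Real.pi := by rw [hθ]; field_simp
  rw [← hθ]
  intro K η hK hη
  obtain ⟨M, hM⟩ : ∃ M : ℝ, M = Real.exp (|σ| * K) := ⟨_, rfl⟩
  have hM0 : 0 < M := by rw [hM]; exact Real.exp_pos _
  obtain ⟨ε, hε⟩ : ∃ ε : ℝ, ε = min (1 / 2) (η / (3 + 2 * M)) := ⟨_, rfl⟩
  have hε0 : 0 < ε := by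
    rw [hε]
    exact lt_min (by norm_num) (by positivity)
  have hε1 : ε ≤ 1 / 2 := by rw [hε]; exact min_le_left _ _
  have hε2 : ε * (3 + 2 * M) ≤ η := by
    have : ε ≤ η / (3 + 2 * M) := by rw [hε]; exact min_le_right _ _
    exact (le_div_iff₀ (by positivity)).1 this
  obtain ⟨T, hT⟩ := hd (2 * K + θ) ε (by positivity) hε0
  refine ⟨T - K, fun t v h1 h2 h3 => ?_⟩
  have hθI : ‖(θ : ℂ) * I‖ = θ := by
    rw [norm_mul, Complex.norm_I, mul_one, Complex.norm_real, Real.norm_of_nonneg hθ0.le]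
  have e0 : ∀ x : ℂ, -(((-σ : ℝ) : ℂ) * x) = σ * x := by
    intro x
    push_cast
    ring
  have hvre := (abs_le.1 ((Complex.abs_re_le_norm v).trans h3)).2
  have hvim := (Complex.abs_im_le_norm v).trans h3
  have X1 := hT t v (by linarith) (by linarith) (by linarith)
  have Y1 := hT (t + v) (θ * I) (by rw [Complex.add_re]; linarith) (by
    rw [Complex.add_im]
    refine (abs_add_le _ _).trans ?_
    linarith) (by rw [hθI]; linarith)
  have Z1 := hT t (θ * I) (by linarith) (by linarith) (by rw [hθI]; linarith)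
  rw [e0] at X1 Y1 Z1
  have hm1 : exp (θ * I) * exp (σ * (θ * I)) = -1 := by
    rw [← Complex.exp_add, show (θ : ℂ) * I + σ * (θ * I) = ((θ * (1 + σ) : ℝ) : ℂ) * I by
      push_cast; ring, hθσ, Complex.exp_pi_mul_I]
  obtain ⟨X, hX⟩ : ∃ X : ℂ, X = d (t + v) / d t := ⟨_, rfl⟩
  obtain ⟨Y, hY⟩ : ∃ Y : ℂ, Y = exp (θ * I) * (d (t + v + θ * I) / d (t + v)) := ⟨_, rfl⟩
  obtain ⟨Z, hZ⟩ : ∃ Z : ℂ, Z = exp (θ * I) * (d (t + θ * I) / d t) := ⟨_, rfl⟩
  have hne : ‖exp ((θ : ℂ) * I)‖ = 1 := Complex.norm_exp_ofReal_mul_I θ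
  have hY2 : ‖Y + 1‖ ≤ ε := by
    have : Y + 1 = exp (θ * I) * (d (t + v + θ * I) / d (t + v) - exp (σ * (θ * I))) := by
      rw [mul_sub, hm1, hY]
      ring
    rw [this, norm_mul, hne, one_mul]
    exact Y1
  have hZ2 : ‖Z + 1‖ ≤ ε := by
    have : Z + 1 = exp (θ * I) * (d (t + θ * I) / d t - exp (σ * (θ * I))) := by
      rw [mul_sub, hm1, hZ]
      ring
    rw [this, norm_mul, hne, one_mul]
    exact Z1
  have hz0 : 1 ≤ ‖1 - Z‖ := by
    have h4 : ‖(2 : ℂ)‖ ≤ ‖1 - Z‖ + ‖Z + 1‖ := by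
      have := norm_add_le (1 - Z) (Z + 1)
      rwa [show (1 - Z) + (Z + 1) = (2 : ℂ) by ring] at this
    rw [Complex.norm_ofNat] at h4
    linarith
  have hd0 : d t ≠ 0 := by
    intro h4
    rw [hZ, h4, div_zero, mul_zero, zero_add, norm_one] at hZ2
    linarith
  have hd1 : d (t + v) ≠ 0 := by
    intro h4
    rw [hY, h4, div_zero, mul_zero, zero_add, norm_one] at hY2
    linarith
  have hz1 : 1 - Z ≠ 0 := by
    intro h4
    rw [h4, norm_zero] at hz0
    linarith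
  have hq : (d (t + v) - exp (θ * I) * d (t + v + θ * I)) / (d t - exp (θ * I) * d (t + θ * I)) =
      X * (1 - Y) / (1 - Z) := by
    have e1 : d (t + v) - exp (θ * I) * d (t + v + θ * I) = d (t + v) * (1 - Y) := by
      rw [hY]
      field_simp
    have e2 : d t - exp (θ * I) * d (t + θ * I) = d t * (1 - Z) := by
      rw [hZ]
      field_simp
    rw [e1, e2, hX]
    field_simp
  rw [hq, e0]
  have hE : ‖exp (σ * v)‖ ≤ M := by
    rw [Complex.norm_exp, hM]
    apply Real.exp_le_exp.2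
    rw [Complex.re_ofReal_mul]
    calc σ * v.re ≤ |σ * v.re| := le_abs_self _
      _ = |σ| * |v.re| := abs_mul _ _
      _ ≤ |σ| * K := mul_le_mul_of_nonneg_left ((Complex.abs_re_le_norm v).trans h3)
          (abs_nonneg _)
  have hdif : X * (1 - Y) / (1 - Z) - exp (σ * v) =
      ((X - exp (σ * v)) * (2 - (Y + 1)) + exp (σ * v) * ((Z + 1) - (Y + 1))) / (1 - Z) := by
    field_simp
    ring
  rw [hdif, norm_div]
  rw [← hX] at X1
  have h5 : ‖(X - exp (σ * v)) * (2 - (Y + 1)) + exp (σ * v) * ((Z + 1) - (Y + 1))‖ ≤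
      ε * (2 + ε) + M * (ε + ε) := by
    refine (norm_add_le _ _).trans ?_
    rw [norm_mul, norm_mul]
    have h6 : ‖(2 : ℂ) - (Y + 1)‖ ≤ 2 + ε := by
      refine (norm_sub_le _ _).trans ?_
      rw [Complex.norm_ofNat]
      linarith
    have h7 : ‖(Z + 1) - (Y + 1)‖ ≤ ε + ε := (norm_sub_le _ _).trans (by linarith)
    gcongr
  calc _ / ‖1 - Z‖ ≤ (ε * (2 + ε) + M * (ε + ε)) / 1 := by gcongr
    _ ≤ η := by
        rw [div_one]
        nlinarith

/-- the condition on the exponent of the first correction -/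
theorem first_exp (hk : S_KAP) {a δ σ : ℝ} (ha : 0 < a) (hσ : -1 < σ) {G d : ℂ → ℂ} {w C : ℂ}
    (h : Turn a δ G) (p : Pole G w C) (hd : ∀ t ∈ HP δ, G t = w + C * exp (-t) + d t)
    (hrv : RegVar d (-σ)) : Jf σ (a * C) = 0 := by
  have h1 := lim_diff hk ha h (turn_rot h w (Real.pi / (1 + σ))) p
    (pole_rot p (Real.pi / (1 + σ))) (D := fun t => d t - exp ((Real.pi / (1 + σ) : ℝ) * I) *
      d (t + (Real.pi / (1 + σ) : ℝ) * I)) ?_ (rv_rot hσ hrv)
  · unfold Jf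
    rw [← h1]
    refine intervalIntegral.integral_congr fun s _ => ?_
    rw [mul_assoc (a : ℂ) C]
  · intro t ht
    have hm : t + (Real.pi / (1 + σ) : ℝ) * I ∈ HP δ := by
      rw [hp_iff] at ht ⊢
      rw [Complex.add_re, Complex.re_ofReal_mul, Complex.I_re, mul_zero, add_zero]
      exact ht
    rw [hd t ht, hd _ hm]
    have e1 : exp (-(t + (Real.pi / (1 + σ) : ℝ) * I)) =
        exp (-t) * (exp ((Real.pi / (1 + σ) : ℝ) * I))⁻¹ := by
      rw [← Complex.exp_neg, ← Complex.exp_add]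
      congr 1
      ring
    rw [e1]
    have := Complex.exp_ne_zero (((Real.pi / (1 + σ) : ℝ) : ℂ) * I)
    field_simp
    ring

/-- consequences: the exponent of the first correction is not an integer, it is larger than one
and the Bessel functions vanish -/
theorem first_exp_concl {a σ : ℝ} (ha : 0 < a) (hσ : -1 < σ) (hσ0 : σ ≠ 0) {C : ℂ} (hC : C ≠ 0)
    (h1 : Bn 1 (a * C) = 0) (hJ : Jf σ (a * C) = 0) :
    (∀ n : ℤ, σ ≠ n) ∧ 1 < σ ∧ (∃ x : ℝ, 0 < x ∧ C = x) ∧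
    HasSum (fun m : ℕ => ((a : ℂ) * C) ^ m / ((m.factorial : ℂ) *
      ∏ i ∈ Finset.range m, ((σ : ℂ) - i))) 0 := by
  have hy0 : (a : ℂ) * C ≠ 0 := mul_ne_zero (by exact_mod_cast ha.ne') hC
  obtain ⟨x, hx, hxy⟩ := bn_real hy0 h1
  have hσn : ∀ n : ℤ, σ ≠ n := by
    intro n hn
    have h2 : (0 : ℤ) < n := by
      by_contra h3
      rw [not_lt] at h3
      have h4 : (-1 : ℝ) < n := by rw [← hn]; exact hσ
      have h5 : (-1 : ℤ) < n := by exact_mod_cast h4
      have h6 : n = 0 := by omega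
      apply hσ0
      rw [hn, h6]
      simp
    obtain ⟨m, rfl⟩ := Int.eq_ofNat_of_zero_le h2.le
    have hm : 1 ≤ m := by
      have : (0 : ℤ) < m := h2
      omega
    rw [hn] at hJ
    have h3 : Bn (m + 1) (a * C) = 0 := by
      apply jf_nat m hy0
      simpa using hJ
    exact Pool.Agent.Y245.SG.bourget (m + 1) _ (by omega) hy0 ⟨h1, h3⟩
  have hsum := jf_frac hσn hJ
  refine ⟨hσn, ?_, ?_, hsum⟩
  · rw [hxy] at hsum h1
    exact no_small hx h1 hσn hσ hsum
  · refine ⟨x / a, by positivity, ?_⟩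
    have : (a : ℂ) ≠ 0 := by exact_mod_cast ha.ne'
    push_cast
    rw [← hxy]
    field_simp

/-! ### germs in the root of `exp t` -/

theorem rv_of {G F : ℂ → ℂ} {μ δ : ℝ} {q : ℕ} (hq : 1 ≤ q) (hF : ContinuousAt F 0)
    (hF0 : F 0 ≠ 0) (hG : ∀ t ∈ HP δ, G t = F (exp (t / q)) * exp (μ * t)) :
    RegVar G (-μ) := by
  intro K η hK hη
  have hqr : (0 : ℝ) < q := by exact_mod_cast hq
  obtain ⟨M, hM⟩ : ∃ M : ℝ, M = Real.exp (|μ| * K) := ⟨_, rfl⟩
  have hM0 : 0 < M := by rw [hM]; exact Real.exp_pos _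
  have h1 : Tendsto (fun p : ℂ × ℂ => F p.1 / F p.2) (𝓝 ((0 : ℂ), (0 : ℂ))) (𝓝 (F 0 / F 0)) := by
    have e1 : Tendsto (fun p : ℂ × ℂ => F p.1) (𝓝 ((0 : ℂ), (0 : ℂ))) (𝓝 (F 0)) :=
      hF.tendsto.comp (continuous_fst.tendsto _)
    have e2 : Tendsto (fun p : ℂ × ℂ => F p.2) (𝓝 ((0 : ℂ), (0 : ℂ))) (𝓝 (F 0)) :=
      hF.tendsto.comp (continuous_snd.tendsto _)
    exact e1.div e2 hF0
  rw [div_self hF0] at h1
  obtain ⟨r1, hr1, hr1'⟩ := Metric.tendsto_nhds_nhds.1 h1 (η / M) (by positivity)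
  have h2 : ∀ᶠ x in 𝓝 (0 : ℂ), F x ≠ 0 := hF.eventually_ne hF0
  obtain ⟨r2, hr2, hr2'⟩ := Metric.eventually_nhds_iff.1 h2
  obtain ⟨r, hr⟩ : ∃ r : ℝ, r = min r1 r2 := ⟨_, rfl⟩
  have hr0 : 0 < r := by rw [hr]; exact lt_min hr1 hr2
  refine ⟨min (q * Real.log r - K - 1) (δ - K - 1), fun t v ht _ hv => ?_⟩
  have ht1 : t.re ≤ q * Real.log r - K - 1 := ht.trans (min_le_left _ _)
  have ht2 : t.re ≤ δ - K - 1 := ht.trans (min_le_right _ _)
  have hvre := (abs_le.1 ((Complex.abs_re_le_norm v).trans hv))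
  have hsm : ∀ x : ℂ, x.re ≤ q * Real.log r - 1 → ‖exp (x / q)‖ < r := by
    intro x hx
    rw [Complex.norm_exp]
    have e1 : (x / (q : ℂ)).re = x.re / q := by
      rw [← Complex.ofReal_natCast, Complex.div_ofReal_re]
    rw [e1]
    calc Real.exp (x.re / q) < Real.exp (Real.log r) := by
          apply Real.exp_lt_exp.2
          rw [div_lt_iff₀ hqr]
          linarith
      _ = r := Real.exp_log hr0
  have a1 := hsm t (by linarith)
  have a2 := hsm (t + v) (by rw [Complex.add_re]; linarith)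
  have m1 : t ∈ HP δ := by rw [hp_iff]; linarith
  have m2 : t + v ∈ HP δ := by rw [hp_iff, Complex.add_re]; linarith
  rw [hG t m1, hG _ m2]
  have n1 : F (exp (t / q)) ≠ 0 := hr2' (by
    rw [dist_zero_right]; exact a1.trans_le (by rw [hr]; exact min_le_right _ _))
  have e0 : -(((-μ : ℝ) : ℂ) * v) = μ * v := by push_cast; ring
  rw [e0]
  have e1 : F (exp ((t + v) / q)) * exp (μ * (t + v)) / (F (exp (t / q)) * exp (μ * t)) -
      exp (μ * v) = (F (exp ((t + v) / q)) / F (exp (t / q)) - 1) * exp (μ * v) := by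
    rw [mul_add, Complex.exp_add (μ * t)]
    have := Complex.exp_ne_zero ((μ : ℂ) * t)
    field_simp
  rw [e1, norm_mul]
  have h3 : dist (F (exp ((t + v) / q)) / F (exp (t / q))) 1 < η / M := by
    apply hr1' (x := (exp ((t + v) / q), exp (t / q)))
    rw [Prod.dist_eq, dist_zero_right, dist_zero_right]
    exact max_lt (a2.trans_le (by rw [hr]; exact min_le_left _ _))
      (a1.trans_le (by rw [hr]; exact min_le_left _ _))
  rw [dist_eq_norm] at h3
  have hE : ‖exp (μ * v)‖ ≤ M := by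
    rw [Complex.norm_exp, hM]
    apply Real.exp_le_exp.2
    rw [Complex.re_ofReal_mul]
    calc μ * v.re ≤ |μ * v.re| := le_abs_self _
      _ = |μ| * |v.re| := abs_mul _ _
      _ ≤ |μ| * K := mul_le_mul_of_nonneg_left ((Complex.abs_re_le_norm v).trans hv)
          (abs_nonneg _)
  calc ‖F (exp ((t + v) / q)) / F (exp (t / q)) - 1‖ * ‖exp (μ * v)‖ ≤ η / M * M := by
        gcongr
    _ = η := by field_simp

theorem exp_div_pow (q : ℕ) (hq : 1 ≤ q) (t : ℂ) : exp (t / q) ^ q = exp t := by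
  rw [← Complex.exp_nat_mul]
  congr 1
  have : (q : ℂ) ≠ 0 := by exact_mod_cast (by omega : q ≠ 0)
  field_simp

theorem small_root {q : ℕ} (hq : 1 ≤ q) {P : ℂ → Prop} (h : ∀ᶠ x in 𝓝 (0 : ℂ), P x) :
    ∃ T : ℝ, ∀ t : ℂ, t.re ≤ T → P (exp (t / q)) := by
  obtain ⟨r, hr, hr'⟩ := Metric.eventually_nhds_iff.1 h
  have hqr : (0 : ℝ) < q := by exact_mod_cast hq
  refine ⟨q * Real.log r - 1, fun t ht => hr' ?_⟩
  rw [dist_zero_right, Complex.norm_exp]
  have e1 : (t / (q : ℂ)).re = t.re / q := by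
    rw [← Complex.ofReal_natCast, Complex.div_ofReal_re]
  rw [e1]
  calc Real.exp (t.re / q) < Real.exp (Real.log r) := by
        apply Real.exp_lt_exp.2
        rw [div_lt_iff₀ hqr]
        linarith
    _ = r := Real.exp_log hr

theorem pole_of {G Ψ : ℂ → ℂ} {δ : ℝ} {q : ℕ} (hq : 1 ≤ q) (hΨ : ContinuousAt Ψ 0) (w : ℂ)
    (hG : ∀ t ∈ HP δ, G t = Ψ (exp (t / q)) / exp t) : Pole G w (Ψ 0) := by
  intro K η hK hη
  have h1 : Tendsto (fun x : ℂ => Ψ x - w * x ^ q) (𝓝 0) (𝓝 (Ψ 0 - w * 0 ^ q)) :=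
    hΨ.tendsto.sub ((continuous_const.mul (continuous_pow q)).tendsto 0)
  rw [zero_pow (by omega), mul_zero, sub_zero] at h1
  have h2 : ∀ᶠ x in 𝓝 (0 : ℂ), ‖Ψ x - w * x ^ q - Ψ 0‖ ≤ η := by
    have := Metric.tendsto_nhds.1 h1 η hη
    filter_upwards [this] with x hx
    rw [dist_eq_norm] at hx
    exact hx.le
  obtain ⟨T, hT⟩ := small_root hq h2
  refine ⟨min T (δ - 1), fun t ht _ => ?_⟩
  have h3 := hT t (ht.trans (min_le_left _ _))
  have h4 : t ∈ HP δ := by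
    rw [hp_iff]
    have := ht.trans (min_le_right _ _)
    linarith
  rw [exp_div_pow q hq] at h3
  rw [hG t h4]
  have := Complex.exp_ne_zero t
  have e1 : exp t * (Ψ (exp (t / q)) / exp t - w) - Ψ 0 =
      Ψ (exp (t / q)) - w * exp t - Ψ 0 := by
    field_simp
  rw [e1]
  exact h3

theorem turn_mono {a δ δ' : ℝ} {G : ℂ → ℂ} (h : Turn a δ G) (hδ : δ' ≤ δ) : Turn a δ' G := by
  have hs : HP δ' ⊆ HP δ := fun t ht => lt_of_lt_of_le ht hδ
  exact ⟨h.1.mono hs, fun b t ht => h.2 b t (hs ht)⟩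

/-- classification of the singularities with `q` sheets and a pole of order at most `q` -/
theorem classify (hk : S_KAP) {a δ : ℝ} (ha : 0 < a) {G Ψ : ℂ → ℂ} {q : ℕ} (hq : 1 ≤ q)
    (h : Turn a δ G) (hΨ : AnalyticAt ℂ Ψ 0)
    (hG : ∀ t ∈ HP δ, G t = Ψ (exp (t / q)) / exp t) :
    (∀ t ∈ HP δ, G (t + 2 * Real.pi * I) = G t) ∨
    ∃ (w C : ℂ) (j : ℕ) (F : ℂ → ℂ), C ≠ 0 ∧ 2 * q < j ∧ ¬ q ∣ j ∧ AnalyticAt ℂ F 0 ∧ F 0 ≠ 0 ∧
      (∀ᶠ x in 𝓝 (0 : ℂ), Ψ x = C + w * x ^ q + x ^ j * F x) ∧ Bn 1 (a * C) = 0 ∧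
      (∃ x : ℝ, 0 < x ∧ C = x) ∧
      HasSum (fun m : ℕ => ((a : ℂ) * C) ^ m / ((m.factorial : ℂ) *
        ∏ i ∈ Finset.range m, ((((j : ℝ) / q - 1 : ℝ) : ℂ) - i))) 0 := by
  have hqr : (0 : ℝ) < q := by exact_mod_cast hq
  have hq0 : (q : ℂ) ≠ 0 := by exact_mod_cast (by omega : q ≠ 0)
  have hq0' : (q : ℝ) ≠ 0 := hqr.ne'
  have hpi := Real.pi_pos
  by_cases hA : ∀ t ∈ HP δ, G (t + 2 * Real.pi * I) = G t
  · exact Or.inl hA
  right
  obtain ⟨C, hC⟩ : ∃ C : ℂ, C = Ψ 0 := ⟨_, rfl⟩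
  obtain ⟨ε, hε⟩ : ∃ ε : ℂ, ε = exp (2 * Real.pi * I / q) := ⟨_, rfl⟩
  have hεq : ε ^ q = 1 := by
    rw [hε, exp_div_pow q hq, Complex.exp_two_pi_mul_I]
  have hshift : ∀ t : ℂ, exp ((t + 2 * Real.pi * I) / q) = ε * exp (t / q) := by
    intro t
    rw [hε, ← Complex.exp_add]
    congr 1
    ring
  have hm2 : ∀ t ∈ HP δ, t + 2 * Real.pi * I ∈ HP δ := by
    intro t ht
    rw [hp_iff] at ht ⊢
    simpa using ht
  -- the difference of two sheets
  obtain ⟨Δ, hΔ⟩ : ∃ Δ : ℂ → ℂ, Δ = fun x => Ψ (ε * x) - Ψ x := ⟨_, rfl⟩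
  have hΨε : ∀ e : ℂ, AnalyticAt ℂ (fun x => Ψ (e * x)) 0 := by
    intro e
    have h1 : AnalyticAt ℂ Ψ (e * 0) := by rw [mul_zero]; exact hΨ
    exact AnalyticAt.fun_comp h1 (by fun_prop)
  have hΔa : AnalyticAt ℂ Δ 0 := by rw [hΔ]; exact (hΨε ε).sub hΨ
  have hDG : ∀ t ∈ HP δ, G (t + 2 * Real.pi * I) - G t = Δ (exp (t / q)) / exp t := by
    intro t ht
    rw [hG t ht, hG _ (hm2 t ht), hshift, Complex.exp_add, Complex.exp_two_pi_mul_I, mul_one, hΔ]
    ring
  have hΔ0 : ¬ ∀ᶠ x in 𝓝 (0 : ℂ), Δ x = 0 := by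
    intro h0
    obtain ⟨T, hT⟩ := small_root hq h0
    apply hA
    have hd : DifferentiableOn ℂ (fun t => G (t + 2 * Real.pi * I) - G t) (HP δ) :=
      (turn_shift h).1.sub h.1
    have han := hd.analyticOnNhd (hp_open δ)
    have hmem : ((min T (δ - 1) - 1 : ℝ) : ℂ) ∈ HP δ := by
      rw [hp_iff, ofReal_re]
      have := min_le_right T (δ - 1)
      linarith
    have hz : ∀ᶠ t in 𝓝 ((min T (δ - 1) - 1 : ℝ) : ℂ), G (t + 2 * Real.pi * I) - G t = 0 := by
      have ho : IsOpen {t : ℂ | t.re < min T (δ - 1)} :=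
        isOpen_lt Complex.continuous_re continuous_const
      filter_upwards [ho.mem_nhds (by
        show ((min T (δ - 1) - 1 : ℝ) : ℂ).re < _
        rw [ofReal_re]
        linarith)] with t ht
      have ht' : t.re < min T (δ - 1) := ht
      have h1 : t ∈ HP δ := by
        rw [hp_iff]
        have := min_le_right T (δ - 1)
        linarith
      rw [hDG t h1, hT t (ht'.le.trans (min_le_left _ _)), zero_div]
    have h2 := han.eqOn_zero_of_preconnected_of_eventuallyEq_zero (hp_convex δ).isPreconnected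
      hmem hz
    intro t ht
    exact sub_eq_zero.1 (h2 ht)
  obtain ⟨j, F, hFa, hF0, hFe⟩ := hΔa.exists_eventuallyEq_pow_smul_nonzero_iff.2 hΔ0
  simp only [sub_zero, smul_eq_mul] at hFe
  have hj0 : j ≠ 0 := by
    rintro rfl
    have h1 := hFe.self_of_nhds
    rw [pow_zero, one_mul, hΔ] at h1
    simp only [mul_zero, sub_self] at h1
    exact hF0 h1.symm
  -- the exponent is fractional
  have hjq : ¬ q ∣ j := by
    intro hdvd
    obtain ⟨c, hc⟩ := hdvd
    have hεj : ∀ i : ℕ, (ε ^ i) ^ j = 1 := by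
      intro i
      rw [hc, ← pow_mul, mul_comm i, pow_mul, pow_mul, hεq, one_pow, one_pow]
    have hεn : ‖ε‖ = 1 := by
      have h1 : ‖ε‖ ^ q = 1 := by rw [← norm_pow, hεq, norm_one]
      exact (pow_eq_one_iff_of_nonneg (norm_nonneg _) (by omega)).1 h1
    have hall : ∀ᶠ x in 𝓝 (0 : ℂ), ∀ i ∈ Finset.range q, Δ (ε ^ i * x) = (ε ^ i * x) ^ j *
        F (ε ^ i * x) := by
      rw [Filter.eventually_all_finset]
      intro i _
      have h1 : Tendsto (fun x : ℂ => ε ^ i * x) (𝓝 0) (𝓝 0) := by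
        have := (continuous_const_mul (ε ^ i)).tendsto (0 : ℂ)
        rwa [mul_zero] at this
      exact h1.eventually hFe
    have hsumF : ∀ᶠ x in 𝓝[≠] (0 : ℂ), ∑ i ∈ Finset.range q, F (ε ^ i * x) = 0 := by
      filter_upwards [hall.filter_mono nhdsWithin_le_nhds, self_mem_nhdsWithin] with x hx hx0
      have h1 : ∑ i ∈ Finset.range q, Δ (ε ^ i * x) = 0 := by
        have h2 : ∀ i ∈ Finset.range q, Δ (ε ^ i * x) = Ψ (ε ^ (i + 1) * x) - Ψ (ε ^ i * x) := by
          intro i _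
          rw [hΔ]
          simp only
          rw [pow_succ']
          ring_nf
        rw [Finset.sum_congr rfl h2, Finset.sum_range_sub (fun i => Ψ (ε ^ i * x)) q, hεq,
          pow_zero, sub_self]
      have h3 : ∑ i ∈ Finset.range q, Δ (ε ^ i * x) =
          x ^ j * ∑ i ∈ Finset.range q, F (ε ^ i * x) := by
        rw [Finset.mul_sum]
        refine Finset.sum_congr rfl fun i hi => ?_
        rw [hx i hi, mul_pow, hεj i, one_mul]
      rw [h3] at h1
      rcases mul_eq_zero.1 h1 with h4 | h4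
      · exact absurd h4 (pow_ne_zero _ hx0)
      · exact h4
    have hlim : Tendsto (fun x : ℂ => ∑ i ∈ Finset.range q, F (ε ^ i * x)) (𝓝[≠] (0 : ℂ))
        (𝓝 (∑ i ∈ Finset.range q, F 0)) := by
      refine tendsto_finsetSum _ fun i _ => ?_
      have h1 : Tendsto (fun x : ℂ => ε ^ i * x) (𝓝[≠] 0) (𝓝 0) := by
        have := ((continuous_const_mul (ε ^ i)).tendsto (0 : ℂ)).mono_left
          (nhdsWithin_le_nhds (s := {(0 : ℂ)}ᶜ))
        rwa [mul_zero] at this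
      exact hFa.continuousAt.tendsto.comp h1
    have hlim2 : Tendsto (fun x : ℂ => ∑ i ∈ Finset.range q, F (ε ^ i * x)) (𝓝[≠] (0 : ℂ))
        (𝓝 0) := tendsto_const_nhds.congr' (by filter_upwards [hsumF] with x hx; exact hx.symm)
    have h5 := tendsto_nhds_unique hlim hlim2
    rw [Finset.sum_const, Finset.card_range, nsmul_eq_mul] at h5
    rcases mul_eq_zero.1 h5 with h6 | h6
    · exact hq0 h6
    · exact hF0 h6
  have hfrac : ∀ (i : ℕ), ¬ q ∣ i → ∀ n : ℤ, ((i : ℝ) / q - 1) ≠ n := by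
    intro i hi n hn
    apply hi
    have h1 : (i : ℝ) = q * ((n : ℝ) + 1) := by
      rw [← hn]
      field_simp
      ring
    have h2 : (i : ℤ) = q * (n + 1) := by exact_mod_cast h1
    have h3 : (q : ℤ) ∣ (i : ℤ) := ⟨n + 1, h2⟩
    exact_mod_cast h3
  obtain ⟨T1, hT1⟩ := small_root hq hFe
  obtain ⟨δ1, hδ1⟩ : ∃ δ1 : ℝ, δ1 = min T1 δ := ⟨_, rfl⟩
  have hδ1' : δ1 ≤ δ := by rw [hδ1]; exact min_le_right _ _
  have hsub : HP δ1 ⊆ HP δ := fun t ht => lt_of_lt_of_le ht hδ1'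
  have hexpj : ∀ (i : ℕ) (t : ℂ), exp (t / q) ^ i / exp t =
      exp ((((i : ℝ) / q - 1 : ℝ) : ℂ) * t) := by
    intro i t
    rw [← Complex.exp_nat_mul, ← Complex.exp_sub]
    congr 1
    push_cast
    field_simp
  have hrvD : RegVar (fun t => G (t + 2 * Real.pi * I) - G t) (-((j : ℝ) / q - 1)) := by
    refine rv_of (δ := δ1) hq hFa.continuousAt hF0 fun t ht => ?_
    rw [hDG t (hsub ht), hT1 t (by
      have : t.re < δ1 := ht
      have h2 : δ1 ≤ T1 := by rw [hδ1]; exact min_le_left _ _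
      linarith), ← hexpj j t]
    ring
  have hP : ∀ w : ℂ, Pole G w C := fun w => by
    rw [hC]
    exact pole_of hq hΨ.continuousAt w hG
  have hJ1 : Jf ((j : ℝ) / q - 1) (a * C) = 0 := by
    have h1 := lim_diff hk ha (turn_shift h) h (pole_shift (hP 0)) (hP 0)
      (D := fun t => G (t + 2 * Real.pi * I) - G t) (fun t _ => rfl) hrvD
    unfold Jf
    rw [← h1]
    refine intervalIntegral.integral_congr fun s _ => ?_
    rw [mul_assoc (a : ℂ) C]
  have hC0 : C ≠ 0 := by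
    intro h0
    rw [h0, mul_zero] at hJ1
    have h1 := jf_frac (hfrac j hjq) hJ1
    have h2 : HasSum (fun m : ℕ => (0 : ℂ) ^ m / ((m.factorial : ℂ) *
        ∏ i ∈ Finset.range m, ((((j : ℝ) / q - 1 : ℝ) : ℂ) - i))) 1 := by
      have := hasSum_single (f := fun m : ℕ => (0 : ℂ) ^ m / ((m.factorial : ℂ) *
        ∏ i ∈ Finset.range m, ((((j : ℝ) / q - 1 : ℝ) : ℂ) - i))) 0 (by
          intro m hm
          rw [zero_pow hm, zero_div])
      simpa using this
    exact one_ne_zero (h2.unique h1)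
  have hBn : Bn 1 (a * C) = 0 := bn1_of_turn hk ha h (hP 0) hC0
  -- the first correction
  have hdec : ∃ (w : ℂ) (i : ℕ) (F1 : ℂ → ℂ), 1 ≤ i ∧ i ≠ q ∧ AnalyticAt ℂ F1 0 ∧ F1 0 ≠ 0 ∧
      ∀ᶠ x in 𝓝 (0 : ℂ), Ψ x = C + w * x ^ q + x ^ i * F1 x := by
    have hne : ∀ w : ℂ, ¬ ∀ᶠ x in 𝓝 (0 : ℂ), Ψ x - C - w * x ^ q = 0 := by
      intro w h0
      apply hΔ0
      have h1 : Tendsto (fun x : ℂ => ε * x) (𝓝 0) (𝓝 0) := by
        have := (continuous_const_mul ε).tendsto (0 : ℂ)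
        rwa [mul_zero] at this
      filter_upwards [h0, h1.eventually h0] with x hx hx'
      rw [hΔ]
      rw [mul_pow, hεq, one_mul] at hx'
      linear_combination hx' - hx
    have hfac : ∀ w : ℂ, ∃ (i : ℕ) (F1 : ℂ → ℂ), 1 ≤ i ∧ AnalyticAt ℂ F1 0 ∧ F1 0 ≠ 0 ∧
        ∀ᶠ x in 𝓝 (0 : ℂ), Ψ x - C - w * x ^ q = x ^ i * F1 x := by
      intro w
      have h1 : AnalyticAt ℂ (fun x => Ψ x - C - w * x ^ q) 0 :=
        (hΨ.sub analyticAt_const).sub (by fun_prop)
      obtain ⟨i, F1, h2, h3, h4⟩ := h1.exists_eventuallyEq_pow_smul_nonzero_iff.2 (hne w)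
      simp only [sub_zero, smul_eq_mul] at h4
      refine ⟨i, F1, ?_, h2, h3, h4⟩
      by_contra h5
      have h6 : i = 0 := by omega
      have h7 := h4.self_of_nhds
      rw [h6, pow_zero, one_mul, ← hC, sub_self, zero_pow (by omega), mul_zero, sub_zero] at h7
      exact h3 h7.symm
    obtain ⟨i, F1, h1, h2, h3, h4⟩ := hfac 0
    by_cases hi : i = q
    · obtain ⟨i', F1', h1', h2', h3', h4'⟩ := hfac (F1 0)
      refine ⟨F1 0, i', F1', h1', ?_, h2', h3', ?_⟩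
      · rintro rfl
        subst hi
        have h5 : ∀ᶠ x in 𝓝[≠] (0 : ℂ), F1 x - F1 0 = F1' x := by
          filter_upwards [h4.filter_mono nhdsWithin_le_nhds, h4'.filter_mono nhdsWithin_le_nhds,
            self_mem_nhdsWithin] with x hx hx' hx0
          have h6 : x ^ i ≠ 0 := pow_ne_zero _ hx0
          apply mul_left_cancel₀ h6
          linear_combination hx' - hx
        have h6 : Tendsto (fun x => F1 x - F1 0) (𝓝[≠] (0 : ℂ)) (𝓝 (F1 0 - F1 0)) :=
          ((h2.continuousAt.tendsto).mono_left nhdsWithin_le_nhds).sub_const _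
        have h7 : Tendsto F1' (𝓝[≠] (0 : ℂ)) (𝓝 (F1' 0)) :=
          (h2'.continuousAt.tendsto).mono_left nhdsWithin_le_nhds
        have h8 := tendsto_nhds_unique (h6.congr' h5) h7
        rw [sub_self] at h8
        exact h3' h8.symm
      · filter_upwards [h4'] with x hx
        linear_combination hx
    · refine ⟨0, i, F1, h1, hi, h2, h3, ?_⟩
      filter_upwards [h4] with x hx
      linear_combination hx
  obtain ⟨w, i, F1, hi1, hiq, hF1a, hF10, hF1e⟩ := hdec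
  obtain ⟨T2, hT2⟩ := small_root hq hF1e
  obtain ⟨δ2, hδ2⟩ : ∃ δ2 : ℝ, δ2 = min T2 δ := ⟨_, rfl⟩
  have hδ2' : δ2 ≤ δ := by rw [hδ2]; exact min_le_right _ _
  have hsub2 : HP δ2 ⊆ HP δ := fun t ht => lt_of_lt_of_le ht hδ2'
  have hir : (1 : ℝ) ≤ i := by exact_mod_cast hi1
  have hσ1 : (-1 : ℝ) < (i : ℝ) / q - 1 := by
    have : 0 < (i : ℝ) / q := by positivity
    linarith
  have hσ0 : (i : ℝ) / q - 1 ≠ 0 := by
    intro h0
    apply hiq
    have h1 : (i : ℝ) = q := by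
      field_simp at h0
      linarith
    exact_mod_cast h1
  have hJ2 : Jf ((i : ℝ) / q - 1) (a * C) = 0 := by
    refine first_exp hk ha hσ1 (turn_mono h hδ2') (hP w)
      (d := fun t => exp (t / q) ^ i * F1 (exp (t / q)) / exp t) ?_ ?_
    · intro t ht
      rw [hG t (hsub2 ht), hT2 t (by
        have : t.re < δ2 := ht
        have h2 : δ2 ≤ T2 := by rw [hδ2]; exact min_le_left _ _
        linarith), exp_div_pow q hq, Complex.exp_neg]
      have := Complex.exp_ne_zero t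
      field_simp
      ring
    · refine rv_of (δ := δ2) hq hF1a.continuousAt hF10 fun t _ => ?_
      rw [← hexpj i t]
      ring
  obtain ⟨hc1, hc2, hc3, hc4⟩ := first_exp_concl ha hσ1 hσ0 hC0 hBn hJ2
  refine ⟨w, C, i, F1, hC0, ?_, ?_, hF1a, hF10, hF1e, hBn, hc3, hc4⟩
  · have h1 : 2 * (q : ℝ) < i := by
      have h2 : 2 < (i : ℝ) / q := by linarith
      rwa [lt_div_iff₀ hqr] at h2
    exact_mod_cast h1
  · rintro ⟨c, hc⟩
    apply hc1 ((c : ℤ) - 1)
    rw [hc]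
    push_cast
    field_simp

/-- poles of order more than `q` are impossible -/
theorem no_high (hk : S_KAP) (hSeg : S_SEG) {a δ : ℝ} (ha : 0 < a) {G F : ℂ → ℂ} {q m : ℕ}
    (hq : 1 ≤ q) (hm : q < m) (h : Turn a δ G) (hF : ContinuousAt F 0) (hF0 : F 0 ≠ 0)
    (hG : ∀ t ∈ HP δ, G t = F (exp (t / q)) / exp (t / q) ^ m) : False := by
  have hqr : (0 : ℝ) < q := by exact_mod_cast hq
  have hq0 : (q : ℂ) ≠ 0 := by exact_mod_cast (by omega : q ≠ 0)
  have h1 : RegVar G (-(-((m : ℝ) / q))) := by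
    refine rv_of (δ := δ) hq hF hF0 fun t ht => ?_
    rw [hG t ht, div_eq_mul_inv, ← Complex.exp_nat_mul, ← Complex.exp_neg]
    congr 2
    push_cast
    field_simp
  rw [neg_neg] at h1
  refine no_pow hk hSeg ha ?_ h.1 h1 h.2
  rw [lt_div_iff₀ hqr, one_mul]
  exact_mod_cast hm

end Run7.h367.SF
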